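import Pool.Agent.W5h72.BR.Gauss

/-!
# First properties of simple metrics
-/

open Set Metric Filter Topology
open scoped ContDiff RealInnerProductSpace

noncomputable section

namespace Pool.Agent.W5h72.BR

variable {E : Type*} [NormedAddCommGroup E] [InnerProductSpace ℝ E]


variable {g : E → E →L[ℝ] E →L[ℝ] ℝ} {e L : E → E → E}

lemma zero_mem01 : (0 : ℝ) ∈ Icc (0 : ℝ) 1 := ⟨le_rfl, zero_le_one⟩
lemma one_mem01 : (1 : ℝ) ∈ Icc (0 : ℝ) 1 := ⟨zero_le_one, le_rfl⟩

namespace Simple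

lemma e_smooth_right (h : Simple g e L) (x : E) : ContDiff ℝ ∞ (e x) :=
  h.e_smooth.comp (contDiff_const.prodMk contDiff_id)

lemma L_smooth_right (h : Simple g e L) (x : E) : ContDiff ℝ ∞ (L x) :=
  h.L_smooth.comp (contDiff_const.prodMk contDiff_id)

/-- the geodesic from `x` to `y` -/
lemma exists_geod (h : Simple g e L) {x y : E} (hx : x ∈ closedBall (0 : E) 1)
    (hy : y ∈ closedBall (0 : E) 1) :
    ∃ γ u, IsGeod g γ u ∧ γ 0 = x ∧ u 0 = L x y ∧ γ 1 = y := h.bwd x hx y hy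

lemma geod_eq (h : Simple g e L) {γ u : ℝ → E} (hγ : IsGeod g γ u) {t : ℝ}
    (ht : t ∈ Icc (0 : ℝ) 1) : γ t = e (γ 0) (t • u 0) := by
  have := (h.fwd _ (hγ.mem 0 zero_mem01) _ _ (hγ.isExp zero_mem01 ht)).1
  rw [sub_zero] at this
  exact this.symm

lemma L_geod (h : Simple g e L) {γ u : ℝ → E} (hγ : IsGeod g γ u) {s t : ℝ}
    (hs : s ∈ Icc (0 : ℝ) 1) (ht : t ∈ Icc (0 : ℝ) 1) : L (γ s) (γ t) = (t - s) • u s :=
  (h.fwd _ (hγ.mem s hs) _ _ (hγ.isExp hs ht)).2

lemma e_L (h : Simple g e L) {x y : E} (hx : x ∈ closedBall (0 : E) 1)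
    (hy : y ∈ closedBall (0 : E) 1) : e x (L x y) = y :=
  (h.fwd x hx _ _ (h.bwd x hx y hy)).1

lemma L_self (h : Simple g e L) {x : E} (hx : x ∈ closedBall (0 : E) 1) : L x x = 0 := by
  obtain ⟨γ, u, hγ, h0, -, -⟩ := h.exists_geod hx hx
  have := h.L_geod hγ zero_mem01 zero_mem01
  rwa [sub_zero, zero_smul, h0] at this

lemma e_zero (h : Simple g e L) {x : E} (hx : x ∈ closedBall (0 : E) 1) : e x 0 = x := by
  have := h.e_L hx hx
  rwa [h.L_self hx] at this

lemma L_eq_zero (h : Simple g e L) {x y : E} (hx : x ∈ closedBall (0 : E) 1)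
    (hy : y ∈ closedBall (0 : E) 1) : L x y = 0 ↔ x = y := by
  constructor
  · intro h0
    have := h.e_L hx hy
    rw [h0, h.e_zero hx] at this
    exact this
  · rintro rfl; exact h.L_self hx

/-- points of the geodesic from `x` to `y` -/
lemma pt_mem (h : Simple g e L) {x y : E} (hx : x ∈ closedBall (0 : E) 1)
    (hy : y ∈ closedBall (0 : E) 1) {t : ℝ} (ht : t ∈ Icc (0 : ℝ) 1) :
    e x (t • L x y) ∈ closedBall (0 : E) 1 := by
  obtain ⟨γ, u, hγ, h0, hu, -⟩ := h.exists_geod hx hy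
  have := h.geod_eq hγ ht
  rw [h0, hu] at this
  rw [← this]; exact hγ.mem t ht

lemma L_pt (h : Simple g e L) {x y : E} (hx : x ∈ closedBall (0 : E) 1)
    (hy : y ∈ closedBall (0 : E) 1) {t : ℝ} (ht : t ∈ Icc (0 : ℝ) 1) :
    L x (e x (t • L x y)) = t • L x y := by
  obtain ⟨γ, u, hγ, h0, hu, -⟩ := h.exists_geod hx hy
  have h1 := h.geod_eq hγ ht
  have h2 := h.L_geod hγ zero_mem01 ht
  rw [h0, hu] at h1
  rw [h0, hu, h1, sub_zero] at h2
  exact h2

/-- the velocity of the geodesic from `x` to `y` at `y` is `- L y x` -/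
lemma L_rev_pt (h : Simple g e L) {x y : E} (hx : x ∈ closedBall (0 : E) 1)
    (hy : y ∈ closedBall (0 : E) 1) {t : ℝ} (ht : t ∈ Icc (0 : ℝ) 1) :
    L y (e x (t • L x y)) = (1 - t) • L y x := by
  obtain ⟨γ, u, hγ, h0, hu, h1⟩ := h.exists_geod hx hy
  have e1 := h.geod_eq hγ ht
  have e2 := h.L_geod hγ one_mem01 ht
  have e3 := h.L_geod hγ one_mem01 zero_mem01
  rw [h0, hu] at e1
  rw [h1, e1] at e2
  rw [h1, h0, zero_sub, neg_one_smul] at e3
  rw [e2, e3, smul_neg, ← neg_smul, neg_sub]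

lemma vel_eq (h : Simple g e L) {γ u : ℝ → E} (hγ : IsGeod g γ u) {t : ℝ}
    (ht : t ∈ Icc (0 : ℝ) 1) : u t = fderiv ℝ (e (γ 0)) (t • u 0) (u 0) := by
  have h1 := hγ.vel t ht
  have h2 : HasDerivWithinAt (fun t : ℝ => e (γ 0) (t • u 0))
      (fderiv ℝ (e (γ 0)) (t • u 0) (u 0)) (Icc 0 1) t := by
    have hl : HasDerivAt (fun t : ℝ => t • u 0) (u 0) t := by
      simpa using (hasDerivAt_id t).smul_const (u 0)
    have hfd : HasFDerivAt (e (γ 0)) (fderiv ℝ (e (γ 0)) (t • u 0)) (t • u 0) :=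
      ((h.e_smooth_right _).differentiable (by simp) _).hasFDerivAt
    exact (HasFDerivAt.comp_hasDerivAt (f := fun t : ℝ => t • u 0) (l := e (γ 0)) t hfd
      hl).hasDerivWithinAt
  have h3 : HasDerivWithinAt γ (fderiv ℝ (e (γ 0)) (t • u 0) (u 0)) (Icc 0 1) t :=
    h2.congr (fun s hs => h.geod_eq hγ hs) (h.geod_eq hγ ht)
  exact (uniqueDiffOn_Icc zero_lt_one t ht).eq_deriv _ h1 h3

lemma acc_eq (h : Simple g e L) {γ u : ℝ → E} (hγ : IsGeod g γ u) {t : ℝ}
    (ht : t ∈ Icc (0 : ℝ) 1) :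
    IsAcc g (γ t) (u t) (fderiv ℝ (fderiv ℝ (e (γ 0))) (t • u 0) (u 0) (u 0)) := by
  obtain ⟨a, ha, hacc⟩ := hγ.acc t ht
  have h2 : HasDerivWithinAt (fun t : ℝ => fderiv ℝ (e (γ 0)) (t • u 0) (u 0))
      (fderiv ℝ (fderiv ℝ (e (γ 0))) (t • u 0) (u 0) (u 0)) (Icc 0 1) t := by
    have hl : HasDerivAt (fun t : ℝ => t • u 0) (u 0) t := by
      simpa using (hasDerivAt_id t).smul_const (u 0)
    have hf1 : ContDiff ℝ ∞ (fderiv ℝ (e (γ 0))) := (h.e_smooth_right _).fderiv_right (by simp)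
    have hfd : HasFDerivAt (fderiv ℝ (e (γ 0))) (fderiv ℝ (fderiv ℝ (e (γ 0))) (t • u 0))
        (t • u 0) := (hf1.differentiable (by simp) _).hasFDerivAt
    have h3 : HasDerivAt (fun t : ℝ => fderiv ℝ (e (γ 0)) (t • u 0))
        (fderiv ℝ (fderiv ℝ (e (γ 0))) (t • u 0) (u 0)) t :=
      HasFDerivAt.comp_hasDerivAt (f := fun t : ℝ => t • u 0) (l := fderiv ℝ (e (γ 0))) t hfd hl
    simpa using (h3.clm_apply (hasDerivAt_const t (u 0))).hasDerivWithinAt
  have h3 : HasDerivWithinAt u (fderiv ℝ (fderiv ℝ (e (γ 0))) (t • u 0) (u 0) (u 0)) (Icc 0 1) t :=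
    h2.congr (fun s hs => h.vel_eq hγ hs) (h.vel_eq hγ ht)
  have := (uniqueDiffOn_Icc zero_lt_one t ht).eq_deriv _ ha h3
  rwa [this] at hacc

/-- the energy form: `g(L x y, L x y)` is the square of the distance -/
lemma energy_symm (h : Simple g e L) {x y : E} (hx : x ∈ closedBall (0 : E) 1)
    (hy : y ∈ closedBall (0 : E) 1) : g x (L x y) (L x y) = g y (L y x) (L y x) := by
  obtain ⟨γ, u, hγ, h0, hu, h1⟩ := h.exists_geod hx hy
  have e1 := hγ.energy h.smooth h.symm one_mem01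
  have e3 := h.L_geod hγ one_mem01 zero_mem01
  rw [h1, h0, zero_sub, neg_one_smul] at e3
  rw [h0, h1, hu] at e1
  rw [e3]
  simp only [map_neg, neg_apply, neg_neg]
  exact e1.symm

/-- the Gauss lemma in the direction `w`, inward case -/
lemma gauss_inward (h : Simple g e L) {x y w : E} (hx : x ∈ closedBall (0 : E) 1)
    (hy : y ∈ closedBall (0 : E) 1) {ε : ℝ} (hε : 0 < ε)
    (hw : ∀ s ∈ Icc (0 : ℝ) ε, y + s • w ∈ closedBall (0 : E) 1) :
    - g y (L y x) w = g x (L x y) (fderiv ℝ (L x) y w) := by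
  obtain ⟨γ, u, hγ, h0, hu, h1⟩ := h.exists_geod hx hy
  have e3 := h.L_geod hγ one_mem01 zero_mem01
  rw [h1, h0, zero_sub, neg_one_smul] at e3
  -- the family of geodesics
  have hLd : HasFDerivAt (L x) (fderiv ℝ (L x) y) y :=
    ((h.L_smooth_right x).differentiable (by simp) y).hasFDerivAt
  have hc : HasDerivAt (fun s : ℝ => y + s • w) w 0 := by
    simpa using ((hasDerivAt_id (0 : ℝ)).smul_const w).const_add y
  have hv : HasDerivAt (fun s : ℝ => L x (y + s • w)) (fderiv ℝ (L x) y w) 0 := by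
    have := HasFDerivAt.comp_hasDerivAt_of_eq (f := fun s : ℝ => y + s • w) (l := L x) (0 : ℝ)
      hLd hc (by simp)
    exact this
  have hfam : ∀ s ∈ Icc (0 : ℝ) ε, ∀ t ∈ Icc (0 : ℝ) 1,
      g (e x (t • L x (y + s • w)))
        (fderiv ℝ (e x) (t • L x (y + s • w)) (L x (y + s • w)))
        (fderiv ℝ (e x) (t • L x (y + s • w)) (L x (y + s • w))) =
      g x (L x (y + s • w)) (L x (y + s • w)) := by
    intro s hs t ht
    obtain ⟨γ', u', hγ', h0', hu', -⟩ := h.exists_geod hx (hw s hs)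
    have q1 := h.geod_eq hγ' ht
    have q2 := h.vel_eq hγ' ht
    have q3 := hγ'.energy h.smooth h.symm ht
    rw [h0', hu'] at q1 q2
    rw [q1, q2, h0', hu'] at q3
    exact q3
  have key := gauss_core (g := g) h.smooth h.symm (f := e x) (h.e_smooth_right x) (g x)
    (h.symm x hx) (v := fun s => L x (y + s • w)) (v0 := L x y) (v1 := fderiv ℝ (L x) y w)
    (by simp) hv (fun t ht => h.pt_mem hx hy ht)
    (fun t ht => by
      have q1 := h.geod_eq hγ ht
      have q2 := h.vel_eq hγ ht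
      have q3 := h.acc_eq hγ ht
      rw [h0, hu] at q1 q2
      rw [q1, q2, h0, hu] at q3
      exact q3) hε (fun t ht s hs => hfam s hs t ht)
  have e4 : fderiv ℝ (e x) (L x y) (L x y) = - L y x := by
    have := h.vel_eq hγ one_mem01
    rw [h0, hu, one_smul] at this
    rw [← this, e3, neg_neg]
  have e5 : fderiv ℝ (e x) (L x y) (fderiv ℝ (L x) y w) = w := by
    have hed : HasFDerivAt (e x) (fderiv ℝ (e x) (L x y)) (L x y) :=
      ((h.e_smooth_right x).differentiable (by simp) _).hasFDerivAt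
    have h5 : HasDerivAt (fun s : ℝ => e x (L x (y + s • w)))
        (fderiv ℝ (e x) (L x y) (fderiv ℝ (L x) y w)) 0 :=
      HasFDerivAt.comp_hasDerivAt_of_eq (f := fun s : ℝ => L x (y + s • w)) (l := e x) (0 : ℝ)
        hed hv (by simp)
    have h6 := deriv_eq_zero_of_right (h5.sub hc) hε (fun s hs => by
      simp only [Pi.sub_apply]
      rw [h.e_L hx (hw s hs), sub_self])
    exact sub_eq_zero.1 h6
  rw [e4, e5, h.e_L hx hy] at key
  rw [← key]
  simp

lemma exists_inward {y : E} (hy : y ∈ closedBall (0 : E) 1) {w : E}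
    (hw : ‖y‖ < 1 ∨ inner ℝ y w < 0) :
    ∃ ε : ℝ, 0 < ε ∧ ∀ s ∈ Icc (0 : ℝ) ε, y + s • w ∈ closedBall (0 : E) 1 := by
  have key : ∀ s : ℝ, ‖y + s • w‖ ^ 2 = ‖y‖ ^ 2 + 2 * s * inner ℝ y w + s ^ 2 * ‖w‖ ^ 2 := by
    intro s
    rw [norm_add_sq_real, inner_smul_right, norm_smul, mul_pow, Real.norm_eq_abs, sq_abs]
    ring
  have hy1 : ‖y‖ ≤ 1 := by simpa using hy
  rcases hw with hw | hw
  · have hc : Continuous fun s : ℝ => ‖y + s • w‖ := by fun_prop
    have : ∀ᶠ s in 𝓝 (0 : ℝ), ‖y + s • w‖ < 1 := by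
      apply hc.continuousAt.eventually_lt_const
      simpa using hw
    obtain ⟨ε, hε, h⟩ := Metric.eventually_nhds_iff.1 this
    refine ⟨ε / 2, by positivity, fun s hs => ?_⟩
    rw [mem_closedBall_zero_iff]
    refine (h ?_).le
    rw [Real.dist_eq, sub_zero, abs_of_nonneg hs.1]
    linarith [hs.2]
  · refine ⟨-(2 * inner ℝ y w) / (‖w‖ ^ 2 + 1), by
      apply div_pos (by linarith) (by positivity), fun s hs => ?_⟩
    rw [mem_closedBall_zero_iff]
    have h1 : s * (‖w‖ ^ 2 + 1) ≤ -(2 * inner ℝ y w) := (le_div_iff₀ (by positivity)).1 hs.2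
    have h2 : ‖y + s • w‖ ^ 2 ≤ 1 := by
      rw [key]
      nlinarith [hs.1, mul_nonneg hs.1 hs.1, norm_nonneg y, norm_nonneg w,
        mul_le_mul_of_nonneg_left h1 hs.1]
    nlinarith [norm_nonneg (y + s • w)]

/-- **Gauss lemma / first variation**: the derivative of `g_x(L x y, L x y) / 2` in `y`. -/
lemma gauss (h : Simple g e L) {x y : E} (hx : x ∈ closedBall (0 : E) 1)
    (hy : y ∈ closedBall (0 : E) 1) (w : E) :
    g x (L x y) (fderiv ℝ (L x) y w) = - g y (L y x) w := by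
  by_cases hy1 : ‖y‖ < 1
  · obtain ⟨ε, hε, hw⟩ := exists_inward hy (w := w) (Or.inl hy1)
    exact (h.gauss_inward hx hy hε hw).symm
  · have hy2 : ‖y‖ = 1 := le_antisymm (by simpa using hy) (not_lt.1 hy1)
    -- `w = (w - k y) + k y`
    set k : ℝ := |inner ℝ y w| + 1 with hk
    have h1 : inner ℝ y (w - k • y) < 0 := by
      rw [inner_sub_right, inner_smul_right, real_inner_self_eq_norm_sq, hy2]
      have := le_abs_self (inner ℝ y w)
      simp only [one_pow, mul_one]; linarith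
    have h2 : inner ℝ y (-(k • y)) < 0 := by
      rw [inner_neg_right, inner_smul_right, real_inner_self_eq_norm_sq, hy2]
      have := abs_nonneg (inner ℝ y w)
      simp only [one_pow, mul_one]; linarith
    obtain ⟨ε, hε, hw⟩ := exists_inward hy (Or.inr h1)
    obtain ⟨ε', hε', hw'⟩ := exists_inward hy (Or.inr h2)
    have e1 := h.gauss_inward hx hy hε hw
    have e2 := h.gauss_inward hx hy hε' hw'
    simp only [map_sub, map_neg, map_smul, smul_eq_mul] at e1 e2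
    linarith

end Simple

end Pool.Agent.W5h72.BR
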