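import Pool.Agent.W5h72.BR.Ext

/-!
# The crossing point depends only on the angle
-/

open Set Metric Filter Topology
open scoped ContDiff RealInnerProductSpace

noncomputable section

set_option maxSynthPendingDepth 3

namespace Pool.Agent.W5h72.BR

variable {E : Type*} [NormedAddCommGroup E] [InnerProductSpace ℝ E]

/-- two simple metrics with the same boundary distances such that the geodesics which meet a
geodesic of the source `b` for `g` do so for `g'` -/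
structure Src (g g' : E → E →L[ℝ] E →L[ℝ] ℝ) (e L e' L' : E → E → E) (b : E)
    (A A' : E →L[ℝ] E) : Prop where
  h : Simple g e L
  h' : Simple g' e' L'
  hb : b ∈ sphere (0 : E) 1
  hd : ∀ p ∈ sphere (0 : E) 1, ∀ q ∈ sphere (0 : E) 1, rho g L p q = rho g' L' p q
  hI : ∀ x : E, ‖x‖ < 1 → MeetAt g g' x b
  hAA : ∀ u, A' (A u) = u
  hAA' : ∀ u, A (A' u) = u
  hAL : ∀ q ∈ sphere (0 : E) 1, A (L b q) = L' b q

/-- points of the `g'`-geodesic from `b` which corresponds to the `g`-geodesic through `x` -/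
def Pt (e' L : E → E → E) (b : E) (A : E →L[ℝ] E) (x : E) (τ : ℝ) : E := e' b (τ • A (L b x))

/-- the parameter of the crossing point -/
def rt (g g' : E → E →L[ℝ] E →L[ℝ] ℝ) (L L' : E → E → E) (b : E) (u : E × E) : ℝ :=
  rho g' L' b (cross g g' u.1 b (proj u.2)) / rho g L b u.1

/-- the crossing point as a function of two points -/
def Yf (g g' : E → E →L[ℝ] E →L[ℝ] ℝ) (L e' L' : E → E → E) (b : E) (A : E →L[ℝ] E)
    (u : E × E) : E := Pt e' L b A u.1 (rt g g' L L' b u)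

namespace Src

variable {g g' : E → E →L[ℝ] E →L[ℝ] ℝ} {e L e' L' : E → E → E} {b : E} {A A' : E →L[ℝ] E}
variable [FiniteDimensional ℝ E]

lemma eq_Pt (S : Src g g' e L e' L' b A A') {x y : E} (hx : ‖x‖ < 1) (hG : Gam g g' x b y) :
    0 ≤ rho g' L' b y / rho g L b x ∧ y = Pt e' L b A x (rho g' L' b y / rho g L b x) ∧
      (rho g' L' b y / rho g L b x) • A (L b x) = L' b y := by
  have hbM := mem_of_sphere S.hb
  obtain ⟨q, hq, t, ht, hx1, hx2⟩ := S.h.exit_seg hbM hx (ne_of_sphere hx S.hb).symm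
  have hqM := mem_of_sphere hq
  obtain ⟨-, q2, hq2, hxq2, hy⟩ := hG
  have hxq : x ∈ seg g b q := (S.h.mem_seg hbM hqM).2 ⟨t, Ioo_subset_Icc_self ht, hx1⟩
  obtain rfl := S.h.exit_uniq S.hb hq hq2 (ne_of_sphere hx S.hb) hxq hxq2
  have hbq : b ≠ q := by
    rintro rfl
    rw [S.h.L_self hbM, smul_zero, S.h.e_zero hbM] at hx1
    exact ne_of_sphere hx hq hx1
  obtain ⟨s, hs, hys⟩ := (S.h'.mem_seg hbM hqM).1 hy
  have hr1 : rho g L b x = t * rho g L b q := by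
    rw [hx1, S.h.rho_pt hbM hqM (Ioo_subset_Icc_self ht)]
  have hr2 : rho g' L' b y = s * rho g' L' b q := by rw [hys, S.h'.rho_pt hbM hqM hs]
  have hr0 := S.h.rho_pos hbM hqM hbq
  have e1 : rho g' L' b y / rho g L b x = s / t := by
    rw [hr1, hr2, ← S.hd b S.hb q hq]
    field_simp
  have e2 : (s / t) • A (L b x) = s • L' b q := by
    rw [hx2, map_smul, S.hAL q hq, smul_smul, div_mul_cancel₀ _ ht.1.ne']
  rw [e1, Pt, e2]
  refine ⟨div_nonneg hs.1 ht.1.le, hys, ?_⟩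
  rw [hys, S.h'.L_pt hbM hqM hs]

lemma gam (S : Src g g' e L e' L' b A A') {x z : E} (hx : ‖x‖ < 1) (hz : z ≠ 0) :
    Gam g g' x (proj z) (Yf g g' L e' L' b A (x, z)) ∧
      Gam g g' x b (Yf g g' L e' L' b A (x, z)) ∧
      Yf g g' L e' L' b A (x, z) = cross g g' x b (proj z) := by
  obtain ⟨h1, h2⟩ := (S.hI x hx).spec (proj_mem hz)
  have h3 := (S.eq_Pt hx h2).2.1
  have h4 : Yf g g' L e' L' b A (x, z) = cross g g' x b (proj z) := h3.symm
  rw [h4]
  exact ⟨h1, h2, rfl⟩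

/-- everything about a crossing point -/
lemma point (S : Src g g' e L e' L' b A A') {x w : E} (hx : ‖x‖ < 1) (hw : w ∈ Dom g x b) :
    ‖Yf g g' L e' L' b A (x, w)‖ < 1 ∧ 0 < rt g g' L L' b (x, w) ∧
      rt g g' L L' b (x, w) • A (L b x) = L' b (Yf g g' L e' L' b A (x, w)) ∧
      rho g' L' b (Yf g g' L e' L' b A (x, w)) = rt g g' L L' b (x, w) * rho g L b x ∧
      w ∈ Dom g' (Yf g g' L e' L' b A (x, w)) b := by
  have hww := proj_of_mem hw.1
  have hw0 := ne_zero_of_mem_sphere' hw.1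
  have hbM := mem_of_sphere S.hb
  obtain ⟨h1, h2, h3⟩ := S.gam hx hw0
  rw [hww] at h1 h3
  set Y := Yf g g' L e' L' b A (x, w) with hY
  have hYb : ‖Y‖ < 1 := S.h.cross_interior S.h' hx h1 h2 hw
  have hr : rt g g' L L' b (x, w) = rho g' L' b Y / rho g L b x := by
    rw [rt]
    simp only [hww]
    rw [h3]
  have hbY : b ≠ Y := (ne_of_sphere hYb S.hb).symm
  have hbx : b ≠ x := (ne_of_sphere hx S.hb).symm
  have hrx := S.h.rho_pos hbM (mem_of_norm_lt hx) hbx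
  refine ⟨hYb, ?_, ?_, ?_, hw.1, hw.2.1, fun hs => ?_⟩
  · rw [hr]
    exact div_pos (S.h'.rho_pos hbM (mem_of_norm_lt hYb) hbY) hrx
  · rw [hr]
    exact (S.eq_Pt hx h2).2.2
  · rw [hr, div_mul_cancel₀ _ hrx.ne']
  · obtain ⟨-, q, hq, hxq, hyq⟩ := h2
    rw [seg_symm] at hs
    obtain rfl := S.h'.exit_uniq S.hb hq hw.1 hbY.symm hyq hs
    exact hw.2.2 (by rw [seg_symm]; exact hxq)

/-- the velocity of the curve `Pt` -/
lemma Pt_vel (S : Src g g' e L e' L' b A A') {x w : E} (hx : ‖x‖ < 1) (hw : w ∈ Dom g x b) :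
    fderiv ℝ (e' b) (L' b (Yf g g' L e' L' b A (x, w))) (A (L b x)) =
      -((rt g g' L L' b (x, w))⁻¹ • L' (Yf g g' L e' L' b A (x, w)) b) := by
  obtain ⟨hYb, hr, h1, -, -⟩ := S.point hx hw
  have h2 := S.h'.De_L (mem_of_sphere S.hb) (mem_of_norm_lt hYb)
  have h3 : A (L b x) = (rt g g' L L' b (x, w))⁻¹ • L' b (Yf g g' L e' L' b A (x, w)) := by
    rw [← h1, smul_smul, inv_mul_cancel₀ hr.ne', one_smul]
  rw [h3, map_smul, h2, smul_neg]

/-- the velocity of the crossing curve is not parallel to the geodesic to `w` -/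
lemma exists_ne (S : Src g g' e L e' L' b A A') {x w : E} (hx : ‖x‖ < 1) (hw : w ∈ Dom g x b) :
    ∃ ζ, fderiv ℝ (fderiv ℝ (RR g' L')) (Yf g g' L e' L' b A (x, w), w)
      (fderiv ℝ (e' b) (L' b (Yf g g' L e' L' b A (x, w))) (A (L b x)), 0) (0, ζ) ≠ 0 := by
  obtain ⟨hYb, hr, -, -, hD⟩ := S.point hx hw
  by_contra hcon
  push Not at hcon
  obtain ⟨c, hc⟩ := S.h'.mixed_kernel hYb hw.1 hcon
  rw [S.Pt_vel hx hw] at hc
  set Y := Yf g g' L e' L' b A (x, w) with hY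
  set r := rt g g' L L' b (x, w) with hrdef
  by_cases hc0 : c = 0
  · rw [hc0, zero_smul, neg_eq_zero] at hc
    rcases smul_eq_zero.1 hc with h1 | h1
    · exact inv_ne_zero hr.ne' h1
    · exact ne_of_sphere hYb S.hb
        ((S.h'.L_eq_zero (mem_of_norm_lt hYb) (mem_of_sphere S.hb)).1 h1)
  · apply S.h'.not_par hYb S.hb hD (-(c⁻¹ * r⁻¹))
    rw [neg_smul, ← smul_smul, ← smul_neg, hc, smul_smul, inv_mul_cancel₀ hc0, one_smul]

/-- the parameter of the crossing point is a smooth function -/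
lemma rt_smooth (S : Src g g' e L e' L' b A A') {x w : E} (hx : ‖x‖ < 1) (hw : w ∈ Dom g x b) :
    ContDiffAt ℝ ∞ (rt g g' L L' b) (x, w) := by
  obtain ⟨hYb, hr, hrA, -, -⟩ := S.point hx hw
  obtain ⟨ζ, hζ⟩ := S.exists_ne hx hw
  have hww := proj_of_mem hw.1
  have hw0 := ne_zero_of_mem_sphere' hw.1
  have hbM := mem_of_sphere S.hb
  have hbx : b ≠ x := (ne_of_sphere hx S.hb).symm
  have hrx := S.h.rho_pos hbM (mem_of_norm_lt hx) hbx
  -- continuity
  have hYeq := (S.gam hx hw0).2.2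
  rw [hww] at hYeq
  have hcc := S.h.cross_contAt S.h' hx S.hI hw
  have hcont : ContinuousAt (rt g g' L L' b) (x, w) := by
    refine ContinuousAt.div ?_ ?_ hrx.ne'
    · exact ContinuousAt.comp (f := fun u : E × E => cross g g' u.1 b (proj u.2)) (x := (x, w))
        (S.h'.continuous_rho b).continuousAt hcc
    · exact ((S.h.continuous_rho b).comp continuous_fst).continuousAt
  set Y := Yf g g' L e' L' b A (x, w) with hY
  set ρ0 := rt g g' L L' b (x, w) with hρ0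
  set Θ : ℝ × (E × E) → ℝ × (E × E) := fun v =>
    (dd (RR g' L') (0, ζ) (Pt e' L b A v.2.1 v.1, v.2.2) - dd (RR g L) (0, ζ) v.2, v.2) with hΘ
  have hPt0 : Pt e' L b A x ρ0 = Y := rfl
  have hPc : ContDiff ℝ ∞ (fun v : ℝ × (E × E) => Pt e' L b A v.2.1 v.1) := by
    have h1 : ContDiff ℝ ∞ (fun v : ℝ × (E × E) => A (L b v.2.1)) :=
      A.contDiff.comp ((S.h.L_smooth_right b).comp (contDiff_fst.comp contDiff_snd))
    exact (S.h'.e_smooth_right b).comp (contDiff_fst.smul h1)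
  have hR' := contDiffAt_dd (S.h'.contDiffAt_RR hYb hw.1) ((0 : E), ζ)
  have hR := contDiffAt_dd (S.h.contDiffAt_RR hx hw.1) ((0 : E), ζ)
  have hc1 : ContDiffAt ℝ ∞ (fun v : ℝ × (E × E) =>
      dd (RR g' L') (0, ζ) (Pt e' L b A v.2.1 v.1, v.2.2)) (ρ0, (x, w)) :=
    ContDiffAt.comp (ρ0, (x, w)) (f := fun v : ℝ × (E × E) => (Pt e' L b A v.2.1 v.1, v.2.2))
      (g := dd (RR g' L') (0, ζ)) hR'
      (hPc.contDiffAt.prodMk (contDiff_snd.comp contDiff_snd).contDiffAt)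
  have hc2 : ContDiffAt ℝ ∞ (fun v : ℝ × (E × E) => dd (RR g L) (0, ζ) v.2) (ρ0, (x, w)) :=
    ContDiffAt.comp (ρ0, (x, w)) (f := fun v : ℝ × (E × E) => v.2)
      (g := dd (RR g L) (0, ζ)) hR contDiffAt_snd
  have hΘc : ContDiffAt ℝ ∞ Θ (ρ0, (x, w)) := (hc1.sub hc2).prodMk contDiffAt_snd
  have hΘd : HasFDerivAt Θ (fderiv ℝ Θ (ρ0, (x, w))) (ρ0, (x, w)) :=
    (hΘc.differentiableAt (by simp)).hasFDerivAt
  have hinj : ∀ δ, fderiv ℝ Θ (ρ0, (x, w)) δ = 0 → δ = 0 := by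
    rintro ⟨a, δ⟩ hδ
    have h1 : HasFDerivAt (fun v : ℝ × (E × E) => v.2)
        ((ContinuousLinearMap.snd ℝ ℝ (E × E)).comp (fderiv ℝ Θ (ρ0, (x, w)))) (ρ0, (x, w)) :=
      HasFDerivAt.comp (ρ0, (x, w)) (f := Θ) (g := fun v : ℝ × (E × E) => v.2) hasFDerivAt_snd hΘd
    have h2 := congrArg (fun f : ℝ × (E × E) →L[ℝ] (E × E) => f (a, δ)) (h1.unique hasFDerivAt_snd)
    rw [ContinuousLinearMap.comp_apply, hδ, map_zero] at h2
    replace h2 : (0 : E × E) = δ := h2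
    subst h2
    have hl : HasDerivAt (fun s : ℝ => ρ0 + s * a) a 0 := by
      simpa using ((hasDerivAt_id (0 : ℝ)).mul_const a).const_add ρ0
    have hl2 : HasDerivAt (fun s : ℝ => (ρ0 + s * a, (x, w))) (a, (0 : E × E)) 0 :=
      hl.prodMk (hasDerivAt_const (0 : ℝ) (x, w))
    have h3 : HasDerivAt (fun s : ℝ => (Θ (ρ0 + s * a, (x, w))).1) 0 0 := by
      have h4 := HasFDerivAt.comp_hasDerivAt_of_eq (f := fun s : ℝ => (ρ0 + s * a, (x, w)))
        (l := Θ) (0 : ℝ) hΘd hl2 (by simp)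
      rw [hδ] at h4
      have h4' := HasFDerivAt.comp_hasDerivAt_of_eq (f := fun s : ℝ => Θ (ρ0 + s * a, (x, w)))
        (l := fun v : ℝ × (E × E) => v.1) (0 : ℝ) hasFDerivAt_fst h4 rfl
      exact HasDerivAt.congr_deriv (f := fun s : ℝ => (Θ (ρ0 + s * a, (x, w))).1) h4' rfl
    have h5 : HasDerivAt (fun s : ℝ => Pt e' L b A x (ρ0 + s * a))
        (a • fderiv ℝ (e' b) (L' b Y) (A (L b x))) 0 := by
      have h6 : HasDerivAt (fun s : ℝ => (ρ0 + s * a) • A (L b x)) (a • A (L b x)) 0 :=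
        hl.smul_const _
      have h7 := HasFDerivAt.comp_hasDerivAt_of_eq (f := fun s : ℝ => (ρ0 + s * a) • A (L b x))
        (l := e' b) (0 : ℝ) (S.h'.hasFDerivAt_e b (L' b Y)) h6 (by simp only [zero_mul, add_zero]; exact hrA.symm)
      rw [map_smul] at h7
      exact h7
    have h8 : HasDerivAt (fun s : ℝ => (Pt e' L b A x (ρ0 + s * a), w))
        (a • fderiv ℝ (e' b) (L' b Y) (A (L b x)), (0 : E)) 0 :=
      h5.prodMk (hasDerivAt_const (0 : ℝ) w)
    have h9 : HasFDerivAt (dd (RR g' L') (0, ζ)) (fderiv ℝ (dd (RR g' L') (0, ζ)) (Y, w)) (Y, w) :=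
      (hR'.differentiableAt (by simp)).hasFDerivAt
    have h10 := HasFDerivAt.comp_hasDerivAt_of_eq
      (f := fun s : ℝ => (Pt e' L b A x (ρ0 + s * a), w))
      (l := dd (RR g' L') (0, ζ)) (0 : ℝ) h9 h8 (by simp [hPt0])
    have h11 := (h10.sub_const (dd (RR g L) (0, ζ) (x, w))).unique h3
    have h12 : dd (dd (RR g' L') (0, ζ))
        (a • fderiv ℝ (e' b) (L' b Y) (A (L b x)), (0 : E)) (Y, w) = 0 := h11
    rw [(dd_dd (S.h'.contDiffAt_RR hYb hw.1) _ (0, ζ)).self_of_nhds] at h12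
    have h13 : (a • fderiv ℝ (e' b) (L' b Y) (A (L b x)), (0 : E)) =
        a • (fderiv ℝ (e' b) (L' b Y) (A (L b x)), (0 : E)) := by simp
    rw [h13, map_smul, smul_apply, smul_eq_mul] at h12
    rcases mul_eq_zero.1 h12 with h14 | h14
    · rw [h14]; rfl
    · exact absurd h14 hζ
  obtain ⟨ℓ, hℓc, -, -, hℓ2⟩ := local_inv hΘc hinj
  -- the equation
  have c1 : ∀ᶠ u in 𝓝 (x, w), ‖u.1‖ < 1 :=
    (continuous_fst.norm.continuousAt (x := ((x, w) : E × E))).eventually_lt_const hx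
  have c2 : ∀ᶠ u in 𝓝 (x, w), u.2 ≠ 0 :=
    (continuous_snd.continuousAt (x := ((x, w) : E × E))).eventually_ne hw0
  have c3 : ∀ᶠ u : E × E in 𝓝 (x, w), ‖cross g g' u.1 b (proj u.2)‖ < 1 := by
    refine hcc.norm.eventually_lt_const ?_
    simp only [hww]
    rw [← hYeq]
    exact hYb
  have hzero : ∀ᶠ u in 𝓝 (x, w), Θ (rt g g' L L' b u, u) = (0, u) := by
    filter_upwards [c1, c2, c3] with u hu1 hu2 hu3
    obtain ⟨k1, k2, k3⟩ := S.gam hu1 hu2
    have hPtu : Pt e' L b A u.1 (rt g g' L L' b u) = Yf g g' L e' L' b A (u.1, u.2) := rfl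
    simp only [hΘ, hPtu, Prod.mk.injEq, and_true]
    have k4 : ‖Yf g g' L e' L' b A (u.1, u.2)‖ < 1 := by rw [k3]; exact hu3
    have k5 := S.h.Phi_zero S.h' S.hd hu1 k4 hu2 k1
    have k6 := S.h.Phi_apply S.h' hu1 k4 hu2 ζ
    rw [k5, zero_apply] at k6
    exact k6.symm
  have hΘ0 : Θ (ρ0, (x, w)) = (0, (x, w)) := hzero.self_of_nhds
  have ht : Tendsto (fun u : E × E => (rt g g' L L' b u, u)) (𝓝 (x, w)) (𝓝 (ρ0, (x, w))) :=
    hcont.tendsto.prodMk_nhds tendsto_id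
  have hev : rt g g' L L' b =ᶠ[𝓝 (x, w)] fun u => (ℓ (0, u)).1 := by
    filter_upwards [ht.eventually hℓ2, hzero] with u hu1 hu2
    rw [hu2] at hu1
    rw [hu1]
  refine ContDiffAt.congr_of_eventuallyEq ?_ hev
  rw [hΘ0] at hℓc
  exact ContDiffAt.comp (x, w) (f := fun u : E × E => ((0 : ℝ), u)) (g := fun v => (ℓ v).1)
    hℓc.fst (contDiffAt_const.prodMk contDiffAt_id)

end Src

end Pool.Agent.W5h72.BR
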