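import Pool.Agent.W5h72.BR.Cone

/-!
# First order identities for the crossing point
-/

open Set Metric Filter Topology
open scoped ContDiff RealInnerProductSpace

noncomputable section

set_option maxSynthPendingDepth 3

namespace Pool.Agent.W5h72.BR

variable {E : Type*} [NormedAddCommGroup E] [InnerProductSpace ℝ E]

namespace Simple

variable {g : E → E →L[ℝ] E →L[ℝ] ℝ} {e L : E → E → E}

/-- derivative of the distance with respect to the interior point -/
lemma fderiv_RR_left (h : Simple g e L) {x w : E} (hx : ‖x‖ < 1) (hw : w ∈ sphere (0 : E) 1)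
    (δ : E) : fderiv ℝ (RR g L) (x, w) (δ, 0) = -((rho g L x w)⁻¹ * g x (L x w) δ) := by
  have hxM := mem_of_norm_lt hx
  have hwM := mem_of_sphere hw
  have hxw := ne_of_sphere hx hw
  have hww := proj_of_mem hw
  have h1 : DifferentiableAt ℝ (RR g L) (x, w) :=
    (h.contDiffAt_RR hx hw).differentiableAt (by simp)
  have h2 : HasFDerivAt (fun y' => RR g L (y', w))
      ((fderiv ℝ (RR g L) (x, w)).comp (ContinuousLinearMap.inl ℝ E E)) x :=
    HasFDerivAt.comp x (f := fun y' => (y', w)) h1.hasFDerivAt (hasFDerivAt_prodMk_left x w)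
  have h3 := h.hasFDerivAt_rho hwM hxM hxw.symm
  have h4 : (fun y' => RR g L (y', w)) =ᶠ[𝓝 x] rho g L w := by
    filter_upwards [isOpen_ball.mem_nhds (show x ∈ ball (0 : E) 1 by simpa using hx)] with y' hy'
    rw [RR]
    simp only [hww]
    exact h.rho_symm (ball_subset_closedBall hy') hwM
  have h5 := congrArg (fun f : E →L[ℝ] ℝ => f δ) (h2.unique (h3.congr_of_eventuallyEq h4))
  simp only [ContinuousLinearMap.comp_apply, ContinuousLinearMap.inl_apply, smul_apply,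
    smul_eq_mul] at h5
  rw [h5, h.rho_symm hwM hxM]
  ring

/-- the unit covector in `w` does not change if the point moves along the geodesic -/
lemma mixed_radial (h : Simple g e L) {x w : E} (hx : ‖x‖ < 1) (hw : w ∈ sphere (0 : E) 1)
    (ζ : E) : fderiv ℝ (fderiv ℝ (RR g L)) (x, w) (L x w, 0) (0, ζ) = 0 := by
  have hxM := mem_of_norm_lt hx
  have hwM := mem_of_sphere hw
  have hxw := ne_of_sphere hx hw
  have hww := proj_of_mem hw
  have hw0 := ne_zero_of_mem_sphere' hw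
  have hR := h.contDiffAt_RR hx hw
  -- the geodesic
  obtain ⟨γ, u, hγ, h0, hu, h1⟩ := h.exists_geod hxM hwM
  have hvel := hγ.vel 0 zero_mem01
  rw [hu] at hvel
  have hne : γ 0 ≠ γ 1 := by rw [h0, h1]; exact hxw
  have hdd : HasFDerivAt (dd (RR g L) (0, ζ)) (fderiv ℝ (dd (RR g L) (0, ζ)) (x, w)) (x, w) :=
    ((contDiffAt_dd hR (0, ζ)).differentiableAt (by simp)).hasFDerivAt
  have h2 : HasDerivWithinAt (fun t => (γ t, w)) (L x w, (0 : E)) (Icc 0 1) 0 :=
    hvel.prodMk (hasDerivWithinAt_const (0 : ℝ) _ w)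
  have h3 : HasDerivWithinAt (fun t => dd (RR g L) (0, ζ) (γ t, w))
      (fderiv ℝ (dd (RR g L) (0, ζ)) (x, w) (L x w, 0)) (Icc 0 1) 0 := by
    have h4 : HasFDerivAt (dd (RR g L) (0, ζ)) (fderiv ℝ (dd (RR g L) (0, ζ)) (x, w))
        (γ 0, w) := by rw [h0]; exact hdd
    exact HasFDerivAt.comp_hasDerivWithinAt (f := fun t => (γ t, w))
      (l := dd (RR g L) (0, ζ)) (0 : ℝ) h4 h2
  have h5 : ∀ t ∈ Ico (0 : ℝ) 1, dd (RR g L) (0, ζ) (γ t, w) =
      - dir g L w x (Dproj w ζ) := by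
    intro t ht
    have ht' := Ico_subset_Icc_self ht
    have hγb : ‖γ t‖ < 1 := by
      rcases eq_or_lt_of_le ht.1 with h6 | h6
      · rw [← h6, h0]; exact hx
      · exact h.interior hγ hne ⟨h6, ht.2⟩
    have hγM := mem_of_norm_lt hγb
    have hγw := ne_of_sphere hγb hw
    have h6 := h.fderiv_RR hγM hw0 (by rw [hww]; exact hγw) ζ
    rw [dd, ← h6, (h.hasFDerivAt_rho_proj hγM hw0 (by rw [hww]; exact hγw)).fderiv, hww]
    simp only [neg_apply, ContinuousLinearMap.comp_apply]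
    congr 2
    -- `x` and `γ t` are on the same geodesic from `w`
    have h7 := h.L_geod hγ one_mem01 ht'
    have h8 := h.L_geod hγ one_mem01 zero_mem01
    rw [h1] at h7 h8
    rw [h0] at h8
    have hs : L w (γ t) = (1 - t) • L w x := by
      rw [h7, h8, smul_smul]
      congr 1
      ring
    have hs0 : 0 < 1 - t := by linarith [ht.2]
    have hr : rho g L w (γ t) = (1 - t) * rho g L w x := by
      rw [rho, hs, rho]
      simp only [map_smul, smul_apply, smul_eq_mul]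
      rw [← mul_assoc, Real.sqrt_mul (mul_self_nonneg _), Real.sqrt_mul_self hs0.le]
    rw [dir, dir, hr, hs, map_smul, smul_smul]
    congr 1
    rw [mul_inv, mul_comm (1 - t)⁻¹, mul_assoc, inv_mul_cancel₀ hs0.ne', mul_one]
  have h6 : HasDerivWithinAt (fun t => dd (RR g L) (0, ζ) (γ t, w)) 0 (Icc 0 1) 0 := by
    have h7 : HasDerivWithinAt (fun _ : ℝ => - dir g L w x (Dproj w ζ)) 0 (Icc 0 1) 0 :=
      hasDerivWithinAt_const _ _ _
    refine h7.congr_of_eventuallyEq ?_ (h5 0 ⟨le_rfl, zero_lt_one⟩)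
    filter_upwards [self_mem_nhdsWithin, mem_nhdsWithin_of_mem_nhds
      (Iio_mem_nhds (show (0 : ℝ) < 1 by norm_num))] with t ht1 ht2
    exact h5 t ⟨ht1.1, ht2⟩
  have h7 : fderiv ℝ (dd (RR g L) (0, ζ)) (x, w) (L x w, 0) = 0 :=
    (uniqueDiffOn_Icc (by norm_num) (0 : ℝ) zero_mem01).eq_deriv _ h3 h6
  rw [← (dd_dd hR (L x w, 0) (0, ζ)).self_of_nhds]
  exact h7

end Simple

namespace Src

variable {g g' : E → E →L[ℝ] E →L[ℝ] ℝ} {e L e' L' : E → E → E} {b : E} {A A' : E →L[ℝ] E}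
variable [FiniteDimensional ℝ E]

/-- the crossing point is smooth, with its derivative -/
lemma Yf_deriv (S : Src g g' e L e' L' b A A') {x w : E} (hx : ‖x‖ < 1) (hw : w ∈ Dom g x b) :
    ContDiffAt ℝ ∞ (Yf g g' L e' L' b A) (x, w) ∧
    ∀ δ ζ, fderiv ℝ (Yf g g' L e' L' b A) (x, w) (δ, ζ) =
      rt g g' L L' b (x, w) • fderiv ℝ (e' b) (L' b (Yf g g' L e' L' b A (x, w)))
        (A (fderiv ℝ (L b) x δ)) +
      fderiv ℝ (rt g g' L L' b) (x, w) (δ, ζ) •
        fderiv ℝ (e' b) (L' b (Yf g g' L e' L' b A (x, w))) (A (L b x)) := by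
  have hrs := S.rt_smooth hx hw
  obtain ⟨hYb, hr, hrA, -, -⟩ := S.point hx hw
  have h1 : ContDiffAt ℝ ∞ (fun u : E × E => A (L b u.1)) (x, w) :=
    (A.contDiff.comp ((S.h.L_smooth_right b).comp contDiff_fst)).contDiffAt
  have h2 : ContDiffAt ℝ ∞ (Yf g g' L e' L' b A) (x, w) :=
    ContDiffAt.comp (x, w) (f := fun u : E × E => rt g g' L L' b u • A (L b u.1)) (g := e' b)
      (S.h'.e_smooth_right b).contDiffAt (hrs.smul h1)
  refine ⟨h2, fun δ ζ => ?_⟩
  have d1 : HasFDerivAt (rt g g' L L' b) (fderiv ℝ (rt g g' L L' b) (x, w)) (x, w) :=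
    (hrs.differentiableAt (by simp)).hasFDerivAt
  have d2 : HasFDerivAt (fun u : E × E => A (L b u.1))
      (A.comp ((fderiv ℝ (L b) x).comp (ContinuousLinearMap.fst ℝ E E))) (x, w) := by
    have k1 : HasFDerivAt (fun u : E × E => L b u.1)
        ((fderiv ℝ (L b) x).comp (ContinuousLinearMap.fst ℝ E E)) (x, w) :=
      HasFDerivAt.comp (x, w) (f := fun u : E × E => u.1) (g := L b) (S.h.hasFDerivAt_L b x)
        hasFDerivAt_fst
    exact A.hasFDerivAt.comp (x, w) k1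
  have d3 := d1.smul d2
  have d4 : HasFDerivAt (e' b) (fderiv ℝ (e' b) (L' b (Yf g g' L e' L' b A (x, w))))
      (rt g g' L L' b (x, w) • A (L b x)) := by
    rw [hrA]
    exact S.h'.hasFDerivAt_e b _
  have d5 := HasFDerivAt.comp (x, w)
    (f := fun u : E × E => rt g g' L L' b u • A (L b u.1)) (g := e' b) d4 d3
  have d6 : HasFDerivAt (Yf g g' L e' L' b A) _ (x, w) := d5
  rw [d6.fderiv]
  simp [ContinuousLinearMap.comp_apply]

/-- the derivative of the equation of the crossing point -/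
lemma main_id (S : Src g g' e L e' L' b A A') {x w : E} (hx : ‖x‖ < 1) (hw : w ∈ Dom g x b)
    (δ ζ ξ : E) :
    fderiv ℝ (fderiv ℝ (RR g' L')) (Yf g g' L e' L' b A (x, w), w)
      (fderiv ℝ (Yf g g' L e' L' b A) (x, w) (δ, ζ), ζ) (0, ξ) =
    fderiv ℝ (fderiv ℝ (RR g L)) (x, w) (δ, ζ) (0, ξ) := by
  obtain ⟨hYb, -, -, -, -⟩ := S.point hx hw
  have hYs := (S.Yf_deriv hx hw).1
  have hw0 := ne_zero_of_mem_sphere' hw.1
  have hR' := S.h'.contDiffAt_RR hYb hw.1
  have hR := S.h.contDiffAt_RR hx hw.1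
  have c1 : ∀ᶠ u in 𝓝 (x, w), ‖u.1‖ < 1 :=
    (continuous_fst.norm.continuousAt (x := ((x, w) : E × E))).eventually_lt_const hx
  have c2 : ∀ᶠ u in 𝓝 (x, w), u.2 ≠ 0 :=
    (continuous_snd.continuousAt (x := ((x, w) : E × E))).eventually_ne hw0
  have c3 : ∀ᶠ u : E × E in 𝓝 (x, w), ‖Yf g g' L e' L' b A u‖ < 1 :=
    hYs.continuousAt.norm.eventually_lt_const hYb
  have hev : (fun u : E × E => dd (RR g' L') (0, ξ) (Yf g g' L e' L' b A u, u.2)) =ᶠ[𝓝 (x, w)]
      dd (RR g L) (0, ξ) := by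
    filter_upwards [c1, c2, c3] with u hu1 hu2 hu3
    have k5 := S.h.Phi_zero S.h' S.hd hu1 hu3 hu2 (S.gam hu1 hu2).1
    have k6 := S.h.Phi_apply S.h' hu1 hu3 hu2 ξ
    rw [k5, zero_apply] at k6
    exact sub_eq_zero.1 k6.symm
  have d1 : HasFDerivAt (Yf g g' L e' L' b A) (fderiv ℝ (Yf g g' L e' L' b A) (x, w)) (x, w) :=
    (hYs.differentiableAt (by simp)).hasFDerivAt
  have d2 : HasFDerivAt (dd (RR g' L') (0, ξ))
      (fderiv ℝ (dd (RR g' L') (0, ξ)) (Yf g g' L e' L' b A (x, w), w))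
      (Yf g g' L e' L' b A (x, w), w) :=
    ((contDiffAt_dd hR' (0, ξ)).differentiableAt (by simp)).hasFDerivAt
  have d3 := HasFDerivAt.comp (x, w) (f := fun u : E × E => (Yf g g' L e' L' b A u, u.2))
    (g := dd (RR g' L') (0, ξ)) d2 (d1.prodMk hasFDerivAt_snd)
  have d4 : HasFDerivAt (dd (RR g L) (0, ξ)) (fderiv ℝ (dd (RR g L) (0, ξ)) (x, w)) (x, w) :=
    ((contDiffAt_dd hR (0, ξ)).differentiableAt (by simp)).hasFDerivAt
  have d5 := congrArg (fun f : E × E →L[ℝ] ℝ => f (δ, ζ))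
    (d3.unique (d4.congr_of_eventuallyEq hev))
  have e1 := (dd_dd hR' (fderiv ℝ (Yf g g' L e' L' b A) (x, w) (δ, ζ), ζ) (0, ξ)).self_of_nhds
  have e2 := (dd_dd hR (δ, ζ) (0, ξ)).self_of_nhds
  rw [← e1, ← e2]
  exact d5

/-- the derivative of the crossing point in the radial direction -/
lemma Yf_radial (S : Src g g' e L e' L' b A A') {x w : E} (hx : ‖x‖ < 1) (hw : w ∈ Dom g x b) :
    fderiv ℝ (Yf g g' L e' L' b A) (x, w) (-L x b, 0) =
      (rt g g' L L' b (x, w) + fderiv ℝ (rt g g' L L' b) (x, w) (-L x b, 0)) •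
        fderiv ℝ (e' b) (L' b (Yf g g' L e' L' b A (x, w))) (A (L b x)) := by
  have hbM := mem_of_sphere S.hb
  have hxM := mem_of_norm_lt hx
  have h1 : fderiv ℝ (L b) x (-L x b) = L b x := by
    rw [← S.h.De_L hbM hxM]
    exact congrArg (fun f : E →L[ℝ] E => f (L b x)) (S.h.D_comp' hbM hxM)
  rw [(S.Yf_deriv hx hw).2, h1, add_smul]

/-- the velocity of the crossing curve -/
def vel (g g' : E → E →L[ℝ] E →L[ℝ] ℝ) (L e' L' : E → E → E) (b : E) (A : E →L[ℝ] E)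
    (u : E × E) : E := fderiv ℝ (e' b) (L' b (Yf g g' L e' L' b A u)) (A (L b u.1))

/-- **cone property**: the derivatives of the crossing point in the directions in which the angle is
stationary are zero -/
lemma cone (S : Src g g' e L e' L' b A A') {x w : E} (hx : ‖x‖ < 1) (hw : w ∈ Dom g x b) :
    rt g g' L L' b (x, w) + fderiv ℝ (rt g g' L L' b) (x, w) (-L x b, 0) ≠ 0 ∧
    ∀ ζ, fderiv ℝ (fderiv ℝ (RR g L)) (x, w) (-L x b, 0) (0, ζ) = 0 →
      fderiv ℝ (rt g g' L L' b) (x, w) (0, ζ) = 0 := by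
  obtain ⟨hYb, hr, -, -, -⟩ := S.point hx hw
  have hxM := mem_of_norm_lt hx
  set Y := Yf g g' L e' L' b A (x, w) with hY
  set V := fderiv ℝ (e' b) (L' b Y) (A (L b x)) with hV
  set HR' := fderiv ℝ (fderiv ℝ (RR g' L')) (Y, w) with hHR'
  set HR := fderiv ℝ (fderiv ℝ (RR g L)) (x, w) with hHR
  set D := fderiv ℝ (rt g g' L L' b) (x, w) with hD
  set μ := rt g g' L L' b (x, w) + D (-L x b, 0) with hμ
  -- first identity
  have i1 : ∀ ξ, μ * HR' (V, 0) (0, ξ) = HR (-L x b, 0) (0, ξ) := by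
    intro ξ
    have k1 := S.main_id hx hw (-L x b) 0 ξ
    rw [S.Yf_radial hx hw] at k1
    rw [← k1]
    have k2 : (μ • V, (0 : E)) = μ • (V, (0 : E)) := by simp
    rw [k2, map_smul, smul_apply, smul_eq_mul]
  -- second identity
  have i2 : ∀ ζ ξ, HR' (0, ζ) (0, ξ) + D (0, ζ) * HR' (V, 0) (0, ξ) = HR (0, ζ) (0, ξ) := by
    intro ζ ξ
    have k1 := S.main_id hx hw 0 ζ ξ
    rw [(S.Yf_deriv hx hw).2, map_zero, map_zero, map_zero, smul_zero, zero_add] at k1
    rw [← k1]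
    have k2 : (D (0, ζ) • V, ζ) = (0, ζ) + D (0, ζ) • (V, (0 : E)) := by simp
    rw [k2, map_add, map_smul, add_apply, smul_apply, smul_eq_mul]
  have s1 : ∀ ζ ξ : E, HR' (0, ζ) (0, ξ) = HR' (0, ξ) (0, ζ) := fun ζ ξ =>
    Simple.symm_snd (S.h'.contDiffAt_RR hYb hw.1) _ _
  have s2 : ∀ ζ ξ : E, HR (0, ζ) (0, ξ) = HR (0, ξ) (0, ζ) := fun ζ ξ =>
    Simple.symm_snd (S.h.contDiffAt_RR hx hw.1) _ _
  have i3 : ∀ ζ ξ, D (0, ζ) * HR' (V, 0) (0, ξ) = D (0, ξ) * HR' (V, 0) (0, ζ) := by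
    intro ζ ξ
    have k1 := i2 ζ ξ
    have k2 := i2 ξ ζ
    rw [s1 ξ ζ, s2 ξ ζ] at k2
    linarith
  -- a vector with non-zero value
  obtain ⟨ξ, hξ⟩ : ∃ ξ, HR (-L x b, 0) (0, ξ) ≠ 0 := by
    by_contra hcon
    push Not at hcon
    obtain ⟨c, hc⟩ := S.h.mixed_kernel hx hw.1 hcon
    by_cases hc0 : c = 0
    · rw [hc0, zero_smul, neg_eq_zero] at hc
      exact ne_of_sphere hx S.hb ((S.h.L_eq_zero hxM (mem_of_sphere S.hb)).1 hc)
    · apply S.h.not_par hx S.hb hw (-c⁻¹)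
      rw [neg_smul, ← smul_neg, hc, smul_smul, inv_mul_cancel₀ hc0, one_smul]
  have hμ0 : μ ≠ 0 := by
    intro h0
    have := i1 ξ
    rw [h0, zero_mul] at this
    exact hξ this.symm
  refine ⟨hμ0, fun ζ hζ => ?_⟩
  have k1 := i1 ζ
  rw [hζ] at k1
  have k2 : HR' (V, 0) (0, ζ) = 0 := by
    rcases mul_eq_zero.1 k1 with k | k
    · exact absurd k hμ0
    · exact k
  have k3 := i3 ζ ξ
  rw [k2, mul_zero] at k3
  rcases mul_eq_zero.1 k3 with k | k
  · exact k
  · exfalso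
    have := i1 ξ
    rw [k, mul_zero] at this
    exact hξ this.symm

end Src

end Pool.Agent.W5h72.BR
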