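import Pool.Agent.W5h72.BR.Index

/-!
# Crossing points
-/

open Set Metric Filter Topology
open scoped ContDiff RealInnerProductSpace

noncomputable section

namespace Pool.Agent.W5h72.BR

variable {E : Type*} [NormedAddCommGroup E] [InnerProductSpace ℝ E]

/-- `y` is on the geodesic of `g'` with the same end points as the geodesic of `g` which starts at
the boundary point `p` and contains `x` -/
def Gam (g g' : E → E →L[ℝ] E →L[ℝ] ℝ) (x p y : E) : Prop :=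
  p ∈ sphere (0 : E) 1 ∧ ∃ q ∈ sphere (0 : E) 1, x ∈ seg g p q ∧ y ∈ seg g' p q

/-- the geodesics of `g'` which correspond to the geodesics of `g` through `x` meet pairwise -/
def Meet (g g' : E → E →L[ℝ] E →L[ℝ] ℝ) (x : E) : Prop :=
  ∀ p ∈ sphere (0 : E) 1, ∀ w ∈ sphere (0 : E) 1, ∃ y, Gam g g' x p y ∧ Gam g g' x w y

/-- the crossing point -/
def cross (g g' : E → E →L[ℝ] E →L[ℝ] ℝ) (x w p : E) : E :=
  Classical.epsilon fun y => Gam g g' x p y ∧ Gam g g' x w y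

/-- the boundary points whose geodesic is different from the one of `w` -/
def Dom (g : E → E →L[ℝ] E →L[ℝ] ℝ) (x w : E) : Set E :=
  {p | p ∈ sphere (0 : E) 1 ∧ p ≠ w ∧ x ∉ seg g p w}

lemma Meet.spec {g g' : E → E →L[ℝ] E →L[ℝ] ℝ} {x w p : E} (hI : Meet g g' x)
    (hp : p ∈ sphere (0 : E) 1) (hw : w ∈ sphere (0 : E) 1) :
    Gam g g' x p (cross g g' x w p) ∧ Gam g g' x w (cross g g' x w p) :=
  Classical.epsilon_spec (hI p hp w hw)

lemma exists_orth2 [FiniteDimensional ℝ E] (hn : 2 < Module.finrank ℝ E) (p ξ : E) :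
    ∃ η : E, ‖η‖ = 1 ∧ inner ℝ p η = 0 ∧ inner ℝ ξ η = 0 := by
  classical
  set W := Submodule.span ℝ ({p, ξ} : Set E) with hW
  have h1 : 0 < Module.finrank ℝ Wᗮ := by
    have h2 := Submodule.finrank_add_finrank_orthogonal W
    have h3 : Module.finrank ℝ W ≤ 2 := by
      have h4 := finrank_span_le_card (R := ℝ) ({p, ξ} : Set E)
      have h5 : ({p, ξ} : Set E).toFinset.card ≤ 2 := by
        rw [Set.toFinset_insert, Set.toFinset_singleton]
        exact Finset.card_le_two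
      exact h4.trans h5
    omega
  have : Nontrivial Wᗮ := Module.finrank_pos_iff.1 h1
  obtain ⟨⟨v, hv⟩, hv0⟩ := exists_ne (0 : Wᗮ)
  have hv1 : v ≠ 0 := fun h0 => hv0 (by simpa using h0)
  have hvp : ∀ z ∈ ({p, ξ} : Set E), inner ℝ z v = 0 := fun z hz =>
    (Submodule.mem_orthogonal _ _).1 hv z (Submodule.subset_span hz)
  refine ⟨‖v‖⁻¹ • v, ?_, ?_, ?_⟩
  · rw [norm_smul, norm_inv, norm_norm, inv_mul_cancel₀ (norm_ne_zero_iff.2 hv1)]
  · rw [inner_smul_right, hvp p (by simp), mul_zero]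
  · rw [inner_smul_right, hvp ξ (by simp), mul_zero]

/-- the sphere without two points is connected -/
lemma preconn [FiniteDimensional ℝ E] (hn : 2 < Module.finrank ℝ E) {p q : E}
    (hp : p ∈ sphere (0 : E) 1) (hq : q ∈ sphere (0 : E) 1) (hpq : p ≠ q) :
    IsPreconnected {w : E | w ∈ sphere (0 : E) 1 ∧ w ≠ p ∧ w ≠ q} := by
  have hv : ‖p‖ = 1 := norm_of_sphere hp
  set φ := stereographic hv with hφ
  have htgt : ∀ z, z ∈ φ.target := fun z => by rw [hφ, stereographic_target]; trivial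
  have hsrc : ∀ z : sphere (0 : E) 1, (z : E) ≠ p → z ∈ φ.source := by
    intro z hz
    rw [hφ, stereographic_source]
    intro h0
    exact hz (congrArg Subtype.val h0)
  set a := φ ⟨q, hq⟩ with ha
  have hc : Continuous (fun z : (ℝ ∙ p)ᗮ => ((φ.symm z : sphere (0 : E) 1) : E)) :=
    continuous_subtype_val.comp (isOpenEmbedding_stereographic_symm hv).continuous
  have hconn : IsPreconnected ({a}ᶜ : Set (ℝ ∙ p)ᗮ) := by
    apply IsConnected.isPreconnected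
    apply isConnected_compl_singleton_of_one_lt_rank
    rw [← Module.finrank_eq_rank]
    have h2 := Submodule.finrank_add_finrank_orthogonal (ℝ ∙ p)
    have h3 : Module.finrank ℝ (ℝ ∙ p) ≤ 1 := by
      have := finrank_span_le_card (R := ℝ) ({p} : Set E)
      simpa using this
    have : 1 < Module.finrank ℝ (ℝ ∙ p)ᗮ := by omega
    exact_mod_cast this
  convert hconn.image _ hc.continuousOn using 1
  ext w
  constructor
  · rintro ⟨hw, hwp, hwq⟩
    refine ⟨φ ⟨w, hw⟩, ?_, ?_⟩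
    · intro h0
      have h1 : (⟨w, hw⟩ : sphere (0 : E) 1) = ⟨q, hq⟩ :=
        φ.injOn (hsrc _ hwp) (hsrc _ hpq.symm) h0
      exact hwq (congrArg Subtype.val h1)
    · simp only
      rw [φ.left_inv (hsrc _ hwp)]
  · rintro ⟨z, hz, rfl⟩
    refine ⟨(φ.symm z).2, ?_, ?_⟩
    · intro h0
      have h1 : φ.symm z ∈ φ.source := φ.map_target (htgt z)
      rw [hφ, stereographic_source] at h1
      exact h1 (Subtype.ext h0)
    · intro h0
      apply hz
      have h1 : φ.symm z = ⟨q, hq⟩ := Subtype.ext h0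
      rw [mem_singleton_iff, ha, ← h1, φ.right_inv (htgt z)]

namespace Simple

variable {g g' : E → E →L[ℝ] E →L[ℝ] ℝ} {e L e' L' : E → E → E}

lemma mem_seg_geod (h : Simple g e L) {γ u : ℝ → E} (hγ : IsGeod g γ u) {z : E} :
    z ∈ seg g (γ 0) (γ 1) ↔ ∃ t ∈ Icc (0 : ℝ) 1, z = γ t := by
  rw [h.mem_seg (hγ.mem 0 zero_mem01) (hγ.mem 1 one_mem01)]
  have hL := h.L_geod hγ zero_mem01 one_mem01
  rw [sub_zero, one_smul] at hL
  constructor
  · rintro ⟨t, ht, rfl⟩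
    exact ⟨t, ht, by rw [h.geod_eq hγ ht, hL]⟩
  · rintro ⟨t, ht, rfl⟩
    exact ⟨t, ht, by rw [h.geod_eq hγ ht, hL]⟩

lemma two_aux (h : Simple g e L) {γ u δ v : ℝ → E} (hγ : IsGeod g γ u) (hδ : IsGeod g δ v)
    (hp : γ 0 ∈ sphere (0 : E) 1) (hw : δ 0 ∈ sphere (0 : E) 1) {t1 t2 s1 s2 : ℝ}
    (ht1 : t1 ∈ Icc (0 : ℝ) 1) (ht2 : t2 ∈ Icc (0 : ℝ) 1) (hs1 : s1 ∈ Icc (0 : ℝ) 1)
    (hs2 : s2 ∈ Icc (0 : ℝ) 1) (ht : t1 < t2) (hs : s1 < s2) (e1 : γ t1 = δ s1)
    (e2 : γ t2 = δ s2) (hne : γ t1 ≠ γ t2) : γ 0 = δ 0 := by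
  have key : ∀ {γ u : ℝ → E} {t1 t2 : ℝ}, IsGeod g γ u → t1 ∈ Icc (0 : ℝ) 1 →
      t2 ∈ Icc (0 : ℝ) 1 → t1 < t2 → γ t1 ≠ γ t2 → γ t2 ≠ γ 0 := by
    intro γ u t1 t2 hγ ht1 ht2 ht hne h0
    have h1 := h.L_geod hγ zero_mem01 ht2
    rw [h0, h.L_self (hγ.mem 0 zero_mem01), sub_zero] at h1
    have h2 : t2 ≠ 0 := by linarith [ht1.1]
    have h3 : u 0 = 0 := by
      rcases smul_eq_zero.1 h1.symm with h4 | h4
      · exact absurd h4 h2
      · exact h4
    have h4 := h.geod_eq hγ ht1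
    have h5 := h.geod_eq hγ ht2
    rw [h3, smul_zero] at h4 h5
    exact hne (h4.trans h5.symm)
  have n1 := key hγ ht1 ht2 ht hne
  have n2 := key hδ hs1 hs2 hs (by rw [← e1, ← e2]; exact hne)
  have h1 := h.L_geod hγ ht2 zero_mem01
  have h2 := h.L_geod hδ hs2 zero_mem01
  have h3 := h.L_geod hγ ht2 ht1
  have h4 := h.L_geod hδ hs2 hs1
  rw [← e2] at h2 h4
  rw [← e1, h3] at h4
  have ht0 : 0 < t2 := lt_of_le_of_lt ht1.1 ht
  have hs0 : 0 < s2 := lt_of_le_of_lt hs1.1 hs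
  have a1 : 0 < t2 - t1 := by linarith
  have a2 : 0 < s2 - s1 := by linarith
  refine h.exit_unique (hγ.mem t2 ht2) hw hp (by rw [e2]; exact n2) n1
    (s := t2 * (s2 - s1) / ((t2 - t1) * s2)) (by positivity) ?_
  have h5 : u t2 = ((s2 - s1) / (t2 - t1)) • v s2 := by
    have h6 : (t2 - t1)⁻¹ • ((t1 - t2) • u t2) = (t2 - t1)⁻¹ • ((s1 - s2) • v s2) := by rw [h4]
    rw [smul_smul, smul_smul] at h6
    have h7 : (t2 - t1)⁻¹ * (t1 - t2) = -1 := by field_simp; ring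
    rw [h7, neg_one_smul] at h6
    rw [← neg_neg (u t2), h6, ← neg_smul]
    congr 1
    field_simp
    ring
  rw [h1, h2, h5, smul_smul, smul_smul]
  congr 1
  field_simp
  ring

lemma two_points (h : Simple g e L) {p q w r y1 y2 : E} (hp : p ∈ sphere (0 : E) 1)
    (hq : q ∈ sphere (0 : E) 1) (hw : w ∈ sphere (0 : E) 1) (hr : r ∈ sphere (0 : E) 1)
    (h1 : y1 ∈ seg g p q) (h2 : y1 ∈ seg g w r) (h3 : y2 ∈ seg g p q) (h4 : y2 ∈ seg g w r)
    (hne : y1 ≠ y2) : p = w ∨ p = r := by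
  obtain ⟨γ, u, hγ, c0, -, c1⟩ := h.exists_geod (mem_of_sphere hp) (mem_of_sphere hq)
  obtain ⟨δ, v, hδ, d0, -, d1⟩ := h.exists_geod (mem_of_sphere hw) (mem_of_sphere hr)
  rw [← c0, ← c1] at h1 h3
  rw [← d0, ← d1] at h2 h4
  obtain ⟨t1, ht1, k1⟩ := (h.mem_seg_geod hγ).1 h1
  obtain ⟨t2, ht2, k2⟩ := (h.mem_seg_geod hγ).1 h3
  obtain ⟨s1, hs1, l1⟩ := (h.mem_seg_geod hδ).1 h2
  obtain ⟨s2, hs2, l2⟩ := (h.mem_seg_geod hδ).1 h4
  have e1 : γ t1 = δ s1 := by rw [← k1, ← l1]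
  have e2 : γ t2 = δ s2 := by rw [← k2, ← l2]
  have hneγ : γ t1 ≠ γ t2 := by rw [← k1, ← k2]; exact hne
  have hrev := hδ.reparam one_mem01 zero_mem01
  have hre : ∀ s : ℝ, (1 : ℝ) + (1 - s) * (0 - 1) = s := fun s => by ring
  have hI : ∀ {s : ℝ}, s ∈ Icc (0 : ℝ) 1 → 1 - s ∈ Icc (0 : ℝ) 1 := fun hs =>
    ⟨by linarith [hs.2], by linarith [hs.1]⟩
  rw [← c0] at hp
  rw [← d0] at hw
  rw [← d1] at hr
  have htne : t1 ≠ t2 := by rintro rfl; exact hneγ rfl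
  have hsne : s1 ≠ s2 := by rintro rfl; exact hneγ (e1.trans e2.symm)
  rw [← c0, ← d0, ← d1]
  rcases lt_or_gt_of_ne htne with ht | ht <;> rcases lt_or_gt_of_ne hsne with hs | hs
  · exact Or.inl (h.two_aux hγ hδ hp hw ht1 ht2 hs1 hs2 ht hs e1 e2 hneγ)
  · right
    have := h.two_aux hγ hrev hp (by simpa using hr) ht1 ht2 (hI hs1) (hI hs2) ht
      (by linarith) (by simp only [hre]; exact e1) (by simp only [hre]; exact e2) hneγ
    simpa using this
  · right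
    have := h.two_aux hγ hrev hp (by simpa using hr) ht2 ht1 (hI hs2) (hI hs1) ht
      (by linarith) (by simp only [hre]; exact e2) (by simp only [hre]; exact e1) hneγ.symm
    simpa using this
  · exact Or.inl (h.two_aux hγ hδ hp hw ht2 ht1 hs2 hs1 ht hs e2 e1 hneγ.symm)

lemma cross_unique (h : Simple g e L) (h' : Simple g' e' L') {x p w y1 y2 : E} (hx : ‖x‖ < 1)
    (h1 : Gam g g' x p y1) (h2 : Gam g g' x w y1) (h3 : Gam g g' x p y2)
    (h4 : Gam g g' x w y2) (hpw : p ∈ Dom g x w) : y1 = y2 := by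
  obtain ⟨hp, q, hq, hxq, hy1⟩ := h1
  obtain ⟨hw, r, hr, hxr, hy1'⟩ := h2
  obtain ⟨-, q2, hq2, hxq2, hy2⟩ := h3
  obtain ⟨-, r2, hr2, hxr2, hy2'⟩ := h4
  obtain rfl := h.exit_uniq hp hq hq2 (ne_of_sphere hx hp) hxq hxq2
  obtain rfl := h.exit_uniq hw hr hr2 (ne_of_sphere hx hw) hxr hxr2
  by_contra hne
  rcases h'.two_points hp hq hw hr hy1 hy1' hy2 hy2' hne with h5 | h5
  · exact hpw.2.1 h5
  · subst h5
    exact hpw.2.2 (by rw [seg_symm]; exact hxr)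

lemma cross_interior (h : Simple g e L) (h' : Simple g' e' L') {x p w y : E} (hx : ‖x‖ < 1)
    (h1 : Gam g g' x p y) (h2 : Gam g g' x w y) (hpw : p ∈ Dom g x w) : ‖y‖ < 1 := by
  obtain ⟨hp, q, hq, hxq, hy1⟩ := h1
  obtain ⟨hw, r, hr, hxr, hy1'⟩ := h2
  by_contra hcon
  have c1 : y = p ∨ y = q := by
    by_contra hc
    push Not at hc
    exact hcon (h'.seg_interior (mem_of_sphere hp) (mem_of_sphere hq) hy1 hc.1 hc.2)
  have c2 : y = w ∨ y = r := by
    by_contra hc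
    push Not at hc
    exact hcon (h'.seg_interior (mem_of_sphere hw) (mem_of_sphere hr) hy1' hc.1 hc.2)
  rcases c1 with c1 | c1 <;> rcases c2 with c2 | c2
  · exact hpw.2.1 (c1.symm.trans c2)
  · have : p = r := c1.symm.trans c2
    subst this
    exact hpw.2.2 (by rw [seg_symm]; exact hxr)
  · have : q = w := c1.symm.trans c2
    subst this
    exact hpw.2.2 hxq
  · have : q = r := c1.symm.trans c2
    subst this
    rw [seg_symm] at hxq hxr
    exact hpw.2.1 (h.exit_uniq hq hp hw (ne_of_sphere hx hq) hxq hxr)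

variable [FiniteDimensional ℝ E]

lemma isClosed_Gam (h : Simple g e L) (h' : Simple g' e' L') (x : E) :
    IsClosed {w : E × E | Gam g g' x w.1 w.2} := by
  have hce : Continuous fun w : (E × E) × (ℝ × ℝ) => e w.1.1 (w.2.1 • L w.1.1 w.1.2) := by
    have h1 : Continuous fun w : (E × E) × (ℝ × ℝ) => L w.1.1 w.1.2 :=
      h.L_smooth.continuous.comp continuous_fst
    exact h.e_smooth.continuous.comp ((continuous_fst.comp continuous_fst).prodMk
      ((continuous_fst.comp continuous_snd).smul h1))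
  have hce' : Continuous fun w : (E × E) × (ℝ × ℝ) => e' w.1.1 (w.2.2 • L' w.1.1 w.1.2) := by
    have h1 : Continuous fun w : (E × E) × (ℝ × ℝ) => L' w.1.1 w.1.2 :=
      h'.L_smooth.continuous.comp continuous_fst
    exact h'.e_smooth.continuous.comp ((continuous_fst.comp continuous_fst).prodMk
      ((continuous_snd.comp continuous_snd).smul h1))
  have hK : IsCompact (((sphere (0 : E) 1 ×ˢ sphere (0 : E) 1) ×ˢ
      (Icc (0 : ℝ) 1 ×ˢ Icc (0 : ℝ) 1)) ∩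
      {w : (E × E) × (ℝ × ℝ) | e w.1.1 (w.2.1 • L w.1.1 w.1.2) = x}) :=
    (((isCompact_sphere 0 1).prod (isCompact_sphere 0 1)).prod
      (isCompact_Icc.prod isCompact_Icc)).inter_right (isClosed_eq hce continuous_const)
  have himg := hK.image (f := fun w : (E × E) × (ℝ × ℝ) =>
    (w.1.1, e' w.1.1 (w.2.2 • L' w.1.1 w.1.2)))
    ((continuous_fst.comp continuous_fst).prodMk hce')
  convert himg.isClosed using 1
  ext ⟨p, y⟩
  constructor
  · rintro ⟨hp, q, hq, hxq, hy⟩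
    obtain ⟨t, ht, hx⟩ := (h.mem_seg (mem_of_sphere hp) (mem_of_sphere hq)).1 hxq
    obtain ⟨s, hs, hy⟩ := (h'.mem_seg (mem_of_sphere hp) (mem_of_sphere hq)).1 hy
    exact ⟨((p, q), (t, s)), ⟨⟨⟨hp, hq⟩, ht, hs⟩, hx.symm⟩, by simp only; rw [← hy]⟩
  · rintro ⟨⟨⟨p', q⟩, ⟨t, s⟩⟩, ⟨⟨⟨hp, hq⟩, ht, hs⟩, hx⟩, heq⟩
    simp only [Prod.mk.injEq] at heq
    obtain ⟨rfl, rfl⟩ := heq
    exact ⟨hp, q, hq, (h.mem_seg (mem_of_sphere hp) (mem_of_sphere hq)).2 ⟨t, ht, hx.symm⟩,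
      (h'.mem_seg (mem_of_sphere hp) (mem_of_sphere hq)).2 ⟨s, hs, rfl⟩⟩

/-- continuity of the crossing point -/
lemma cross_cont (h : Simple g e L) (h' : Simple g' e' L') {x w : E} (hx : ‖x‖ < 1)
    (hI : Meet g g' x) (hw : w ∈ sphere (0 : E) 1) :
    ContinuousOn (cross g g' x w) (Dom g x w) := by
  intro p hp
  refine (isCompact_closedBall (0 : E) 1).tendsto_nhds_of_unique_mapClusterPt ?_ ?_
  · filter_upwards [self_mem_nhdsWithin] with p' hp'
    obtain ⟨h1, h2⟩ := hI.spec hp'.1 hw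
    exact mem_of_norm_lt (h.cross_interior h' hx h1 h2 hp')
  · intro y hy hcl
    obtain ⟨U, hU, hUt⟩ := mapClusterPt_iff_ultrafilter.1 hcl
    have hUp : Tendsto (fun p' : E => p') U (𝓝 p) :=
      tendsto_id'.2 (hU.trans nhdsWithin_le_nhds)
    have hmem : ∀ᶠ p' in (U : Filter E), p' ∈ Dom g x w := hU self_mem_nhdsWithin
    have h1 : (p, y) ∈ {w : E × E | Gam g g' x w.1 w.2} := by
      refine (h.isClosed_Gam h' x).mem_of_tendsto (b := (U : Filter E))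
        (hUp.prodMk_nhds hUt) ?_
      filter_upwards [hmem] with p' hp'
      exact (hI.spec hp'.1 hw).1
    have h2 : (w, y) ∈ {w : E × E | Gam g g' x w.1 w.2} := by
      refine (h.isClosed_Gam h' x).mem_of_tendsto (b := (U : Filter E))
        ((tendsto_const_nhds (x := w)).prodMk_nhds hUt) ?_
      filter_upwards [hmem] with p' hp'
      exact (hI.spec hp'.1 hw).2
    obtain ⟨h3, h4⟩ := hI.spec hp.1 hw
    exact h.cross_unique h' hx h1 h2 h3 h4 hp

omit [FiniteDimensional ℝ E] in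
lemma Phi_zero (h : Simple g e L) (h' : Simple g' e' L')
    (hd : ∀ p ∈ sphere (0 : E) 1, ∀ q ∈ sphere (0 : E) 1, rho g L p q = rho g' L' p q)
    {x y z : E} (hx : ‖x‖ < 1) (hy : ‖y‖ < 1) (hz : z ≠ 0) (hG : Gam g g' x (proj z) y) :
    Phi g g' L L' x (y, z) = 0 := by
  obtain ⟨hp, q, hq, hxq, hyq⟩ := hG
  have hxp := ne_of_sphere hx hp
  have hyp := ne_of_sphere hy hp
  have hpq : proj z ≠ q := by
    intro h0
    obtain ⟨t, ht, hx1⟩ := (h.mem_seg (mem_of_sphere hp) (mem_of_sphere hq)).1 hxq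
    rw [← h0, h.L_self (mem_of_sphere hp), smul_zero, h.e_zero (mem_of_sphere hp)] at hx1
    exact hxp hx1
  have h1 := h.hasFDerivAt_rho_proj (mem_of_norm_lt hx) hz hxp
  have h2 := h'.hasFDerivAt_rho_proj (mem_of_norm_lt hy) hz hyp
  ext w
  simp only [Phi, h1.fderiv, h2.fderiv, sub_apply, neg_apply, ContinuousLinearMap.comp_apply,
    zero_apply]
  rw [h.dir_tan_seg h' hd hp hq hpq hxq hyq hxp hyp (inner_Dproj hz w)]
  ring

omit [FiniteDimensional ℝ E] in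
lemma norm_proj_sub {p v : E} (hp : ‖p‖ = 1) (hz : p + v ≠ 0) :
    ‖proj (p + v) - p‖ ≤ 2 * ‖v‖ := by
  have h1 : proj (p + v) - p = (proj (p + v) - (p + v)) + v := by abel
  have h2 : ‖proj (p + v) - (p + v)‖ ≤ ‖v‖ := by
    have h3 : proj (p + v) - (p + v) = (‖p + v‖⁻¹ - 1) • (p + v) := by
      rw [sub_smul, one_smul, proj]
    have h4 : ‖p + v‖ ≠ 0 := norm_ne_zero_iff.2 hz
    have h6 : ‖(‖p + v‖⁻¹ - 1) • (p + v)‖ = |(‖p + v‖⁻¹ - 1) * ‖p + v‖| := by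
      rw [norm_smul, Real.norm_eq_abs, abs_mul, abs_of_nonneg (norm_nonneg (p + v))]
    have h5 : (‖p + v‖⁻¹ - 1) * ‖p + v‖ = ‖p‖ - ‖p + v‖ := by
      rw [sub_mul, inv_mul_cancel₀ h4, hp, one_mul]
    rw [h3, h6, h5]
    calc |‖p‖ - ‖p + v‖| ≤ ‖p - (p + v)‖ := abs_norm_sub_norm_le _ _
      _ = ‖v‖ := by rw [sub_add_cancel_left, norm_neg]
  calc ‖proj (p + v) - p‖ ≤ ‖proj (p + v) - (p + v)‖ + ‖v‖ := by rw [h1]; exact norm_add_le _ _
    _ ≤ 2 * ‖v‖ := by linarith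

end Simple

end Pool.Agent.W5h72.BR
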