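import Mathlib

/-!
# Simple Riemannian metrics on the closed unit ball: definitions
-/

open Set Metric Filter Topology
open scoped ContDiff RealInnerProductSpace

noncomputable section

namespace Pool.Agent.W5h72.BR

variable {E : Type*} [NormedAddCommGroup E] [InnerProductSpace ℝ E]

/-- `a` is the acceleration of the geodesic through `x` with velocity `v`, that is
`a = - Γ_x(v, v)` with the Christoffel symbols `Γ` of the metric `g`. -/
def IsAcc (g : E → E →L[ℝ] E →L[ℝ] ℝ) (x v a : E) : Prop :=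
  ∀ z, g x a z + fderiv ℝ g x v v z = (1 / 2) * fderiv ℝ g x z v v

/-- `γ : [0, 1] → M` is a geodesic of `g` with velocity `u`; `M` is the closed unit ball. -/
structure IsGeod (g : E → E →L[ℝ] E →L[ℝ] ℝ) (γ u : ℝ → E) : Prop where
  mem : ∀ t ∈ Icc (0 : ℝ) 1, γ t ∈ closedBall (0 : E) 1
  vel : ∀ t ∈ Icc (0 : ℝ) 1, HasDerivWithinAt γ (u t) (Icc 0 1) t
  acc : ∀ t ∈ Icc (0 : ℝ) 1, ∃ a, HasDerivWithinAt u a (Icc 0 1) t ∧ IsAcc g (γ t) (u t) a

/-- `y = exp_x v`: the geodesic with initial point `x` and initial velocity `v` stays in `M` for the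
times in `[0, 1]` and is in `y` at time `1`. -/
def IsExp (g : E → E →L[ℝ] E →L[ℝ] ℝ) (x v y : E) : Prop :=
  ∃ γ u, IsGeod g γ u ∧ γ 0 = x ∧ u 0 = v ∧ γ 1 = y

/-- `M` (the closed unit ball) with the metric `g` is simple, with the exponential maps `e x` and
their inverses `L x`. -/
structure Simple (g : E → E →L[ℝ] E →L[ℝ] ℝ) (e L : E → E → E) : Prop where
  smooth : ContDiff ℝ ∞ g
  symm : ∀ x ∈ closedBall (0 : E) 1, ∀ v w, g x v w = g x w v
  pos : ∀ x ∈ closedBall (0 : E) 1, ∀ v, v ≠ 0 → 0 < g x v v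
  convex : ∀ p ∈ sphere (0 : E) 1, ∀ v, v ≠ 0 → inner ℝ p v = 0 → ∀ a, IsAcc g p v a →
    0 < ‖v‖ ^ 2 + inner ℝ p a
  e_smooth : ContDiff ℝ ∞ (fun z : E × E => e z.1 z.2)
  L_smooth : ContDiff ℝ ∞ (fun z : E × E => L z.1 z.2)
  fwd : ∀ x ∈ closedBall (0 : E) 1, ∀ v y, IsExp g x v y → e x v = y ∧ L x y = v
  bwd : ∀ x ∈ closedBall (0 : E) 1, ∀ y ∈ closedBall (0 : E) 1, IsExp g x (L x y) y

lemma IsAcc.smul {g : E → E →L[ℝ] E →L[ℝ] ℝ} {x v a : E} (h : IsAcc g x v a) (c : ℝ) :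
    IsAcc g x (c • v) (c ^ 2 • a) := by
  intro z
  have := h z
  simp only [map_smul, smul_apply, smul_eq_mul]
  linear_combination c ^ 2 * this

/-- affine reparametrisation -/
lemma IsGeod.reparam {g : E → E →L[ℝ] E →L[ℝ] ℝ} {γ u : ℝ → E} (h : IsGeod g γ u) {s t : ℝ}
    (hs : s ∈ Icc (0 : ℝ) 1) (ht : t ∈ Icc (0 : ℝ) 1) :
    IsGeod g (fun r => γ (s + r * (t - s))) (fun r => (t - s) • u (s + r * (t - s))) := by
  have hmem : ∀ r ∈ Icc (0 : ℝ) 1, s + r * (t - s) ∈ Icc (0 : ℝ) 1 := by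
    intro r hr
    obtain ⟨h0, h1⟩ := hr
    obtain ⟨a0, a1⟩ := hs
    obtain ⟨b0, b1⟩ := ht
    constructor
    · nlinarith [mul_nonneg (sub_nonneg.2 h1) a0, mul_nonneg h0 b0]
    · nlinarith [mul_nonneg (sub_nonneg.2 h1) (sub_nonneg.2 a1), mul_nonneg h0 (sub_nonneg.2 b1)]
  have hd : ∀ r : ℝ, HasDerivWithinAt (fun r : ℝ => s + r * (t - s)) (t - s) (Icc 0 1) r := by
    intro r
    have := ((hasDerivAt_id r).mul_const (t - s)).const_add s
    simpa using this.hasDerivWithinAt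
  have hmaps : MapsTo (fun r : ℝ => s + r * (t - s)) (Icc 0 1) (Icc 0 1) := fun r hr => hmem r hr
  refine ⟨fun r hr => h.mem _ (hmem r hr), fun r hr => ?_, fun r hr => ?_⟩
  · exact HasDerivWithinAt.scomp r (h.vel _ (hmem r hr)) (hd r) hmaps
  · obtain ⟨a, ha, hacc⟩ := h.acc _ (hmem r hr)
    refine ⟨(t - s) • (t - s) • a, ?_, ?_⟩
    · exact (HasDerivWithinAt.scomp r ha (hd r) hmaps).const_smul (t - s)
    · have := hacc.smul (t - s)
      rwa [smul_smul, ← pow_two]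

lemma IsGeod.isExp {g : E → E →L[ℝ] E →L[ℝ] ℝ} {γ u : ℝ → E} (h : IsGeod g γ u) {s t : ℝ}
    (hs : s ∈ Icc (0 : ℝ) 1) (ht : t ∈ Icc (0 : ℝ) 1) :
    IsExp g (γ s) ((t - s) • u s) (γ t) := by
  refine ⟨_, _, h.reparam hs ht, ?_, ?_, ?_⟩ <;> simp

/-- the speed is constant -/
lemma IsGeod.energy {g : E → E →L[ℝ] E →L[ℝ] ℝ} (hg : ContDiff ℝ ∞ g)
    (hsymm : ∀ x ∈ closedBall (0 : E) 1, ∀ v w, g x v w = g x w v)
    {γ u : ℝ → E} (h : IsGeod g γ u) {t : ℝ} (ht : t ∈ Icc (0 : ℝ) 1) :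
    g (γ t) (u t) (u t) = g (γ 0) (u 0) (u 0) := by
  have hder : ∀ r ∈ Icc (0 : ℝ) 1,
      HasDerivWithinAt (fun r => g (γ r) (u r) (u r)) 0 (Icc 0 1) r := by
    intro r hr
    obtain ⟨a, ha, hacc⟩ := h.acc r hr
    have h1 : HasDerivWithinAt (fun r => g (γ r)) (fderiv ℝ g (γ r) (u r)) (Icc 0 1) r := by
      have hgd : HasFDerivAt g (fderiv ℝ g (γ r)) (γ r) :=
        (hg.differentiable (by simp) (γ r)).hasFDerivAt
      exact HasFDerivAt.comp_hasDerivWithinAt (f := γ) (l := g) r hgd (h.vel r hr)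
    have h2 := (h1.clm_apply ha).clm_apply ha
    refine h2.congr_deriv ?_
    have e1 := hacc (u r)
    have e2 := hsymm (γ r) (h.mem r hr) a (u r)
    rw [add_apply]
    linarith
  have hc : ContinuousOn (fun r => g (γ r) (u r) (u r)) (Icc 0 1) :=
    fun r hr => (hder r hr).continuousWithinAt
  have := constant_of_derivWithin_zero (a := (0 : ℝ)) (b := 1)
    (f := fun r => g (γ r) (u r) (u r))
    (fun r hr => (hder r hr).differentiableWithinAt)
    (fun r hr => by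
      have hr' : r ∈ Icc (0 : ℝ) 1 := Ico_subset_Icc_self hr
      exact (hder r hr').derivWithin (uniqueDiffOn_Icc (by norm_num) r hr'))
  exact this t ht

end Pool.Agent.W5h72.BR
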