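import Pool.Agent.W5h72.BR.Sources

/-!
# The exit point of a geodesic
-/

open Set Metric Filter Topology
open scoped ContDiff RealInnerProductSpace

noncomputable section

set_option maxSynthPendingDepth 3

namespace Pool.Agent.W5h72.BR

/-- local inverse of a smooth map with injective derivative -/
lemma local_inv {F : Type*} [NormedAddCommGroup F] [NormedSpace ℝ F] [FiniteDimensional ℝ F]
    {Θ : F → F} {w : F} (hΘ : ContDiffAt ℝ ∞ Θ w) (hinj : ∀ δ, fderiv ℝ Θ w δ = 0 → δ = 0) :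
    ∃ ℓ : F → F, ContDiffAt ℝ ∞ ℓ (Θ w) ∧ ℓ (Θ w) = w ∧ (∀ᶠ u in 𝓝 (Θ w), Θ (ℓ u) = u) ∧
      ∀ᶠ u in 𝓝 w, ℓ (Θ u) = u := by
  have : CompleteSpace F := FiniteDimensional.complete ℝ F
  have hΘd : HasFDerivAt Θ (fderiv ℝ Θ w) w := (hΘ.differentiableAt (by simp)).hasFDerivAt
  have hDinj : Function.Injective (fderiv ℝ Θ w).toLinearMap := by
    rw [injective_iff_map_eq_zero]
    exact hinj
  let De : F ≃L[ℝ] F :=
    (LinearEquiv.ofInjectiveEndo (fderiv ℝ Θ w).toLinearMap hDinj).toContinuousLinearEquiv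
  have hDe : (De : F →L[ℝ] F) = fderiv ℝ Θ w := ContinuousLinearMap.ext fun v => rfl
  have hf' : HasFDerivAt Θ (De : F →L[ℝ] F) w := by rw [hDe]; exact hΘd
  have hn : (∞ : WithTop ℕ∞) ≠ 0 := by simp
  exact ⟨hΘ.localInverse hf' hn, hΘ.to_localInverse hf' hn, hΘ.localInverse_apply_image hf' hn,
    (hΘ.hasStrictFDerivAt' hf' hn).eventually_right_inverse,
    (hΘ.hasStrictFDerivAt' hf' hn).eventually_left_inverse⟩

variable {E : Type*} [NormedAddCommGroup E] [InnerProductSpace ℝ E]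

/-- the exit point of the geodesic from `x` in direction `v` -/
def ext (L : E → E → E) (x v : E) : E :=
  Classical.epsilon fun q => q ∈ sphere (0 : E) 1 ∧ ∃ s : ℝ, 0 < s ∧ L x q = s • v

namespace Simple

variable {g g' : E → E →L[ℝ] E →L[ℝ] ℝ} {e L e' L' : E → E → E}

/-- the two directions of a geodesic in an interior point -/
lemma opp (h : Simple g e L) {p q x : E} (hp : p ∈ sphere (0 : E) 1)
    (hq : q ∈ sphere (0 : E) 1) (hx : ‖x‖ < 1) (hxq : x ∈ seg g p q) :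
    ∃ k : ℝ, 0 < k ∧ L x q = (-k) • L x p := by
  obtain ⟨γ, u, hγ, h0, h1, t, ht, htx⟩ := hxq
  have hxp := ne_of_sphere hx hp
  have hxq := ne_of_sphere hx hq
  have ht0 : 0 < t := lt_of_le_of_ne ht.1 (by rintro rfl; exact hxp (by rw [← h0, htx]))
  have ht1 : t < 1 := lt_of_le_of_ne ht.2 (by rintro rfl; exact hxq (by rw [← h1, htx]))
  have e1 := h.L_geod hγ ht one_mem01
  have e2 := h.L_geod hγ ht zero_mem01
  rw [htx, h1] at e1
  rw [htx, h0] at e2
  refine ⟨(1 - t) / t, by apply div_pos <;> linarith, ?_⟩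
  rw [e1, e2, smul_smul]
  congr 1
  field_simp
  ring

/-- a vector which is not parallel to the one of `b` -/
lemma dom_of (h : Simple g e L) {x b w : E} (hx : ‖x‖ < 1) (hb : b ∈ sphere (0 : E) 1)
    (hw : w ∈ sphere (0 : E) 1) (hpar : ∀ c : ℝ, L x w ≠ c • L x b) : w ∈ Dom g x b := by
  refine ⟨hw, ?_, fun hs => ?_⟩
  · rintro rfl
    exact hpar 1 (by rw [one_smul])
  · obtain ⟨k, hk, hL⟩ := h.opp hw hb hx hs
    apply hpar (-k)⁻¹
    rw [hL, smul_smul, inv_mul_cancel₀ (by linarith), one_smul]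

variable [FiniteDimensional ℝ E]

lemma not_par (h : Simple g e L) {x b w : E} (hx : ‖x‖ < 1) (hb : b ∈ sphere (0 : E) 1)
    (hw : w ∈ Dom g x b) (c : ℝ) : L x w ≠ c • L x b := by
  intro hL
  have hxM := mem_of_norm_lt hx
  have hxb := ne_of_sphere hx hb
  have hxw := ne_of_sphere hx hw.1
  rcases lt_trichotomy c 0 with hc | hc | hc
  · obtain ⟨q, hq, hbq, hxq⟩ := h.exists_exit hb hx
    obtain ⟨k, hk, hk2⟩ := h.opp hb hq hx hxq
    have hxq' := ne_of_sphere hx hq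
    have h1 : w = q := by
      refine h.exit_unique hxM hq hw.1 hxq' hxw (s := (-c) / k)
        (div_pos (by linarith) hk) ?_
      rw [hL, hk2, smul_smul]
      congr 1
      field_simp
    apply hw.2.2
    rw [seg_symm, h1]
    exact hxq
  · rw [hc, zero_smul] at hL
    exact hxw ((h.L_eq_zero hxM (mem_of_sphere hw.1)).1 hL)
  · exact hw.2.1 (h.exit_unique hxM hb hw.1 hxb hxw hc hL)

lemma ext_spec (h : Simple g e L) {x v : E} (hx : ‖x‖ < 1) (hv : v ≠ 0) :
    ext L x v ∈ sphere (0 : E) 1 ∧ ∃ s : ℝ, 0 < s ∧ L x (ext L x v) = s • v :=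
  Classical.epsilon_spec (h.exit_dir hx hv)

lemma ext_eq (h : Simple g e L) {x v q : E} (hx : ‖x‖ < 1) (hv : v ≠ 0)
    (hq : q ∈ sphere (0 : E) 1) {s : ℝ} (hs : 0 < s) (hL : L x q = s • v) : ext L x v = q := by
  obtain ⟨h1, t, ht, h2⟩ := h.ext_spec hx hv
  refine h.exit_unique (mem_of_norm_lt hx) hq h1 (ne_of_sphere hx hq) (ne_of_sphere hx h1)
    (s := t / s) (div_pos ht hs) ?_
  rw [h2, hL, smul_smul, div_mul_cancel₀ _ hs.ne']

lemma ext_neg (h : Simple g e L) {x v : E} (hx : ‖x‖ < 1) (hv : v ≠ 0) :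
    x ∈ seg g (ext L x v) (ext L x (-v)) := by
  obtain ⟨h1, s, hs, h2⟩ := h.ext_spec hx hv
  obtain ⟨q, hq, hne, hxq⟩ := h.exists_exit h1 hx
  obtain ⟨k, hk, hk2⟩ := h.opp h1 hq hx hxq
  have h3 : ext L x (-v) = q := by
    refine h.ext_eq hx (neg_ne_zero.2 hv) hq (s := k * s) (mul_pos hk hs) ?_
    rw [hk2, h2, smul_smul, smul_neg, neg_mul, neg_smul]
  rw [h3]
  exact hxq

lemma ext_smul (h : Simple g e L) {x v : E} (hx : ‖x‖ < 1) (hv : v ≠ 0) {c : ℝ} (hc : 0 < c) :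
    ext L x (c • v) = ext L x v := by
  obtain ⟨h1, s, hs, h2⟩ := h.ext_spec hx hv
  refine h.ext_eq hx (smul_ne_zero hc.ne' hv) h1 (s := s / c) (div_pos hs hc) ?_
  rw [h2, smul_smul, div_mul_cancel₀ _ hc.ne']

/-- the exit point is a smooth function -/
lemma ext_smooth (h : Simple g e L) {x v : E} (hx : ‖x‖ < 1) (hv : v ≠ 0) :
    ContDiffAt ℝ ∞ (fun u : E × E => ext L u.1 u.2) (x, v) := by
  obtain ⟨hq, s, hs, hqs⟩ := h.ext_spec hx hv
  set q := ext L x v with hqdef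
  have hxM := mem_of_norm_lt hx
  have hqM := mem_of_sphere hq
  have hqn := norm_of_sphere hq
  set z0 : E := s⁻¹ • q with hz0
  have hz0n : ‖z0‖ = s⁻¹ := by
    rw [hz0, norm_smul, hqn, mul_one, Real.norm_eq_abs, abs_of_pos (by positivity)]
  have hz00 : z0 ≠ 0 := by
    rw [← norm_pos_iff, hz0n]; positivity
  have hpz0 : proj z0 = q := by
    rw [proj, hz0n, hz0, smul_smul, inv_inv, mul_inv_cancel₀ hs.ne', one_smul]
  set Θ : E × E → E × E := fun u => (u.1, ‖u.2‖ • L u.1 (proj u.2)) with hΘ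
  have hLc : ContDiffAt ℝ ∞ (fun u : E × E => L u.1 (proj u.2)) (x, z0) := by
    have h1 : ContDiffAt ℝ ∞ (fun u : E × E => (u.1, proj u.2)) (x, z0) :=
      contDiffAt_fst.prodMk (ContDiffAt.comp (x, z0) (f := fun u : E × E => u.2)
        (g := proj (E := E)) (contDiffAt_proj hz00) contDiffAt_snd)
    exact ContDiffAt.comp (x, z0) (g := fun z : E × E => L z.1 z.2) h.L_smooth.contDiffAt h1
  have hnc : ContDiffAt ℝ ∞ (fun u : E × E => ‖u.2‖) (x, z0) :=
    ContDiffAt.comp (x, z0) (f := fun u : E × E => u.2) (g := fun z : E => ‖z‖)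
      (contDiffAt_norm ℝ hz00) contDiffAt_snd
  have hΘc : ContDiffAt ℝ ∞ Θ (x, z0) := contDiffAt_fst.prodMk (hnc.smul hLc)
  have hΘ0 : Θ (x, z0) = (x, v) := by
    simp only [hΘ]
    rw [hpz0, hqs, hz0n, smul_smul, inv_mul_cancel₀ hs.ne', one_smul]
  have hΘd : HasFDerivAt Θ (fderiv ℝ Θ (x, z0)) (x, z0) :=
    (hΘc.differentiableAt (by simp)).hasFDerivAt
  have hinj : ∀ δ, fderiv ℝ Θ (x, z0) δ = 0 → δ = 0 := by
    rintro ⟨α, δ⟩ hδ
    have h1 : HasFDerivAt (fun u : E × E => u.1)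
        ((ContinuousLinearMap.fst ℝ E E).comp (fderiv ℝ Θ (x, z0))) (x, z0) :=
      HasFDerivAt.comp (x, z0) (f := Θ) (g := fun u : E × E => u.1) hasFDerivAt_fst hΘd
    have h2 := congrArg (fun f : E × E →L[ℝ] E => f (α, δ)) (h1.unique hasFDerivAt_fst)
    rw [ContinuousLinearMap.comp_apply, hδ, map_zero] at h2
    replace h2 : (0 : E) = α := h2
    subst h2
    have hl : HasDerivAt (fun a : ℝ => z0 + a • δ) δ 0 := by
      simpa using ((hasDerivAt_id (0 : ℝ)).smul_const δ).const_add z0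
    have hl2 : HasDerivAt (fun a : ℝ => (x, z0 + a • δ)) ((0 : E), δ) 0 :=
      (hasDerivAt_const (0 : ℝ) x).prodMk hl
    have h3 : HasDerivAt (fun a : ℝ => (Θ (x, z0 + a • δ)).2) 0 0 := by
      have h4 := HasFDerivAt.comp_hasDerivAt_of_eq (f := fun a : ℝ => (x, z0 + a • δ))
        (l := Θ) (0 : ℝ) hΘd hl2 (by simp)
      rw [hδ] at h4
      have h4' := HasFDerivAt.comp_hasDerivAt_of_eq (f := fun a : ℝ => Θ (x, z0 + a • δ))
        (l := fun u : E × E => u.2) (0 : ℝ) hasFDerivAt_snd h4 rfl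
      exact HasDerivAt.congr_deriv (f := fun a : ℝ => (Θ (x, z0 + a • δ)).2) h4' rfl
    have h5 : HasDerivAt (fun a : ℝ => ‖z0 + a • δ‖) (‖z0‖⁻¹ * inner ℝ z0 δ) 0 := by
      have := HasFDerivAt.comp_hasDerivAt_of_eq (f := fun a : ℝ => z0 + a • δ)
        (l := fun z : E => ‖z‖) (0 : ℝ) (hasFDerivAt_norm' hz00) hl (by simp)
      exact HasDerivAt.congr_deriv (f := fun a : ℝ => ‖z0 + a • δ‖) this (by simp)
    have h6 : HasDerivAt (fun a : ℝ => L x (proj (z0 + a • δ)))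
        (fderiv ℝ (L x) q (Dproj z0 δ)) 0 := by
      have h7 : HasDerivAt (fun a : ℝ => proj (z0 + a • δ)) (Dproj z0 δ) 0 :=
        HasFDerivAt.comp_hasDerivAt_of_eq (f := fun a : ℝ => z0 + a • δ)
          (l := proj (E := E)) (0 : ℝ) (hasFDerivAt_proj hz00) hl (by simp)
      exact HasFDerivAt.comp_hasDerivAt_of_eq (f := fun a : ℝ => proj (z0 + a • δ))
        (l := L x) (0 : ℝ) (h.hasFDerivAt_L x q) h7 (by simp [hpz0])
    have h8 := (h5.smul h6).unique h3
    simp only [zero_smul, add_zero, hpz0] at h8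
    have h9 := congrArg (fderiv ℝ (e x) (L x q)) h8
    rw [map_add, map_smul, map_smul, map_zero, h.De_L hxM hqM] at h9
    have h10 : fderiv ℝ (e x) (L x q) (fderiv ℝ (L x) q (Dproj z0 δ)) = Dproj z0 δ :=
      congrArg (fun f : E →L[ℝ] E => f (Dproj z0 δ)) (h.D_comp hxM hqM)
    rw [h10] at h9
    have h11 := congrArg (inner ℝ q) h9
    have h12 : inner ℝ q (Dproj z0 δ) = 0 := by
      have := inner_Dproj hz00 δ
      rwa [hpz0] at this
    rw [inner_add_right, inner_smul_right, inner_smul_right, inner_neg_right, h12,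
      inner_zero_right, mul_zero, zero_add] at h11
    have h13 := h.L_inward hq hxM (ne_of_sphere hx hq).symm
    have h14 : ‖z0‖⁻¹ * inner ℝ z0 δ = 0 := by
      rcases mul_eq_zero.1 h11 with h15 | h15
      · exact h15
      · linarith
    have h16 : inner ℝ z0 δ = 0 := by
      rcases mul_eq_zero.1 h14 with h15 | h15
      · exact absurd h15 (inv_ne_zero (norm_ne_zero_iff.2 hz00))
      · exact h15
    rw [h14, zero_smul, add_zero] at h9
    have h17 : Dproj z0 δ = 0 := by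
      rcases smul_eq_zero.1 h9 with h18 | h18
      · exact absurd h18 (norm_ne_zero_iff.2 hz00)
      · exact h18
    have h19 : Dproj z0 δ = ‖z0‖⁻¹ • δ := by
      have : inner ℝ (proj z0) δ = (0 : ℝ) := by
        rw [proj, inner_smul_left, h16, mul_zero]
      simp only [Dproj, smul_apply, sub_apply, ContinuousLinearMap.id_apply,
        ContinuousLinearMap.smulRight_apply, innerSL_apply_apply, this, zero_smul, sub_zero]
    rw [h19] at h17
    rcases smul_eq_zero.1 h17 with h18 | h18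
    · exact absurd h18 (inv_ne_zero (norm_ne_zero_iff.2 hz00))
    · rw [h18]; rfl
  obtain ⟨ℓ, hℓc, hℓ0, hℓ1, -⟩ := local_inv hΘc hinj
  rw [hΘ0] at hℓc hℓ0 hℓ1
  have hc1 : ContDiffAt ℝ ∞ (fun u : E × E => proj (ℓ u).2) (x, v) := by
    refine ContDiffAt.comp (x, v) (f := fun u : E × E => (ℓ u).2) (g := proj (E := E)) ?_ hℓc.snd
    rw [hℓ0]
    exact contDiffAt_proj hz00
  refine hc1.congr_of_eventuallyEq ?_
  have c1 : ∀ᶠ u in 𝓝 (x, v), ‖u.1‖ < 1 :=
    (continuous_fst.norm.continuousAt (x := ((x, v) : E × E))).eventually_lt_const hx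
  have c2 : ∀ᶠ u in 𝓝 (x, v), u.2 ≠ 0 :=
    (continuous_snd.continuousAt (x := ((x, v) : E × E))).eventually_ne hv
  have c3 : ∀ᶠ u in 𝓝 (x, v), (ℓ u).2 ≠ 0 := by
    refine (hℓc.snd.continuousAt).eventually_ne ?_
    simp only [hℓ0]
    exact hz00
  filter_upwards [c1, c2, c3, hℓ1] with u hu1 hu2 hu3 hu4
  have e1' : (Θ (ℓ u)).1 = u.1 := congrArg Prod.fst hu4
  have e1 : (ℓ u).1 = u.1 := e1'
  have e2' : (Θ (ℓ u)).2 = u.2 := congrArg Prod.snd hu4
  have e2 : ‖(ℓ u).2‖ • L (ℓ u).1 (proj (ℓ u).2) = u.2 := e2'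
  rw [e1] at e2
  have hn : 0 < ‖(ℓ u).2‖ := norm_pos_iff.2 hu3
  refine h.ext_eq hu1 hu2 (proj_mem hu3) (s := ‖(ℓ u).2‖⁻¹) (by positivity) ?_
  rw [← e2, smul_smul, inv_mul_cancel₀ hn.ne', one_smul]

/-- the crossing relation is closed -/
lemma isClosed_Gam2 (h : Simple g e L) (h' : Simple g' e' L') :
    IsClosed {w : (E × E) × E | Gam g g' w.1.1 w.1.2 w.2} := by
  have hce : Continuous fun w : (E × E) × (ℝ × ℝ) => e w.1.1 (w.2.1 • L w.1.1 w.1.2) := by
    have h1 : Continuous fun w : (E × E) × (ℝ × ℝ) => L w.1.1 w.1.2 :=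
      h.L_smooth.continuous.comp continuous_fst
    exact h.e_smooth.continuous.comp ((continuous_fst.comp continuous_fst).prodMk
      ((continuous_fst.comp continuous_snd).smul h1))
  have hce' : Continuous fun w : (E × E) × (ℝ × ℝ) => e' w.1.1 (w.2.2 • L' w.1.1 w.1.2) := by
    have h1 : Continuous fun w : (E × E) × (ℝ × ℝ) => L' w.1.1 w.1.2 :=
      h'.L_smooth.continuous.comp continuous_fst
    exact h'.e_smooth.continuous.comp ((continuous_fst.comp continuous_fst).prodMk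
      ((continuous_snd.comp continuous_snd).smul h1))
  have hK : IsCompact ((sphere (0 : E) 1 ×ˢ sphere (0 : E) 1) ×ˢ
      (Icc (0 : ℝ) 1 ×ˢ Icc (0 : ℝ) 1)) :=
    ((isCompact_sphere 0 1).prod (isCompact_sphere 0 1)).prod
      (isCompact_Icc.prod isCompact_Icc)
  have himg := hK.image (f := fun w : (E × E) × (ℝ × ℝ) =>
    ((e w.1.1 (w.2.1 • L w.1.1 w.1.2), w.1.1), e' w.1.1 (w.2.2 • L' w.1.1 w.1.2)))
    ((hce.prodMk (continuous_fst.comp continuous_fst)).prodMk hce')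
  convert himg.isClosed using 1
  ext ⟨⟨x, p⟩, y⟩
  constructor
  · rintro ⟨hp, q, hq, hxq, hy⟩
    obtain ⟨t, ht, hx⟩ := (h.mem_seg (mem_of_sphere hp) (mem_of_sphere hq)).1 hxq
    obtain ⟨s, hs, hy⟩ := (h'.mem_seg (mem_of_sphere hp) (mem_of_sphere hq)).1 hy
    exact ⟨((p, q), (t, s)), ⟨⟨hp, hq⟩, ht, hs⟩, by simp only at hx hy ⊢; rw [← hy, ← hx]⟩
  · rintro ⟨⟨⟨p', q⟩, ⟨t, s⟩⟩, ⟨⟨hp, hq⟩, ht, hs⟩, heq⟩
    simp only [Prod.mk.injEq] at heq
    obtain ⟨⟨rfl, rfl⟩, rfl⟩ := heq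
    exact ⟨hp, q, hq, (h.mem_seg (mem_of_sphere hp) (mem_of_sphere hq)).2 ⟨t, ht, rfl⟩,
      (h'.mem_seg (mem_of_sphere hp) (mem_of_sphere hq)).2 ⟨s, hs, rfl⟩⟩

/-- joint continuity of the crossing point -/
lemma cross_contAt (h : Simple g e L) (h' : Simple g' e' L') {x b w : E} (hx : ‖x‖ < 1)
    (hI : ∀ x : E, ‖x‖ < 1 → MeetAt g g' x b) (hw : w ∈ Dom g x b) :
    ContinuousAt (fun u : E × E => cross g g' u.1 b (proj u.2)) (x, w) := by
  have hw0 := ne_zero_of_mem_sphere' hw.1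
  have hww := proj_of_mem hw.1
  have c1 : ∀ᶠ u in 𝓝 (x, w), ‖u.1‖ < 1 :=
    (continuous_fst.norm.continuousAt (x := ((x, w) : E × E))).eventually_lt_const hx
  have c2 : ∀ᶠ u in 𝓝 (x, w), u.2 ≠ 0 :=
    (continuous_snd.continuousAt (x := ((x, w) : E × E))).eventually_ne hw0
  have hpc : ContinuousAt (fun u : E × E => proj u.2) (x, w) :=
    ContinuousAt.comp (f := fun u : E × E => u.2) (x := (x, w))
      (contDiffAt_proj hw0).continuousAt continuousAt_snd
  have hpt : Tendsto (fun u : E × E => proj u.2) (𝓝 (x, w)) (𝓝 w) := by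
    have := hpc.tendsto
    simp only [hww] at this
    exact this
  have hft : Tendsto (fun u : E × E => u.1) (𝓝 (x, w)) (𝓝 x) :=
    continuous_fst.tendsto (x, w)
  show Tendsto _ _ _
  simp only [hww]
  refine (isCompact_closedBall (0 : E) 1).tendsto_nhds_of_unique_mapClusterPt ?_ ?_
  · filter_upwards [c1, c2] with u hu1 hu2
    obtain ⟨⟨-, q, hq, -, hy⟩, -⟩ := (hI u.1 hu1).spec (proj_mem hu2)
    exact seg_subset hy
  · intro y hy hcl
    obtain ⟨U, hU, hUt⟩ := mapClusterPt_iff_ultrafilter.1 hcl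
    have d1 : ∀ᶠ u in (U : Filter (E × E)), ‖u.1‖ < 1 := hU c1
    have d2 : ∀ᶠ u in (U : Filter (E × E)), u.2 ≠ 0 := hU c2
    have t1 : Tendsto (fun u : E × E => u.1) U (𝓝 x) := hft.mono_left hU
    have t2 : Tendsto (fun u : E × E => proj u.2) U (𝓝 w) := hpt.mono_left hU
    have h1 : ((x, w), y) ∈ {w : (E × E) × E | Gam g g' w.1.1 w.1.2 w.2} := by
      refine (h.isClosed_Gam2 h').mem_of_tendsto (b := (U : Filter (E × E)))
        ((t1.prodMk_nhds t2).prodMk_nhds hUt) ?_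
      filter_upwards [d1, d2] with u hu1 hu2
      exact ((hI u.1 hu1).spec (proj_mem hu2)).1
    have h2 : ((x, b), y) ∈ {w : (E × E) × E | Gam g g' w.1.1 w.1.2 w.2} := by
      refine (h.isClosed_Gam2 h').mem_of_tendsto (b := (U : Filter (E × E)))
        ((t1.prodMk_nhds (tendsto_const_nhds (x := b))).prodMk_nhds hUt) ?_
      filter_upwards [d1, d2] with u hu1 hu2
      exact ((hI u.1 hu1).spec (proj_mem hu2)).2
    obtain ⟨h3, h4⟩ := (hI x hx).spec hw.1
    exact h.cross_unique h' hx h1 h2 h3 h4 hw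

end Simple

end Pool.Agent.W5h72.BR
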