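import Pool.Agent.W5h72.BR.Defs

/-!
# Gauss lemma and first variation
-/

open Set Metric Filter Topology
open scoped ContDiff RealInnerProductSpace

noncomputable section

namespace Pool.Agent.W5h72.BR

variable {E : Type*} [NormedAddCommGroup E] [InnerProductSpace ℝ E]

/-- a function with derivative `d` at `0` which vanishes on `[0, ε]` has `d = 0` -/
lemma deriv_eq_zero_of_right {F : Type*} [NormedAddCommGroup F] [NormedSpace ℝ F] {f : ℝ → F}
    {d : F} (h : HasDerivAt f d 0) {ε : ℝ} (hε : 0 < ε) (h0 : ∀ s ∈ Icc (0 : ℝ) ε, f s = 0) :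
    d = 0 := by
  have h1 : HasDerivWithinAt f d (Icc 0 ε) 0 := h.hasDerivWithinAt
  have h2 : HasDerivWithinAt f 0 (Icc 0 ε) 0 := by
    refine (hasDerivWithinAt_const (0 : ℝ) (Icc 0 ε) (0 : F)).congr (fun s hs => h0 s hs) ?_
    exact h0 0 ⟨le_rfl, hε.le⟩
  exact (uniqueDiffOn_Icc hε 0 ⟨le_rfl, hε.le⟩).eq_deriv _ h1 h2

lemma gauss_core {g : E → E →L[ℝ] E →L[ℝ] ℝ} (hg : ContDiff ℝ ∞ g)
    (hsymm : ∀ x ∈ closedBall (0 : E) 1, ∀ v w, g x v w = g x w v)
    {f : E → E} (hf : ContDiff ℝ ∞ f) (g0 : E →L[ℝ] E →L[ℝ] ℝ) (hg0 : ∀ v w, g0 v w = g0 w v)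
    {v : ℝ → E} {v0 v1 : E} (hv0 : v 0 = v0) (hv : HasDerivAt v v1 0)
    (hmem : ∀ t ∈ Icc (0 : ℝ) 1, f (t • v0) ∈ closedBall (0 : E) 1)
    (hacc : ∀ t ∈ Icc (0 : ℝ) 1,
      IsAcc g (f (t • v0)) (fderiv ℝ f (t • v0) v0) (fderiv ℝ (fderiv ℝ f) (t • v0) v0 v0))
    {ε : ℝ} (hε : 0 < ε)
    (hen : ∀ t ∈ Icc (0 : ℝ) 1, ∀ s ∈ Icc (0 : ℝ) ε,
      g (f (t • v s)) (fderiv ℝ f (t • v s) (v s)) (fderiv ℝ f (t • v s) (v s)) =
        g0 (v s) (v s)) :
    g (f v0) (fderiv ℝ f v0 v0) (fderiv ℝ f v0 v1) = g0 v0 v1 := by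
  have hgd : ∀ z, HasFDerivAt g (fderiv ℝ g z) z := fun z =>
    (hg.differentiable (by simp) z).hasFDerivAt
  have hfd : ∀ z, HasFDerivAt f (fderiv ℝ f z) z := fun z =>
    (hf.differentiable (by simp) z).hasFDerivAt
  have hf1 : ContDiff ℝ ∞ (fderiv ℝ f) := hf.fderiv_right (by simp)
  have hfd2 : ∀ z, HasFDerivAt (fderiv ℝ f) (fderiv ℝ (fderiv ℝ f) z) z := fun z =>
    (hf1.differentiable (by simp) z).hasFDerivAt
  have hsym2 : ∀ z a b, fderiv ℝ (fderiv ℝ f) z a b = fderiv ℝ (fderiv ℝ f) z b a := by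
    intro z a b
    refine (hf.contDiffAt (x := z)).isSymmSndFDerivAt ?_ a b
    rw [minSmoothness_of_isRCLikeNormedField]
    exact WithTop.coe_le_coe.2 le_top
  -- the function `a(t) = g(U, J)`
  set A : ℝ → ℝ := fun t => g (f (t • v0)) (fderiv ℝ f (t • v0) v0) (fderiv ℝ f (t • v0) (t • v1))
    with hA
  have hder : ∀ t ∈ Icc (0 : ℝ) 1, HasDerivAt A (g0 v0 v1) t := by
    intro t ht
    have hl : HasDerivAt (fun t : ℝ => t • v0) v0 t := by
      simpa using (hasDerivAt_id t).smul_const v0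
    have hl1 : HasDerivAt (fun t : ℝ => t • v1) v1 t := by
      simpa using (hasDerivAt_id t).smul_const v1
    have h1 : HasDerivAt (fun t => f (t • v0)) (fderiv ℝ f (t • v0) v0) t :=
      HasFDerivAt.comp_hasDerivAt (f := fun t : ℝ => t • v0) (l := f) t (hfd _) hl
    have h2 : HasDerivAt (fun t => g (f (t • v0)))
        (fderiv ℝ g (f (t • v0)) (fderiv ℝ f (t • v0) v0)) t :=
      HasFDerivAt.comp_hasDerivAt (f := fun t : ℝ => f (t • v0)) (l := g) t (hgd _) h1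
    have h3 : HasDerivAt (fun t : ℝ => fderiv ℝ f (t • v0))
        (fderiv ℝ (fderiv ℝ f) (t • v0) v0) t :=
      HasFDerivAt.comp_hasDerivAt (f := fun t : ℝ => t • v0) (l := fderiv ℝ f) t (hfd2 _) hl
    have h4 : HasDerivAt (fun t : ℝ => fderiv ℝ f (t • v0) v0)
        (fderiv ℝ (fderiv ℝ f) (t • v0) v0 v0) t := by
      simpa using h3.clm_apply (hasDerivAt_const t v0)
    have h5 := h3.clm_apply hl1
    have h6 := (h2.clm_apply h4).clm_apply h5
    refine h6.congr_deriv ?_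
    -- the derivative of the energy in `s`
    have k0 : HasDerivAt (fun s => t • v s) (t • v1) 0 := hv.const_smul t
    have k1 : HasDerivAt (fun s => f (t • v s)) (fderiv ℝ f (t • v 0) (t • v1)) 0 :=
      HasFDerivAt.comp_hasDerivAt (f := fun s : ℝ => t • v s) (l := f) 0 (hfd _) k0
    have k2 : HasDerivAt (fun s => g (f (t • v s)))
        (fderiv ℝ g (f (t • v 0)) (fderiv ℝ f (t • v 0) (t • v1))) 0 :=
      HasFDerivAt.comp_hasDerivAt (f := fun s : ℝ => f (t • v s)) (l := g) 0 (hgd _) k1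
    have k3 : HasDerivAt (fun s : ℝ => fderiv ℝ f (t • v s))
        (fderiv ℝ (fderiv ℝ f) (t • v 0) (t • v1)) 0 :=
      HasFDerivAt.comp_hasDerivAt (f := fun s : ℝ => t • v s) (l := fderiv ℝ f) 0 (hfd2 _) k0
    have k4 := k3.clm_apply hv
    have k5 := (k2.clm_apply k4).clm_apply k4
    have k6 : HasDerivAt (fun s => g0 (v s) (v s)) (g0 v1 (v 0) + g0 (v 0) v1) 0 := by
      have := ((hasDerivAt_const (0 : ℝ) g0).clm_apply hv).clm_apply hv
      simpa using this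
    have k7 := deriv_eq_zero_of_right (k5.sub k6) hε
      (fun s hs => sub_eq_zero.2 (hen t ht s hs))
    rw [hv0] at k7
    have m := hmem t ht
    have a1 := hacc t ht (fderiv ℝ f (t • v0) (t • v1))
    have s1 := hsym2 (t • v0) (t • v1) v0
    have s2 := hg0 v1 v0
    have s3 := hsymm _ m (fderiv ℝ (fderiv ℝ f) (t • v0) (t • v1) v0 + fderiv ℝ f (t • v0) v1)
      (fderiv ℝ f (t • v0) v0)
    simp only [add_apply, map_add] at k7 s3 ⊢
    rw [s1] at k7 s3
    linarith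
  have hcont : ContinuousOn (fun t => A t - t * g0 v0 v1) (Icc 0 1) := fun t ht =>
    (((hder t ht).sub ((hasDerivAt_id t).mul_const _)).continuousAt).continuousWithinAt
  have hconst := constant_of_derivWithin_zero (a := (0 : ℝ)) (b := 1)
    (f := fun t => A t - t * g0 v0 v1)
    (fun t ht => ((((hder t ht).sub ((hasDerivAt_id t).mul_const _))).differentiableAt).differentiableWithinAt)
    (fun t ht => by
      have ht' : t ∈ Icc (0 : ℝ) 1 := Ico_subset_Icc_self ht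
      have hh : HasDerivAt (fun t => A t - t * g0 v0 v1) (g0 v0 v1 - 1 * g0 v0 v1) t :=
        (hder t ht').sub ((hasDerivAt_id t).mul_const _)
      rw [hh.hasDerivWithinAt.derivWithin (uniqueDiffOn_Icc (by norm_num) t ht')]
      ring)
  have h1 := hconst 1 ⟨zero_le_one, le_rfl⟩
  simp only [hA, one_smul, zero_smul, map_zero, one_mul, zero_mul, sub_zero] at h1
  linarith

end Pool.Agent.W5h72.BR
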