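import Pool.Agent.W5h72.BR.Cone2

/-!
# Geodesics which are orthogonal to the geodesics from the source
-/

open Set Metric Filter Topology
open scoped ContDiff RealInnerProductSpace

noncomputable section

set_option maxSynthPendingDepth 3

namespace Pool.Agent.W5h72.BR

variable {E : Type*} [NormedAddCommGroup E] [InnerProductSpace ℝ E]

lemma deriv_even {f : ℝ → ℝ} {c : ℝ} (hf : HasDerivAt f c 0) (he : ∀ s, f (-s) = f s) :
    c = 0 := by
  have h1 : HasDerivAt (fun s => f (-s)) (-c) 0 := by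
    have h2 : HasDerivAt f c (-0) := by simpa using hf
    have h3 := HasDerivAt.comp (0 : ℝ) h2 (hasDerivAt_neg (0 : ℝ))
    have h4 : c * -1 = -c := by ring
    rw [h4] at h3
    exact h3
  have h2 : (fun s => f (-s)) = f := funext he
  rw [h2] at h1
  linarith [h1.unique hf]

namespace Src

variable {g g' : E → E →L[ℝ] E →L[ℝ] ℝ} {e L e' L' : E → E → E} {b : E} {A A' : E →L[ℝ] E}
variable [FiniteDimensional ℝ E]

/-- non-parallel directions -/
lemma dom_ext (S : Src g g' e L e' L' b A A') {x η : E} (hx : ‖x‖ < 1) (hη : η ≠ 0)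
    (hηb : g x η (L x b) = 0) (a : ℝ) :
    a • L x b + η ≠ 0 ∧ ext L x (a • L x b + η) ∈ Dom g x b := by
  have hxM := mem_of_norm_lt hx
  have key : ∀ c : ℝ, a • L x b + η ≠ c • L x b := by
    intro c hc
    have h1 : η = (c - a) • L x b := by rw [sub_smul, ← hc]; abel
    have h2 : g x η η = 0 := by
      have h3 := congrArg (g x η) h1
      rw [map_smul, hηb, smul_zero] at h3
      exact h3
    exact (S.h.pos x hxM η hη).ne' h2
  have hv0 : a • L x b + η ≠ 0 := fun h0 => key 0 (by rw [h0, zero_smul])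
  refine ⟨hv0, ?_⟩
  obtain ⟨h1, s, hs, h2⟩ := S.h.ext_spec hx hv0
  refine S.h.dom_of hx S.hb h1 fun c hc => ?_
  apply key (s⁻¹ * c)
  rw [← smul_smul, ← hc, h2, smul_smul, inv_mul_cancel₀ hs.ne', one_smul]

/-- the opposite direction gives the same crossing point -/
lemma antipode (S : Src g g' e L e' L' b A A') {x v : E} (hx : ‖x‖ < 1) (hv : v ≠ 0)
    (hD : ext L x v ∈ Dom g x b) :
    rt g g' L L' b (x, ext L x (-v)) = rt g g' L L' b (x, ext L x v) ∧
    Yf g g' L e' L' b A (x, ext L x (-v)) = Yf g g' L e' L' b A (x, ext L x v) ∧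
    rho g L x (ext L x (-v)) + rho g L x (ext L x v) =
      rho g' L' (Yf g g' L e' L' b A (x, ext L x v)) (ext L x (-v)) +
      rho g' L' (Yf g g' L e' L' b A (x, ext L x v)) (ext L x v) := by
  have hv' : -v ≠ 0 := neg_ne_zero.2 hv
  obtain ⟨hw, -⟩ := S.h.ext_spec hx hv
  obtain ⟨hw', -⟩ := S.h.ext_spec hx hv'
  have hseg := S.h.ext_neg hx hv
  set w := ext L x v with hwdef
  set w' := ext L x (-v) with hwdef'
  have hww := proj_of_mem hw
  have hww' := proj_of_mem hw'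
  have hw0 := ne_zero_of_mem_sphere' hw
  have hw0' := ne_zero_of_mem_sphere' hw'
  obtain ⟨h1, h2, h3⟩ := S.gam hx hw0
  obtain ⟨h1', h2', h3'⟩ := S.gam hx hw0'
  rw [hww] at h1 h3
  rw [hww'] at h1' h3'
  have hxw := ne_of_sphere hx hw
  have hxw' := ne_of_sphere hx hw'
  -- the second crossing point is also one for `w`
  have h4 : Gam g g' x w (Yf g g' L e' L' b A (x, w')) := by
    obtain ⟨-, q, hq, hxq, hyq⟩ := h1'
    have h5 : q = w := S.h.exit_uniq hw' hq hw hxw' hxq (by rw [seg_symm]; exact hseg)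
    rw [h5] at hyq
    exact ⟨hw, w', hw', hseg, by rw [seg_symm]; exact hyq⟩
  have h5 : Yf g g' L e' L' b A (x, w') = Yf g g' L e' L' b A (x, w) :=
    S.h.cross_unique S.h' hx h4 h2' h1 h2 hD
  refine ⟨?_, h5, ?_⟩
  · rw [rt, rt]
    simp only [hww, hww']
    rw [← h3, ← h3', h5]
  · have h6 : Yf g g' L e' L' b A (x, w) ∈ seg g' w w' := by
      obtain ⟨-, q, hq, hxq, hyq⟩ := h1
      rwa [S.h.exit_uniq hw hq hw' hxw hxq hseg] at hyq
    have h7 := S.h.rho_add (mem_of_sphere hw) (mem_of_sphere hw') hseg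
    have h8 := S.h'.rho_add (mem_of_sphere hw) (mem_of_sphere hw') h6
    rw [← S.hd w hw w' hw'] at h8
    linarith

/-- the derivative in `x` of the distance, in the radial direction, is the angle -/
lemma kap (S : Src g g' e L e' L' b A A') {x v : E} (hx : ‖x‖ < 1) (hv : v ≠ 0) :
    fderiv ℝ (RR g L) (x, ext L x v) (-L x b, 0) = g x v (L x b) / √(g x v v) := by
  obtain ⟨hw, s, hs, hL⟩ := S.h.ext_spec hx hv
  rw [S.h.fderiv_RR_left hx hw, rho, hL]
  simp only [map_smul, map_neg, smul_apply, smul_eq_mul]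
  rw [← mul_assoc, Real.sqrt_mul (mul_self_nonneg s), Real.sqrt_mul_self hs.le]
  have h1 : √(g x v v) ≠ 0 := (Real.sqrt_pos.2 (S.h.pos x (mem_of_norm_lt hx) v hv)).ne'
  have hs0 := hs.ne'
  field_simp

/-- derivatives along a curve of directions -/
lemma along (S : Src g g' e L e' L' b A A') {x : E} (hx : ‖x‖ < 1) {c : ℝ → E} {c' : E} {φ : ℝ}
    (hc : HasDerivAt c c' φ) (hc0 : c φ ≠ 0) (hD : ext L x (c φ) ∈ Dom g x b) :
    ∃ w', HasDerivAt (fun s => ext L x (c s)) w' φ ∧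
      HasDerivAt (fun s => g x (c s) (L x b) / √(g x (c s) (c s)))
        (fderiv ℝ (fderiv ℝ (RR g L)) (x, ext L x (c φ)) (-L x b, 0) (0, w')) φ ∧
      HasDerivAt (fun s => rt g g' L L' b (x, ext L x (c s)))
        (fderiv ℝ (rt g g' L L' b) (x, ext L x (c φ)) (0, w')) φ ∧
      HasDerivAt (fun s => Yf g g' L e' L' b A (x, ext L x (c s)))
        (fderiv ℝ (Yf g g' L e' L' b A) (x, ext L x (c φ)) (0, w')) φ := by
  have hw := hD.1
  have h1 : HasFDerivAt (fun u : E × E => ext L u.1 u.2)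
      (fderiv ℝ (fun u : E × E => ext L u.1 u.2) (x, c φ)) (x, c φ) :=
    ((S.h.ext_smooth hx hc0).differentiableAt (by simp)).hasFDerivAt
  have h2 : HasDerivAt (fun s => (x, c s)) ((0 : E), c') φ := (hasDerivAt_const φ x).prodMk hc
  have h3 : HasDerivAt (fun s => ext L x (c s))
      (fderiv ℝ (fun u : E × E => ext L u.1 u.2) (x, c φ) (0, c')) φ :=
    HasFDerivAt.comp_hasDerivAt (f := fun s => (x, c s))
      (l := fun u : E × E => ext L u.1 u.2) φ h1 h2
  set w' := fderiv ℝ (fun u : E × E => ext L u.1 u.2) (x, c φ) (0, c') with hw'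
  have h4 : HasDerivAt (fun s => (x, ext L x (c s))) ((0 : E), w') φ :=
    (hasDerivAt_const φ x).prodMk h3
  refine ⟨w', h3, ?_, ?_, ?_⟩
  · have hR := S.h.contDiffAt_RR hx hw
    have h5 : HasFDerivAt (dd (RR g L) (-L x b, 0))
        (fderiv ℝ (dd (RR g L) (-L x b, 0)) (x, ext L x (c φ))) (x, ext L x (c φ)) :=
      ((contDiffAt_dd hR (-L x b, 0)).differentiableAt (by simp)).hasFDerivAt
    have h6 := HasFDerivAt.comp_hasDerivAt (f := fun s => (x, ext L x (c s)))
      (l := dd (RR g L) (-L x b, 0)) φ h5 h4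
    have h7 : fderiv ℝ (fderiv ℝ (RR g L)) (x, ext L x (c φ)) (-L x b, 0) (0, w') =
        fderiv ℝ (dd (RR g L) (-L x b, 0)) (x, ext L x (c φ)) (0, w') := by
      rw [Simple.symm_snd hR, ← (dd_dd hR (0, w') (-L x b, 0)).self_of_nhds]
      rfl
    rw [h7]
    refine h6.congr_of_eventuallyEq ?_
    filter_upwards [hc.continuousAt.eventually_ne hc0] with s hs
    exact (S.kap hx hs).symm
  · have h5 : HasFDerivAt (rt g g' L L' b) (fderiv ℝ (rt g g' L L' b) (x, ext L x (c φ)))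
        (x, ext L x (c φ)) := ((S.rt_smooth hx hD).differentiableAt (by simp)).hasFDerivAt
    exact HasFDerivAt.comp_hasDerivAt (f := fun s => (x, ext L x (c s)))
      (l := rt g g' L L' b) φ h5 h4
  · have h5 : HasFDerivAt (Yf g g' L e' L' b A)
        (fderiv ℝ (Yf g g' L e' L' b A) (x, ext L x (c φ)))
        (x, ext L x (c φ)) := (((S.Yf_deriv hx hD).1).differentiableAt (by simp)).hasFDerivAt
    exact HasFDerivAt.comp_hasDerivAt (f := fun s => (x, ext L x (c s)))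
      (l := Yf g g' L e' L' b A) φ h5 h4

/-- the difference of the distances -/
def FF (g g' : E → E →L[ℝ] E →L[ℝ] ℝ) (L e' L' : E → E → E) (b : E) (A : E →L[ℝ] E)
    (u : E × E) : ℝ := RR g L u - RR g' L' (Yf g g' L e' L' b A u, u.2)

lemma FF_deriv (S : Src g g' e L e' L' b A A') {x w : E} (hx : ‖x‖ < 1) (hw : w ∈ Dom g x b) :
    ∃ D : E × E →L[ℝ] ℝ, HasFDerivAt (FF g g' L e' L' b A) D (x, w) ∧
      ∀ δ ζ, D (δ, ζ) = fderiv ℝ (RR g L) (x, w) (δ, 0) -
        fderiv ℝ (RR g' L') (Yf g g' L e' L' b A (x, w), w)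
          (fderiv ℝ (Yf g g' L e' L' b A) (x, w) (δ, ζ), 0) := by
  obtain ⟨hYb, -, -, -, -⟩ := S.point hx hw
  have hw0 := ne_zero_of_mem_sphere' hw.1
  have hYs := (S.Yf_deriv hx hw).1
  have d1 : HasFDerivAt (Yf g g' L e' L' b A) (fderiv ℝ (Yf g g' L e' L' b A) (x, w)) (x, w) :=
    (hYs.differentiableAt (by simp)).hasFDerivAt
  have d2 : HasFDerivAt (RR g L) (fderiv ℝ (RR g L) (x, w)) (x, w) :=
    ((S.h.contDiffAt_RR hx hw.1).differentiableAt (by simp)).hasFDerivAt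
  have d3 : HasFDerivAt (RR g' L')
      (fderiv ℝ (RR g' L') (Yf g g' L e' L' b A (x, w), w)) (Yf g g' L e' L' b A (x, w), w) :=
    ((S.h'.contDiffAt_RR hYb hw.1).differentiableAt (by simp)).hasFDerivAt
  have d4 := HasFDerivAt.comp (x, w) (f := fun u : E × E => (Yf g g' L e' L' b A u, u.2))
    (g := RR g' L') d3 (d1.prodMk hasFDerivAt_snd)
  refine ⟨_, d2.sub d4, fun δ ζ => ?_⟩
  have k5 := S.h.Phi_zero S.h' S.hd hx hYb hw0 (S.gam hx hw0).1
  have k6 := S.h.Phi_apply S.h' hx hYb hw0 ζ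
  rw [k5, zero_apply] at k6
  have k7 : fderiv ℝ (RR g' L') (Yf g g' L e' L' b A (x, w), w) (0, ζ) =
      fderiv ℝ (RR g L) (x, w) (0, ζ) := (sub_eq_zero.1 k6.symm)
  have k8 : (δ, ζ) = (δ, (0 : E)) + (0, ζ) := by simp
  have k9 : (fderiv ℝ (Yf g g' L e' L' b A) (x, w) (δ, ζ), ζ) =
      (fderiv ℝ (Yf g g' L e' L' b A) (x, w) (δ, ζ), (0 : E)) + (0, ζ) := by simp
  have k10 : (fderiv ℝ (RR g L) (x, w) - (fderiv ℝ (RR g' L')
      (Yf g g' L e' L' b A (x, w), w)).comp
      ((fderiv ℝ (Yf g g' L e' L' b A) (x, w)).prod (ContinuousLinearMap.snd ℝ E E))) (δ, ζ) =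
      fderiv ℝ (RR g L) (x, w) (δ, ζ) - fderiv ℝ (RR g' L')
      (Yf g g' L e' L' b A (x, w), w) (fderiv ℝ (Yf g g' L e' L' b A) (x, w) (δ, ζ), ζ) := rfl
  rw [k10, k9, map_add, k7]
  conv_lhs => rw [k8]
  rw [map_add, ← k8]
  ring

omit [FiniteDimensional ℝ E] in
/-- the value of `FF` -/
lemma FF_val (x w : E) (hw : w ∈ sphere (0 : E) 1) :
    FF g g' L e' L' b A (x, w) = rho g L x w - rho g' L' (Yf g g' L e' L' b A (x, w)) w := by
  simp only [FF, RR, proj_of_mem hw]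

end Src

end Pool.Agent.W5h72.BR
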