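import Pool.Agent.W5h72.BR.Horiz

/-!
# The orthogonal geodesics through a point
-/

open Set Metric Filter Topology
open scoped ContDiff RealInnerProductSpace

noncomputable section

set_option maxSynthPendingDepth 3

namespace Pool.Agent.W5h72.BR

variable {E : Type*} [NormedAddCommGroup E] [InnerProductSpace ℝ E] [FiniteDimensional ℝ E]

/-- a vector which is orthogonal to two vectors, with prescribed length -/
lemma exists_perp (hn : 2 < Module.finrank ℝ E) {B : E →L[ℝ] E →L[ℝ] ℝ}
    (hs : ∀ v w, B v w = B w v) (hp : ∀ v, v ≠ 0 → 0 < B v v) (a c : E) {k : ℝ} (hk : 0 < k) :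
    ∃ f : E, B f a = 0 ∧ B f c = 0 ∧ B f f = k := by
  obtain ⟨η, hη, h1, h2⟩ := exists_orth2 hn (J (B a)) (J (B c))
  rw [inner_J] at h1 h2
  have hη0 : η ≠ 0 := by rintro rfl; simp at hη
  have h3 := hp η hη0
  refine ⟨√(k / B η η) • η, ?_, ?_, ?_⟩
  · simp only [map_smul, smul_apply, smul_eq_mul]
    rw [hs η a, h1, mul_zero]
  · simp only [map_smul, smul_apply, smul_eq_mul]
    rw [hs η c, h2, mul_zero]
  · simp only [map_smul, smul_apply, smul_eq_mul]
    rw [← mul_assoc, Real.mul_self_sqrt (by positivity), div_mul_cancel₀ _ h3.ne']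

namespace Src

variable {g g' : E → E →L[ℝ] E →L[ℝ] ℝ} {e L e' L' : E → E → E} {b : E} {A A' : E →L[ℝ] E}

/-- the crossing point and the difference of distances do not change if the geodesic rotates about
the geodesic from the source -/
lemma rot (S : Src g g' e L e' L' b A A') {x e1 e2 : E} (hx : ‖x‖ < 1)
    (h1b : g x e1 (L x b) = 0) (h2b : g x e2 (L x b) = 0) (h12 : g x e2 e1 = 0)
    (hk : g x e2 e2 = g x e1 e1) (he1 : e1 ≠ 0) (ε φ : ℝ) :
    rt g g' L L' b (x, ext L x (ε • L x b + (Real.cos φ • e1 + Real.sin φ • e2))) =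
      rt g g' L L' b (x, ext L x (ε • L x b + e1)) ∧
    FF g g' L e' L' b A (x, ext L x (ε • L x b + (Real.cos φ • e1 + Real.sin φ • e2))) =
      FF g g' L e' L' b A (x, ext L x (ε • L x b + e1)) := by
  have hxM := mem_of_norm_lt hx
  have hk0 := S.h.pos x hxM e1 he1
  have hsy := S.h.symm x hxM
  set c : ℝ → E := fun φ => ε • L x b + (Real.cos φ • e1 + Real.sin φ • e2) with hc
  set c' : ℝ → E := fun φ => (-Real.sin φ) • e1 + Real.cos φ • e2 with hc'
  have hηη : ∀ φ, g x (Real.cos φ • e1 + Real.sin φ • e2) (Real.cos φ • e1 + Real.sin φ • e2) =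
      g x e1 e1 := by
    intro φ
    simp only [map_add, map_smul, add_apply, smul_apply, smul_eq_mul]
    rw [hsy e1 e2, h12, hk]
    linear_combination (g x e1 e1) * Real.cos_sq_add_sin_sq φ
  have hηb : ∀ φ, g x (Real.cos φ • e1 + Real.sin φ • e2) (L x b) = 0 := by
    intro φ
    simp only [map_add, map_smul, add_apply, smul_apply, smul_eq_mul]
    rw [h1b, h2b]
    ring
  have hη0 : ∀ φ, Real.cos φ • e1 + Real.sin φ • e2 ≠ 0 := by
    intro φ h0
    have h3 := hηη φ
    rw [h0] at h3
    simp only [map_zero] at h3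
    linarith
  have hD : ∀ φ, c φ ≠ 0 ∧ ext L x (c φ) ∈ Dom g x b := fun φ =>
    S.dom_ext hx (hη0 φ) (hηb φ) ε
  have hcd : ∀ φ, HasDerivAt c (c' φ) φ := by
    intro φ
    exact (((Real.hasDerivAt_cos φ).smul_const e1).add
      ((Real.hasDerivAt_sin φ).smul_const e2)).const_add (ε • L x b)
  -- the angle is constant
  have hconst : (fun s => g x (c s) (L x b) / √(g x (c s) (c s))) = fun _ =>
      ε * g x (L x b) (L x b) / √(ε ^ 2 * g x (L x b) (L x b) + g x e1 e1) := by
    funext s
    have k1 : g x (c s) (L x b) = ε * g x (L x b) (L x b) := by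
      simp only [hc]
      rw [map_add, add_apply, hηb, map_smul, smul_apply, smul_eq_mul, add_zero]
    have k2 : g x (c s) (c s) = ε ^ 2 * g x (L x b) (L x b) + g x e1 e1 := by
      have k3 : g x (c s) (c s) = ε * (g x (c s) (L x b)) +
          g x (c s) (Real.cos s • e1 + Real.sin s • e2) := by
        conv_lhs => rw [show c s = ε • L x b + (Real.cos s • e1 + Real.sin s • e2) from rfl,
          map_add (g x (ε • L x b + (Real.cos s • e1 + Real.sin s • e2))), map_smul, smul_eq_mul]
      rw [k3, k1, hsy (c s)]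
      simp only [hc]
      rw [map_add (g x (Real.cos s • e1 + Real.sin s • e2)), hηη, map_smul, hηb, smul_zero]
      ring
    rw [k1, k2]
  have hzero : ∀ φ, HasDerivAt (fun s => rt g g' L L' b (x, ext L x (c s))) 0 φ ∧
      HasDerivAt (fun s => FF g g' L e' L' b A (x, ext L x (c s))) 0 φ := by
    intro φ
    obtain ⟨hc0, hDφ⟩ := hD φ
    obtain ⟨w', k1, k2, k3, -⟩ := S.along hx (hcd φ) hc0 hDφ
    rw [hconst] at k2
    have k4 := k2.unique (hasDerivAt_const φ _)
    have k5 := (S.cone hx hDφ).2 w' k4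
    rw [k5] at k3
    refine ⟨k3, ?_⟩
    obtain ⟨D, hDF, hDv⟩ := S.FF_deriv hx hDφ
    have k6 : HasDerivAt (fun s => (x, ext L x (c s))) ((0 : E), w') φ :=
      (hasDerivAt_const φ x).prodMk k1
    have k7 := HasFDerivAt.comp_hasDerivAt (f := fun s => (x, ext L x (c s)))
      (l := FF g g' L e' L' b A) φ hDF k6
    have k8 : D (0, w') = 0 := by
      rw [hDv, (S.Yf_deriv hx hDφ).2, k5, map_zero, map_zero, map_zero, smul_zero, zero_smul,
        add_zero]
      have k9 : ((0 : E), (0 : E)) = 0 := rfl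
      rw [k9, map_zero, map_zero, sub_zero]
    rw [k8] at k7
    exact k7
  have hc0' : c 0 = ε • L x b + e1 := by simp [hc]
  constructor
  · have k1 := is_const_of_deriv_eq_zero (f := fun s => rt g g' L L' b (x, ext L x (c s)))
      (fun s => (hzero s).1.differentiableAt) (fun s => (hzero s).1.deriv) φ 0
    simp only [hc0'] at k1
    exact k1
  · have k1 := is_const_of_deriv_eq_zero (f := fun s => FF g g' L e' L' b A (x, ext L x (c s)))
      (fun s => (hzero s).2.differentiableAt) (fun s => (hzero s).2.deriv) φ 0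
    simp only [hc0'] at k1
    exact k1

/-- the main properties of the orthogonal geodesics -/
lemma flat (S : Src g g' e L e' L' b A A') (hn : 2 < Module.finrank ℝ E) {x e1 : E}
    (hx : ‖x‖ < 1) (h1b : g x e1 (L x b) = 0) (he1 : e1 ≠ 0) :
    ext L x e1 ∈ Dom g x b ∧ FF g g' L e' L' b A (x, ext L x e1) = 0 ∧
      ∀ ζ, fderiv ℝ (rt g g' L L' b) (x, ext L x e1) (0, ζ) = 0 := by
  have hxM := mem_of_norm_lt hx
  have hk0 := S.h.pos x hxM e1 he1
  have hsy := S.h.symm x hxM
  obtain ⟨e2, h2b, h21, hk⟩ := exists_perp hn hsy (S.h.pos x hxM) (L x b) e1 hk0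
  have hDom : ext L x e1 ∈ Dom g x b := by
    have := (S.dom_ext hx he1 h1b 0).2
    simpa using this
  have hww := hDom.1
  refine ⟨hDom, ?_, ?_⟩
  · obtain ⟨-, k1⟩ := S.rot hx h1b h2b h21 hk he1 0 Real.pi
    simp only [Real.cos_pi, Real.sin_pi, zero_smul, add_zero, zero_add, neg_smul, one_smul] at k1
    obtain ⟨-, k2, k3⟩ := S.antipode hx he1 hDom
    have hw' := (S.h.ext_spec hx (neg_ne_zero.2 he1)).1
    rw [FF_val _ _ hw', FF_val _ _ hww, k2] at k1
    rw [FF_val _ _ hww]
    linarith
  · -- the radial direction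
    set c : ℝ → E := fun ε => ε • L x b + e1 with hc
    have hc0 : c 0 = e1 := by simp [hc]
    have hcd : HasDerivAt c (L x b) 0 :=
      HasDerivAt.congr_deriv (f := c)
        (((hasDerivAt_id (0 : ℝ)).smul_const (L x b)).add_const e1) (by simp)
    have hD0 : ext L x (c 0) ∈ Dom g x b := by rw [hc0]; exact hDom
    obtain ⟨w', -, k2, k3, -⟩ := S.along hx hcd (by rw [hc0]; exact he1) hD0
    rw [hc0] at k2 k3
    have hcb : ∀ ε, g x (c ε) (L x b) = ε * g x (L x b) (L x b) := by
      intro ε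
      simp only [hc]
      rw [map_add, add_apply, h1b, map_smul, smul_apply, smul_eq_mul, add_zero]
    have hcc : ∀ ε, g x (c ε) (c ε) = ε ^ 2 * g x (L x b) (L x b) + g x e1 e1 := by
      intro ε
      simp only [hc, map_add, map_smul, add_apply, smul_apply, smul_eq_mul]
      rw [h1b, hsy (L x b) e1, h1b]
      ring
    have heven : ∀ s, rt g g' L L' b (x, ext L x (c (-s))) = rt g g' L L' b (x, ext L x (c s)) := by
      intro s
      obtain ⟨k4, -⟩ := S.rot hx h1b h2b h21 hk he1 s Real.pi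
      simp only [Real.cos_pi, Real.sin_pi, zero_smul, add_zero, neg_smul, one_smul] at k4
      have hv := S.dom_ext hx (neg_ne_zero.2 he1)
        (by rw [map_neg, neg_apply, h1b, neg_zero]) s
      obtain ⟨k5, -, -⟩ := S.antipode hx hv.1 hv.2
      have k6 : -(s • L x b + -e1) = c (-s) := by
        simp only [hc, neg_smul, neg_add, neg_neg]
      rw [k6] at k5
      rw [k5, k4]
    have k4 := deriv_even k3 heven
    -- the derivative of the angle
    set r := g x (L x b) (L x b) with hr
    set k := g x e1 e1 with hkdef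
    have hLb : L x b ≠ 0 := fun h0 =>
      ne_of_sphere hx S.hb ((S.h.L_eq_zero hxM (mem_of_sphere S.hb)).1 h0)
    have hr0 : 0 < r := S.h.pos x hxM _ hLb
    have k5 : HasDerivAt (fun s : ℝ => s * r / √(s ^ 2 * r + k)) (r / √k) 0 := by
      have h1 : HasDerivAt (fun s : ℝ => s ^ 2 * r + k) 0 0 := by
        have := (((hasDerivAt_id (0 : ℝ)).pow 2).mul_const r).add_const k
        simpa using this
      have h2 := h1.sqrt (by simp only [ne_eq, OfNat.ofNat_ne_zero, not_false_eq_true, zero_pow,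
        zero_mul, zero_add]; exact hk0.ne')
      have h3 : HasDerivAt (fun s : ℝ => s * r) r 0 := by
        simpa using (hasDerivAt_id (0 : ℝ)).mul_const r
      have h4 := h3.div h2 (by
        simp only [ne_eq, OfNat.ofNat_ne_zero, not_false_eq_true, zero_pow, zero_mul, zero_add]
        exact (Real.sqrt_pos.2 hk0).ne')
      refine HasDerivAt.congr_deriv (f := fun s : ℝ => s * r / √(s ^ 2 * r + k)) h4 ?_
      have h5 : √k ≠ 0 := (Real.sqrt_pos.2 hk0).ne'
      simp only [ne_eq, OfNat.ofNat_ne_zero, not_false_eq_true, zero_pow, zero_mul, zero_add,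
        zero_div, mul_zero, sub_zero]
      field_simp
    have k6 : (fun s => g x (c s) (L x b) / √(g x (c s) (c s))) =
        fun s : ℝ => s * r / √(s ^ 2 * r + k) := by
      funext s
      rw [hcb, hcc]
    rw [k6] at k2
    have k7 := k2.unique k5
    have hm : 0 < r / √k := div_pos hr0 (Real.sqrt_pos.2 hk0)
    intro ζ
    set w := ext L x e1 with hw
    set HR := fderiv ℝ (fderiv ℝ (RR g L)) (x, w) with hHR
    set D := fderiv ℝ (rt g g' L L' b) (x, w) with hDdef
    set a := HR (-L x b, 0) (0, ζ) / (r / √k) with ha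
    have k8 : HR (-L x b, 0) (0, ζ - a • w') = 0 := by
      have k9 : ((0 : E), ζ - a • w') = (0, ζ) - a • ((0 : E), w') := by simp
      rw [k9, map_sub, map_smul, k7, smul_eq_mul, ha, div_mul_cancel₀ _ hm.ne', sub_self]
    have k10 := (S.cone hx hDom).2 _ k8
    have k9 : ((0 : E), ζ - a • w') = (0, ζ) - a • ((0 : E), w') := by simp
    rw [k9, map_sub, map_smul, k4, smul_zero, sub_zero] at k10
    exact k10

/-- all the orthogonal geodesics have the same crossing point -/
lemma indep (S : Src g g' e L e' L' b A A') (hn : 2 < Module.finrank ℝ E) {x e1 e3 : E}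
    (hx : ‖x‖ < 1) (h1b : g x e1 (L x b) = 0) (h3b : g x e3 (L x b) = 0) (he1 : e1 ≠ 0)
    (he3 : e3 ≠ 0) :
    rt g g' L L' b (x, ext L x e3) = rt g g' L L' b (x, ext L x e1) := by
  have hxM := mem_of_norm_lt hx
  have hk0 := S.h.pos x hxM e1 he1
  have hk3 := S.h.pos x hxM e3 he3
  have hsy := S.h.symm x hxM
  set k := g x e1 e1 with hk
  -- normalisation
  set c := √(k / g x e3 e3) with hc
  have hc0 : 0 < c := Real.sqrt_pos.2 (div_pos hk0 hk3)
  have hcc : c * c * g x e3 e3 = k := by
    rw [hc, Real.mul_self_sqrt (div_pos hk0 hk3).le, div_mul_cancel₀ _ hk3.ne']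
  rw [← S.h.ext_smul hx he3 hc0]
  obtain ⟨e4, he4⟩ : ∃ e4, e4 = c • e3 := ⟨_, rfl⟩
  rw [← he4]
  have h4b : g x e4 (L x b) = 0 := by rw [he4, map_smul, smul_apply, h3b, smul_zero]
  have h44 : g x e4 e4 = k := by
    rw [he4]
    simp only [map_smul, smul_apply, smul_eq_mul]
    rw [← mul_assoc, hcc]
  obtain ⟨α, hα⟩ : ∃ α, α = g x e4 e1 / k := ⟨_, rfl⟩
  obtain ⟨f, hf⟩ : ∃ f, f = e4 - α • e1 := ⟨_, rfl⟩
  have hfb : g x f (L x b) = 0 := by
    rw [hf, map_sub, sub_apply, h4b, map_smul, smul_apply, h1b, smul_zero, sub_zero]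
  have hf1 : g x f e1 = 0 := by
    rw [hf, map_sub, sub_apply, map_smul, smul_apply, smul_eq_mul, hα, ← hk,
      div_mul_cancel₀ _ hk0.ne', sub_self]
  have hff : g x f f = k - α ^ 2 * k := by
    have h1 : g x f f = g x f e4 := by
      have h0 := congrArg (g x f) hf
      rw [map_sub, map_smul, hf1, smul_zero, sub_zero] at h0
      exact h0
    rw [h1, hf, map_sub, sub_apply, h44, map_smul, smul_apply, smul_eq_mul, hsy e1 e4]
    have h2 : g x e4 e1 = α * k := by rw [hα, div_mul_cancel₀ _ hk0.ne']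
    rw [h2]
    ring
  have he4f : e4 = α • e1 + f := by rw [hf]; abel
  by_cases hf0 : f = 0
  · have h1 : α ^ 2 = 1 := by
      rw [hf0] at hff
      simp only [map_zero] at hff
      have : k * (α ^ 2 - 1) = 0 := by linarith
      rcases mul_eq_zero.1 this with h | h
      · exact absurd h hk0.ne'
      · linarith
    have h2 : α = 1 ∨ α = -1 := by
      have : (α - 1) * (α + 1) = 0 := by linarith [sq α]
      rcases mul_eq_zero.1 this with h | h
      · left; linarith
      · right; linarith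
    rcases h2 with h2 | h2
    · rw [he4f, hf0, h2, one_smul, add_zero]
    · rw [he4f, hf0, h2, neg_smul, one_smul, add_zero]
      exact (S.antipode hx he1 (S.flat hn hx h1b he1).1).1
  · have hff0 := S.h.pos x hxM f hf0
    set β := √(1 - α ^ 2) with hβ
    have hα2 : 0 < 1 - α ^ 2 := by
      rw [hff] at hff0
      have : 0 < k * (1 - α ^ 2) := by linarith
      exact (mul_pos_iff_of_pos_left hk0).1 this
    have hβ0 : 0 < β := Real.sqrt_pos.2 hα2
    have hβ2 : β * β = 1 - α ^ 2 := Real.mul_self_sqrt hα2.le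
    obtain ⟨e2, he2⟩ : ∃ e2, e2 = β⁻¹ • f := ⟨_, rfl⟩
    have h2b : g x e2 (L x b) = 0 := by rw [he2, map_smul, smul_apply, hfb, smul_zero]
    have h21 : g x e2 e1 = 0 := by rw [he2, map_smul, smul_apply, hf1, smul_zero]
    have h22 : g x e2 e2 = g x e1 e1 := by
      rw [he2]
      simp only [map_smul, smul_apply, smul_eq_mul]
      rw [hff, ← hk]
      field_simp
      rw [sq β, hβ2]
    obtain ⟨k1, -⟩ := S.rot hx h1b h2b h21 h22 he1 0 (Real.arccos α)
    have hα1 : -1 ≤ α := by nlinarith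
    have hα1' : α ≤ 1 := by nlinarith
    rw [Real.cos_arccos hα1 hα1', Real.sin_arccos, ← hβ, he2, smul_smul,
      mul_inv_cancel₀ hβ0.ne', one_smul, zero_smul, zero_add, zero_add, ← he4f] at k1
    exact k1

end Src

end Pool.Agent.W5h72.BR
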