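import Pool.Agent.W5h72.BR.Two

/-!
# From concurrency to an isometry
-/

open Set Metric Filter Topology
open scoped ContDiff RealInnerProductSpace

noncomputable section

namespace Pool.Agent.W5h72.BR

variable {E : Type*} [NormedAddCommGroup E] [InnerProductSpace ℝ E]

/-- `x'` is on the geodesic of `g'` from `p` to `q` whenever `x` is on the geodesic of `g` from
`p` to `q` -/
def Conc (g g' : E → E →L[ℝ] E →L[ℝ] ℝ) (x x' : E) : Prop :=
  ∀ p ∈ sphere (0 : E) 1, ∀ q ∈ sphere (0 : E) 1, x ∈ seg g p q → x' ∈ seg g' p q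

variable [FiniteDimensional ℝ E]

namespace Simple

variable {g g' : E → E →L[ℝ] E →L[ℝ] ℝ} {e L e' L' : E → E → E}

/-- B3 -/
lemma conc_interior (h : Simple g e L) (h' : Simple g' e' L') (hn : 1 < Module.finrank ℝ E)
    {x x' : E} (hx : ‖x‖ < 1) (hx' : x' ∈ closedBall (0 : E) 1) (hc : Conc g g' x x') :
    ‖x'‖ < 1 := by
  refine lt_of_le_of_ne (by simpa using hx') fun hb => ?_
  have hS : x' ∈ sphere (0 : E) 1 := by simpa using hb
  -- every geodesic through `x` ends in `x'`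
  have key : ∀ p ∈ sphere (0 : E) 1, x' ≠ p → x ∈ seg g x' p := by
    intro p hp hne
    obtain ⟨q, hq, hpq, hxq⟩ := h.exists_exit hp hx
    have h1 := hc p hp q hq hxq
    have h2 : x' = q := by
      by_contra hne2
      have := h'.seg_interior (mem_of_sphere hp) (mem_of_sphere hq) h1 hne hne2
      linarith
    rw [seg_symm, h2]; exact hxq
  obtain ⟨ξ, hξ1, hξ2⟩ := exists_orth hn x'
  have hx'0 : x' ≠ 0 := ne_zero_of_mem_sphere' hS
  have hne1 : x' ≠ -x' := by
    intro h0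
    have : (2 : ℝ) • x' = 0 := by rw [two_smul]; nth_rw 2 [h0]; simp
    rcases smul_eq_zero.1 this with h1 | h1
    · norm_num at h1
    · exact hx'0 h1
  have hξ0 : ξ ≠ 0 := by
    rintro rfl; simp at hξ1
  have hne2 : x' ≠ ξ := by
    rintro rfl
    rw [real_inner_self_eq_norm_sq] at hξ2
    rw [hξ1] at hξ2; norm_num at hξ2
  have hne3 : -x' ≠ ξ := by
    rintro rfl
    rw [inner_neg_right, real_inner_self_eq_norm_sq, hb] at hξ2
    norm_num at hξ2
  have hS1 : -x' ∈ sphere (0 : E) 1 := by simpa using hb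
  have hS2 : ξ ∈ sphere (0 : E) 1 := by simpa using hξ1
  exact hne3 (h.exit_uniq hS hS1 hS2 (ne_of_sphere hx hS) (key _ hS1 hne1) (key _ hS2 hne2))

/-- B4 -/
lemma conc_rho (h : Simple g e L) (h' : Simple g' e' L') (hn : 1 < Module.finrank ℝ E)
    (hd : ∀ p ∈ sphere (0 : E) 1, ∀ q ∈ sphere (0 : E) 1, rho g L p q = rho g' L' p q)
    {x x' : E} (hx : ‖x‖ < 1) (hx' : x' ∈ closedBall (0 : E) 1) (hc : Conc g g' x x')
    {p : E} (hp : p ∈ sphere (0 : E) 1) : rho g L x p = rho g' L' x' p := by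
  have hx1 := h.conc_interior h' hn hx hx' hc
  have hxM := mem_of_norm_lt hx
  set f : E → ℝ := fun y => rho g' L' x' (proj y) - rho g L x (proj y) with hf
  have hder : ∀ y : E, y ≠ 0 → HasFDerivAt f (0 : E →L[ℝ] ℝ) y := by
    intro y hy
    have hpy := proj_mem hy
    have h1 := h.hasFDerivAt_rho_proj hxM hy (ne_of_sphere hx hpy)
    have h2 := h'.hasFDerivAt_rho_proj hx' hy (ne_of_sphere hx1 hpy)
    refine HasFDerivAt.congr_fderiv (f := f) (h2.sub h1) ?_
    obtain ⟨q, hq, hpq, hxq⟩ := h.exists_exit hpy hx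
    ext w
    simp only [sub_apply, neg_apply, ContinuousLinearMap.comp_apply, zero_apply]
    rw [h.dir_tan_seg h' hd hpy hq hpq hxq (hc _ hpy _ hq hxq) (ne_of_sphere hx hpy)
      (ne_of_sphere hx1 hpy) (inner_Dproj hy w)]
    ring
  have hconn : IsConnected ({(0 : E)}ᶜ : Set E) := by
    apply isConnected_compl_singleton_of_one_lt_rank
    rw [← Module.finrank_eq_rank]
    exact_mod_cast hn
  have hconst : ∀ y z : E, y ≠ 0 → z ≠ 0 → f y = f z := fun y z hy hz =>
    isOpen_compl_singleton.is_const_of_fderiv_eq_zero hconn.isPreconnected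
      (fun w hw => (hder w hw).differentiableAt.differentiableWithinAt)
      (fun w hw => (hder w hw).fderiv) hy hz
  obtain ⟨q, hq, hpq, hxq⟩ := h.exists_exit hp hx
  have h1 := h.rho_add (mem_of_sphere hp) (mem_of_sphere hq) hxq
  have h2 := h'.rho_add (mem_of_sphere hp) (mem_of_sphere hq) (hc p hp q hq hxq)
  have h3 := hconst p q (ne_zero_of_mem_sphere' hp) (ne_zero_of_mem_sphere' hq)
  simp only [hf, proj_of_mem hp, proj_of_mem hq] at h3
  rw [hd p hp q hq] at h1
  linarith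

omit [FiniteDimensional ℝ E] in
/-- B5 -/
lemma metric_tan_self (h : Simple g e L) (h' : Simple g' e' L')
    (hd : ∀ p ∈ sphere (0 : E) 1, ∀ q ∈ sphere (0 : E) 1, rho g L p q = rho g' L' p q)
    {p η : E} (hp : p ∈ sphere (0 : E) 1) (hη : inner ℝ p η = 0) : g p η η = g' p η η := by
  have hpM := mem_of_sphere hp
  have hp0 := ne_zero_of_mem_sphere' hp
  set c : ℝ → E := fun s => proj (p + s • η) with hc
  have hc0 : c 0 = p := by simp [hc, proj_of_mem hp]
  have hcd : HasDerivAt c η 0 := by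
    have h1 : HasDerivAt (fun s : ℝ => p + s • η) η 0 := by
      simpa using ((hasDerivAt_id (0 : ℝ)).smul_const η).const_add p
    have h2 := HasFDerivAt.comp_hasDerivAt_of_eq (f := fun s : ℝ => p + s • η)
      (l := proj (E := E)) (0 : ℝ) (hasFDerivAt_proj hp0) h1 (by simp)
    rw [Dproj_apply hp hη] at h2
    exact h2
  have hcS : ∀ s : ℝ, c s ∈ sphere (0 : E) 1 := by
    intro s
    apply proj_mem
    intro h0
    have : inner ℝ p (p + s • η) = 1 := by
      rw [inner_add_right, inner_smul_right, hη, real_inner_self_eq_norm_sq, norm_of_sphere hp]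
      norm_num
    rw [h0] at this
    simp at this
  have key : ∀ {g : E → E →L[ℝ] E →L[ℝ] ℝ} {e L : E → E → E}, Simple g e L →
      Tendsto (fun s : ℝ => (s⁻¹ * rho g L p (c s)) ^ 2) (𝓝[≠] 0) (𝓝 (g p η η)) := by
    intro g e L h
    have h1 : HasDerivAt (fun s => L p (c s)) η 0 := by
      have := HasFDerivAt.comp_hasDerivAt_of_eq (f := c) (l := L p) (0 : ℝ)
        (h.hasFDerivAt_L p p) hcd hc0.symm
      rwa [h.D_id hpM] at this
    have h2 := hasDerivAt_iff_tendsto_slope.1 h1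
    have h3 : Continuous fun v : E => g p v v := by fun_prop
    refine ((h3.tendsto η).comp h2).congr fun s => ?_
    simp only [Function.comp, slope_def_module, hc0, h.L_self hpM, sub_zero, map_smul,
      smul_apply, smul_eq_mul]
    rw [mul_pow, h.rho_sq hpM]
    ring
  have h1 := key h
  have h2 := key h'
  refine tendsto_nhds_unique h1 (h2.congr fun s => ?_)
  rw [hd p hp (c s) (hcS s)]

omit [FiniteDimensional ℝ E] in
lemma metric_tan (h : Simple g e L) (h' : Simple g' e' L')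
    (hd : ∀ p ∈ sphere (0 : E) 1, ∀ q ∈ sphere (0 : E) 1, rho g L p q = rho g' L' p q)
    {p η ζ : E} (hp : p ∈ sphere (0 : E) 1) (hη : inner ℝ p η = 0) (hζ : inner ℝ p ζ = 0) :
    g p η ζ = g' p η ζ := by
  have hpM := mem_of_sphere hp
  have h1 := h.metric_tan_self h' hd hp hη
  have h2 := h.metric_tan_self h' hd hp hζ
  have h3 := h.metric_tan_self h' hd hp (η := η + ζ) (by rw [inner_add_right, hη, hζ, add_zero])
  simp only [map_add, add_apply] at h3
  rw [h.symm p hpM ζ η, h'.symm p hpM ζ η] at h3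
  linarith

/-- **Concurrency implies isometry** -/
theorem isometry_of_conc (h : Simple g e L) (h' : Simple g' e' L')
    (hn : 1 < Module.finrank ℝ E)
    (hd : ∀ p ∈ sphere (0 : E) 1, ∀ q ∈ sphere (0 : E) 1, rho g L p q = rho g' L' p q)
    (hc : ∀ x : E, ‖x‖ < 1 → ∃ x' ∈ closedBall (0 : E) 1, Conc g g' x x') :
    ∃ ψ χ : E → E, ContDiff ℝ ∞ ψ ∧ ContDiff ℝ ∞ χ ∧
      (∀ x ∈ closedBall (0 : E) 1, ψ x ∈ closedBall (0 : E) 1 ∧ χ (ψ x) = x) ∧
      (∀ y ∈ closedBall (0 : E) 1, χ y ∈ closedBall (0 : E) 1 ∧ ψ (χ y) = y) ∧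
      (∀ p ∈ sphere (0 : E) 1, ψ p = p) ∧
      ∀ x ∈ closedBall (0 : E) 1, ∀ v w,
        g' (ψ x) (fderiv ℝ ψ x v) (fderiv ℝ ψ x w) = g x v w := by
  obtain ⟨p, hp⟩ : ∃ p : E, p ∈ sphere (0 : E) 1 := by
    obtain ⟨ξ, hξ, -⟩ := exists_orth hn 0
    exact ⟨ξ, by simpa using hξ⟩
  have hpM := mem_of_sphere hp
  have hp0 := ne_zero_of_mem_sphere' hp
  obtain ⟨A, A', hAA', hA'A, hA⟩ := exists_A (h.symm p hpM) (h.pos p hpM) (h'.symm p hpM)
    (h'.pos p hpM) hp0 (fun η ζ hη hζ => h.metric_tan h' hd hp hη hζ)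
  set ψ : E → E := fun x => e' p (A (L p x)) with hψ
  set χ : E → E := fun y => e p (A' (L' p y)) with hχ
  have hψs : ContDiff ℝ ∞ ψ :=
    (h'.e_smooth_right p).comp (A.contDiff.comp (h.L_smooth_right p))
  have hχs : ContDiff ℝ ∞ χ :=
    (h.e_smooth_right p).comp (A'.contDiff.comp (h'.L_smooth_right p))
  -- the correspondence of points
  have hpt : ∀ x x' : E, ‖x‖ < 1 → x' ∈ closedBall (0 : E) 1 → Conc g g' x x' →
      L' p x' = A (L p x) ∧ ψ x = x' := by
    intro x x' hx hx' hcx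
    have hx1 := h.conc_interior h' hn hx hx' hcx
    have hxM := mem_of_norm_lt hx
    have hpx : p ≠ x := (ne_of_sphere hx hp).symm
    have hpx' : p ≠ x' := (ne_of_sphere hx1 hp).symm
    obtain ⟨q, hq, hpq, hxq⟩ := h.exists_exit hp hx
    have h1 := h.conc_rho h' hn hd hx hx' hcx hp
    rw [h.rho_symm hxM hpM, h'.rho_symm hx' hpM] at h1
    have hr : rho g L p x ≠ 0 := (h.rho_pos hpM hxM hpx).ne'
    have h2 : L' p x' = A (L p x) := by
      refine hA _ _ (h.L_inward hp hxM hpx) (h'.L_inward hp hx' hpx') ?_ ?_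
      · intro η hη
        have h3 := h.dir_tan_seg h' hd hp hq hpq hxq (hcx _ hp _ hq hxq) hpx.symm hpx'.symm hη
        simp only [dir, smul_apply, smul_eq_mul] at h3
        rw [← h1] at h3
        exact mul_left_cancel₀ (inv_ne_zero hr) h3
      · rw [← h.rho_sq hpM, ← h'.rho_sq hpM, h1]
    refine ⟨h2, ?_⟩
    rw [hψ]
    simp only
    rw [← h2, h'.e_L hpM hx']
  have hball : ∀ x : E, ‖x‖ < 1 → ‖ψ x‖ < 1 ∧ Conc g g' x (ψ x) ∧ L' p (ψ x) = A (L p x) := by
    intro x hx
    obtain ⟨x', hx', hcx⟩ := hc x hx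
    obtain ⟨h1, h2⟩ := hpt x x' hx hx' hcx
    rw [h2]
    exact ⟨h.conc_interior h' hn hx hx' hcx, hcx, h1⟩
  have hclos : closedBall (0 : E) 1 = closure (ball (0 : E) 1) :=
    (closure_ball (0 : E) one_ne_zero).symm
  have ext_closed : ∀ {P : E → Prop}, IsClosed {x | P x} → (∀ x, ‖x‖ < 1 → P x) →
      ∀ x ∈ closedBall (0 : E) 1, P x := by
    intro P hP hb x hx
    have h1 : closure (ball (0 : E) 1) ⊆ {x | P x} :=
      closure_minimal (fun y hy => hb y (by simpa using hy)) hP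
    exact h1 (hclos ▸ hx)
  have hψc : Continuous ψ := hψs.continuous
  have hχc : Continuous χ := hχs.continuous
  have hψM : ∀ x ∈ closedBall (0 : E) 1, ψ x ∈ closedBall (0 : E) 1 :=
    ext_closed (isClosed_closedBall.preimage hψc) fun x hx => mem_of_norm_lt (hball x hx).1
  have hL : ∀ x ∈ closedBall (0 : E) 1, L' p (ψ x) = A (L p x) :=
    ext_closed (isClosed_eq ((h'.L_smooth_right p).continuous.comp hψc)
      (A.continuous.comp (h.L_smooth_right p).continuous)) fun x hx => (hball x hx).2.2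
  have hχψ : ∀ x ∈ closedBall (0 : E) 1, χ (ψ x) = x := by
    intro x hx
    rw [hχ]
    simp only
    rw [hL x hx, hAA', h.e_L hpM hx]
  have hen : ∀ q ∈ sphere (0 : E) 1, ∀ x ∈ closedBall (0 : E) 1,
      g' q (L' q (ψ x)) (L' q (ψ x)) = g q (L q x) (L q x) := by
    intro q hq
    have hqM := mem_of_sphere hq
    refine ext_closed (isClosed_eq ?_ ?_) fun x hx => ?_
    · have h1 : Continuous fun x => L' q (ψ x) := (h'.L_smooth_right q).continuous.comp hψc
      exact ((g' q).continuous.comp h1).clm_apply h1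
    · have h1 : Continuous (L q) := (h.L_smooth_right q).continuous
      exact ((g q).continuous.comp h1).clm_apply h1
    · obtain ⟨k1, k2, -⟩ := hball x hx
      have := h.conc_rho h' hn hd hx (mem_of_norm_lt k1) k2 hq
      rw [← h.energy_symm (mem_of_norm_lt hx) hqM, ← h'.energy_symm (mem_of_norm_lt k1) hqM,
        ← h.rho_sq (mem_of_norm_lt hx), ← h'.rho_sq (mem_of_norm_lt k1), this]
  have hψS : ∀ q ∈ sphere (0 : E) 1, ψ q = q := by
    intro q hq
    have hqM := mem_of_sphere hq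
    have h1 := hen q hq q hqM
    rw [h.L_self hqM] at h1
    by_contra hne
    have h2 := h'.pos q hqM (L' q (ψ q)) fun h0 =>
      hne ((h'.L_eq_zero hqM (hψM q hqM)).1 h0).symm
    rw [h1] at h2
    simp at h2
  -- surjectivity
  have hsurj : ∀ y : E, ‖y‖ < 1 → ∃ x : E, ‖x‖ < 1 ∧ ψ x = y := by
    intro y hy
    have hpy : p ≠ y := (ne_of_sphere hy hp).symm
    obtain ⟨q, hq, t, ht, hy1, hy2⟩ := h'.exit_seg hpM hy hpy
    have hqM := mem_of_sphere hq
    have ht' := Ioo_subset_Icc_self ht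
    have hpq : p ≠ q := by
      rintro rfl
      rw [h'.L_self hpM, smul_zero, h'.e_zero hpM] at hy1
      exact hpy hy1.symm
    set x := e p (t • L p q) with hxdef
    have hx : ‖x‖ < 1 := h.pt_interior hpM hqM hpq ht
    refine ⟨x, hx, ?_⟩
    obtain ⟨k1, k2, k3⟩ := hball x hx
    have hxq : x ∈ seg g p q := (h.mem_seg hpM hqM).2 ⟨t, ht', rfl⟩
    obtain ⟨t', ht'', hx'⟩ := (h'.mem_seg hpM hqM).1 (k2 p hp q hq hxq)
    have h1 := h.conc_rho h' hn hd hx (mem_of_norm_lt k1) k2 hp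
    rw [h.rho_symm (mem_of_norm_lt hx) hpM, h'.rho_symm (mem_of_norm_lt k1) hpM, hx', hxdef,
      h.rho_pt hpM hqM ht', h'.rho_pt hpM hqM ht'', hd p hp q hq] at h1
    have h2 : t = t' := mul_right_cancel₀ (h'.rho_pos hpM hqM hpq).ne' h1
    rw [hx', ← h2, ← hy1]
  have hχM : ∀ y ∈ closedBall (0 : E) 1, χ y ∈ closedBall (0 : E) 1 := by
    refine ext_closed (isClosed_closedBall.preimage hχc) fun y hy => ?_
    obtain ⟨x, hx, rfl⟩ := hsurj y hy
    show χ (ψ x) ∈ closedBall (0 : E) 1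
    rw [hχψ x (mem_of_norm_lt hx)]
    exact mem_of_norm_lt hx
  have hψχ : ∀ y ∈ closedBall (0 : E) 1, ψ (χ y) = y := by
    refine ext_closed (isClosed_eq (hψc.comp hχc) continuous_id) fun y hy => ?_
    obtain ⟨x, hx, rfl⟩ := hsurj y hy
    show ψ (χ (ψ x)) = ψ x
    rw [hχψ x (mem_of_norm_lt hx)]
  -- the metric
  have hder : ∀ x : E, ‖x‖ < 1 → ∀ q ∈ sphere (0 : E) 1, ∀ w,
      g' (ψ x) (L' (ψ x) q) (fderiv ℝ ψ x w) = g x (L x q) w := by
    intro x hx q hq w
    have hqM := mem_of_sphere hq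
    have hxM := mem_of_norm_lt hx
    have hd1 := h.hasFDerivAt_energy hqM hxM
    have hψd : HasFDerivAt ψ (fderiv ℝ ψ x) x := (hψs.differentiable (by simp) x).hasFDerivAt
    have hd2 := (h'.hasFDerivAt_energy hqM (hψM x hxM)).comp x hψd
    have hev : (fun y => g q (L q y) (L q y)) =ᶠ[𝓝 x]
        (fun y => g' q (L' q y) (L' q y)) ∘ ψ := by
      filter_upwards [isOpen_ball.mem_nhds (show x ∈ ball (0 : E) 1 by simpa using hx)] with y hy
      exact (hen q hq y (ball_subset_closedBall hy)).symm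
    have h1 := hd1.unique (hd2.congr_of_eventuallyEq hev)
    have h2 := congrArg (fun f : E →L[ℝ] ℝ => f w) h1
    simp only [smul_apply, ContinuousLinearMap.comp_apply, smul_eq_mul] at h2
    linarith
  have hnorm : ∀ x : E, ‖x‖ < 1 → ∀ w, g' (ψ x) (fderiv ℝ ψ x w) (fderiv ℝ ψ x w) = g x w w := by
    intro x hx w
    have hxM := mem_of_norm_lt hx
    obtain ⟨k1, k2, -⟩ := hball x hx
    have hyM := mem_of_norm_lt k1
    have hr : ∀ q ∈ sphere (0 : E) 1, rho g L x q = rho g' L' (ψ x) q := fun q hq =>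
      h.conc_rho h' hn hd hx hyM k2 hq
    have h1 : √(g x w w) ≤ √(g' (ψ x) (fderiv ℝ ψ x w) (fderiv ℝ ψ x w)) := by
      by_cases hw : w = 0
      · subst hw; simp
      obtain ⟨q, hq, s, hs, hLs⟩ := h.exit_dir hx hw
      have e1 := hder x hx q hq w
      have e2 := cs (h'.symm _ hyM) (h'.pos _ hyM) (L' (ψ x) q) (fderiv ℝ ψ x w)
      have e3 := hr q hq
      rw [e1, hLs] at e2
      change _ ≤ rho g' L' (ψ x) q * _ at e2
      rw [← e3, rho, hLs] at e2
      simp only [map_smul, smul_apply, smul_eq_mul] at e2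
      rw [← mul_assoc, Real.sqrt_mul (mul_self_nonneg s), Real.sqrt_mul_self hs.le,
        abs_of_nonneg (mul_nonneg hs.le (h.nonneg hxM w)), mul_assoc] at e2
      have e4 := le_of_mul_le_mul_left e2 hs
      have hw0 : 0 < √(g x w w) := Real.sqrt_pos.2 (h.pos x hxM w hw)
      refine le_of_mul_le_mul_left ?_ hw0
      rwa [Real.mul_self_sqrt (h.nonneg hxM w)]
    have h2 : √(g' (ψ x) (fderiv ℝ ψ x w) (fderiv ℝ ψ x w)) ≤ √(g x w w) := by
      by_cases hw : fderiv ℝ ψ x w = 0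
      · rw [hw]; simp
      obtain ⟨q, hq, s, hs, hLs⟩ := h'.exit_dir k1 hw
      have e1 := hder x hx q hq w
      have e2 := cs (h.symm _ hxM) (h.pos _ hxM) (L x q) w
      have e3 := hr q hq
      rw [← e1, hLs] at e2
      change _ ≤ rho g L x q * _ at e2
      rw [e3, rho, hLs] at e2
      simp only [map_smul, smul_apply, smul_eq_mul] at e2
      rw [← mul_assoc, Real.sqrt_mul (mul_self_nonneg s), Real.sqrt_mul_self hs.le,
        abs_of_nonneg (mul_nonneg hs.le (h'.nonneg hyM _)), mul_assoc] at e2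
      have e4 := le_of_mul_le_mul_left e2 hs
      have hw0 : 0 < √(g' (ψ x) (fderiv ℝ ψ x w) (fderiv ℝ ψ x w)) :=
        Real.sqrt_pos.2 (h'.pos _ hyM _ hw)
      refine le_of_mul_le_mul_left ?_ hw0
      rwa [Real.mul_self_sqrt (h'.nonneg hyM _)]
    have h3 := le_antisymm h2 h1
    rwa [Real.sqrt_inj (h'.nonneg hyM _) (h.nonneg hxM _)] at h3
  have hmet : ∀ v w, ∀ x ∈ closedBall (0 : E) 1,
      g' (ψ x) (fderiv ℝ ψ x v) (fderiv ℝ ψ x w) = g x v w := by
    intro v w
    refine ext_closed (isClosed_eq ?_ ?_) fun x hx => ?_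
    · have h1 : Continuous fun x => g' (ψ x) := h'.smooth.continuous.comp hψc
      have h2 : Continuous (fderiv ℝ ψ) := hψs.continuous_fderiv (by simp)
      exact (h1.clm_apply (h2.clm_apply continuous_const)).clm_apply (h2.clm_apply continuous_const)
    · have h1 : Continuous g := h.smooth.continuous
      fun_prop
    · have hxM := mem_of_norm_lt hx
      have hyM := mem_of_norm_lt (hball x hx).1
      have e1 := hnorm x hx v
      have e2 := hnorm x hx w
      have e3 := hnorm x hx (v + w)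
      simp only [map_add, add_apply] at e3
      rw [h.symm x hxM w v, h'.symm _ hyM (fderiv ℝ ψ x w) (fderiv ℝ ψ x v)] at e3
      linarith
  exact ⟨ψ, χ, hψs, hχs, fun x hx => ⟨hψM x hx, hχψ x hx⟩, fun y hy => ⟨hχM y hy, hψχ y hy⟩,
    hψS, fun x hx v w => hmet v w x hx⟩

end Simple

end Pool.Agent.W5h72.BR
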