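import Pool.Agent.W5h72.BR.OneSource

/-!
# Tools for the criterion with jets in one boundary point
-/

open Set Metric Filter Topology
open scoped ContDiff RealInnerProductSpace

noncomputable section

set_option maxSynthPendingDepth 3

namespace Pool.Agent.W5h72.BR

variable {E : Type*} [NormedAddCommGroup E] [InnerProductSpace ℝ E] [FiniteDimensional ℝ E]

/-- two simple metrics with the same boundary distances, and a boundary point `b` -/
structure Bas (g g' : E → E →L[ℝ] E →L[ℝ] ℝ) (e L e' L' : E → E → E) (b : E)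
    (A A' : E →L[ℝ] E) : Prop where
  h : Simple g e L
  h' : Simple g' e' L'
  hb : b ∈ sphere (0 : E) 1
  hd : ∀ p ∈ sphere (0 : E) 1, ∀ q ∈ sphere (0 : E) 1, rho g L p q = rho g' L' p q
  hAA : ∀ u, A' (A u) = u
  hAA' : ∀ u, A (A' u) = u
  hAL : ∀ q ∈ sphere (0 : E) 1, A (L b q) = L' b q

namespace Simple

variable {g : E → E →L[ℝ] E →L[ℝ] ℝ} {e L : E → E → E}

/-- a function which is stationary along the spheres with centre `b` and equal to one on the
boundary -/
lemma transport (h : Simple g e L) (hn : 1 < Module.finrank ℝ E) {b : E}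
    (hb : b ∈ sphere (0 : E) 1) {Z : E → ℝ}
    (hZder : ∀ x : E, ‖x‖ < 1 → ∃ D : E →L[ℝ] ℝ, HasFDerivAt Z D x ∧
      ∀ δ, g x δ (L x b) = 0 → D δ = 0)
    (hZb : ∀ q ∈ sphere (0 : E) 1, b ≠ q → Tendsto Z (𝓝[ball 0 1] q) (𝓝 1)) {x : E}
    (hx : ‖x‖ < 1) : Z x = 1 := by
  have hbM := mem_of_sphere hb
  have hxM := mem_of_norm_lt hx
  obtain ⟨q0, hq0, t, ht, hx1, hx2⟩ := h.exit_seg hbM hx (ne_of_sphere hx hb).symm
  have hq0M := mem_of_sphere hq0
  obtain ⟨η, hη, hqη, s1, hs1, hbs⟩ := great_circle hn hq0 hb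
  set Qc : ℝ → E := fun s => Real.cos s • q0 + Real.sin s • η with hQc
  have hQS : ∀ s, Qc s ∈ sphere (0 : E) 1 := by
    intro s
    have h1 : ‖Qc s‖ ^ 2 = 1 := by
      simp only [hQc]
      rw [norm_add_sq_real, norm_smul, norm_smul, norm_of_sphere hq0, hη, inner_smul_left,
        inner_smul_right, hqη]
      simp only [Real.norm_eq_abs, mul_one, sq_abs, mul_zero, add_zero]
      exact Real.cos_sq_add_sin_sq s
    have h2 : ‖Qc s‖ = 1 := by nlinarith [norm_nonneg (Qc s)]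
    simpa using h2
  have hQ0 : Qc 0 = q0 := by simp [hQc]
  have hQc1 : ∀ s, HasDerivAt Qc ((-Real.sin s) • q0 + Real.cos s • η) s := fun s =>
    ((Real.hasDerivAt_cos s).smul_const q0).add ((Real.hasDerivAt_sin s).smul_const η)
  have hbq0 : b ≠ q0 := by
    rintro rfl
    rw [h.L_self hbM, smul_zero, h.e_zero hbM] at hx1
    exact ne_of_sphere hx hq0 hx1
  set r := rho g L b x with hr
  have hr0 : 0 < r := h.rho_pos hbM hxM (ne_of_sphere hx hb).symm
  set ϱ : ℝ → ℝ := fun s => rho g L b (Qc s) with hϱ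
  have hϱc : Continuous ϱ := (h.continuous_rho b).comp
    (continuous_iff_continuousAt.2 fun s => (hQc1 s).continuousAt)
  have hrt0 : r = t * ϱ 0 := by
    simp only [hϱ, hQ0, hr]
    conv_lhs => rw [hx1]
    rw [h.rho_pt hbM hq0M (Ioo_subset_Icc_self ht)]
  have hϱ0 : 0 < ϱ 0 := by
    simp only [hϱ, hQ0]
    exact h.rho_pos hbM hq0M hbq0
  have hϱ0r : r < ϱ 0 := by
    rw [hrt0]
    nlinarith [ht.2]
  have hϱ1 : ϱ s1 = 0 := by
    simp only [hϱ]
    rw [show Qc s1 = b from hbs.symm, h.rho_self hbM]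
  -- the curve of points
  set X : ℝ → E := fun s => e b ((r / ϱ s) • L b (Qc s)) with hX
  have hX0 : X 0 = x := by
    simp only [hX]
    have h1 : r / ϱ 0 = t := by rw [hrt0, mul_div_assoc, div_self hϱ0.ne', mul_one]
    rw [h1, hQ0, ← hx1]
  have hQb : ∀ s, r < ϱ s → b ≠ Qc s := by
    intro s hs h0
    simp only [hϱ] at hs
    rw [← h0, h.rho_self hbM] at hs
    linarith
  have hXb : ∀ s, r < ϱ s → ‖X s‖ < 1 ∧ rho g L b (X s) = r := by
    intro s hs
    have hs0 : 0 < ϱ s := hr0.trans hs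
    have h1 : r / ϱ s ∈ Ioo (0 : ℝ) 1 := ⟨div_pos hr0 hs0, (div_lt_one hs0).2 hs⟩
    refine ⟨h.pt_interior hbM (mem_of_sphere (hQS s)) (hQb s hs) h1, ?_⟩
    simp only [hX]
    rw [h.rho_pt hbM (mem_of_sphere (hQS s)) (Ioo_subset_Icc_self h1)]
    exact div_mul_cancel₀ _ hs0.ne'
  have hXd : ∀ s, r < ϱ s → ∃ X', HasDerivAt X X' s := by
    intro s hs
    have hs0 : 0 < ϱ s := hr0.trans hs
    obtain ⟨c, hc⟩ : ∃ c, HasDerivAt ϱ c s :=
      ⟨_, HasFDerivAt.comp_hasDerivAt (f := Qc) (l := rho g L b) s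
        (h.hasFDerivAt_rho hbM (mem_of_sphere (hQS s)) (hQb s hs)) (hQc1 s)⟩
    have h1 : HasDerivAt (fun s => L b (Qc s))
        (fderiv ℝ (L b) (Qc s) ((-Real.sin s) • q0 + Real.cos s • η)) s :=
      HasFDerivAt.comp_hasDerivAt (f := Qc) (l := L b) s (h.hasFDerivAt_L b (Qc s)) (hQc1 s)
    have h2 := ((hasDerivAt_const s r).div hc hs0.ne').smul h1
    exact ⟨_, HasFDerivAt.comp_hasDerivAt (f := fun s => (r / ϱ s) • L b (Qc s)) (l := e b) s
      (h.hasFDerivAt_e b _) h2⟩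
  have hZd : ∀ s, r < ϱ s → HasDerivAt (fun s => Z (X s)) 0 s := by
    intro s hs
    obtain ⟨hXs, hXr⟩ := hXb s hs
    obtain ⟨X', hX'⟩ := hXd s hs
    have hXM := mem_of_norm_lt hXs
    have hev : ∀ᶠ s' in 𝓝 s, r < ϱ s' := hϱc.continuousAt.eventually_const_lt hs
    have h1 : HasDerivAt (fun s => rho g L b (X s))
        ((-(rho g L b (X s))⁻¹ • g (X s) (L (X s) b)) X') s :=
      HasFDerivAt.comp_hasDerivAt (f := X) (l := rho g L b) s
        (h.hasFDerivAt_rho hbM hXM (ne_of_sphere hXs hb).symm) hX'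
    have h2 : (fun s => rho g L b (X s)) =ᶠ[𝓝 s] fun _ => r := by
      filter_upwards [hev] with s' hs' using (hXb s' hs').2
    have h3 := h1.unique ((hasDerivAt_const s r).congr_of_eventuallyEq h2)
    have h4 : g (X s) X' (L (X s) b) = 0 := by
      rw [h.symm (X s) hXM]
      simp only [smul_apply, smul_eq_mul] at h3
      rcases mul_eq_zero.1 h3 with k | k
      · rw [hXr, neg_eq_zero] at k
        exact absurd k (inv_ne_zero hr0.ne')
      · exact k
    obtain ⟨D, hD, hD0⟩ := hZder _ hXs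
    have h5 := HasFDerivAt.comp_hasDerivAt (f := X) (l := Z) s hD hX'
    rw [hD0 X' h4] at h5
    exact h5
  -- the first time at which the boundary is reached
  set T : Set ℝ := {s | 0 ≤ s ∧ ϱ s ≤ r} with hT
  have hTc : IsClosed T := (isClosed_Ici (a := (0 : ℝ))).inter (isClosed_le hϱc continuous_const)
  have hTne : T.Nonempty := ⟨s1, hs1, by rw [hϱ1]; exact hr0.le⟩
  have hTb : BddBelow T := ⟨0, fun s hs => hs.1⟩
  have hmem : sInf T ∈ T := hTc.csInf_mem hTne hTb
  set s0 := sInf T with hs0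
  have hlt : ∀ s, 0 ≤ s → s < s0 → r < ϱ s := by
    intro s h1 h2
    by_contra hcon
    push Not at hcon
    exact absurd (csInf_le hTb (show s ∈ T from ⟨h1, hcon⟩)) (not_le.2 h2)
  have hs0pos : 0 < s0 := by
    refine lt_of_le_of_ne hmem.1 fun h0 => ?_
    have := hmem.2
    rw [← h0] at this
    linarith
  have hϱs0 : ϱ s0 = r := by
    refine le_antisymm hmem.2 ?_
    have h1 : Tendsto ϱ (𝓝[<] s0) (𝓝 (ϱ s0)) := (hϱc.tendsto s0).mono_left nhdsWithin_le_nhds
    refine ge_of_tendsto h1 ?_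
    filter_upwards [Ioo_mem_nhdsLT hs0pos] with s hs
    exact (hlt s hs.1.le hs.2).le
  have hconst : ∀ s, 0 ≤ s → s < s0 → Z (X s) = Z x := by
    intro s h1 h2
    have h3 := constant_of_has_deriv_right_zero (f := fun s => Z (X s))
      (a := 0) (b := s)
      (fun s' hs' => ((hZd s' (hlt s' hs'.1 (hs'.2.trans_lt h2))).continuousAt).continuousWithinAt)
      (fun s' hs' => (hZd s' (hlt s' hs'.1 (hs'.2.trans h2))).hasDerivWithinAt) s ⟨h1, le_rfl⟩
    simp only [hX0] at h3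
    exact h3
  -- the limit
  have hQs0 : b ≠ Qc s0 := by
    intro h0
    have h1 : ϱ s0 = 0 := by
      simp only [hϱ]
      rw [← h0, h.rho_self hbM]
    rw [h1] at hϱs0
    linarith
  have hXlim : Tendsto X (𝓝[<] s0) (𝓝[ball 0 1] (Qc s0)) := by
    refine tendsto_nhdsWithin_iff.2 ⟨?_, ?_⟩
    · have h1 : ContinuousAt X s0 := by
        have h2 : ContinuousAt (fun s => (r / ϱ s) • L b (Qc s)) s0 := by
          refine ContinuousAt.smul ?_ ?_
          · exact continuousAt_const.div hϱc.continuousAt (by rw [hϱs0]; exact hr0.ne')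
          · exact ContinuousAt.comp (f := Qc) (x := s0)
              (h.L_smooth_right b).continuous.continuousAt (hQc1 s0).continuousAt
        exact ContinuousAt.comp (f := fun s => (r / ϱ s) • L b (Qc s)) (x := s0)
          (h.e_smooth_right b).continuous.continuousAt h2
      have h2 : X s0 = Qc s0 := by
        simp only [hX]
        rw [hϱs0, div_self hr0.ne', one_smul, h.e_L hbM (mem_of_sphere (hQS s0))]
      have h3 := h1.tendsto.mono_left (nhdsWithin_le_nhds (s := Iio s0))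
      rwa [h2] at h3
    · filter_upwards [Ioo_mem_nhdsLT hs0pos] with s hs
      have := (hXb s (hlt s hs.1.le hs.2)).1
      simpa using this
  have hlim := (hZb _ (hQS s0) hQs0).comp hXlim
  refine tendsto_nhds_unique (l := 𝓝[<] s0) (tendsto_const_nhds.congr' ?_) hlim
  filter_upwards [Ioo_mem_nhdsLT hs0pos] with s hs
  exact (hconst s hs.1.le hs.2).symm

end Simple

namespace Bas

variable {g g' : E → E →L[ℝ] E →L[ℝ] ℝ} {e L e' L' : E → E → E} {b : E} {A A' : E →L[ℝ] E}

lemma eq_Pt (S : Bas g g' e L e' L' b A A') {x y : E} (hx : ‖x‖ < 1) (hG : Gam g g' x b y) :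
    0 ≤ rho g' L' b y / rho g L b x ∧ y = Pt e' L b A x (rho g' L' b y / rho g L b x) ∧
      (rho g' L' b y / rho g L b x) • A (L b x) = L' b y := by
  have hbM := mem_of_sphere S.hb
  obtain ⟨q, hq, t, ht, hx1, hx2⟩ := S.h.exit_seg hbM hx (ne_of_sphere hx S.hb).symm
  have hqM := mem_of_sphere hq
  obtain ⟨-, q2, hq2, hxq2, hy⟩ := hG
  have hxq : x ∈ seg g b q := (S.h.mem_seg hbM hqM).2 ⟨t, Ioo_subset_Icc_self ht, hx1⟩
  obtain rfl := S.h.exit_uniq S.hb hq hq2 (ne_of_sphere hx S.hb) hxq hxq2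
  have hbq : b ≠ q := by
    rintro rfl
    rw [S.h.L_self hbM, smul_zero, S.h.e_zero hbM] at hx1
    exact ne_of_sphere hx hq hx1
  obtain ⟨s, hs, hys⟩ := (S.h'.mem_seg hbM hqM).1 hy
  have hr1 : rho g L b x = t * rho g L b q := by
    rw [hx1, S.h.rho_pt hbM hqM (Ioo_subset_Icc_self ht)]
  have hr2 : rho g' L' b y = s * rho g' L' b q := by rw [hys, S.h'.rho_pt hbM hqM hs]
  have hr0 := S.h.rho_pos hbM hqM hbq
  have e1 : rho g' L' b y / rho g L b x = s / t := by
    rw [hr1, hr2, ← S.hd b S.hb q hq]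
    field_simp
  have e2 : (s / t) • A (L b x) = s • L' b q := by
    rw [hx2, map_smul, S.hAL q hq, smul_smul, div_mul_cancel₀ _ ht.1.ne']
  rw [e1, Pt, e2]
  refine ⟨div_nonneg hs.1 ht.1.le, hys, ?_⟩
  rw [hys, S.h'.L_pt hbM hqM hs]

/-- the map `ψ` on the interior -/
lemma psi_int (S : Bas g g' e L e' L' b A A') {x : E} (hx : ‖x‖ < 1) :
    ‖Pt e' L b A x 1‖ < 1 ∧ L' b (Pt e' L b A x 1) = A (L b x) := by
  have hbM := mem_of_sphere S.hb
  obtain ⟨q, hq, t, ht, hx1, hx2⟩ := S.h.exit_seg hbM hx (ne_of_sphere hx S.hb).symm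
  have hqM := mem_of_sphere hq
  have hbq : b ≠ q := by
    rintro rfl
    rw [S.h.L_self hbM, smul_zero, S.h.e_zero hbM] at hx1
    exact ne_of_sphere hx hq hx1
  have h1 : Pt e' L b A x 1 = e' b (t • L' b q) := by
    rw [Pt, one_smul, hx2, map_smul, S.hAL q hq]
  rw [h1, hx2, map_smul, S.hAL q hq]
  exact ⟨S.h'.pt_interior hbM hqM hbq ht, S.h'.L_pt hbM hqM (Ioo_subset_Icc_self ht)⟩

omit [FiniteDimensional ℝ E] in
lemma psi_bdry (S : Bas g g' e L e' L' b A A') {q : E} (hq : q ∈ sphere (0 : E) 1) :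
    Pt e' L b A q 1 = q := by
  rw [Pt, one_smul, S.hAL q hq, S.h'.e_L (mem_of_sphere S.hb) (mem_of_sphere hq)]

lemma chi_int (S : Bas g g' e L e' L' b A A') {y : E} (hy : ‖y‖ < 1) :
    ‖Pt e L' b A' y 1‖ < 1 ∧ L b (Pt e L' b A' y 1) = A' (L' b y) := by
  have hbM := mem_of_sphere S.hb
  obtain ⟨q, hq, t, ht, hx1, hx2⟩ := S.h'.exit_seg hbM hy (ne_of_sphere hy S.hb).symm
  have hqM := mem_of_sphere hq
  have hbq : b ≠ q := by
    rintro rfl
    rw [S.h'.L_self hbM, smul_zero, S.h'.e_zero hbM] at hx1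
    exact ne_of_sphere hy hq hx1
  have h0 : A' (L' b q) = L b q := by rw [← S.hAL q hq, S.hAA]
  have h1 : Pt e L' b A' y 1 = e b (t • L b q) := by
    rw [Pt, one_smul, hx2, map_smul, h0]
  rw [h1, hx2, map_smul, h0]
  exact ⟨S.h.pt_interior hbM hqM hbq ht, S.h.L_pt hbM hqM (Ioo_subset_Icc_self ht)⟩

omit [FiniteDimensional ℝ E] in
lemma chi_bdry (S : Bas g g' e L e' L' b A A') {q : E} (hq : q ∈ sphere (0 : E) 1) :
    Pt e L' b A' q 1 = q := by
  rw [Pt, one_smul, ← S.hAL q hq, S.hAA, S.h.e_L (mem_of_sphere S.hb) (mem_of_sphere hq)]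

omit [FiniteDimensional ℝ E] in
lemma psi_smooth (S : Bas g g' e L e' L' b A A') : ContDiff ℝ ∞ (fun x => Pt e' L b A x 1) := by
  have h1 : ContDiff ℝ ∞ (fun x => (1 : ℝ) • A (L b x)) :=
    contDiff_const.smul (A.contDiff.comp (S.h.L_smooth_right b))
  exact (S.h'.e_smooth_right b).comp h1

omit [FiniteDimensional ℝ E] in
lemma chi_smooth (S : Bas g g' e L e' L' b A A') : ContDiff ℝ ∞ (fun x => Pt e L' b A' x 1) := by
  have h1 : ContDiff ℝ ∞ (fun x => (1 : ℝ) • A' (L' b x)) :=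
    contDiff_const.smul (A'.contDiff.comp (S.h'.L_smooth_right b))
  exact (S.h.e_smooth_right b).comp h1

/-- the derivative of `ψ` -/
lemma psi_deriv (S : Bas g g' e L e' L' b A A') {x : E} (hx : ‖x‖ < 1) (δ : E) :
    fderiv ℝ (fun x => Pt e' L b A x 1) x δ =
      fderiv ℝ (e' b) (L' b (Pt e' L b A x 1)) (A (fderiv ℝ (L b) x δ)) := by
  have h1 : HasFDerivAt (fun x => A (L b x)) (A.comp (fderiv ℝ (L b) x)) x :=
    A.hasFDerivAt.comp x (S.h.hasFDerivAt_L b x)
  have h2 : HasFDerivAt (e' b) (fderiv ℝ (e' b) (L' b (Pt e' L b A x 1))) (A (L b x)) := by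
    rw [(S.psi_int hx).2]
    exact S.h'.hasFDerivAt_e b _
  have h3 := HasFDerivAt.comp x (f := fun x => A (L b x)) (g := e' b) h2 h1
  have h4 : (fun x => Pt e' L b A x 1) = fun x => e' b (A (L b x)) := by
    funext y
    rw [Pt, one_smul]
  rw [h4]
  have h5 : HasFDerivAt (fun x => e' b (A (L b x))) _ x := h3
  rw [h5.fderiv]
  simp [Pt]

/-- the two metrics are isometric -/
theorem isometric (S : Bas g g' e L e' L' b A A')
    (hiso : ∀ x : E, ‖x‖ < 1 → ∀ v w, g' (Pt e' L b A x 1)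
      (fderiv ℝ (fun x => Pt e' L b A x 1) x v)
      (fderiv ℝ (fun x => Pt e' L b A x 1) x w) = g x v w) :
    BoundaryIsometric g g' := by
  have hbM := mem_of_sphere S.hb
  have hcases : ∀ x ∈ closedBall (0 : E) 1, ‖x‖ < 1 ∨ x ∈ sphere (0 : E) 1 := by
    intro x hx
    rcases lt_or_eq_of_le (show ‖x‖ ≤ 1 by simpa using hx) with h | h
    · exact Or.inl h
    · exact Or.inr (by simpa using h)
  refine ⟨fun x => Pt e' L b A x 1, fun y => Pt e L' b A' y 1, S.psi_smooth, S.chi_smooth,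
    fun x hx => ?_, fun y hy => ?_, fun p hp => S.psi_bdry hp, ?_⟩
  · rcases hcases x hx with h | h
    · obtain ⟨h1, h2⟩ := S.psi_int h
      refine ⟨mem_of_norm_lt h1, ?_⟩
      simp only
      rw [Pt, h2, S.hAA, one_smul, S.h.e_L hbM hx]
    · simp only
      rw [S.psi_bdry h]
      exact ⟨hx, S.chi_bdry h⟩
  · rcases hcases y hy with h | h
    · obtain ⟨h1, h2⟩ := S.chi_int h
      refine ⟨mem_of_norm_lt h1, ?_⟩
      simp only
      rw [Pt, h2, S.hAA', one_smul, S.h'.e_L hbM hy]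
    · simp only
      rw [S.chi_bdry h]
      exact ⟨hy, S.psi_bdry h⟩
  · have hclos : closedBall (0 : E) 1 = closure (ball (0 : E) 1) :=
      (closure_ball (0 : E) one_ne_zero).symm
    intro x hx v w
    have hP : IsClosed {x : E | g' (Pt e' L b A x 1) (fderiv ℝ (fun x => Pt e' L b A x 1) x v)
        (fderiv ℝ (fun x => Pt e' L b A x 1) x w) = g x v w} := by
      refine isClosed_eq ?_ ?_
      · have h0 : Continuous fun x => Pt e' L b A x 1 := S.psi_smooth.continuous
        have h1 : Continuous fun x => g' (Pt e' L b A x 1) := S.h'.smooth.continuous.comp h0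
        have h2 : Continuous (fderiv ℝ (fun x => Pt e' L b A x 1)) :=
          S.psi_smooth.continuous_fderiv (by simp)
        exact (h1.clm_apply (h2.clm_apply continuous_const)).clm_apply
          (h2.clm_apply continuous_const)
      · have h1 : Continuous g := S.h.smooth.continuous
        exact (h1.clm_apply continuous_const).clm_apply continuous_const
    have h1 : closure (ball (0 : E) 1) ⊆ {x : E | g' (Pt e' L b A x 1)
        (fderiv ℝ (fun x => Pt e' L b A x 1) x v)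
        (fderiv ℝ (fun x => Pt e' L b A x 1) x w) = g x v w} :=
      closure_minimal (fun y hy => hiso y (by simpa using hy) v w) hP
    rw [hclos] at hx
    exact h1 hx

end Bas

/-- construction of the data -/
lemma exists_bas {g g' : E → E →L[ℝ] E →L[ℝ] ℝ} {e L e' L' : E → E → E} {b : E}
    (h : Simple g e L) (h' : Simple g' e' L')
    (hd : ∀ p ∈ sphere (0 : E) 1, ∀ q ∈ sphere (0 : E) 1, rho g L p q = rho g' L' p q)
    (hb : b ∈ sphere (0 : E) 1) :
    ∃ A A' : E →L[ℝ] E, Bas g g' e L e' L' b A A' := by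
  have hbM := mem_of_sphere hb
  have hb0 := ne_zero_of_mem_sphere' hb
  obtain ⟨A, A', hAA', hA'A, hA⟩ := exists_A (h.symm b hbM) (h.pos b hbM) (h'.symm b hbM)
    (h'.pos b hbM) hb0 (fun η ζ hη hζ => h.metric_tan h' hd hb hη hζ)
  refine ⟨A, A', h, h', hb, hd, hAA', hA'A, ?_⟩
  · intro q hq
    have hqM := mem_of_sphere hq
    by_cases hbq : b = q
    · rw [← hbq, h.L_self hbM, h'.L_self hbM, map_zero]
    · have hr := h.rho_pos hbM hqM hbq
      refine (hA _ _ (h.L_inward hb hqM hbq) (h'.L_inward hb hqM hbq) (fun η hη => ?_) ?_).symm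
      · have h1 := h.dir_tan h' hd hb hq hbq hη
        simp only [Simple.dir, smul_apply, smul_eq_mul] at h1
        rw [← hd b hb q hq] at h1
        exact mul_left_cancel₀ (inv_ne_zero hr.ne') h1
      · rw [← h.rho_sq hbM, ← h'.rho_sq hbM, hd b hb q hq]


end Pool.Agent.W5h72.BR
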