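import Pool.Agent.W5h72.BR.Jet1

/-!
# Linear algebra and calculus for jets of order three
-/

open Set Metric Filter Topology
open scoped ContDiff RealInnerProductSpace

noncomputable section

set_option maxSynthPendingDepth 3

namespace Pool.Agent.W5h72.BR

variable {E : Type*} [NormedAddCommGroup E] [InnerProductSpace ℝ E]

section calculus

/-- the first three derivatives of a composition with a function whose first three derivatives
vanish -/
lemma chain3 {F : Type*} [NormedAddCommGroup F] [NormedSpace ℝ F] {f : F → ℝ} {p : ℝ → F} {b : F}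
    (hf : ContDiffAt ℝ ∞ f b) (hp : ContDiffAt ℝ ∞ p 0) (p0 : p 0 = b) (h1 : fderiv ℝ f b = 0)
    (h2 : fderiv ℝ (fderiv ℝ f) b = 0) (h3 : fderiv ℝ (fderiv ℝ (fderiv ℝ f)) b = 0) :
    deriv (fun s => f (p s)) 0 = 0 ∧ deriv (deriv (fun s => f (p s))) 0 = 0 ∧
      deriv (deriv (deriv (fun s => f (p s)))) 0 = 0 := by
  have hpt : Tendsto p (𝓝 0) (𝓝 b) := by
    have := hp.continuousAt.tendsto
    rwa [p0] at this
  have hf1 : ContDiffAt ℝ ∞ (fderiv ℝ f) b := hf.fderiv_right (m := ∞) (by simp)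
  have hf2 : ContDiffAt ℝ ∞ (fderiv ℝ (fderiv ℝ f)) b := hf1.fderiv_right (m := ∞) (by simp)
  have hp1 : ContDiffAt ℝ ∞ (deriv p) 0 := by
    have h4 : ContDiffAt ℝ ∞ (fun s => fderiv ℝ p s 1) 0 :=
      (hp.fderiv_right (m := ∞) (by simp)).clm_apply contDiffAt_const
    exact h4
  have hp2 : ContDiffAt ℝ ∞ (deriv (deriv p)) 0 := by
    have h4 : ContDiffAt ℝ ∞ (fun s => fderiv ℝ (deriv p) s 1) 0 :=
      (hp1.fderiv_right (m := ∞) (by simp)).clm_apply contDiffAt_const
    exact h4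
  -- first derivative
  have e1 : deriv (fun s => f (p s)) =ᶠ[𝓝 0] fun s => fderiv ℝ f (p s) (deriv p s) := by
    filter_upwards [hpt.eventually (ev_diff hf), ev_diff hp] with s k1 k2
    exact (HasFDerivAt.comp_hasDerivAt (f := p) (l := f) s k1.hasFDerivAt k2.hasDerivAt).deriv
  -- second derivative
  have e2 : deriv (fun s => fderiv ℝ f (p s) (deriv p s)) =ᶠ[𝓝 0]
      fun s => fderiv ℝ (fderiv ℝ f) (p s) (deriv p s) (deriv p s) +
        fderiv ℝ f (p s) (deriv (deriv p) s) := by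
    filter_upwards [hpt.eventually (ev_diff hf1), ev_diff hp, ev_diff hp1] with s k1 k2 k3
    have k4 := HasFDerivAt.comp_hasDerivAt (f := p) (l := fderiv ℝ f) s k1.hasFDerivAt
      k2.hasDerivAt
    exact (HasDerivAt.clm_apply (c := fun s => fderiv ℝ f (p s)) k4 k3.hasDerivAt).deriv
  have e12 : deriv (deriv (fun s => f (p s))) =ᶠ[𝓝 0]
      fun s => fderiv ℝ (fderiv ℝ f) (p s) (deriv p s) (deriv p s) +
        fderiv ℝ f (p s) (deriv (deriv p) s) := e1.deriv.trans e2
  refine ⟨?_, ?_, ?_⟩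
  · rw [e1.self_of_nhds]
    simp only
    rw [p0, h1]
    rfl
  · rw [e12.self_of_nhds]
    simp only
    rw [p0, h1, h2]
    simp
  · rw [e12.deriv_eq]
    have k1 : HasDerivAt (fun s => fderiv ℝ (fderiv ℝ f) (p s)) 0 0 := by
      have k2 : HasFDerivAt (fderiv ℝ (fderiv ℝ f)) (fderiv ℝ (fderiv ℝ (fderiv ℝ f)) b) (p 0) := by
        rw [p0]; exact (hf2.differentiableAt (by simp)).hasFDerivAt
      have k3 := HasFDerivAt.comp_hasDerivAt (f := p) (l := fderiv ℝ (fderiv ℝ f)) (0 : ℝ) k2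
        (hp.differentiableAt (by simp)).hasDerivAt
      rw [h3, zero_apply] at k3
      exact k3
    have k2 : HasDerivAt (fun s => fderiv ℝ f (p s)) 0 0 := by
      have k2 : HasFDerivAt (fderiv ℝ f) (fderiv ℝ (fderiv ℝ f) b) (p 0) := by
        rw [p0]; exact (hf1.differentiableAt (by simp)).hasFDerivAt
      have k3 := HasFDerivAt.comp_hasDerivAt (f := p) (l := fderiv ℝ f) (0 : ℝ) k2
        (hp.differentiableAt (by simp)).hasDerivAt
      rw [h2, zero_apply] at k3
      exact k3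
    have k3 := (hp1.differentiableAt (by simp)).hasDerivAt
    have k4 := (hp2.differentiableAt (by simp)).hasDerivAt
    have k5 := ((k1.clm_apply k3).clm_apply k3).add (k2.clm_apply k4)
    refine k5.deriv.trans ?_
    simp [p0, h1, h2]

lemma deriv2_line' {F G : Type*} [NormedAddCommGroup F] [NormedSpace ℝ F] [NormedAddCommGroup G]
    [NormedSpace ℝ G] {f : F → G} {w : F} (hf : ContDiffAt ℝ ∞ f w) (v : F) :
    deriv (deriv (fun r : ℝ => f (w + r • v))) =ᶠ[𝓝 0] fun r => dd (dd f v) v (w + r • v) :=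
  (deriv_line hf v).deriv.trans (deriv_line (contDiffAt_dd hf v) v)

lemma deriv3_line {F G : Type*} [NormedAddCommGroup F] [NormedSpace ℝ F] [NormedAddCommGroup G]
    [NormedSpace ℝ G] {f : F → G} {w : F} (hf : ContDiffAt ℝ ∞ f w) (v : F) :
    deriv (deriv (deriv (fun r : ℝ => f (w + r • v)))) 0 = dd (dd (dd f v) v) v w := by
  rw [((deriv2_line' hf v).deriv.trans
    (deriv_line (contDiffAt_dd (contDiffAt_dd hf v) v) v)).self_of_nhds]
  simp

/-- derivatives of the unit length condition -/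
lemma unit3 {F : Type*} [NormedAddCommGroup F] [NormedSpace ℝ F] {B : F →L[ℝ] F →L[ℝ] ℝ}
    (hs : ∀ v w, B v w = B w v) {V : ℝ → F} (hV : ContDiffAt ℝ ∞ V 0)
    (hu : ∀ᶠ s in 𝓝 (0 : ℝ), B (V s) (V s) = 1) :
    B (V 0) (deriv V 0) = 0 ∧ B (V 0) (deriv (deriv V) 0) + B (deriv V 0) (deriv V 0) = 0 ∧
      B (V 0) (deriv (deriv (deriv V)) 0) + 3 * B (deriv V 0) (deriv (deriv V) 0) = 0 := by
  have hV1 : ContDiffAt ℝ ∞ (deriv V) 0 := by
    have h4 : ContDiffAt ℝ ∞ (fun s => fderiv ℝ V s 1) 0 :=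
      (hV.fderiv_right (m := ∞) (by simp)).clm_apply contDiffAt_const
    exact h4
  have hV2 : ContDiffAt ℝ ∞ (deriv (deriv V)) 0 := by
    have h4 : ContDiffAt ℝ ∞ (fun s => fderiv ℝ (deriv V) s 1) 0 :=
      (hV1.fderiv_right (m := ∞) (by simp)).clm_apply contDiffAt_const
    exact h4
  have e1 : ∀ᶠ s in 𝓝 (0 : ℝ), B (V s) (deriv V s) = 0 := by
    filter_upwards [hu.eventually_nhds, ev_diff hV] with s k1 k2
    have k3 := ((hasDerivAt_const s B).clm_apply k2.hasDerivAt).clm_apply k2.hasDerivAt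
    have k4 : (fun s => B (V s) (V s)) =ᶠ[𝓝 s] fun _ => 1 := k1
    have k5 := k3.unique ((hasDerivAt_const s (1 : ℝ)).congr_of_eventuallyEq k4)
    simp only [zero_apply, zero_add] at k5
    rw [hs (deriv V s) (V s)] at k5
    linarith
  have e2 : ∀ᶠ s in 𝓝 (0 : ℝ), B (V s) (deriv (deriv V) s) + B (deriv V s) (deriv V s) = 0 := by
    filter_upwards [e1.eventually_nhds, ev_diff hV, ev_diff hV1] with s k1 k2 k2'
    have k3 := ((hasDerivAt_const s B).clm_apply k2.hasDerivAt).clm_apply k2'.hasDerivAt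
    have k4 : (fun s => B (V s) (deriv V s)) =ᶠ[𝓝 s] fun _ => 0 := k1
    have k5 := k3.unique ((hasDerivAt_const s (0 : ℝ)).congr_of_eventuallyEq k4)
    simp only [zero_apply, zero_add] at k5
    linarith
  refine ⟨e1.self_of_nhds, e2.self_of_nhds, ?_⟩
  have d0 := (hV.differentiableAt (by simp)).hasDerivAt
  have d1 := (hV1.differentiableAt (by simp)).hasDerivAt
  have d2 := (hV2.differentiableAt (by simp)).hasDerivAt
  have k3 := (((hasDerivAt_const (0 : ℝ) B).clm_apply d0).clm_apply d2).add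
    (((hasDerivAt_const (0 : ℝ) B).clm_apply d1).clm_apply d1)
  have k4 : ((fun s => B (V s) (deriv (deriv V) s)) + fun s => B (deriv V s) (deriv V s)) =ᶠ[𝓝 0]
      fun _ => 0 := e2
  have k5 := k3.unique ((hasDerivAt_const (0 : ℝ) (0 : ℝ)).congr_of_eventuallyEq k4)
  simp only [zero_apply, zero_add] at k5
  rw [hs (deriv (deriv V) 0) (deriv V 0)] at k5
  linarith

end calculus

section algebra

variable [FiniteDimensional ℝ E]

/-- the linear algebra of a contact of order three of two quadrics -/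
lemma contact {G G' : E →L[ℝ] E →L[ℝ] ℝ} (hs : ∀ v w, G v w = G w v)
    (hp : ∀ v, v ≠ 0 → 0 < G v v) (hs' : ∀ v w, G' v w = G' w v)
    (hp' : ∀ v, v ≠ 0 → 0 < G' v v) {B : E →L[ℝ] E} {v1 V0 : E} (hv1 : G v1 v1 = 1)
    (hV0 : G' V0 V0 = 1) (hex : ∃ v, G v v1 = 0 ∧ G v v = 1)
    (hV : ∀ v, G v v1 = 0 → G v v = 1 → ∃ V1 V2 V3, (∀ δ, G' V1 (B δ) = G v δ) ∧
      (∀ δ, G' V2 (B δ) = - G v1 δ) ∧ (∀ δ, G' V3 (B δ) = - G v δ) ∧ G' V0 V1 = 0 ∧
      G' V0 V2 + G' V1 V1 = 0 ∧ G' V0 V3 + 3 * G' V1 V2 = 0) :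
    (∀ δ, G v1 δ = 0 → G' V0 (B δ) = 0) ∧
    ((∀ δ, G' V0 (B δ) = G v1 δ) → ∀ δ η, G' (B δ) (B η) = G δ η) := by
  -- a vector which is orthogonal to all unit vectors orthogonal to `v1` is a multiple of `v1`
  have hpar : ∀ δ, (∀ v, G v v1 = 0 → G v v = 1 → G v δ = 0) → δ = G v1 δ • v1 := by
    intro δ hδ
    obtain ⟨η, hη⟩ : ∃ η, η = δ - G v1 δ • v1 := ⟨_, rfl⟩
    have h1 : G η v1 = 0 := by
      rw [hη, map_sub, sub_apply, map_smul, smul_apply, hv1, hs δ v1, smul_eq_mul, mul_one,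
        sub_self]
    by_cases hη0 : η = 0
    · rw [hη0] at hη
      exact (sub_eq_zero.1 hη.symm)
    · exfalso
      have h2 := hp η hη0
      have h3 : 0 < √(G η η) := Real.sqrt_pos.2 h2
      have h4 := hδ ((√(G η η))⁻¹ • η) (by rw [map_smul, smul_apply, h1, smul_zero]) (by
        simp only [map_smul, smul_apply, smul_eq_mul]
        have : √(G η η) * √(G η η) = G η η := Real.mul_self_sqrt h2.le
        field_simp
        nlinarith)
      rw [map_smul, smul_apply, smul_eq_mul] at h4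
      rcases mul_eq_zero.1 h4 with h5 | h5
      · exact inv_ne_zero h3.ne' h5
      · have h6 : G η η = 0 := by
          have h7 := congrArg (G η) hη
          rw [map_sub, map_smul, h1, h5, smul_zero, sub_zero] at h7
          exact h7
        linarith
  have hBinj : Function.Injective B.toLinearMap := by
    rw [injective_iff_map_eq_zero]
    intro δ hδ
    have hδ' : B δ = 0 := hδ
    have h1 : δ = G v1 δ • v1 := hpar δ fun v h1 h2 => by
      obtain ⟨V1, V2, V3, k1, -⟩ := hV v h1 h2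
      rw [← k1, hδ', map_zero]
    obtain ⟨v, h2, h3⟩ := hex
    obtain ⟨V1, V2, V3, -, k2, -⟩ := hV v h2 h3
    have h4 := k2 δ
    rw [hδ', map_zero] at h4
    have h5 : G v1 δ = 0 := by linarith
    rw [h1, h5, zero_smul]
  have hBsurj : ∀ V, ∃ δ, B δ = V := fun V => LinearMap.injective_iff_surjective.1 hBinj V
  have hzero : ∀ V, (∀ δ, G' V (B δ) = 0) → V = 0 := by
    intro V hV
    by_contra hne
    obtain ⟨δ, hδ⟩ := hBsurj V
    have h1 := hV δ
    rw [hδ] at h1
    exact (hp' V hne).ne' h1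
  obtain ⟨δ0, hδ0⟩ := hBsurj V0
  -- the vector `δ0` is parallel to `v1`
  have hδ0p : δ0 = G v1 δ0 • v1 := hpar δ0 fun v h1 h2 => by
    obtain ⟨V1, V2, V3, k1, -, -, k4, -⟩ := hV v h1 h2
    rw [← k1, hδ0, hs', k4]
  -- the vector `V2` does not depend on `v`
  obtain ⟨v, hvv1, hvv⟩ := hex
  obtain ⟨V1, V2, V3, k1, k2, k3, k4, k5, k6⟩ := hV v hvv1 hvv
  obtain ⟨δ2, hδ2⟩ := hBsurj V2
  have hV2 : ∀ w, G w v1 = 0 → G w w = 1 → G w δ2 = 0 := by
    intro w h1 h2
    obtain ⟨W1, W2, W3, l1, l2, l3, l4, l5, l6⟩ := hV w h1 h2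
    have m1 : W2 = V2 := by
      have := hzero (W2 - V2) fun δ => by rw [map_sub, sub_apply, l2, k2, sub_self]
      exact sub_eq_zero.1 this
    have m2 : W3 = -W1 := by
      have := hzero (W3 + W1) fun δ => by rw [map_add, add_apply, l3, l1, neg_add_cancel]
      exact eq_neg_of_add_eq_zero_left this
    rw [m2, map_neg, l4, m1] at l6
    have m3 : G' W1 V2 = 0 := by linarith
    rw [← l1, hδ2, m3]
  have hδ2p : δ2 = G v1 δ2 • v1 := hpar δ2 hV2
  have hκ2 : G v1 δ2 ≠ 0 := by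
    intro h0
    rw [h0, zero_smul] at hδ2p
    have h1 := k2 v1
    rw [← hδ2, hδ2p, map_zero, map_zero, zero_apply, hv1] at h1
    linarith
  have hPv1 : ∀ δ, G v1 δ = 0 → G' (B v1) (B δ) = 0 := by
    intro δ hδ
    have h1 := k2 δ
    rw [← hδ2, hδ2p, map_smul, map_smul, smul_apply, smul_eq_mul, hδ, neg_zero] at h1
    rcases mul_eq_zero.1 h1 with h2 | h2
    · exact absurd h2 hκ2
    · exact h2
  refine ⟨fun δ hδ => ?_, fun hA => ?_⟩
  · rw [← hδ0, hδ0p, map_smul, map_smul, smul_apply, hPv1 δ hδ, smul_zero]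
  · -- the second part
    have hκ0 : G v1 δ0 = 1 := by rw [← hA, hδ0, hV0]
    have hBv1 : B v1 = V0 := by rw [← hδ0, hδ0p, hκ0, one_smul]
    have hunit : ∀ w, G w v1 = 0 → G w w = 1 → ∃ W, (∀ δ, G' W (B δ) = G w δ) ∧ G' W W = 1 := by
      intro w h1 h2
      obtain ⟨W1, W2, W3, l1, l2, l3, l4, l5, l6⟩ := hV w h1 h2
      refine ⟨W1, l1, ?_⟩
      have m1 : W2 = -V0 := by
        have := hzero (W2 + V0) fun δ => by rw [map_add, add_apply, l2, hA, neg_add_cancel]
        exact eq_neg_of_add_eq_zero_left this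
      rw [m1, map_neg, hV0] at l5
      linarith
    -- representation
    have hrep : ∀ δ, ∃ v, ∀ η, G v η = G' (B δ) (B η) := by
      intro δ
      obtain ⟨n, hn⟩ := exists_rep hp (J ((G' (B δ)).comp B))
      refine ⟨n, fun η => ?_⟩
      rw [hn, inner_J]
      rfl
    have hmain : ∀ δ v, G v1 δ = 0 → (∀ η, G v η = G' (B δ) (B η)) →
        G v v1 = 0 ∧ G' (B δ) (B δ) = G v v := by
      intro δ v hδ hv
      have h1 : G v v1 = 0 := by rw [hv, hs', hPv1 δ hδ]
      refine ⟨h1, ?_⟩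
      by_cases hv0 : v = 0
      · have h2 := hv δ
        rw [hv0] at h2
        rw [← h2, hv0]
        simp
      have h2 := hp v hv0
      set k := √(G v v) with hk
      have hk0 : 0 < k := Real.sqrt_pos.2 h2
      have hkk : k * k = G v v := Real.mul_self_sqrt h2.le
      obtain ⟨W, l1, l2⟩ := hunit (k⁻¹ • v) (by rw [map_smul, smul_apply, h1, smul_zero]) (by
        simp only [map_smul, smul_apply, smul_eq_mul]
        rw [← hkk]
        field_simp)
      have l3 : W = k⁻¹ • B δ := by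
        have := hzero (W - k⁻¹ • B δ) fun η => by
          rw [map_sub, sub_apply, l1, map_smul, map_smul, smul_apply, smul_apply, hv, sub_self]
        exact sub_eq_zero.1 this
      rw [l3] at l2
      simp only [map_smul, smul_apply, smul_eq_mul] at l2
      rw [← hkk]
      field_simp at l2
      nlinarith
    have hle : ∀ δ, G v1 δ = 0 → G' (B δ) (B δ) ≤ G δ δ := by
      intro δ hδ
      obtain ⟨v, hv⟩ := hrep δ
      obtain ⟨h1, h2⟩ := hmain δ v hδ hv
      have h3 : 0 ≤ G (v - δ) (v - δ) := by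
        by_cases h0 : v - δ = 0
        · rw [h0]; simp
        · exact (hp _ h0).le
      have h4 : G (v - δ) (v - δ) = G v v - 2 * G v δ + G δ δ := by
        simp only [map_sub, sub_apply]
        rw [hs δ v]
        ring
      rw [h4, hv δ] at h3
      linarith
    have heq : ∀ δ, G v1 δ = 0 → ∀ η, G' (B δ) (B η) = G δ η := by
      intro δ hδ η
      obtain ⟨v, hv⟩ := hrep δ
      obtain ⟨h1, h2⟩ := hmain δ v hδ hv
      have h3 := hle v (by rw [hs, h1])
      have h4 : G' (B (v - δ)) (B (v - δ)) ≤ 0 := by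
        have h5 : G' (B (v - δ)) (B (v - δ)) =
            G' (B v) (B v) - 2 * G' (B δ) (B v) + G' (B δ) (B δ) := by
          simp only [map_sub, sub_apply]
          rw [hs' (B v) (B δ)]
          ring
        rw [h5, ← hv v, h2]
        linarith
      have h5 : B (v - δ) = 0 := by
        by_contra h0
        have := hp' _ h0
        linarith
      have h6 : v - δ = 0 := hBinj (by rw [map_zero]; exact h5)
      rw [← hv η, sub_eq_zero.1 h6]
    intro δ η
    obtain ⟨δ', hδ'⟩ : ∃ δ', δ' = δ - G v1 δ • v1 := ⟨_, rfl⟩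
    have h1 : G v1 δ' = 0 := by
      rw [hδ', map_sub, map_smul, hv1, smul_eq_mul, mul_one, sub_self]
    have h2 : δ = δ' + G v1 δ • v1 := by rw [hδ']; abel
    have h3 : G' (B v1) (B η) = G v1 η := by rw [hBv1, hA]
    have h4 : B δ = B δ' + G v1 δ • B v1 := by
      conv_lhs => rw [h2]
      rw [map_add, map_smul]
    have h5 : G δ η = G δ' η + G v1 δ * G v1 η := by
      conv_lhs => rw [h2]
      rw [map_add, add_apply, map_smul, smul_apply, smul_eq_mul]
    rw [h4, map_add, add_apply, map_smul, smul_apply, h3, heq δ' h1, h5, smul_eq_mul]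

end algebra

end Pool.Agent.W5h72.BR
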