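import Pool.Agent.W5h72.BR.Jet2

/-!
# Smoothness of the matching point
-/

open Set Metric Filter Topology
open scoped ContDiff RealInnerProductSpace

noncomputable section

set_option maxSynthPendingDepth 3

namespace Pool.Agent.W5h72.BR

variable {E : Type*} [NormedAddCommGroup E] [InnerProductSpace ℝ E] [FiniteDimensional ℝ E]

namespace Bas

variable {g g' : E → E →L[ℝ] E →L[ℝ] ℝ} {e L e' L' : E → E → E} {b : E} {A A' : E →L[ℝ] E}

omit [FiniteDimensional ℝ E] in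
lemma Lb_ne (S : Bas g g' e L e' L' b A A') {x : E} (hx : ‖x‖ < 1) : L x b ≠ 0 := fun h0 =>
  ne_of_sphere hx S.hb ((S.h.L_eq_zero (mem_of_norm_lt hx) (mem_of_sphere S.hb)).1 h0)

omit [FiniteDimensional ℝ E] in
lemma a_ne (S : Bas g g' e L e' L' b A A') {x : E} (hx : ‖x‖ < 1) : A (L b x) ≠ 0 := by
  intro h0
  have h1 := congrArg A' h0
  rw [S.hAA, map_zero] at h1
  exact ne_of_sphere hx S.hb
    ((S.h.L_eq_zero (mem_of_sphere S.hb) (mem_of_norm_lt hx)).1 h1).symm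

/-- points in the corresponding direction are on the corresponding geodesic -/
lemma gam_Pt (S : Bas g g' e L e' L' b A A') {x y : E} (hx : ‖x‖ < 1) (hy : ‖y‖ < 1) {τ : ℝ}
    (hτ : 0 < τ) (hL : L' b y = τ • A (L b x)) : Gam g g' x b y := by
  have hbM := mem_of_sphere S.hb
  obtain ⟨q, hq, t, ht, hx1, hx2⟩ := S.h.exit_seg hbM hx (ne_of_sphere hx S.hb).symm
  obtain ⟨q2, hq2, s, hs, hy1, hy2⟩ := S.h'.exit_seg hbM hy (ne_of_sphere hy S.hb).symm
  have hqM := mem_of_sphere hq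
  have hbq : b ≠ q := by
    rintro rfl
    rw [S.h.L_self hbM, smul_zero, S.h.e_zero hbM] at hx1
    exact ne_of_sphere hx hq hx1
  have hbq2 : b ≠ q2 := by
    rintro rfl
    rw [S.h'.L_self hbM, smul_zero, S.h'.e_zero hbM] at hy1
    exact ne_of_sphere hy hq2 hy1
  have h1 : L' b q2 = (s⁻¹ * (τ * t)) • L' b q := by
    have h2 : s • L' b q2 = (τ * t) • L' b q := by
      rw [← hy2, hL, hx2, map_smul, S.hAL q hq, smul_smul]
    rw [← smul_smul, ← h2, smul_smul, inv_mul_cancel₀ hs.1.ne', one_smul]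
  have h3 : q2 = q := S.h'.exit_unique hbM hq hq2 hbq hbq2
    (by have := hs.1; have := ht.1; positivity) h1
  subst h3
  exact ⟨S.hb, q2, hq, (S.h.mem_seg hbM hqM).2 ⟨t, Ioo_subset_Icc_self ht, hx1⟩,
    (S.h'.mem_seg hbM hqM).2 ⟨s, Ioo_subset_Icc_self hs, hy1⟩⟩

/-- the parameter of a point on the corresponding geodesic -/
lemma par (S : Bas g g' e L e' L' b A A') {x y : E} (hx : ‖x‖ < 1) (hy : ‖y‖ < 1)
    (hG : Gam g g' x b y) :
    0 < rho g' L' b y / rho g L b x ∧ y = Pt e' L b A x (rho g' L' b y / rho g L b x) ∧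
      (rho g' L' b y / rho g L b x) • A (L b x) = L' b y := by
  obtain ⟨-, h1, h2⟩ := S.eq_Pt hx hG
  have hbM := mem_of_sphere S.hb
  exact ⟨div_pos (S.h'.rho_pos hbM (mem_of_norm_lt hy) (ne_of_sphere hy S.hb).symm)
    (S.h.rho_pos hbM (mem_of_norm_lt hx) (ne_of_sphere hx S.hb).symm), h1, h2⟩

/-- the matching point is a smooth function of the point -/
lemma full_smooth (S : Bas g g' e L e' L' b A A') (hn : 1 < Module.finrank ℝ E) {Y : E → E}
    (hY : ∀ x : E, ‖x‖ < 1 → Full g g' L L' x b (Y x)) {x : E} (hx : ‖x‖ < 1) :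
    ContDiffAt ℝ ∞ Y x := by
  obtain ⟨hYb, hYG, hYQ⟩ := hY x hx
  obtain ⟨hr, hrP, hrA⟩ := S.par hx hYb hYG
  have hbM := mem_of_sphere S.hb
  have hb0 := ne_zero_of_mem_sphere' S.hb
  obtain ⟨ρ0, hρ0⟩ : ∃ ρ0, ρ0 = rho g' L' b (Y x) / rho g L b x := ⟨_, rfl⟩
  rw [← hρ0] at hr hrP hrA
  obtain ⟨ξ, hξ1, hξb⟩ := exists_orth hn b
  have hξ0 : ξ ≠ 0 := by rintro rfl; simp at hξ1
  have hR' := S.h'.contDiffAt_RR hYb S.hb
  have hR := S.h.contDiffAt_RR hx S.hb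
  -- the Hessians in the direction `ξ`
  set T' : E × E → ℝ := fun w => fderiv ℝ (fderiv ℝ (RR g' L')) w (0, ξ) (0, ξ) with hT'
  set T : E × E → ℝ := fun w => fderiv ℝ (fderiv ℝ (RR g L)) w (0, ξ) (0, ξ) with hT
  have hT'c : ContDiffAt ℝ ∞ T' (Y x, b) :=
    (((hR'.fderiv_right (m := ∞) (by simp)).fderiv_right (m := ∞) (by simp)).clm_apply
      contDiffAt_const).clm_apply contDiffAt_const
  have hTc : ContDiffAt ℝ ∞ T (x, b) :=
    (((hR.fderiv_right (m := ∞) (by simp)).fderiv_right (m := ∞) (by simp)).clm_apply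
      contDiffAt_const).clm_apply contDiffAt_const
  have hpos := S.h'.third_pos hYb S.hb hξb hξ0
  change 0 < fderiv ℝ T' (Y x, b) (L' (Y x) b, 0) at hpos
  set Θ : ℝ × E → ℝ × E := fun v => (T' (Pt e' L b A v.2 v.1, b) - T (v.2, b), v.2) with hΘ
  have hPc : ContDiff ℝ ∞ (fun v : ℝ × E => Pt e' L b A v.2 v.1) := by
    have h1 : ContDiff ℝ ∞ (fun v : ℝ × E => A (L b v.2)) :=
      A.contDiff.comp ((S.h.L_smooth_right b).comp contDiff_snd)
    exact (S.h'.e_smooth_right b).comp (contDiff_fst.smul h1)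
  have hc1 : ContDiffAt ℝ ∞ (fun v : ℝ × E => T' (Pt e' L b A v.2 v.1, b)) (ρ0, x) := by
    have h1 : ContDiffAt ℝ ∞ T' (Pt e' L b A x ρ0, b) := by rw [← hrP]; exact hT'c
    exact ContDiffAt.comp (ρ0, x) (f := fun v : ℝ × E => (Pt e' L b A v.2 v.1, b)) (g := T') h1
      (hPc.contDiffAt.prodMk contDiffAt_const)
  have hc2 : ContDiffAt ℝ ∞ (fun v : ℝ × E => T (v.2, b)) (ρ0, x) :=
    ContDiffAt.comp (ρ0, x) (f := fun v : ℝ × E => (v.2, b)) (g := T) hTc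
      (contDiffAt_snd.prodMk contDiffAt_const)
  have hΘc : ContDiffAt ℝ ∞ Θ (ρ0, x) := (hc1.sub hc2).prodMk contDiffAt_snd
  have hΘd : HasFDerivAt Θ (fderiv ℝ Θ (ρ0, x)) (ρ0, x) :=
    (hΘc.differentiableAt (by simp)).hasFDerivAt
  have hvel : fderiv ℝ (e' b) (L' b (Y x)) (A (L b x)) = -(ρ0⁻¹ • L' (Y x) b) := by
    have h3 : A (L b x) = ρ0⁻¹ • L' b (Y x) := by
      rw [← hrA, smul_smul, inv_mul_cancel₀ hr.ne', one_smul]
    rw [h3, map_smul, S.h'.De_L hbM (mem_of_norm_lt hYb), smul_neg]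
  have hinj : ∀ δ, fderiv ℝ Θ (ρ0, x) δ = 0 → δ = 0 := by
    rintro ⟨a, δ⟩ hδ
    have h1 : HasFDerivAt (fun v : ℝ × E => v.2)
        ((ContinuousLinearMap.snd ℝ ℝ E).comp (fderiv ℝ Θ (ρ0, x))) (ρ0, x) :=
      HasFDerivAt.comp (ρ0, x) (f := Θ) (g := fun v : ℝ × E => v.2) hasFDerivAt_snd hΘd
    have h2 := congrArg (fun f : ℝ × E →L[ℝ] E => f (a, δ)) (h1.unique hasFDerivAt_snd)
    rw [ContinuousLinearMap.comp_apply, hδ, map_zero] at h2
    replace h2 : (0 : E) = δ := h2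
    subst h2
    have hl : HasDerivAt (fun s : ℝ => ρ0 + s * a) a 0 := by
      simpa using ((hasDerivAt_id (0 : ℝ)).mul_const a).const_add ρ0
    have hl2 : HasDerivAt (fun s : ℝ => (ρ0 + s * a, x)) (a, (0 : E)) 0 :=
      hl.prodMk (hasDerivAt_const (0 : ℝ) x)
    have h3 : HasDerivAt (fun s : ℝ => (Θ (ρ0 + s * a, x)).1) 0 0 := by
      have h4 := HasFDerivAt.comp_hasDerivAt_of_eq (f := fun s : ℝ => (ρ0 + s * a, x))
        (l := Θ) (0 : ℝ) hΘd hl2 (by simp)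
      rw [hδ] at h4
      have h4' := HasFDerivAt.comp_hasDerivAt_of_eq (f := fun s : ℝ => Θ (ρ0 + s * a, x))
        (l := fun v : ℝ × E => v.1) (0 : ℝ) hasFDerivAt_fst h4 rfl
      exact HasDerivAt.congr_deriv (f := fun s : ℝ => (Θ (ρ0 + s * a, x)).1) h4' rfl
    have h5 : HasDerivAt (fun s : ℝ => Pt e' L b A x (ρ0 + s * a))
        (a • fderiv ℝ (e' b) (L' b (Y x)) (A (L b x))) 0 := by
      have h6 : HasDerivAt (fun s : ℝ => (ρ0 + s * a) • A (L b x)) (a • A (L b x)) 0 :=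
        hl.smul_const _
      have h7 := HasFDerivAt.comp_hasDerivAt_of_eq (f := fun s : ℝ => (ρ0 + s * a) • A (L b x))
        (l := e' b) (0 : ℝ) (S.h'.hasFDerivAt_e b (L' b (Y x))) h6
        (by simp only [zero_mul, add_zero]; exact hrA.symm)
      rw [map_smul] at h7
      exact h7
    have h8 : HasDerivAt (fun s : ℝ => (Pt e' L b A x (ρ0 + s * a), b))
        (a • fderiv ℝ (e' b) (L' b (Y x)) (A (L b x)), (0 : E)) 0 :=
      h5.prodMk (hasDerivAt_const (0 : ℝ) b)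
    have h9 : HasFDerivAt T' (fderiv ℝ T' (Y x, b)) (Y x, b) :=
      (hT'c.differentiableAt (by simp)).hasFDerivAt
    have h10 := HasFDerivAt.comp_hasDerivAt_of_eq
      (f := fun s : ℝ => (Pt e' L b A x (ρ0 + s * a), b))
      (l := T') (0 : ℝ) h9 h8 (by simp [← hrP])
    have h11 := (h10.sub_const (T (x, b))).unique h3
    rw [hvel] at h11
    have h13 : (a • -(ρ0⁻¹ • L' (Y x) b), (0 : E)) = (-(a * ρ0⁻¹)) • (L' (Y x) b, (0 : E)) := by
      simp [smul_smul]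
    rw [h13, map_smul, smul_eq_mul] at h11
    rcases mul_eq_zero.1 h11 with h14 | h14
    · rcases mul_eq_zero.1 (neg_eq_zero.1 h14) with h15 | h15
      · rw [h15]; rfl
      · exact absurd h15 (inv_ne_zero hr.ne')
    · exact absurd h14 hpos.ne'
  obtain ⟨ℓ, hℓc, hℓ0, hℓ1, -⟩ := local_inv hΘc hinj
  have hΘ0 : Θ (ρ0, x) = (0, x) := by
    simp only [hΘ, Prod.mk.injEq, and_true]
    rw [← hrP]
    simp only [hT', hT]
    rw [← S.h'.Q_eq_RR hYb S.hb, ← S.h.Q_eq_RR hx S.hb, hYQ ξ hξb, sub_self]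
  rw [hΘ0] at hℓc hℓ0 hℓ1
  set τ : E → ℝ := fun z => (ℓ (0, z)).1 with hτ
  have hic : ContDiffAt ℝ ∞ (fun z : E => ((0 : ℝ), z)) x := contDiffAt_const.prodMk contDiffAt_id
  have hτc : ContDiffAt ℝ ∞ τ x :=
    ContDiffAt.comp x (f := fun z : E => ((0 : ℝ), z)) (g := fun v => (ℓ v).1) hℓc.fst hic
  have hτ0 : τ x = ρ0 := by simp only [hτ, hℓ0]
  have hit : Tendsto (fun z : E => ((0 : ℝ), z)) (𝓝 x) (𝓝 (0, x)) := hic.continuousAt
  have hPτ : ContDiffAt ℝ ∞ (fun z => Pt e' L b A z (τ z)) x :=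
    ContDiffAt.comp x (f := fun z => (τ z, z)) (g := fun v : ℝ × E => Pt e' L b A v.2 v.1)
      hPc.contDiffAt (hτc.prodMk contDiffAt_id)
  have hPτ0 : Pt e' L b A x (τ x) = Y x := by rw [hτ0]; exact hrP.symm
  refine hPτ.congr_of_eventuallyEq ?_
  have c1 : ∀ᶠ z in 𝓝 x, ‖z‖ < 1 := continuous_norm.continuousAt.eventually_lt_const hx
  have c2 : ∀ᶠ z in 𝓝 x, ‖Pt e' L b A z (τ z)‖ < 1 :=
    hPτ.continuousAt.norm.eventually_lt_const
      (show ‖Pt e' L b A x (τ x)‖ < 1 by rw [hPτ0]; exact hYb)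
  have c3 : ∀ᶠ z in 𝓝 x, 0 < τ z := hτc.continuousAt.eventually_const_lt (by rw [hτ0]; exact hr)
  have c4 : ∀ᶠ z in 𝓝 x, L' b (Pt e' L b A z (τ z)) = τ z • A (L b z) := by
    have h1 : Tendsto (fun z => τ z • A (L b z)) (𝓝 x) (𝓝 (L' b (Y x))) := by
      have h2 : ContinuousAt (fun z => τ z • A (L b z)) x :=
        hτc.continuousAt.smul (A.continuous.comp (S.h.L_smooth_right b).continuous).continuousAt
      have h3 := h2.tendsto
      rw [hτ0, hrA] at h3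
      exact h3
    filter_upwards [h1.eventually (S.h'.domain_nhds hbM hYb)] with z hz using hz.2
  filter_upwards [c1, c2, c3, c4, hit.eventually hℓ1] with z k1 k2 k3 k4 k5
  have e1 : (Θ (ℓ (0, z))).2 = z := congrArg Prod.snd k5
  have e1' : (ℓ (0, z)).2 = z := e1
  have e2 : (Θ (ℓ (0, z))).1 = 0 := congrArg Prod.fst k5
  have e2' : T' (Pt e' L b A (ℓ (0, z)).2 (ℓ (0, z)).1, b) - T ((ℓ (0, z)).2, b) = 0 := e2
  rw [e1'] at e2'
  obtain ⟨l1, l2, l3⟩ := hY z k1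
  refine S.h.focal_unique S.h' k1 l1 k2 l2 (S.gam_Pt k1 k2 k3 k4) hξb hξ0 (l3 ξ hξb ξ) ?_
  rw [S.h'.Q_eq_RR k2 S.hb, S.h.Q_eq_RR k1 S.hb]
  exact sub_eq_zero.1 e2'

end Bas

end Pool.Agent.W5h72.BR
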