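import Pool.Agent.W5h72.BR.Jet3

/-!
# Consequences of the agreement of the jets of order three
-/

open Set Metric Filter Topology
open scoped ContDiff RealInnerProductSpace

noncomputable section

set_option maxSynthPendingDepth 3

namespace Pool.Agent.W5h72.BR

section calculus

variable {F G : Type*} [NormedAddCommGroup F] [NormedSpace ℝ F] [NormedAddCommGroup G]
  [NormedSpace ℝ G]

lemma contDiffAt_deriv {f : ℝ → G} {s : ℝ} (hf : ContDiffAt ℝ ∞ f s) :
    ContDiffAt ℝ ∞ (deriv f) s := by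
  have h4 : ContDiffAt ℝ ∞ (fun s => fderiv ℝ f s 1) s :=
    (hf.fderiv_right (m := ∞) (by simp)).clm_apply contDiffAt_const
  exact h4

lemma deriv_sub' {f1 f2 : ℝ → G} {s : ℝ} (h1 : ContDiffAt ℝ ∞ f1 s) (h2 : ContDiffAt ℝ ∞ f2 s) :
    deriv (fun r => f1 r - f2 r) =ᶠ[𝓝 s] fun r => deriv f1 r - deriv f2 r := by
  filter_upwards [ev_diff h1, ev_diff h2] with r k1 k2
  exact (k1.hasDerivAt.sub k2.hasDerivAt).deriv

lemma deriv_bil {B : F →L[ℝ] F →L[ℝ] ℝ} {V : ℝ → F} {s : ℝ} (hV : ContDiffAt ℝ ∞ V s) (w : F) :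
    deriv (fun r => B (V r) w) =ᶠ[𝓝 s] fun r => B (deriv V r) w := by
  filter_upwards [ev_diff hV] with r k1
  have := ((hasDerivAt_const r B).clm_apply k1.hasDerivAt).clm_apply (hasDerivAt_const r w)
  refine this.deriv.trans ?_
  simp

/-- derivatives of a difference of two linear expressions -/
lemma deriv3_bil {F' : Type*} [NormedAddCommGroup F'] [NormedSpace ℝ F']
    {B : F →L[ℝ] F →L[ℝ] ℝ} {B' : F' →L[ℝ] F' →L[ℝ] ℝ} {c : ℝ → F} {V : ℝ → F'} {φ : ℝ → ℝ}
    (hc : ContDiffAt ℝ ∞ c 0) (hV : ContDiffAt ℝ ∞ V 0) (w : F) (w' : F')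
    (hφ : φ =ᶠ[𝓝 0] fun r => B (c r) w - B' (V r) w') :
    φ 0 = B (c 0) w - B' (V 0) w' ∧
    deriv φ 0 = B (deriv c 0) w - B' (deriv V 0) w' ∧
    deriv (deriv φ) 0 = B (deriv (deriv c) 0) w - B' (deriv (deriv V) 0) w' ∧
    deriv (deriv (deriv φ)) 0 =
      B (deriv (deriv (deriv c)) 0) w - B' (deriv (deriv (deriv V)) 0) w' := by
  have key : ∀ {c : ℝ → F} {V : ℝ → F'} {φ : ℝ → ℝ}, ContDiffAt ℝ ∞ c 0 → ContDiffAt ℝ ∞ V 0 →
      (φ =ᶠ[𝓝 0] fun r => B (c r) w - B' (V r) w') →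
      deriv φ =ᶠ[𝓝 0] fun r => B (deriv c r) w - B' (deriv V r) w' := by
    intro c V φ hc hV hφ
    have h1 : ContDiffAt ℝ ∞ (fun r => B (c r) w) 0 :=
      (contDiffAt_const.clm_apply hc).clm_apply contDiffAt_const
    have h2 : ContDiffAt ℝ ∞ (fun r => B' (V r) w') 0 :=
      (contDiffAt_const.clm_apply hV).clm_apply contDiffAt_const
    have h3 := hφ.deriv.trans (deriv_sub' h1 h2)
    filter_upwards [h3, deriv_bil (B := B) hc w, deriv_bil (B := B') hV w'] with r k1 k2 k3
    rw [k1, k2, k3]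
  have e1 := key hc hV hφ
  have e2 := key (contDiffAt_deriv hc) (contDiffAt_deriv hV) e1
  have e3 := key (contDiffAt_deriv (contDiffAt_deriv hc)) (contDiffAt_deriv (contDiffAt_deriv hV))
    e2
  exact ⟨hφ.self_of_nhds, e1.self_of_nhds, e2.self_of_nhds, e3.self_of_nhds⟩

/-- exchange of derivatives for a function of two variables -/
lemma jets_comm {F : Type*} [NormedAddCommGroup F] [NormedSpace ℝ F] {H : F × ℝ → ℝ} {x δ : F}
    (hH : ContDiffAt ℝ ∞ H (x, 0))
    (h1 : ∀ᶠ z in 𝓝 x, dd H (0, 1) (z, 0) = 0)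
    (h2 : ∀ᶠ z in 𝓝 x, dd (dd H (0, 1)) (0, 1) (z, 0) = 0)
    (h3 : ∀ᶠ z in 𝓝 x, dd (dd (dd H (0, 1)) (0, 1)) (0, 1) (z, 0) = 0) :
    deriv (fun r => dd H (δ, 0) (x, r)) 0 = 0 ∧
    deriv (deriv (fun r => dd H (δ, 0) (x, r))) 0 = 0 ∧
    deriv (deriv (deriv (fun r => dd H (δ, 0) (x, r)))) 0 = 0 := by
  have vanish : ∀ {K : F × ℝ → ℝ}, ContDiffAt ℝ ∞ K (x, 0) → (∀ᶠ z in 𝓝 x, K (z, 0) = 0) →
      dd K (δ, 0) (x, 0) = 0 := by
    intro K hK hK0
    have hl : HasDerivAt (fun s : ℝ => x + s • δ) δ 0 := by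
      simpa using ((hasDerivAt_id (0 : ℝ)).smul_const δ).const_add x
    have k1 : HasDerivAt (fun s : ℝ => (x + s • δ, (0 : ℝ))) (δ, (0 : ℝ)) 0 :=
      hl.prodMk (hasDerivAt_const (0 : ℝ) (0 : ℝ))
    have k2 := HasFDerivAt.comp_hasDerivAt_of_eq (f := fun s : ℝ => (x + s • δ, (0 : ℝ)))
      (l := K) (0 : ℝ) (hK.differentiableAt (by simp)).hasFDerivAt k1 (by simp)
    have k3 : Tendsto (fun s : ℝ => x + s • δ) (𝓝 0) (𝓝 x) := by
      simpa using hl.continuousAt.tendsto
    have k4 : (K ∘ fun s : ℝ => (x + s • δ, (0 : ℝ))) =ᶠ[𝓝 0] fun _ => 0 := k3.eventually hK0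
    exact k2.unique ((hasDerivAt_const (0 : ℝ) (0 : ℝ)).congr_of_eventuallyEq k4)
  have d1 := contDiffAt_dd hH ((0 : F), (1 : ℝ))
  have d2 := contDiffAt_dd d1 ((0 : F), (1 : ℝ))
  have d3 := contDiffAt_dd d2 ((0 : F), (1 : ℝ))
  have v1 := vanish d1 h1
  have v2 := vanish d2 h2
  have v3 := vanish d3 h3
  have c1 := dd_comm hH (δ, 0) ((0 : F), (1 : ℝ))
  have c2 := dd_comm d1 (δ, 0) ((0 : F), (1 : ℝ))
  have c3 := dd_comm d2 (δ, 0) ((0 : F), (1 : ℝ))
  have dδ := contDiffAt_dd hH (δ, (0 : ℝ))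
  have w1 : dd (dd H (δ, 0)) (0, 1) (x, 0) = 0 := by rw [← c1.self_of_nhds]; exact v1
  have w2 : dd (dd (dd H (δ, 0)) (0, 1)) (0, 1) (x, 0) = 0 := by
    rw [← (dd_congr c1 ((0 : F), (1 : ℝ))).self_of_nhds, ← c2.self_of_nhds]; exact v2
  have w3 : dd (dd (dd (dd H (δ, 0)) (0, 1)) (0, 1)) (0, 1) (x, 0) = 0 := by
    rw [← (dd_congr (dd_congr c1 ((0 : F), (1 : ℝ))) ((0 : F), (1 : ℝ))).self_of_nhds,
      ← (dd_congr c2 ((0 : F), (1 : ℝ))).self_of_nhds, ← c3.self_of_nhds]
    exact v3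
  have hline : ∀ f : F × ℝ → ℝ, (fun r : ℝ => f ((x, 0) + r • ((0 : F), (1 : ℝ)))) =
      fun r => f (x, r) := by
    intro f
    funext r
    simp
  have l1 := (deriv_line dδ ((0 : F), (1 : ℝ))).self_of_nhds
  have l2 := (deriv2_line' dδ ((0 : F), (1 : ℝ))).self_of_nhds
  have l3 := deriv3_line dδ ((0 : F), (1 : ℝ))
  rw [hline] at l1 l2 l3
  simp only [zero_smul, add_zero] at l1 l2
  exact ⟨l1.trans w1, l2.trans w2, l3.trans w3⟩

/-- derivatives in the second variable -/
lemma dd_second {F : Type*} [NormedAddCommGroup F] [NormedSpace ℝ F] {H : F × ℝ → ℝ} {x : F}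
    (hH : ContDiffAt ℝ ∞ H (x, 0)) (h1 : deriv (fun r => H (x, r)) 0 = 0)
    (h2 : deriv (deriv (fun r => H (x, r))) 0 = 0)
    (h3 : deriv (deriv (deriv (fun r => H (x, r)))) 0 = 0) :
    dd H (0, 1) (x, 0) = 0 ∧ dd (dd H (0, 1)) (0, 1) (x, 0) = 0 ∧
      dd (dd (dd H (0, 1)) (0, 1)) (0, 1) (x, 0) = 0 := by
  have hline : ∀ f : F × ℝ → ℝ, (fun r : ℝ => f ((x, 0) + r • ((0 : F), (1 : ℝ)))) =
      fun r => f (x, r) := by
    intro f
    funext r
    simp
  have l1 := (deriv_line hH ((0 : F), (1 : ℝ))).self_of_nhds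
  have l2 := (deriv2_line' hH ((0 : F), (1 : ℝ))).self_of_nhds
  have l3 := deriv3_line hH ((0 : F), (1 : ℝ))
  rw [hline] at l1 l2 l3
  simp only [zero_smul, add_zero] at l1 l2
  exact ⟨l1.symm.trans h1, l2.symm.trans h2, l3.symm.trans h3⟩

end calculus

variable {E : Type*} [NormedAddCommGroup E] [InnerProductSpace ℝ E] [FiniteDimensional ℝ E]

/-- the first three derivatives vanish -/
def J3 (f : E → ℝ) (b : E) : Prop :=
  fderiv ℝ f b = 0 ∧ fderiv ℝ (fderiv ℝ f) b = 0 ∧ fderiv ℝ (fderiv ℝ (fderiv ℝ f)) b = 0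

namespace Bas

variable {g g' : E → E →L[ℝ] E →L[ℝ] ℝ} {e L e' L' : E → E → E} {b : E} {A A' : E →L[ℝ] E}

lemma exists_perp1 (hn : 1 < Module.finrank ℝ E) {B : E →L[ℝ] E →L[ℝ] ℝ}
    (hs : ∀ v w, B v w = B w v) (hp : ∀ v, v ≠ 0 → 0 < B v v) (a : E) :
    ∃ f : E, B f a = 0 ∧ B f f = 1 := by
  obtain ⟨η, hη, h1⟩ := exists_orth hn (J (B a))
  rw [inner_J] at h1
  have hη0 : η ≠ 0 := by rintro rfl; simp at hη
  have h3 := hp η hη0
  refine ⟨(√(B η η))⁻¹ • η, ?_, ?_⟩
  · simp only [map_smul, smul_apply, smul_eq_mul]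
    rw [hs η a, h1, mul_zero]
  · simp only [map_smul, smul_apply, smul_eq_mul]
    have h4 : 0 < √(B η η) := Real.sqrt_pos.2 h3
    have h5 : √(B η η) * √(B η η) = B η η := Real.mul_self_sqrt h3.le
    field_simp
    nlinarith

/-- consequences of the agreement of the jets -/
lemma jets (S : Bas g g' e L e' L' b A A') (hn : 1 < Module.finrank ℝ E) {Y : E → E}
    (hY : ∀ x : E, ‖x‖ < 1 → Full g g' L L' x b (Y x))
    (hJ : ∀ x : E, ‖x‖ < 1 → J3 (fun z => RR g' L' (Y x, z) - RR g L (x, z)) b)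
    {x : E} (hx : ‖x‖ < 1) :
    (∀ δ, g x (L x b) δ = 0 → g' (Y x) (L' (Y x) b) (fderiv ℝ Y x δ) = 0) ∧
    ((∀ δ, (rho g' L' (Y x) b)⁻¹ * g' (Y x) (L' (Y x) b) (fderiv ℝ Y x δ) =
        (rho g L x b)⁻¹ * g x (L x b) δ) →
      ∀ δ η, g' (Y x) (fderiv ℝ Y x δ) (fderiv ℝ Y x η) = g x δ η) := by
  have hxM := mem_of_norm_lt hx
  have hbM := mem_of_sphere S.hb
  have hxb := ne_of_sphere hx S.hb
  obtain ⟨hYb, hYG, hYQ⟩ := hY x hx
  have hYM := mem_of_norm_lt hYb
  have hYb' := ne_of_sphere hYb S.hb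
  have hr := S.h.rho_pos hxM hbM hxb
  have hr' := S.h'.rho_pos hYM hbM hYb'
  set r := rho g L x b with hrdef
  set r' := rho g' L' (Y x) b with hrdef'
  have hr2 := S.h.rho_sq hxM b
  have hr2' := S.h'.rho_sq hYM b
  rw [← hrdef] at hr2
  rw [← hrdef'] at hr2'
  set v1 := r⁻¹ • L x b with hv1
  set V0 := r'⁻¹ • L' (Y x) b with hV0
  have hv11 : g x v1 v1 = 1 := by
    rw [hv1]
    simp only [map_smul, smul_apply, smul_eq_mul]
    rw [← hr2]
    field_simp
  have hV00 : g' (Y x) V0 V0 = 1 := by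
    rw [hV0]
    simp only [map_smul, smul_apply, smul_eq_mul]
    rw [← hr2']
    field_simp
  have hYs := S.full_smooth hn hY hx
  have hYd : HasFDerivAt Y (fderiv ℝ Y x) x := (hYs.differentiableAt (by simp)).hasFDerivAt
  obtain ⟨k1, k2⟩ := contact (B := fderiv ℝ Y x) (S.h.symm x hxM) (S.h.pos x hxM)
    (S.h'.symm _ hYM) (S.h'.pos _ hYM) hv11 hV00
    (exists_perp1 hn (S.h.symm x hxM) (S.h.pos x hxM) v1) (fun v2 h21 h22 => by
      -- the curve
      set c : ℝ → E := fun s => Real.cos s • v1 + Real.sin s • v2 with hc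
      have hcc : ContDiff ℝ ∞ c :=
        (Real.contDiff_cos.smul contDiff_const).add (Real.contDiff_sin.smul contDiff_const)
      have hc0 : c 0 = v1 := by simp [hc]
      have hgcc : ∀ s, g x (c s) (c s) = 1 := by
        intro s
        simp only [hc, map_add, map_smul, add_apply, smul_apply, smul_eq_mul]
        rw [S.h.symm x hxM v1 v2, h21, h22, hv11]
        linear_combination Real.cos_sq_add_sin_sq s
      have hcne : ∀ s, c s ≠ 0 := by
        intro s h0
        have := hgcc s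
        rw [h0] at this
        simp at this
      have hd1 : deriv c = fun s => (-Real.sin s) • v1 + Real.cos s • v2 := by
        funext s
        exact (((Real.hasDerivAt_cos s).smul_const v1).add
          ((Real.hasDerivAt_sin s).smul_const v2)).deriv
      have hd2 : deriv (deriv c) = fun s => (-Real.cos s) • v1 + (-Real.sin s) • v2 := by
        rw [hd1]
        funext s
        exact (((Real.hasDerivAt_sin s).neg.smul_const v1).add
          ((Real.hasDerivAt_cos s).smul_const v2)).deriv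
      have hd3 : deriv (deriv (deriv c)) = fun s => (Real.sin s) • v1 + (-Real.cos s) • v2 := by
        rw [hd2]
        funext s
        have := (((Real.hasDerivAt_cos s).neg.smul_const v1).add
          ((Real.hasDerivAt_sin s).neg.smul_const v2)).deriv
        refine this.trans ?_
        simp
      set p : ℝ → E := fun s => ext L x (c s) with hp
      have hpc : ∀ s, ContDiffAt ℝ ∞ p s := by
        intro s
        exact ContDiffAt.comp s (f := fun s => (x, c s)) (g := fun u : E × E => ext L u.1 u.2)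
          (S.h.ext_smooth hx (hcne s)) (contDiffAt_const.prodMk hcc.contDiffAt)
      have hp0 : p 0 = b := by
        simp only [hp, hc0]
        refine S.h.ext_eq hx (by rw [← hc0]; exact hcne 0) S.hb hr ?_
        rw [hv1, smul_smul, mul_inv_cancel₀ hr.ne', one_smul]
      have hps : ∀ s, p s ∈ sphere (0 : E) 1 ∧ ∃ t : ℝ, 0 < t ∧ L x (p s) = t • c s := fun s =>
        S.h.ext_spec hx (hcne s)
      -- the function of two variables
      set H : E × ℝ → ℝ := fun u => RR g' L' (Y u.1, p u.2) - RR g L (u.1, p u.2) with hH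
      have hHc : ∀ z : E, ‖z‖ < 1 → ContDiffAt ℝ ∞ H (z, 0) := by
        intro z hz
        have m0 : ContDiffAt ℝ ∞ (fun u : E × ℝ => p u.2) (z, 0) :=
          ContDiffAt.comp (z, (0 : ℝ)) (f := fun u : E × ℝ => u.2) (g := p) (hpc 0) contDiffAt_snd
        have m1 : ContDiffAt ℝ ∞ (fun u : E × ℝ => RR g L (u.1, p u.2)) (z, 0) := by
          refine ContDiffAt.comp (z, (0 : ℝ)) (f := fun u : E × ℝ => (u.1, p u.2)) (g := RR g L) ?_
            (contDiffAt_fst.prodMk m0)
          simp only [hp0]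
          exact S.h.contDiffAt_RR hz S.hb
        have m2 : ContDiffAt ℝ ∞ (fun u : E × ℝ => RR g' L' (Y u.1, p u.2)) (z, 0) := by
          refine ContDiffAt.comp (z, (0 : ℝ)) (f := fun u : E × ℝ => (Y u.1, p u.2))
            (g := RR g' L') ?_ (ContDiffAt.prodMk (ContDiffAt.comp (z, (0 : ℝ))
              (f := fun u : E × ℝ => u.1) (g := Y) (S.full_smooth hn hY hz) contDiffAt_fst) m0)
          simp only [hp0]
          exact S.h'.contDiffAt_RR (hY z hz).1 S.hb
        exact m2.sub m1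
      have hzero : ∀ z : E, ‖z‖ < 1 → dd H (0, 1) (z, 0) = 0 ∧ dd (dd H (0, 1)) (0, 1) (z, 0) = 0 ∧
          dd (dd (dd H (0, 1)) (0, 1)) (0, 1) (z, 0) = 0 := by
        intro z hz
        have m1 : ContDiffAt ℝ ∞ (fun q => RR g L (z, q)) b :=
          ContDiffAt.comp b (f := fun q => (z, q)) (g := RR g L) (S.h.contDiffAt_RR hz S.hb)
            (contDiffAt_const.prodMk contDiffAt_id)
        have m2 : ContDiffAt ℝ ∞ (fun q => RR g' L' (Y z, q)) b :=
          ContDiffAt.comp b (f := fun q => (Y z, q)) (g := RR g' L')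
            (S.h'.contDiffAt_RR (hY z hz).1 S.hb) (contDiffAt_const.prodMk contDiffAt_id)
        obtain ⟨n1, n2, n3⟩ := hJ z hz
        obtain ⟨l1, l2, l3⟩ := chain3 (m2.sub m1) (hpc 0) hp0 n1 n2 n3
        exact dd_second (hHc z hz) l1 l2 l3
      have hball : ∀ᶠ z in 𝓝 x, ‖z‖ < 1 := continuous_norm.continuousAt.eventually_lt_const hx
      -- the unit vectors for `g'`
      set V : ℝ → E := fun s => (rho g' L' (Y x) (p s))⁻¹ • L' (Y x) (p s) with hV
      have hVc : ContDiffAt ℝ ∞ V 0 := by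
        have m1 : ContDiffAt ℝ ∞ (fun s => rho g' L' (Y x) (p s)) 0 := by
          refine ContDiffAt.comp (0 : ℝ) (f := fun s => (Y x, p s))
            (g := fun w : E × E => rho g' L' w.1 w.2) ?_ (contDiffAt_const.prodMk (hpc 0))
          simp only [hp0]
          exact S.h'.contDiffAt_rho hYM hbM hYb'
        have m2 : ContDiffAt ℝ ∞ (fun s => L' (Y x) (p s)) 0 :=
          ContDiffAt.comp (0 : ℝ) (f := p) (g := L' (Y x))
            (S.h'.L_smooth_right (Y x)).contDiffAt (hpc 0)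
        exact (m1.inv (by simp only [hp0]; exact hr'.ne')).smul m2
      have hV0' : V 0 = V0 := by simp only [hV, hp0, hV0, hrdef']
      have hVu : ∀ s, g' (Y x) (V s) (V s) = 1 := fun s =>
        S.h'.unit_dir hYM (mem_of_sphere (hps s).1) (ne_of_sphere hYb (hps s).1)
      have hphi : ∀ δ, (fun s => dd H (δ, 0) (x, s)) =ᶠ[𝓝 0]
          fun s => g x (c s) δ - g' (Y x) (V s) (fderiv ℝ Y x δ) := by
        intro δ
        refine Eventually.of_forall fun s => ?_
        simp only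
        obtain ⟨hpS, t, ht, hLt⟩ := hps s
        have hl : HasDerivAt (fun a : ℝ => x + a • δ) δ 0 := by
          simpa using ((hasDerivAt_id (0 : ℝ)).smul_const δ).const_add x
        have m1 : DifferentiableAt ℝ (RR g L) (x, p s) :=
          (S.h.contDiffAt_RR hx hpS).differentiableAt (by simp)
        have m2 : DifferentiableAt ℝ (RR g' L') (Y x, p s) :=
          (S.h'.contDiffAt_RR hYb hpS).differentiableAt (by simp)
        have hHd : DifferentiableAt ℝ H (x, s) := by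
          have n0 : DifferentiableAt ℝ (fun u : E × ℝ => p u.2) (x, s) :=
            DifferentiableAt.comp (x, s) (f := fun u : E × ℝ => u.2) (g := p)
              ((hpc s).differentiableAt (by simp)) differentiableAt_snd
          have n1 : DifferentiableAt ℝ (fun u : E × ℝ => RR g L (u.1, p u.2)) (x, s) :=
            DifferentiableAt.comp (x, s) (f := fun u : E × ℝ => (u.1, p u.2)) (g := RR g L) m1
              (differentiableAt_fst.prodMk n0)
          have n2 : DifferentiableAt ℝ (fun u : E × ℝ => RR g' L' (Y u.1, p u.2)) (x, s) :=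
            DifferentiableAt.comp (x, s) (f := fun u : E × ℝ => (Y u.1, p u.2)) (g := RR g' L') m2
              (DifferentiableAt.prodMk (DifferentiableAt.comp (x, s) (f := fun u : E × ℝ => u.1)
                (g := Y) (hYs.differentiableAt (by simp)) differentiableAt_fst) n0)
          exact n2.sub n1
        have k1 : HasDerivAt (fun a : ℝ => (x + a • δ, s)) (δ, (0 : ℝ)) 0 :=
          hl.prodMk (hasDerivAt_const (0 : ℝ) s)
        have k2 := HasFDerivAt.comp_hasDerivAt_of_eq (f := fun a : ℝ => (x + a • δ, s))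
          (l := H) (0 : ℝ) hHd.hasFDerivAt k1 (by simp)
        have k3 : HasDerivAt (fun a : ℝ => RR g L (x + a • δ, p s))
            (fderiv ℝ (RR g L) (x, p s) (δ, 0)) 0 :=
          HasFDerivAt.comp_hasDerivAt_of_eq (f := fun a : ℝ => (x + a • δ, p s))
            (l := RR g L) (0 : ℝ) m1.hasFDerivAt (hl.prodMk (hasDerivAt_const (0 : ℝ) (p s)))
            (by simp)
        have k4 : HasDerivAt (fun a : ℝ => Y (x + a • δ)) (fderiv ℝ Y x δ) 0 :=
          HasFDerivAt.comp_hasDerivAt_of_eq (f := fun a : ℝ => x + a • δ)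
            (l := Y) (0 : ℝ) hYd hl (by simp)
        have k5 : HasDerivAt (fun a : ℝ => RR g' L' (Y (x + a • δ), p s))
            (fderiv ℝ (RR g' L') (Y x, p s) (fderiv ℝ Y x δ, 0)) 0 :=
          HasFDerivAt.comp_hasDerivAt_of_eq (f := fun a : ℝ => (Y (x + a • δ), p s))
            (l := RR g' L') (0 : ℝ) m2.hasFDerivAt (k4.prodMk (hasDerivAt_const (0 : ℝ) (p s)))
            (by simp)
        have k6 : dd H (δ, 0) (x, s) = fderiv ℝ (RR g' L') (Y x, p s) (fderiv ℝ Y x δ, 0) -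
            fderiv ℝ (RR g L) (x, p s) (δ, 0) := k2.unique (k5.sub k3)
        rw [k6, S.h.fderiv_RR_left hx hpS, S.h'.fderiv_RR_left hYb hpS]
        have k7 : rho g L x (p s) = t := by
          rw [rho, hLt]
          simp only [map_smul, smul_apply, smul_eq_mul, hgcc, mul_one]
          exact Real.sqrt_mul_self ht.le
        rw [k7, hLt]
        simp only [hV, map_smul, smul_apply, smul_eq_mul]
        have ht0 := ht.ne'
        field_simp
        ring
      have hderivs : ∀ δ, g' (Y x) (deriv V 0) (fderiv ℝ Y x δ) = g x v2 δ ∧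
          g' (Y x) (deriv (deriv V) 0) (fderiv ℝ Y x δ) = - g x v1 δ ∧
          g' (Y x) (deriv (deriv (deriv V)) 0) (fderiv ℝ Y x δ) = - g x v2 δ := by
        intro δ
        obtain ⟨-, m1, m2, m3⟩ := deriv3_bil (B := g x) (B' := g' (Y x)) (c := c) (V := V)
          hcc.contDiffAt hVc δ (fderiv ℝ Y x δ) (hphi δ)
        obtain ⟨n1, n2, n3⟩ := jets_comm (δ := δ) (hHc x hx)
          (by filter_upwards [hball] with z hz using (hzero z hz).1)
          (by filter_upwards [hball] with z hz using (hzero z hz).2.1)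
          (by filter_upwards [hball] with z hz using (hzero z hz).2.2)
        rw [n1, hd1] at m1
        rw [n2, hd2] at m2
        rw [n3, hd3] at m3
        simp only [Real.sin_zero, Real.cos_zero, neg_zero, zero_smul, zero_add, one_smul,
          add_zero, neg_smul, map_neg, neg_apply] at m1 m2 m3
        exact ⟨by linarith, by linarith, by linarith⟩
      obtain ⟨u1, u2, u3⟩ := unit3 (S.h'.symm _ hYM) hVc (Eventually.of_forall hVu)
      rw [hV0'] at u1 u2 u3
      exact ⟨deriv V 0, deriv (deriv V) 0, deriv (deriv (deriv V)) 0, fun δ => (hderivs δ).1,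
        fun δ => (hderivs δ).2.1, fun δ => (hderivs δ).2.2, u1, u2, u3⟩)
  constructor
  · intro δ hδ
    have h1 := k1 δ (by rw [hv1, map_smul, smul_apply, hδ, smul_zero])
    rw [hV0, map_smul, smul_apply, smul_eq_mul] at h1
    rcases mul_eq_zero.1 h1 with h2 | h2
    · exact absurd h2 (inv_ne_zero hr'.ne')
    · exact h2
  · intro hA
    exact k2 fun δ => by
      rw [hV0, hv1, map_smul, map_smul, smul_apply, smul_apply, smul_eq_mul, smul_eq_mul]
      exact hA δ

end Bas

end Pool.Agent.W5h72.BR
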