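import Pool.Agent.W5h72.BR.Jet4

/-!
# Jets of order three in one boundary point
-/

open Set Metric Filter Topology
open scoped ContDiff RealInnerProductSpace

noncomputable section

set_option maxSynthPendingDepth 3

namespace Pool.Agent.W5h72.BR

variable {E : Type*} [NormedAddCommGroup E] [InnerProductSpace ℝ E]

namespace Simple

variable {g : E → E →L[ℝ] E →L[ℝ] ℝ} {e L : E → E → E}

/-- the Hessian is a smooth function of the point -/
lemma contDiffAt_Q (h : Simple g e L) {y p : E} (hy : y ∈ closedBall (0 : E) 1)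
    (hp : p ∈ sphere (0 : E) 1) (hyp : y ≠ p) : ContDiffAt ℝ ∞ (fun y => Q g L p y) y := by
  have hp0 := ne_zero_of_mem_sphere' hp
  have hpp := proj_of_mem hp
  have c1 : ContDiffAt ℝ ∞ (fun w : (E × E) × E => rho g L w.1.1 (proj w.2)) ((y, p), p) := by
    have h1 := h.contDiffAt_rho_proj hy hp0 (by rw [hpp]; exact hyp)
    exact ContDiffAt.comp ((y, p), p) (f := fun w : (E × E) × E => (w.1.1, w.2)) h1
      ((contDiffAt_fst.comp _ contDiffAt_fst).prodMk contDiffAt_snd)
  have d1 : ContDiffAt ℝ ∞ (fun w : E × E => fderiv ℝ (fun z => rho g L w.1 (proj z)) w.2)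
      (y, p) :=
    ContDiffAt.fderiv (f := fun (w : E × E) (z : E) => rho g L w.1 (proj z))
      (g := fun w : E × E => w.2) c1 contDiffAt_snd (by simp)
  exact ContDiffAt.fderiv (f := fun (y : E) (z : E) => fderiv ℝ (fun z => rho g L y (proj z)) z)
    (g := fun _ : E => p) d1 contDiffAt_const (by simp)

end Simple

variable [FiniteDimensional ℝ E]

namespace Bas

variable {g g' : E → E →L[ℝ] E →L[ℝ] ℝ} {e L e' L' : E → E → E} {b : E} {A A' : E →L[ℝ] E}

omit [FiniteDimensional ℝ E] in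
/-- the Hessians of boundary points agree -/
lemma Q_bdry (S : Bas g g' e L e' L' b A A') {q : E} (hq : q ∈ sphere (0 : E) 1) :
    Simple.Q g L b q = Simple.Q g' L' b q := by
  have h1 : (fun z => rho g L q (proj z)) =ᶠ[𝓝 b] fun z => rho g' L' q (proj z) := by
    filter_upwards [isOpen_compl_singleton.mem_nhds
      (show b ∈ ({0}ᶜ : Set E) from ne_zero_of_mem_sphere' S.hb)] with z hz
    exact S.hd q hq _ (proj_mem hz)
  exact h1.fderiv.fderiv_eq

/-- the boundary values of the quotient of the distances from `b` -/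
lemma full_bdry (S : Bas g g' e L e' L' b A A') (hn : 1 < Module.finrank ℝ E) {Y : E → E}
    (hY : ∀ x : E, ‖x‖ < 1 → Full g g' L L' x b (Y x)) {q0 : E}
    (hq0 : q0 ∈ sphere (0 : E) 1) (hbq0 : b ≠ q0) :
    Tendsto (fun x => rho g' L' b (Y x) / rho g L b x) (𝓝[ball 0 1] q0) (𝓝 1) := by
  have hbM := mem_of_sphere S.hb
  have hq0M := mem_of_sphere hq0
  obtain ⟨ξ, hξ1, hξb⟩ := exists_orth hn b
  have hξ0 : ξ ≠ 0 := by rintro rfl; simp at hξ1
  -- the exit points from `b`
  have hqx : ∀ x : E, ‖x‖ < 1 → ∃ q, q ∈ sphere (0 : E) 1 ∧ x ∈ seg g b q := fun x hx => by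
    obtain ⟨q, hq, -, hxq⟩ := S.h.exists_exit S.hb hx
    exact ⟨q, hq, hxq⟩
  set q : E → E := fun x => Classical.epsilon fun q => q ∈ sphere (0 : E) 1 ∧ x ∈ seg g b q with hq
  have hqs : ∀ x : E, ‖x‖ < 1 → q x ∈ sphere (0 : E) 1 ∧ x ∈ seg g b (q x) := fun x hx =>
    Classical.epsilon_spec (hqx x hx)
  have hYs : ∀ x : E, ‖x‖ < 1 → ‖Y x‖ < 1 ∧ Y x ∈ seg g' b (q x) := by
    intro x hx
    obtain ⟨h1, ⟨-, q2, hq2, hxq2, hyq2⟩, -⟩ := hY x hx
    have : q2 = q x := S.h.exit_uniq S.hb hq2 (hqs x hx).1 (ne_of_sphere hx S.hb) hxq2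
      (hqs x hx).2
    rw [this] at hyq2
    exact ⟨h1, hyq2⟩
  have hball : ∀ᶠ x in 𝓝[ball 0 1] q0, ‖x‖ < 1 := by
    filter_upwards [self_mem_nhdsWithin] with x hx
    simpa using hx
  have hid : Tendsto (fun x : E => x) (𝓝[ball 0 1] q0) (𝓝 q0) :=
    tendsto_id'.2 nhdsWithin_le_nhds
  have hr0 := S.h.rho_pos hbM hq0M hbq0
  have hYt : Tendsto Y (𝓝[ball 0 1] q0) (𝓝 q0) := by
    refine (isCompact_closedBall (0 : E) 1).tendsto_nhds_of_unique_mapClusterPt ?_ ?_
    · filter_upwards [hball] with x hx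
      exact mem_of_norm_lt (hYs x hx).1
    · intro y hy hcl
      obtain ⟨U, hU, hUt⟩ := mapClusterPt_iff_ultrafilter.1 hcl
      have hUb : ∀ᶠ x in (U : Filter E), ‖x‖ < 1 := hU hball
      have hUx : Tendsto (fun x : E => x) U (𝓝 q0) := hid.mono_left hU
      obtain ⟨q1, hq1, hqt⟩ : ∃ z ∈ sphere (0 : E) 1, Tendsto q U (𝓝 z) := by
        have h1 : sphere (0 : E) 1 ∈ U.map q := by
          have : ∀ᶠ x in (U : Filter E), q x ∈ sphere (0 : E) 1 := by
            filter_upwards [hUb] with x hx using (hqs x hx).1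
          exact this
        exact (isCompact_sphere (0 : E) 1).ultrafilter_le_nhds' (U.map q) h1
      have m3 : q0 ∈ seg g b q1 := by
        refine ((S.h.isClosed_seg).mem_of_tendsto (b := (U : Filter E))
          (hUx.prodMk_nhds ((tendsto_const_nhds (x := b)).prodMk_nhds hqt)) ?_).2.2
        filter_upwards [hUb] with x hx
        exact ⟨S.hb, (hqs x hx).1, (hqs x hx).2⟩
      have m4 : y ∈ seg g' b q1 := by
        refine ((S.h'.isClosed_seg).mem_of_tendsto (b := (U : Filter E))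
          (hUt.prodMk_nhds ((tendsto_const_nhds (x := b)).prodMk_nhds hqt)) ?_).2.2
        filter_upwards [hUb] with x hx
        exact ⟨S.hb, (hqs x hx).1, (hYs x hx).2⟩
      have hq01 : q0 = q1 := by
        rcases S.h.seg_bdry S.hb hq1 hq0 m3 with k | k
        · exact absurd k.symm hbq0
        · exact k
      subst hq01
      obtain ⟨t, ht, hyt⟩ := (S.h'.mem_seg hbM hq0M).1 m4
      by_contra hne
      have ht1 : t < 1 := by
        refine lt_of_le_of_ne ht.2 fun h0 => hne ?_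
        rw [hyt, h0, one_smul, S.h'.e_L hbM hq0M]
      have hr0' := S.h'.rho_pos hbM hq0M hbq0
      obtain ⟨t0, ht0⟩ : ∃ t0, t0 = (1 + t) / 2 := ⟨_, rfl⟩
      have ht01 : t0 ∈ Ioo (0 : ℝ) 1 := ⟨by rw [ht0]; linarith [ht.1], by rw [ht0]; linarith⟩
      have htt0 : t < t0 := by rw [ht0]; linarith
      have n1 : Tendsto (fun x => rho g' L' b (Y x)) U (𝓝 (t * rho g' L' b q0)) := by
        have := ((S.h'.continuous_rho b).tendsto y).comp hUt
        rw [hyt, S.h'.rho_pt hbM hq0M ht] at this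
        exact this
      have n2 : Tendsto (fun x => t0 * rho g' L' b (q x)) U (𝓝 (t0 * rho g' L' b q0)) :=
        (((S.h'.continuous_rho b).tendsto q0).comp hqt).const_mul t0
      have n3 : ∀ᶠ x in (U : Filter E), rho g' L' b (Y x) < t0 * rho g' L' b (q x) :=
        n1.eventually_lt n2 (mul_lt_mul_of_pos_right htt0 hr0')
      -- the Hessians
      have n4 : ∀ᶠ x in (U : Filter E),
          Simple.Q g' L' b (e' b (t0 • L' b (q x))) ξ ξ ≤ Simple.Q g L b x ξ ξ := by
        filter_upwards [hUb, n3] with x hx hlt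
        obtain ⟨k1, k2⟩ := hYs x hx
        have hqS := (hqs x hx).1
        have hqM := mem_of_sphere hqS
        have hbq : b ≠ q x := by
          intro h0
          obtain ⟨t', ht', hx'⟩ := (S.h.mem_seg hbM hqM).1 (hqs x hx).2
          rw [← h0, S.h.L_self hbM, smul_zero, S.h.e_zero hbM] at hx'
          exact ne_of_sphere hx S.hb hx'
        obtain ⟨s, hs, hys⟩ := S.h'.exists_param S.hb hqS k1 k2
        have hss : rho g' L' b (Y x) = s * rho g' L' b (q x) := by
          rw [hys, S.h'.rho_pt hbM hqM (Ioo_subset_Icc_self hs)]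
        rw [hss] at hlt
        have hst : s < t0 := lt_of_mul_lt_mul_right hlt (S.h'.rho_pos hbM hqM hbq).le
        have k3 := S.h'.Q_anti S.hb hqM hbq hs.1 hst ht01.2 hξb hξ0
        rw [← hys, (hY x hx).2.2 ξ hξb ξ] at k3
        exact k3.le
      have hyi : ‖e' b (t0 • L' b q0)‖ < 1 := S.h'.pt_interior hbM hq0M hbq0 ht01
      have n5 : Tendsto (fun x => Simple.Q g L b x ξ ξ) U (𝓝 (Simple.Q g L b q0 ξ ξ)) := by
        have k1 : ContinuousAt (fun x => Simple.Q g L b x ξ ξ) q0 :=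
          ((S.h.contDiffAt_Q hq0M S.hb hbq0.symm).continuousAt.clm_apply
            continuousAt_const).clm_apply continuousAt_const
        exact k1.tendsto.comp hUx
      have n6 : Tendsto (fun x => Simple.Q g' L' b (e' b (t0 • L' b (q x))) ξ ξ) U
          (𝓝 (Simple.Q g' L' b (e' b (t0 • L' b q0)) ξ ξ)) := by
        have k1 : ContinuousAt (fun y => Simple.Q g' L' b y ξ ξ) (e' b (t0 • L' b q0)) :=
          ((S.h'.contDiffAt_Q (mem_of_norm_lt hyi) S.hb
            (ne_of_sphere hyi S.hb)).continuousAt.clm_apply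
            continuousAt_const).clm_apply continuousAt_const
        have k2 : Continuous fun z => e' b (t0 • L' b z) :=
          (S.h'.e_smooth_right b).continuous.comp
            ((S.h'.L_smooth_right b).continuous.const_smul t0)
        exact k1.tendsto.comp ((k2.tendsto q0).comp hqt)
      have n7 := le_of_tendsto_of_tendsto n6 n5 n4
      have n8 := S.h'.Q_lt S.hb hq0M hbq0 ht01 rfl hξb hξ0
      rw [S.Q_bdry hq0] at n7
      linarith
  have h1 : Tendsto (fun x => rho g' L' b (Y x) / rho g L b x) (𝓝[ball 0 1] q0)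
      (𝓝 (rho g' L' b q0 / rho g L b q0)) := by
    refine Tendsto.div ?_ ?_ hr0.ne'
    · exact ((S.h'.continuous_rho b).tendsto q0).comp hYt
    · exact ((S.h.continuous_rho b).tendsto q0).comp hid
  rwa [← S.hd b S.hb q0 hq0, div_self hr0.ne'] at h1

/-- the quotient of the distances from `b` is one -/
lemma full_one (S : Bas g g' e L e' L' b A A') (hn : 1 < Module.finrank ℝ E) {Y : E → E}
    (hY : ∀ x : E, ‖x‖ < 1 → Full g g' L L' x b (Y x))
    (hJ : ∀ x : E, ‖x‖ < 1 → J3 (fun z => RR g' L' (Y x, z) - RR g L (x, z)) b)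
    {x : E} (hx : ‖x‖ < 1) : rho g' L' b (Y x) / rho g L b x = 1 := by
  have hbM := mem_of_sphere S.hb
  refine S.h.transport hn S.hb (Z := fun x => rho g' L' b (Y x) / rho g L b x) ?_
    (fun q hq hbq => S.full_bdry hn hY hq hbq) hx
  intro x hx
  have hxM := mem_of_norm_lt hx
  have hYb := (hY x hx).1
  have hYM := mem_of_norm_lt hYb
  have hr := S.h.rho_pos hbM hxM (ne_of_sphere hx S.hb).symm
  have h1 := S.h.hasFDerivAt_rho hbM hxM (ne_of_sphere hx S.hb).symm
  have hYd : HasFDerivAt Y (fderiv ℝ Y x) x :=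
    ((S.full_smooth hn hY hx).differentiableAt (by simp)).hasFDerivAt
  have h2 : HasFDerivAt (fun x => rho g' L' b (Y x)) _ x :=
    HasFDerivAt.comp x (f := Y) (g := rho g' L' b)
      (S.h'.hasFDerivAt_rho hbM hYM (ne_of_sphere hYb S.hb).symm) hYd
  have h3 : HasFDerivAt (fun x => (rho g L b x)⁻¹) _ x :=
    HasDerivAt.comp_hasFDerivAt x (hasDerivAt_inv hr.ne') h1
  have h4 := h2.mul h3
  refine ⟨_, h4.congr_of_eventuallyEq (Eventually.of_forall fun z => div_eq_mul_inv _ _), ?_⟩
  intro δ hδ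
  rw [S.h.symm x hxM] at hδ
  have h5 := (S.jets hn hY hJ hx).1 δ hδ
  simp [hδ, h5]

/-- agreement of the jets of order three in one boundary point -/
theorem isometric_of_jets (S : Bas g g' e L e' L' b A A') (hn : 1 < Module.finrank ℝ E)
    {Y : E → E} (hY : ∀ x : E, ‖x‖ < 1 → Full g g' L L' x b (Y x))
    (hJ : ∀ x : E, ‖x‖ < 1 → J3 (fun z => RR g' L' (Y x, z) - RR g L (x, z)) b) :
    BoundaryIsometric g g' := by
  have hbM := mem_of_sphere S.hb
  have hYeq : ∀ x : E, ‖x‖ < 1 → Y x = Pt e' L b A x 1 := by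
    intro x hx
    obtain ⟨h1, h2, -⟩ := hY x hx
    have h3 := (S.par hx h1 h2).2.1
    rwa [S.full_one hn hY hJ hx] at h3
  refine S.isometric fun x hx v w => ?_
  have hxM := mem_of_norm_lt hx
  have hYb := (hY x hx).1
  have hYM := mem_of_norm_lt hYb
  have hball : ∀ᶠ z in 𝓝 x, ‖z‖ < 1 := continuous_norm.continuousAt.eventually_lt_const hx
  have hev : Y =ᶠ[𝓝 x] fun x => Pt e' L b A x 1 := by
    filter_upwards [hball] with z hz using hYeq z hz
  rw [← hev.fderiv_eq, ← hYeq x hx]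
  refine (S.jets hn hY hJ hx).2 (fun δ => ?_) v w
  have hr := S.h.rho_pos hbM hxM (ne_of_sphere hx S.hb).symm
  have hrr : ∀ z : E, ‖z‖ < 1 → rho g' L' b (Y z) = rho g L b z := by
    intro z hz
    have h1 := S.full_one hn hY hJ hz
    have h2 := S.h.rho_pos hbM (mem_of_norm_lt hz) (ne_of_sphere hz S.hb).symm
    rw [div_eq_one_iff_eq h2.ne'] at h1
    exact h1
  have h1 := S.h.hasFDerivAt_rho hbM hxM (ne_of_sphere hx S.hb).symm
  have hYd : HasFDerivAt Y (fderiv ℝ Y x) x :=
    ((S.full_smooth hn hY hx).differentiableAt (by simp)).hasFDerivAt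
  have h2 : HasFDerivAt (fun x => rho g' L' b (Y x)) _ x :=
    HasFDerivAt.comp x (f := Y) (g := rho g' L' b)
      (S.h'.hasFDerivAt_rho hbM hYM (ne_of_sphere hYb S.hb).symm) hYd
  have h3 : (fun x => rho g' L' b (Y x)) =ᶠ[𝓝 x] fun z => rho g L b z := by
    filter_upwards [hball] with z hz using hrr z hz
  have h4 := congrArg (fun f : E →L[ℝ] ℝ => f δ) (h2.unique (h1.congr_of_eventuallyEq h3))
  simp only [ContinuousLinearMap.comp_apply, smul_apply, smul_eq_mul] at h4
  rw [S.h'.rho_symm hYM hbM, S.h.rho_symm hxM hbM]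
  linarith

end Bas

end Pool.Agent.W5h72.BR
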