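import Pool.Agent.W5h72.BR.Jet5

/-!
# The criterion with jets of order three in one boundary point
-/

open Set Metric Filter Topology
open scoped ContDiff RealInnerProductSpace

noncomputable section

set_option maxSynthPendingDepth 3

namespace Pool.Agent.W5h72.BR

variable {E : Type*} [NormedAddCommGroup E] [InnerProductSpace ℝ E]

lemma J3.congr {f f' : E → ℝ} {b : E} (h : f =ᶠ[𝓝 b] f') (hf : J3 f b) : J3 f' b := by
  obtain ⟨h1, h2, h3⟩ := hf
  refine ⟨?_, ?_, ?_⟩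
  · rw [← h.fderiv_eq, h1]
  · rw [← h.fderiv.fderiv_eq, h2]
  · rw [← h.fderiv.fderiv.fderiv_eq, h3]

variable [FiniteDimensional ℝ E]

namespace Simple

variable {g g' : E → E →L[ℝ] E →L[ℝ] ℝ} {e L e' L' : E → E → E}

/-- agreement of the jets of order three in one boundary point -/
theorem isometric_of_J3 (h : Simple g e L) (h' : Simple g' e' L')
    (hn : 1 < Module.finrank ℝ E)
    (hd : ∀ p ∈ sphere (0 : E) 1, ∀ q ∈ sphere (0 : E) 1, rho g L p q = rho g' L' p q)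
    {b : E} (hb : b ∈ sphere (0 : E) 1)
    (hJ : ∀ x : E, ‖x‖ < 1 → ∃ y : E, ‖y‖ < 1 ∧ J3 (bdiff g g' x y) b) :
    BoundaryIsometric g g' := by
  obtain ⟨A, A', S⟩ := exists_bas h h' hd hb
  have hb0 := ne_zero_of_mem_sphere' hb
  set Y : E → E := fun x => Classical.epsilon fun y => ‖y‖ < 1 ∧ J3 (bdiff g g' x y) b with hY
  have hYs : ∀ x : E, ‖x‖ < 1 → ‖Y x‖ < 1 ∧ J3 (bdiff g g' x (Y x)) b := fun x hx =>
    Classical.epsilon_spec (p := fun y => ‖y‖ < 1 ∧ J3 (bdiff g g' x y) b) (hJ x hx)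
  refine S.isometric_of_jets hn (Y := Y) (fun x hx => ?_) (fun x hx => ?_)
  · obtain ⟨hYb, h1, h2, -⟩ := hYs x hx
    obtain ⟨k1, k2⟩ := h.fderiv_bdiff h' hx hYb hb
    rw [k1] at h1
    rw [k2] at h2
    refine ⟨hYb, h.gam_of_Phi h' hd hx hYb hb h1, fun ξ _ ζ => ?_⟩
    have h3 := congrArg (fun f : E →L[ℝ] E →L[ℝ] ℝ => f ξ ζ) h2
    simp only [sub_apply, zero_apply] at h3
    linarith
  · obtain ⟨hYb, h1⟩ := hYs x hx
    exact h1.congr (h.bdiff_ev h' (mem_of_norm_lt hx) (mem_of_norm_lt hYb) hb0)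

/-- the converse -/
theorem J3_of_isometric (h : Simple g e L) (h' : Simple g' e' L') (hψ : BoundaryIsometric g g')
    (hd : ∀ p ∈ sphere (0 : E) 1, ∀ q ∈ sphere (0 : E) 1, rho g L p q = rho g' L' p q)
    {b : E} (hb : b ∈ sphere (0 : E) 1) {x : E} (hx : ‖x‖ < 1) :
    ∃ y : E, ‖y‖ < 1 ∧ J3 (bdiff g g' x y) b := by
  obtain ⟨ψ, χ, hψs, -, hψM, -, hψS, hiso⟩ := hψ
  have hxM := mem_of_norm_lt hx
  have hb0 := ne_zero_of_mem_sphere' hb
  have hψb : ‖ψ x‖ < 1 := by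
    refine lt_of_le_of_ne (by simpa using (hψM x hxM).1) fun hb => ?_
    have hS : ψ x ∈ sphere (0 : E) 1 := by simpa using hb
    have h1 := hψS _ hS
    have h2 := (hψM _ (mem_of_sphere hS)).2
    rw [h1, (hψM x hxM).2] at h2
    rw [← h2] at hb
    linarith
  refine ⟨ψ x, hψb, ?_⟩
  have h2 : (fun _ => 0) =ᶠ[𝓝 b] bdiff g g' x (ψ x) := by
    filter_upwards [isOpen_compl_singleton.mem_nhds (show b ∈ ({0}ᶜ : Set E) from hb0)] with z hz
    rw [h.bdiff_eq h' hxM (hψM x hxM).1 hz,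
      h.rho_eq_of_isometry h' hψs (fun x hx => (hψM x hx).1) hψS hiso hd hx (proj_mem hz),
      sub_self]
  have h0 : fderiv ℝ (fun _ : E => (0 : ℝ)) = fun _ => 0 := by
    funext z
    simp
  refine J3.congr h2 ⟨by simp, ?_, ?_⟩
  · rw [h0]; simp
  · rw [h0]
    have h3 : fderiv ℝ (fun _ : E => (0 : E →L[ℝ] ℝ)) = fun _ => 0 := by
      funext z
      simp
    rw [h3]
    simp

end Simple

/-- for each interior point `x` there is an interior point `y` such that the derivatives of order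
one, two and three at the boundary point `b` of the restriction of `d_{g'}(y, ·) - d_g(x, ·)` to the
boundary vanish -/
def ThreeJetsAgree (g g' : E → E →L[ℝ] E →L[ℝ] ℝ) (b : E) : Prop :=
  ∀ x : E, ‖x‖ < 1 → ∃ y : E, ‖y‖ < 1 ∧
    fderiv ℝ (bdiff g g' x y) b = 0 ∧
    fderiv ℝ (fderiv ℝ (bdiff g g' x y)) b = 0 ∧
    fderiv ℝ (fderiv ℝ (fderiv ℝ (bdiff g g' x y))) b = 0

/-- **Jets of order three in one boundary point** -/
theorem three_jets (hn : 1 < Module.finrank ℝ E)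
    {g g' : E → E →L[ℝ] E →L[ℝ] ℝ} (hg : IsSimple g) (hg' : IsSimple g')
    (hd : ∀ p ∈ sphere (0 : E) 1, ∀ q ∈ sphere (0 : E) 1, gdist g p q = gdist g' p q)
    {b : E} (hb : b ∈ sphere (0 : E) 1) :
    BoundaryIsometric g g' ↔ ThreeJetsAgree g g' b := by
  obtain ⟨e, L, h⟩ := hg
  obtain ⟨e', L', h'⟩ := hg'
  have hd' : ∀ p ∈ sphere (0 : E) 1, ∀ q ∈ sphere (0 : E) 1, rho g L p q = rho g' L' p q := by
    intro p hp q hq
    rw [← h.gdist_eq (mem_of_sphere hp) (mem_of_sphere hq),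
      ← h'.gdist_eq (mem_of_sphere hp) (mem_of_sphere hq), hd p hp q hq]
  exact ⟨fun hψ x hx => h.J3_of_isometric h' hψ hd' hb hx,
    fun hJ => h.isometric_of_J3 h' hn hd' hb hJ⟩

end Pool.Agent.W5h72.BR
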