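import Pool.Agent.W5h72.BR.Converse

/-!
# A common focal point for all directions
-/

open Set Metric Filter Topology
open scoped ContDiff RealInnerProductSpace

noncomputable section

namespace Pool.Agent.W5h72.BR

variable {E : Type*} [NormedAddCommGroup E] [InnerProductSpace ℝ E]

/-- three kernel vectors in a plane -/
lemma three_kernels {W : Submodule ℝ E} {B : ℝ → E →L[ℝ] E →L[ℝ] ℝ} {I : Set ℝ}
    (hsymm : ∀ t ∈ I, ∀ v w, B t v w = B t w v)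
    (hanti : ∀ s ∈ I, ∀ t ∈ I, s < t → ∀ v ∈ W, v ≠ 0 → B t v v < B s v v)
    {t1 t2 t3 : ℝ} (h1 : t1 ∈ I) (h2 : t2 ∈ I) (h3 : t3 ∈ I) (h12 : t1 < t2) (h23 : t2 < t3)
    {v1 v2 v3 : E} (hv1 : v1 ∈ W) (hv3 : v3 ∈ W) (n1 : v1 ≠ 0) (n3 : v3 ≠ 0)
    (k1 : ∀ ζ, B t1 v1 ζ = 0) (k2 : ∀ ζ, B t2 v2 ζ = 0) (k3 : ∀ ζ, B t3 v3 ζ = 0)
    {a b : ℝ} (hv : v3 = a • v1 + b • v2) : False := by
  have e1 := hanti t2 h2 t3 h3 h23 v3 hv3 n3
  have e2 := hanti t1 h1 t2 h2 h12 v1 hv1 n1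
  rw [k3] at e1
  rw [k1] at e2
  have e3 : B t2 v3 v3 = a ^ 2 * B t2 v1 v1 := by
    rw [hv]
    simp only [map_add, map_smul, add_apply, smul_apply, smul_eq_mul, k2]
    rw [hsymm t2 h2 v1 v2, k2]
    ring
  rw [e3] at e1
  nlinarith [sq_nonneg a]

lemma common_param {W : Submodule ℝ E} {B : ℝ → E →L[ℝ] E →L[ℝ] ℝ} {I : Set ℝ}
    (hsymm : ∀ t ∈ I, ∀ v w, B t v w = B t w v)
    (hanti : ∀ s ∈ I, ∀ t ∈ I, s < t → ∀ v ∈ W, v ≠ 0 → B t v v < B s v v)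
    (hker : ∀ ξ ∈ W, ξ ≠ 0 → ∃ t ∈ I, ∀ ζ, B t ξ ζ = 0) (hW : ∃ ξ ∈ W, ξ ≠ 0) :
    ∃ t ∈ I, ∀ ξ ∈ W, ∀ ζ, B t ξ ζ = 0 := by
  obtain ⟨ξ, hξ, hξ0⟩ := hW
  obtain ⟨t0, ht0, k0⟩ := hker ξ hξ hξ0
  have huniq : ∀ v ∈ W, v ≠ 0 → ∀ s ∈ I, ∀ t ∈ I, (∀ ζ, B s v ζ = 0) → (∀ ζ, B t v ζ = 0) →
      s = t := by
    intro v hv hv0 s hs t ht ks kt
    rcases lt_trichotomy s t with h | h | h
    · have := hanti s hs t ht h v hv hv0
      rw [ks, kt] at this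
      exact absurd this (lt_irrefl _)
    · exact h
    · have := hanti t ht s hs h v hv hv0
      rw [ks, kt] at this
      exact absurd this (lt_irrefl _)
  refine ⟨t0, ht0, fun η hη => ?_⟩
  by_cases hη0 : η = 0
  · intro ζ; rw [hη0]; simp
  obtain ⟨t1, ht1, k1⟩ := hker η hη hη0
  suffices t1 = t0 by rwa [this] at k1
  by_contra hne
  by_cases hs0 : ξ + η = 0
  · apply hne
    refine huniq η hη hη0 t1 ht1 t0 ht0 k1 fun ζ => ?_
    rw [← neg_eq_of_add_eq_zero_right hs0, map_neg, neg_apply, k0, neg_zero]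
  obtain ⟨t2, ht2, k2⟩ := hker (ξ + η) (W.add_mem hξ hη) hs0
  have c0 : t2 ≠ t0 := by
    rintro rfl
    apply hne
    refine huniq η hη hη0 t1 ht1 t2 ht2 k1 fun ζ => ?_
    have := k2 ζ
    rw [map_add, add_apply, k0, zero_add] at this
    exact this
  have c1 : t2 ≠ t1 := by
    rintro rfl
    apply hne
    refine (huniq ξ hξ hξ0 t0 ht0 t2 ht2 k0 fun ζ => ?_).symm
    have := k2 ζ
    rw [map_add, add_apply, k1, add_zero] at this
    exact this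
  have hsW := W.add_mem hξ hη
  have r1 : ξ + η = (1 : ℝ) • ξ + (1 : ℝ) • η := by simp
  have r1' : ξ + η = (1 : ℝ) • η + (1 : ℝ) • ξ := by simp [add_comm]
  have r2 : η = (1 : ℝ) • (ξ + η) + (-1 : ℝ) • ξ := by simp
  have r2' : η = (-1 : ℝ) • ξ + (1 : ℝ) • (ξ + η) := by simp
  have r3 : ξ = (1 : ℝ) • (ξ + η) + (-1 : ℝ) • η := by simp
  have r3' : ξ = (-1 : ℝ) • η + (1 : ℝ) • (ξ + η) := by simp
  rcases lt_or_gt_of_ne hne with h10 | h10 <;> rcases lt_or_gt_of_ne c0 with h20 | h20 <;>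
    rcases lt_or_gt_of_ne c1 with h21 | h21
  · -- t2 < t1 < t0
    exact three_kernels hsymm hanti ht2 ht1 ht0 h21 h10 hsW hξ hs0 hξ0 k2 k1 k0 r3
  · -- t1 < t2 < t0
    exact three_kernels hsymm hanti ht1 ht2 ht0 h21 h20 hη hξ hη0 hξ0 k1 k2 k0 r3'
  · linarith
  · -- t1 < t0 < t2
    exact three_kernels hsymm hanti ht1 ht0 ht2 h10 h20 hη hsW hη0 hs0 k1 k0 k2 r1'
  · -- t2 < t0 < t1
    exact three_kernels hsymm hanti ht2 ht0 ht1 h20 h10 hsW hη hs0 hη0 k2 k0 k1 r2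
  · linarith
  · -- t0 < t2 < t1
    exact three_kernels hsymm hanti ht0 ht2 ht1 h20 h21 hξ hη hξ0 hη0 k0 k2 k1 r2'
  · -- t0 < t1 < t2
    exact three_kernels hsymm hanti ht0 ht1 ht2 h10 h21 hξ hsW hξ0 hs0 k0 k1 k2 r1

/-- all the boundary directions at `p` are focal at `y` -/
def Full (g g' : E → E →L[ℝ] E →L[ℝ] ℝ) (L L' : E → E → E) (x p y : E) : Prop :=
  ‖y‖ < 1 ∧ Gam g g' x p y ∧
    ∀ ξ, inner ℝ p ξ = 0 → ∀ ζ, Simple.Q g' L' p y ξ ζ = Simple.Q g L p x ξ ζ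

namespace Simple

variable {g g' : E → E →L[ℝ] E →L[ℝ] ℝ} {e L e' L' : E → E → E}

/-- parametrisation of the interior points of a geodesic -/
lemma exists_param (h : Simple g e L) {p q y : E} (hp : p ∈ sphere (0 : E) 1)
    (hq : q ∈ sphere (0 : E) 1) (hy : ‖y‖ < 1) (hs : y ∈ seg g p q) :
    ∃ t ∈ Ioo (0 : ℝ) 1, y = e p (t • L p q) := by
  obtain ⟨t, ht, hyt⟩ := (h.mem_seg (mem_of_sphere hp) (mem_of_sphere hq)).1 hs
  refine ⟨t, ⟨lt_of_le_of_ne ht.1 ?_, lt_of_le_of_ne ht.2 ?_⟩, hyt⟩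
  · rintro rfl
    rw [zero_smul, h.e_zero (mem_of_sphere hp)] at hyt
    exact ne_of_sphere hy hp hyt
  · rintro rfl
    rw [one_smul, h.e_L (mem_of_sphere hp) (mem_of_sphere hq)] at hyt
    exact ne_of_sphere hy hq hyt

variable [FiniteDimensional ℝ E]

/-- the Hessians decrease along a geodesic, in terms of the parameter -/
lemma Q_anti (h : Simple g e L) {p q : E} (hp : p ∈ sphere (0 : E) 1)
    (hq : q ∈ closedBall (0 : E) 1) (hpq : p ≠ q) {s t : ℝ} (hs : 0 < s) (hst : s < t)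
    (ht : t < 1) {v : E} (hv : inner ℝ p v = 0) (hv0 : v ≠ 0) :
    Q g L p (e p (t • L p q)) v v < Q g L p (e p (s • L p q)) v v := by
  have hpM := mem_of_sphere hp
  have ht0 : 0 < t := hs.trans hst
  have hyt : ‖e p (t • L p q)‖ < 1 := h.pt_interior hpM hq hpq ⟨ht0, ht⟩
  refine h.Q_lt hp (mem_of_norm_lt hyt) (ne_of_sphere hyt hp).symm (t := s / t)
    ⟨by positivity, (div_lt_one ht0).2 hst⟩ ?_ hv hv0
  rw [h.L_pt hpM hq ⟨ht0.le, ht.le⟩, smul_smul, div_mul_cancel₀ _ ht0.ne']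

lemma full_of_kernel (h : Simple g e L) (h' : Simple g' e' L') (hn : 1 < Module.finrank ℝ E)
    {x p : E} (hx : ‖x‖ < 1) (hp : p ∈ sphere (0 : E) 1)
    (hK : ∀ ξ, inner ℝ p ξ = 0 → ξ ≠ 0 → ∃ y : E, ‖y‖ < 1 ∧ Gam g g' x p y ∧
      ∀ ζ, Q g' L' p y ξ ζ = Q g L p x ξ ζ) : ∃ y, Full g g' L L' x p y := by
  have hpM := mem_of_sphere hp
  have hxM := mem_of_norm_lt hx
  obtain ⟨q, hq, hpq, hxq⟩ := h.exists_exit hp hx
  have hqM := mem_of_sphere hq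
  have hxp := ne_of_sphere hx hp
  have hint : ∀ t ∈ Ioo (0 : ℝ) 1, ‖e' p (t • L' p q)‖ < 1 := fun t ht =>
    h'.pt_interior hpM hqM hpq ht
  obtain ⟨t, ht, hk⟩ := common_param (W := (ℝ ∙ p)ᗮ)
    (B := fun t => Q g' L' p (e' p (t • L' p q)) - Q g L p x) (I := Ioo 0 1)
    (fun t ht v w => by
      have hyt := hint t ht
      rw [sub_apply, sub_apply, sub_apply, sub_apply,
        h'.Q_symm hp (mem_of_norm_lt hyt) (ne_of_sphere hyt hp) v w,
        h.Q_symm hp hxM hxp v w])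
    (fun s hs t ht hst v hv hv0 => by
      have hpv := Submodule.mem_orthogonal_singleton_iff_inner_right.1 hv
      have := h'.Q_anti hp hqM hpq hs.1 hst ht.2 hpv hv0
      rw [sub_apply, sub_apply, sub_apply, sub_apply]
      linarith)
    (fun ξ hξ hξ0 => by
      have hpξ := Submodule.mem_orthogonal_singleton_iff_inner_right.1 hξ
      obtain ⟨y, hy, ⟨-, q2, hq2, hxq2, hyq2⟩, hk⟩ := hK ξ hpξ hξ0
      obtain rfl := h.exit_uniq hp hq hq2 hxp hxq hxq2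
      obtain ⟨t, ht, rfl⟩ := h'.exists_param hp hq hy hyq2
      refine ⟨t, ht, fun ζ => ?_⟩
      rw [sub_apply, sub_apply, hk ζ, sub_self])
    (by
      obtain ⟨ξ, hξ1, hξ2⟩ := exists_orth hn p
      exact ⟨ξ, Submodule.mem_orthogonal_singleton_iff_inner_right.2 hξ2, by
        rintro rfl; simp at hξ1⟩)
  refine ⟨_, hint t ht, ⟨hp, q, hq, hxq, (h'.mem_seg hpM hqM).2 ⟨t, Ioo_subset_Icc_self ht, rfl⟩⟩,
    fun ξ hξ ζ => ?_⟩
  have := hk ξ (Submodule.mem_orthogonal_singleton_iff_inner_right.2 hξ) ζ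
  rw [sub_apply, sub_apply] at this
  linarith

/-- uniqueness of the focal point of a direction -/
lemma focal_unique (h : Simple g e L) (h' : Simple g' e' L')
    {x p y y' ξ : E} (hx : ‖x‖ < 1) (hy : ‖y‖ < 1) (hy' : ‖y'‖ < 1)
    (hG : Gam g g' x p y) (hG' : Gam g g' x p y') (hξ : inner ℝ p ξ = 0) (hξ0 : ξ ≠ 0)
    (hk : Q g' L' p y ξ ξ = Q g L p x ξ ξ) (hk' : Q g' L' p y' ξ ξ = Q g L p x ξ ξ) : y = y' := by
  obtain ⟨hp, q, hq, hxq, hyq⟩ := hG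
  obtain ⟨-, q2, hq2, hxq2, hyq2⟩ := hG'
  have hxp := ne_of_sphere hx hp
  obtain rfl := h.exit_uniq hp hq hq2 hxp hxq hxq2
  have hpM := mem_of_sphere hp
  have hqM := mem_of_sphere hq
  have hpq : p ≠ q := by
    rintro rfl
    obtain ⟨t, ht, hx1⟩ := (h.mem_seg hpM hpM).1 hxq
    rw [h.L_self hpM, smul_zero, h.e_zero hpM] at hx1
    exact hxp hx1
  obtain ⟨t, ht, hyt⟩ := h'.exists_param hp hq hy hyq
  obtain ⟨s, hs, hys⟩ := h'.exists_param hp hq hy' hyq2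
  rcases lt_trichotomy t s with h1 | h1 | h1
  · have := h'.Q_anti hp hqM hpq ht.1 h1 hs.2 hξ hξ0
    rw [← hyt, ← hys, hk, hk'] at this
    exact absurd this (lt_irrefl _)
  · rw [hyt, hys, h1]
  · have := h'.Q_anti hp hqM hpq hs.1 h1 ht.2 hξ hξ0
    rw [← hyt, ← hys, hk, hk'] at this
    exact absurd this (lt_irrefl _)

/-- critical points are on the geodesic -/
lemma gam_of_Phi (h : Simple g e L) (h' : Simple g' e' L')
    (hd : ∀ p ∈ sphere (0 : E) 1, ∀ q ∈ sphere (0 : E) 1, rho g L p q = rho g' L' p q)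
    {x y p : E} (hx : ‖x‖ < 1) (hy : ‖y‖ < 1) (hp : p ∈ sphere (0 : E) 1)
    (hP : Phi g g' L L' x (y, p) = 0) : Gam g g' x p y := by
  have hpM := mem_of_sphere hp
  have hp0 := ne_zero_of_mem_sphere' hp
  have hpp := proj_of_mem hp
  have hxp := ne_of_sphere hx hp
  have hyp := ne_of_sphere hy hp
  have hyM := mem_of_norm_lt hy
  obtain ⟨q, hq, hpq, hxq⟩ := h.exists_exit hp hx
  have hqM := mem_of_sphere hq
  have h1 := h.hasFDerivAt_rho_proj (mem_of_norm_lt hx) hp0 (by rwa [hpp])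
  have h2 := h'.hasFDerivAt_rho_proj hyM hp0 (by rwa [hpp])
  rw [hpp] at h1 h2
  have hdir : ∀ ζ, inner ℝ p ζ = 0 → dir g' L' p y ζ = dir g' L' p q ζ := by
    intro ζ hζ
    have h3 := congrArg (fun f : E →L[ℝ] ℝ => f ζ) hP
    simp only [Phi, h1.fderiv, h2.fderiv, sub_apply, neg_apply, ContinuousLinearMap.comp_apply,
      zero_apply, Dproj_apply hp hζ] at h3
    rw [← h.dir_tan h' hd hp hq hpq hζ, ← h.dir_seg hpM hqM hxq hxp]
    linarith
  obtain ⟨A, A', -, -, hA⟩ := exists_A (h'.symm p hpM) (h'.pos p hpM) (h'.symm p hpM)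
    (h'.pos p hpM) hp0 (fun η ζ _ _ => rfl)
  have r1 := h'.rho_pos hpM hyM hyp.symm
  have r2 := h'.rho_pos hpM hqM hpq
  set u := (rho g' L' p y)⁻¹ • L' p y with hu
  set v := (rho g' L' p q)⁻¹ • L' p q with hv
  have iu : inner ℝ p u < 0 := by
    rw [hu, inner_smul_right]
    exact mul_neg_of_pos_of_neg (inv_pos.2 r1) (h'.L_inward hp hyM hyp.symm)
  have iv : inner ℝ p v < 0 := by
    rw [hv, inner_smul_right]
    exact mul_neg_of_pos_of_neg (inv_pos.2 r2) (h'.L_inward hp hqM hpq)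
  have u1 := h'.unit_dir hpM hyM hyp.symm
  have v1 := h'.unit_dir hpM hqM hpq
  have e1 : v = A u := by
    refine hA u v iu iv (fun η hη => ?_) (u1.trans v1.symm)
    have := hdir η hη
    simp only [dir, smul_apply, smul_eq_mul] at this
    rw [hu, hv, map_smul, map_smul, smul_apply, smul_apply, smul_eq_mul, smul_eq_mul]
    exact this
  have e2 : u = A u := hA u u iu iu (fun η _ => rfl) rfl
  have huv : v = u := e1.trans e2.symm
  obtain ⟨q2, hq2, t, ht, hy1, hy2⟩ := h'.exit_seg hpM hy hyp.symm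
  have hpq2 : p ≠ q2 := by
    rintro rfl
    rw [h'.L_self hpM, smul_zero, h'.e_zero hpM] at hy1
    exact hyp hy1
  have e3 : L' p q = (rho g' L' p q * (rho g' L' p y)⁻¹ * t) • L' p q2 := by
    have e4 : L' p q = rho g' L' p q • v := by
      rw [hv, smul_smul, mul_inv_cancel₀ r2.ne', one_smul]
    rw [e4, huv, hu, hy2]
    simp only [smul_smul]
    congr 1
    ring
  have e5 : q = q2 := h'.exit_unique hpM hq2 hq hpq2 hpq
    (by have := ht.1; positivity) e3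
  subst e5
  exact ⟨hp, q, hq, hxq, (h'.mem_seg hpM hqM).2 ⟨t, Ioo_subset_Icc_self ht, hy1⟩⟩

end Simple

end Pool.Agent.W5h72.BR
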