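import Pool.Agent.W5h72.BR.Jet6

/-!
# Local families of common focal points
-/

open Set Metric Filter Topology
open scoped ContDiff RealInnerProductSpace

noncomputable section

set_option maxSynthPendingDepth 3

namespace Pool.Agent.W5h72.BR

variable {E : Type*} [NormedAddCommGroup E] [InnerProductSpace ℝ E] [FiniteDimensional ℝ E]

namespace Simple

variable {g g' : E → E →L[ℝ] E →L[ℝ] ℝ} {e L e' L' : E → E → E}

/-- a local family of common focal points is smooth -/
lemma smooth_full_loc (h : Simple g e L) (h' : Simple g' e' L') (hn : 1 < Module.finrank ℝ E)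
    (hd : ∀ p ∈ sphere (0 : E) 1, ∀ q ∈ sphere (0 : E) 1, rho g L p q = rho g' L' p q)
    {x : E} (hx : ‖x‖ < 1) {F : E → E} {p : E} (hp : p ∈ sphere (0 : E) 1)
    (hF : ∀ᶠ z in 𝓝 p, z ∈ sphere (0 : E) 1 → Full g g' L L' x z (F z)) :
    ContDiffAt ℝ ∞ (fun z => F (proj z)) p := by
  have hp0 := ne_zero_of_mem_sphere' hp
  have hpp := proj_of_mem hp
  have hpn := norm_of_sphere hp
  obtain ⟨hyb, hyG, hyQ⟩ := hF.self_of_nhds hp
  obtain ⟨ξ0, hξ1, hξp⟩ := exists_orth hn p
  have hξ0 : ξ0 ≠ 0 := by rintro rfl; simp at hξ1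
  set ξ : E → E := fun z => ξ0 - (inner ℝ z ξ0) • z with hξ
  have hξc : ContDiff ℝ ∞ ξ :=
    contDiff_const.sub ((contDiff_id.inner ℝ contDiff_const).smul contDiff_id)
  have hξat : ξ p = ξ0 := by simp [hξ, hξp]
  have hR' := h'.contDiffAt_RR hyb hp
  have hR := h.contDiffAt_RR hx hp
  set b : E × E → ℝ := fun w => fderiv ℝ (fderiv ℝ (RR g' L')) w (0, ξ w.2) (0, ξ w.2) -
    fderiv ℝ (fderiv ℝ (RR g L)) (x, w.2) (0, ξ w.2) (0, ξ w.2) with hb
  have hv : ContDiffAt ℝ ∞ (fun w : E × E => ((0 : E), ξ w.2)) (F p, p) :=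
    contDiffAt_const.prodMk (hξc.comp contDiff_snd).contDiffAt
  have hbc : ContDiffAt ℝ ∞ b (F p, p) := by
    have h1 : ContDiffAt ℝ ∞ (fun w => fderiv ℝ (fderiv ℝ (RR g' L')) w) (F p, p) :=
      (hR'.fderiv_right (m := ∞) (by simp)).fderiv_right (m := ∞) (by simp)
    have h2 : ContDiffAt ℝ ∞ (fun w => fderiv ℝ (fderiv ℝ (RR g L)) w) (x, p) :=
      (hR.fderiv_right (m := ∞) (by simp)).fderiv_right (m := ∞) (by simp)
    have h3 : ContDiffAt ℝ ∞ (fun w : E × E => fderiv ℝ (fderiv ℝ (RR g L)) (x, w.2))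
        (F p, p) :=
      ContDiffAt.comp (F p, p) (f := fun w : E × E => (x, w.2))
        (g := fun w => fderiv ℝ (fderiv ℝ (RR g L)) w) h2
        (contDiffAt_const.prodMk contDiffAt_snd)
    exact ((h1.clm_apply hv).clm_apply hv).sub ((h3.clm_apply hv).clm_apply hv)
  have hPc : ContDiffAt ℝ ∞ (Phi g g' L L' x) (F p, p) := by
    have h1 : ContDiffAt ℝ ∞ (fun w : (E × E) × E => rho g' L' w.1.1 (proj w.2)) ((F p, p), p) := by
      exact ContDiffAt.comp ((F p, p), p) (f := fun w : (E × E) × E => (w.1.1, w.2))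
        (g := RR g' L') hR' ((contDiffAt_fst.comp _ contDiffAt_fst).prodMk contDiffAt_snd)
    have h2 : ContDiffAt ℝ ∞ (fun w : (E × E) × E => rho g L x (proj w.2)) ((F p, p), p) := by
      exact ContDiffAt.comp ((F p, p), p) (f := fun w : (E × E) × E => (x, w.2))
        (g := RR g L) hR (contDiffAt_const.prodMk contDiffAt_snd)
    have d1 : ContDiffAt ℝ ∞
        (fun w : E × E => fderiv ℝ (fun z => rho g' L' w.1 (proj z)) w.2) (F p, p) :=
      ContDiffAt.fderiv (f := fun (w : E × E) (z : E) => rho g' L' w.1 (proj z))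
        (g := fun w : E × E => w.2) h1 contDiffAt_snd (by simp)
    have d2 : ContDiffAt ℝ ∞
        (fun w : E × E => fderiv ℝ (fun z => rho g L x (proj z)) w.2) (F p, p) :=
      ContDiffAt.fderiv (f := fun (w : E × E) (z : E) => rho g L x (proj z))
        (g := fun w : E × E => w.2) h2 contDiffAt_snd (by simp)
    exact d1.sub d2
  set G : E × E → E := fun w => J (Phi g g' L L' x w) + b w • w.2 with hG
  have hGc : ContDiffAt ℝ ∞ G (F p, p) :=
    ((J (E := E)).contDiff.contDiffAt.comp (F p, p) hPc).add (hbc.smul contDiffAt_snd)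
  -- values of `b`
  have hbval : ∀ y z : E, ‖y‖ < 1 → z ∈ sphere (0 : E) 1 →
      b (y, z) = Q g' L' z y (ξ z) (ξ z) - Q g L z x (ξ z) (ξ z) := by
    intro y z hy hz
    rw [h'.Q_eq_RR hy hz, h.Q_eq_RR hx hz]
  have hP0 : Phi g g' L L' x (F p, p) = 0 :=
    h.Phi_zero h' hd hx hyb hp0 (by rwa [hpp])
  have hb0 : b (F p, p) = 0 := by
    rw [hbval _ _ hyb hp, hξat, hyQ ξ0 hξp ξ0, sub_self]
  have hG0 : G (F p, p) = 0 := by
    simp only [hG, hP0, hb0, map_zero, zero_smul, add_zero]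
  -- injectivity
  have hinj : ∀ δ, fderiv ℝ G (F p, p) (δ, 0) = 0 → δ = 0 := by
    intro δ hδ
    have hPd := (hPc.differentiableAt (by simp)).hasFDerivAt
    set DP := fderiv ℝ (Phi g g' L L' x) (F p, p) with hDP
    have hbd := (hbc.differentiableAt (by simp)).hasFDerivAt
    have hGd : HasFDerivAt G ((J (E := E)).comp DP + (b (F p, p) •
        ContinuousLinearMap.snd ℝ E E + (fderiv ℝ b (F p, p)).smulRight p)) (F p, p) := by
      have h1 := (J (E := E)).hasFDerivAt.comp (F p, p) hPd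
      have h2 := hbd.smul (hasFDerivAt_snd (𝕜 := ℝ) (E := E) (F := E) (p := (F p, p)))
      exact h1.add h2
    rw [hGd.fderiv] at hδ
    simp only [add_apply, ContinuousLinearMap.comp_apply, smul_apply, hb0, zero_smul, zero_add,
      ContinuousLinearMap.smulRight_apply] at hδ
    have hζ : ∀ ζ, DP (δ, 0) ζ + fderiv ℝ b (F p, p) (δ, 0) * inner ℝ p ζ = 0 := by
      intro ζ
      have h1 := congrArg (fun v => inner ℝ v ζ) hδ
      simp only [inner_add_left, inner_J, inner_smul_left, inner_zero_left,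
        RCLike.conj_to_real] at h1
      exact h1
    -- the derivative in the radial direction vanishes
    have hrad : DP (δ, 0) p = 0 := by
      have hl : HasDerivAt (fun s : ℝ => F p + s • δ) δ 0 := by
        simpa using ((hasDerivAt_id (0 : ℝ)).smul_const δ).const_add (F p)
      have h2 : HasDerivAt (fun a : ℝ => (F p + a • δ, p)) (δ, (0 : E)) 0 :=
        hl.prodMk (hasDerivAt_const (0 : ℝ) p)
      have hbb : ∀ᶠ a in 𝓝 (0 : ℝ), ‖F p + a • δ‖ < 1 := by
        have : ContinuousAt (fun a : ℝ => ‖F p + a • δ‖) 0 := hl.continuousAt.norm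
        exact this.eventually_lt_const (by simpa using hyb)
      have h3 := HasFDerivAt.comp_hasDerivAt_of_eq (f := fun a : ℝ => (F p + a • δ, p))
        (l := Phi g g' L L' x) (0 : ℝ) hPd h2 (by simp)
      have h4 : HasDerivAt (fun a : ℝ => Phi g g' L L' x (F p + a • δ, p) p) (DP (δ, 0) p) 0 := by
        simpa using h3.clm_apply (hasDerivAt_const (0 : ℝ) p)
      have h5 : (fun a : ℝ => Phi g g' L L' x (F p + a • δ, p) p) =ᶠ[𝓝 0] fun _ => 0 := by
        filter_upwards [hbb] with a ha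
        exact h.Phi_self h' hx ha hp0
      exact (h4.congr_of_eventuallyEq h5.symm).unique (hasDerivAt_const (0 : ℝ) (0 : ℝ))
    have hβ : fderiv ℝ b (F p, p) (δ, 0) = 0 := by
      have h1 := hζ p
      rw [hrad, real_inner_self_eq_norm_sq, hpn] at h1
      linarith
    have hk : ∀ ζ, fderiv ℝ (fderiv ℝ (RR g' L')) (F p, p) (δ, 0) (0, ζ) = 0 := by
      intro ζ
      rw [← h.DPhi h' hx hyb hp hPd δ ζ]
      have h1 := hζ ζ
      rw [hβ, zero_mul, add_zero] at h1
      exact h1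
    obtain ⟨c, hc⟩ := h'.mixed_kernel hyb hp hk
    -- derivative of `b` along the geodesic
    have hβ2 : ∀ δ, fderiv ℝ b (F p, p) (δ, 0) =
        fderiv ℝ (fun w => fderiv ℝ (fderiv ℝ (RR g' L')) w (0, ξ0) (0, ξ0)) (F p, p) (δ, 0) := by
      intro δ
      have hl : HasDerivAt (fun s : ℝ => F p + s • δ) δ 0 := by
        simpa using ((hasDerivAt_id (0 : ℝ)).smul_const δ).const_add (F p)
      have h2 : HasDerivAt (fun a : ℝ => (F p + a • δ, p)) (δ, (0 : E)) 0 :=
        hl.prodMk (hasDerivAt_const (0 : ℝ) p)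
      have h3 := HasFDerivAt.comp_hasDerivAt_of_eq (f := fun a : ℝ => (F p + a • δ, p))
        (l := b) (0 : ℝ) hbd h2 (by simp)
      have hSc : ContDiffAt ℝ ∞
          (fun w => fderiv ℝ (fderiv ℝ (RR g' L')) w (0, ξ0) (0, ξ0)) (F p, p) := by
        have h1 : ContDiffAt ℝ ∞ (fun w => fderiv ℝ (fderiv ℝ (RR g' L')) w) (F p, p) :=
          (hR'.fderiv_right (m := ∞) (by simp)).fderiv_right (m := ∞) (by simp)
        exact (h1.clm_apply contDiffAt_const).clm_apply contDiffAt_const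
      have h4 := HasFDerivAt.comp_hasDerivAt_of_eq (f := fun a : ℝ => (F p + a • δ, p))
        (l := fun w => fderiv ℝ (fderiv ℝ (RR g' L')) w (0, ξ0) (0, ξ0)) (0 : ℝ)
        (hSc.differentiableAt (by simp)).hasFDerivAt h2 (by simp)
      have h5 := h4.sub_const (fderiv ℝ (fderiv ℝ (RR g L)) (x, p) (0, ξ0) (0, ξ0))
      refine h3.unique (h5.congr_of_eventuallyEq (Eventually.of_forall fun a => ?_))
      simp only [hb, Function.comp, hξat]
    have h3 := h'.third_pos hyb hp hξp hξ0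
    rw [hβ2, hc] at hβ
    have h4 : (c • L' (F p) p, (0 : E)) = c • (L' (F p) p, (0 : E)) := by simp
    rw [h4, map_smul, smul_eq_mul] at hβ
    have hc0 : c = 0 := by
      rcases mul_eq_zero.1 hβ with h5 | h5
      · exact h5
      · linarith
    rw [hc, hc0, zero_smul]
  obtain ⟨Y, hYc, hYp, hYG⟩ := implicit hGc hG0 hinj
  -- identify `Y` with `F` on the sphere
  have hYb : ∀ᶠ z in 𝓝 p, ‖Y z‖ < 1 := by
    have : ContinuousAt (fun z => ‖Y z‖) p := hYc.continuousAt.norm
    exact this.eventually_lt_const (show ‖Y p‖ < 1 by rw [hYp]; exact hyb)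
  have hξne : ∀ᶠ z in 𝓝 p, ξ z ≠ 0 :=
    hξc.continuous.continuousAt.eventually_ne (by rw [hξat]; exact hξ0)
  have hYF : ∀ᶠ z in 𝓝 p, z ∈ sphere (0 : E) 1 → Y z = F z := by
    filter_upwards [hYG, hYb, hξne, hF] with z hz1 hz2 hz3 hz4 hz
    have hz0 := ne_zero_of_mem_sphere' hz
    have hzn := norm_of_sphere hz
    have h1 : ∀ ζ, Phi g g' L L' x (Y z, z) ζ + b (Y z, z) * inner ℝ z ζ = 0 := by
      intro ζ
      have h1 := congrArg (fun v => inner ℝ v ζ) hz1
      simp only [hG, inner_add_left, inner_J, inner_smul_left, inner_zero_left,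
        RCLike.conj_to_real] at h1
      exact h1
    have h2 : b (Y z, z) = 0 := by
      have h3 := h1 z
      rw [h.Phi_self h' hx hz2 hz0, real_inner_self_eq_norm_sq, hzn] at h3
      linarith
    have h3 : Phi g g' L L' x (Y z, z) = 0 := by
      ext ζ
      have h4 := h1 ζ
      rw [h2, zero_mul, add_zero] at h4
      exact h4
    have h4 := h.gam_of_Phi h' hd hx hz2 hz h3
    obtain ⟨k1, k2, k3⟩ := hz4 hz
    have hξz : inner ℝ z (ξ z) = 0 := by
      simp only [hξ, inner_sub_right, inner_smul_right, real_inner_self_eq_norm_sq, hzn]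
      ring
    refine h.focal_unique h' hx hz2 k1 h4 k2 hξz hz3 ?_ (k3 _ hξz _)
    have h5 := hbval _ _ hz2 hz
    rw [h2] at h5
    linarith
  have hprc : ContDiffAt ℝ ∞ (proj (E := E)) p := contDiffAt_proj hp0
  have hYproj : ContDiffAt ℝ ∞ (fun z => Y (proj z)) p := by
    have : ContDiffAt ℝ ∞ Y (proj p) := by rw [hpp]; exact hYc
    exact ContDiffAt.comp p (f := proj (E := E)) this hprc
  refine hYproj.congr_of_eventuallyEq ?_
  have h1 : Tendsto (proj (E := E)) (𝓝 p) (𝓝 p) := by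
    have := hprc.continuousAt.tendsto
    rwa [hpp] at this
  filter_upwards [h1.eventually hYF,
    isOpen_compl_singleton.mem_nhds (show p ∈ ({0}ᶜ : Set E) from hp0)] with z hz1 hz2
  exact (hz1 (proj_mem hz2)).symm

/-- a local family of common focal points is locally constant -/
lemma const_full_loc (h : Simple g e L) (h' : Simple g' e' L') (hn : 2 < Module.finrank ℝ E)
    (hd : ∀ p ∈ sphere (0 : E) 1, ∀ q ∈ sphere (0 : E) 1, rho g L p q = rho g' L' p q)
    {x : E} (hx : ‖x‖ < 1) {F : E → E} {V : Set E} (hV : IsOpen V)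
    (hF : ∀ p ∈ sphere (0 : E) 1, p ∈ V → Full g g' L L' x p (F p)) {p0 : E}
    (hp0S : p0 ∈ sphere (0 : E) 1) (hp0V : p0 ∈ V) : ∀ᶠ z in 𝓝 p0, F (proj z) = F p0 := by
  have hn1 : 1 < Module.finrank ℝ E := lt_trans one_lt_two hn
  set Ft : E → E := fun z => F (proj z) with hFt
  have hFtb : ∀ z : E, z ≠ 0 → proj z ∈ V → ‖Ft z‖ < 1 := fun z hz hzV =>
    (hF _ (proj_mem hz) hzV).1
  have hFtS : ∀ p ∈ sphere (0 : E) 1, p ∈ V → ContDiffAt ℝ ∞ Ft p := fun p hp hpV =>
    h.smooth_full_loc h' hn1 hd hx hp (by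
      filter_upwards [hV.mem_nhds hpV] with z hz hzS using hF z hzS hz)
  have hFtproj : ∀ z : E, z ≠ 0 → Ft (proj z) = Ft z := fun z hz => by
    simp only [hFt, proj_proj hz]
  have hopen : ∀ z : E, z ≠ 0 → ∀ᶠ w in 𝓝 z, w ≠ 0 := fun z hz =>
    isOpen_ne.eventually_mem hz
  have hopenW : ∀ z : E, z ≠ 0 → proj z ∈ V → ∀ᶠ w in 𝓝 z, w ≠ 0 ∧ proj w ∈ V :=
    fun z hz hzV => (hopen z hz).and
      ((contDiffAt_proj hz).continuousAt.eventually (hV.mem_nhds hzV))
  have hFtc : ∀ z : E, z ≠ 0 → proj z ∈ V → ContDiffAt ℝ ∞ Ft z := by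
    intro z hz hzV
    have h1 : ContDiffAt ℝ ∞ (fun w => Ft (proj w)) z :=
      ContDiffAt.comp z (f := proj (E := E)) (hFtS _ (proj_mem hz) hzV) (contDiffAt_proj hz)
    refine h1.congr_of_eventuallyEq ?_
    filter_upwards [hopen z hz] with w hw
    exact (hFtproj w hw).symm
  have hchain : ∀ z : E, z ≠ 0 → proj z ∈ V → ∀ η,
      fderiv ℝ Ft z η = fderiv ℝ Ft (proj z) (Dproj z η) := by
    intro z hz hzV η
    have h1 : HasFDerivAt (fun w => Ft (proj w)) ((fderiv ℝ Ft (proj z)).comp (Dproj z)) z :=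
      HasFDerivAt.comp z (f := proj (E := E))
        ((hFtS _ (proj_mem hz) hzV).differentiableAt (by simp)).hasFDerivAt (hasFDerivAt_proj hz)
    have h2 : Ft =ᶠ[𝓝 z] fun w => Ft (proj w) := by
      filter_upwards [hopen z hz] with w hw
      exact (hFtproj w hw).symm
    rw [(h1.congr_of_eventuallyEq h2).fderiv]
    rfl
  -- the derivative is along the geodesic
  have hdirS : ∀ p ∈ sphere (0 : E) 1, p ∈ V → ∀ η, inner ℝ p η = 0 →
      ∃ c : ℝ, fderiv ℝ Ft p η = c • L' (Ft p) p := by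
    intro p hp hpV η hη
    have hp0 := ne_zero_of_mem_sphere' hp
    have hpp := proj_of_mem hp
    obtain ⟨hyb, hyG, hyQ⟩ := hF p hp hpV
    have hFtp : Ft p = F p := by simp only [hFt, hpp]
    obtain ⟨D, hD, hDv⟩ := h.Phi_strict h' hx hyb hp
    have hl : HasDerivAt (fun s : ℝ => p + s • η) η 0 := by
      simpa using ((hasDerivAt_id (0 : ℝ)).smul_const η).const_add p
    have h1 : HasDerivAt (fun s : ℝ => Ft (p + s • η)) (fderiv ℝ Ft p η) 0 :=
      HasFDerivAt.comp_hasDerivAt_of_eq (f := fun s : ℝ => p + s • η) (l := Ft) (0 : ℝ)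
        ((hFtS p hp hpV).differentiableAt (by simp)).hasFDerivAt hl (by simp)
    have h2 := h1.prodMk hl
    have h3 := HasFDerivAt.comp_hasDerivAt_of_eq (f := fun s : ℝ => (Ft (p + s • η), p + s • η))
      (l := Phi g g' L L' x) (0 : ℝ) hD.hasFDerivAt h2 (by simp [hFtp])
    have hne : ∀ᶠ s in 𝓝 (0 : ℝ), p + s • η ≠ 0 ∧ proj (p + s • η) ∈ V := by
      have h0 : Tendsto (fun s : ℝ => p + s • η) (𝓝 0) (𝓝 p) := by
        simpa using hl.continuousAt.tendsto
      exact h0.eventually (hopenW p hp0 (by rwa [hpp]))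
    have h4 : (Phi g g' L L' x ∘ fun s : ℝ => (Ft (p + s • η), p + s • η)) =ᶠ[𝓝 0]
        fun _ => 0 := by
      filter_upwards [hne] with s hs
      exact h.Phi_zero h' hd hx (hFtb _ hs.1 hs.2) hs.1 (hF _ (proj_mem hs.1) hs.2).2.1
    have h5 := (h3.congr_of_eventuallyEq h4.symm).unique
      (hasDerivAt_const (0 : ℝ) (0 : E →L[ℝ] ℝ))
    have h6 : D (0, η) = 0 := by
      rw [hDv]
      ext ζ
      rw [sub_apply, hyQ η hη ζ, sub_self, zero_apply]
    have h7 : D (fderiv ℝ Ft p η, 0) = 0 := by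
      have h8 : (fderiv ℝ Ft p η, η) = (fderiv ℝ Ft p η, (0 : E)) + (0, η) := by simp
      rw [h8, map_add, h6, add_zero] at h5
      exact h5
    have h9 := h'.mixed_kernel (δ := fderiv ℝ Ft p η) hyb hp (fun ζ => by
      rw [← h.DPhi h' hx hyb hp hD.hasFDerivAt, h7]; rfl)
    rw [hFtp]
    exact h9
  have hdir : ∀ z : E, z ≠ 0 → proj z ∈ V → ∀ η,
      ∃ c : ℝ, fderiv ℝ Ft z η = c • L' (Ft z) (proj z) := by
    intro z hz hzV η
    obtain ⟨c, hc⟩ := hdirS _ (proj_mem hz) hzV _ (inner_Dproj hz η)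
    exact ⟨c, by rw [hchain z hz hzV, hc, hFtproj z hz]⟩
  -- the direction field
  set θ : E → E := fun z => L' (Ft z) (proj z) with hθ
  have hθc : ∀ z : E, z ≠ 0 → proj z ∈ V → ContDiffAt ℝ ∞ θ z := by
    intro z hz hzV
    have h1 : ContDiffAt ℝ ∞ (fun w : E × E => L' w.1 w.2) (Ft z, proj z) :=
      h'.L_smooth.contDiffAt
    exact ContDiffAt.comp z (f := fun z => (Ft z, proj z)) h1
      ((hFtc z hz hzV).prodMk (contDiffAt_proj hz))
  have hθ0 : ∀ z : E, z ≠ 0 → proj z ∈ V → θ z ≠ 0 := by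
    intro z hz hzV h0
    have h1 := (h'.L_eq_zero (mem_of_norm_lt (hFtb z hz hzV)) (mem_of_sphere (proj_mem hz))).1 h0
    exact ne_of_sphere (hFtb z hz hzV) (proj_mem hz) h1
  have hzero : ∀ p ∈ sphere (0 : E) 1, p ∈ V → fderiv ℝ Ft p = 0 := by
    intro p hp hpV
    have hp0 := ne_zero_of_mem_sphere' hp
    have hpp := proj_of_mem hp
    have hppV : proj p ∈ V := by rwa [hpp]
    by_contra hne
    obtain ⟨ξ, hξ⟩ : ∃ ξ, fderiv ℝ Ft p ξ ≠ 0 := by
      by_contra hcon
      push Not at hcon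
      exact hne (by ext1 v; exact hcon v)
    -- coefficient functions
    set κ : E → E → ℝ := fun η z => inner ℝ (fderiv ℝ Ft z η) (θ z) / ‖θ z‖ ^ 2 with hκ
    have hκeq : ∀ η z, z ≠ 0 → proj z ∈ V → fderiv ℝ Ft z η = κ η z • θ z := by
      intro η z hz hzV
      obtain ⟨c, hc⟩ := hdir z hz hzV η
      have h1 : ‖θ z‖ ^ 2 ≠ 0 := pow_ne_zero 2 (norm_ne_zero_iff.2 (hθ0 z hz hzV))
      have h2 : κ η z = c := by
        simp only [hκ]
        rw [hc, inner_smul_left, real_inner_self_eq_norm_sq, RCLike.conj_to_real,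
          mul_div_assoc, div_self h1, mul_one]
      rw [h2, hc]
    have hDFc : ∀ η, ContDiffAt ℝ ∞ (fun z => fderiv ℝ Ft z η) p := fun η =>
      ((hFtc p hp0 hppV).fderiv_right (m := ∞) (by simp)).clm_apply contDiffAt_const
    have hκc : ∀ η, ContDiffAt ℝ ∞ (κ η) p := by
      intro η
      exact ((hDFc η).inner ℝ (hθc p hp0 hppV)).div ((hθc p hp0 hppV).norm_sq ℝ)
        (pow_ne_zero 2 (norm_ne_zero_iff.2 (hθ0 p hp0 hppV)))
    have hsec : ∀ η ζ, fderiv ℝ (fderiv ℝ Ft) p ζ η =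
        fderiv ℝ (κ η) p ζ • θ p + κ η p • fderiv ℝ θ p ζ := by
      intro η ζ
      have h1 : HasFDerivAt (fun z => fderiv ℝ Ft z η)
          ((fderiv ℝ (fderiv ℝ Ft) p).flip η) p := by
        have h2 : DifferentiableAt ℝ (fderiv ℝ Ft) p :=
          ((hFtc p hp0 hppV).fderiv_right (m := ∞) (by simp)).differentiableAt (by simp)
        refine (h2.hasFDerivAt.clm_apply (hasFDerivAt_const η p)).congr_fderiv ?_
        ext w
        simp
      have h3 := ((hκc η).differentiableAt (by simp)).hasFDerivAt.smul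
        ((hθc p hp0 hppV).differentiableAt (by simp)).hasFDerivAt
      have h4 : (fun z => fderiv ℝ Ft z η) =ᶠ[𝓝 p] fun z => κ η z • θ z := by
        filter_upwards [hopenW p hp0 hppV] with z hz using hκeq η z hz.1 hz.2
      have h5 := h1.unique (h3.congr_of_eventuallyEq h4)
      have h6 := congrArg (fun f : E →L[ℝ] E => f ζ) h5
      simp only [ContinuousLinearMap.flip_apply, add_apply, smul_apply,
        ContinuousLinearMap.smulRight_apply] at h6
      rw [h6, add_comm]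
    -- a direction in the kernel
    obtain ⟨η, hηn, hηp, hηk⟩ := exists_orth2 hn p
      (J ((innerSL ℝ (θ p)).comp (fderiv ℝ Ft p)))
    rw [inner_J] at hηk
    simp only [ContinuousLinearMap.comp_apply, innerSL_apply_apply] at hηk
    have hκη : κ η p = 0 := by
      simp only [hκ]
      rw [real_inner_comm, hηk, zero_div]
    have hDη : fderiv ℝ Ft p η = 0 := by rw [hκeq η p hp0 hppV, hκη, zero_smul]
    have hκξ : κ ξ p ≠ 0 := by
      intro h0
      exact hξ (by rw [hκeq ξ p hp0 hppV, h0, zero_smul])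
    have hsym := symm_snd' (hFtc p hp0 hppV) ξ η
    rw [hsec η ξ, hsec ξ η, hκη, zero_smul, add_zero] at hsym
    obtain ⟨c, hc⟩ : ∃ c : ℝ, fderiv ℝ θ p η = c • θ p := by
      refine ⟨(κ ξ p)⁻¹ * (fderiv ℝ (κ η) p ξ - fderiv ℝ (κ ξ) p η), ?_⟩
      have h1 : κ ξ p • fderiv ℝ θ p η = (fderiv ℝ (κ η) p ξ - fderiv ℝ (κ ξ) p η) • θ p := by
        rw [sub_smul, hsym]; abel
      rw [mul_smul, ← h1, smul_smul, inv_mul_cancel₀ hκξ, one_smul]
    -- `proj z = e' (Ft z) (θ z)`
    have hG : HasFDerivAt (fun w : E × E => e' w.1 w.2)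
        (fderiv ℝ (fun w : E × E => e' w.1 w.2) (Ft p, θ p)) (Ft p, θ p) :=
      (h'.e_smooth.differentiable (by simp) _).hasFDerivAt
    have hl : HasDerivAt (fun s : ℝ => p + s • η) η 0 := by
      simpa using ((hasDerivAt_id (0 : ℝ)).smul_const η).const_add p
    have d1 : HasDerivAt (fun s : ℝ => Ft (p + s • η)) (fderiv ℝ Ft p η) 0 :=
      HasFDerivAt.comp_hasDerivAt_of_eq (f := fun s : ℝ => p + s • η) (l := Ft) (0 : ℝ)
        ((hFtS p hp hpV).differentiableAt (by simp)).hasFDerivAt hl (by simp)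
    have d2 : HasDerivAt (fun s : ℝ => θ (p + s • η)) (fderiv ℝ θ p η) 0 :=
      HasFDerivAt.comp_hasDerivAt_of_eq (f := fun s : ℝ => p + s • η) (l := θ) (0 : ℝ)
        ((hθc p hp0 hppV).differentiableAt (by simp)).hasFDerivAt hl (by simp)
    rw [hDη] at d1
    rw [hc] at d2
    have d3 := HasFDerivAt.comp_hasDerivAt_of_eq
      (f := fun s : ℝ => (Ft (p + s • η), θ (p + s • η)))
      (l := fun w : E × E => e' w.1 w.2) (0 : ℝ) hG (d1.prodMk d2) (by simp)
    have d4 : HasDerivAt (fun s : ℝ => proj (p + s • η)) η 0 := by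
      have h2 := HasFDerivAt.comp_hasDerivAt_of_eq (f := fun s : ℝ => p + s • η)
        (l := proj (E := E)) (0 : ℝ) (hasFDerivAt_proj hp0) hl (by simp)
      rw [Dproj_apply hp hηp] at h2
      exact h2
    have hne2 : ∀ᶠ s in 𝓝 (0 : ℝ), p + s • η ≠ 0 ∧ proj (p + s • η) ∈ V := by
      have h0 : Tendsto (fun s : ℝ => p + s • η) (𝓝 0) (𝓝 p) := by
        simpa using hl.continuousAt.tendsto
      exact h0.eventually (hopenW p hp0 hppV)
    have d5 : (fun s : ℝ => proj (p + s • η)) =ᶠ[𝓝 0]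
        (fun w : E × E => e' w.1 w.2) ∘ fun s : ℝ => (Ft (p + s • η), θ (p + s • η)) := by
      filter_upwards [hne2] with s hs
      exact (h'.e_L (mem_of_norm_lt (hFtb _ hs.1 hs.2)) (mem_of_sphere (proj_mem hs.1))).symm
    have d6 := d4.unique (d3.congr_of_eventuallyEq d5)
    -- the derivative of `e'` along the ray
    have hFtp : ‖Ft p‖ < 1 := hFtb p hp0 hppV
    have d7 : fderiv ℝ (fun w : E × E => e' w.1 w.2) (Ft p, θ p) ((0 : E), c • θ p) =
        c • fderiv ℝ (e' (Ft p)) (θ p) (θ p) := by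
      have h1 : HasFDerivAt (e' (Ft p))
          ((fderiv ℝ (fun w : E × E => e' w.1 w.2) (Ft p, θ p)).comp
            (ContinuousLinearMap.inr ℝ E E)) (θ p) :=
        HasFDerivAt.comp (θ p) (f := fun v => (Ft p, v)) hG (hasFDerivAt_prodMk_right (Ft p) (θ p))
      rw [h1.fderiv]
      have h2 : ((0 : E), c • θ p) = c • ((0 : E), θ p) := by simp
      rw [h2, map_smul]
      rfl
    have hθp : θ p = L' (Ft p) p := by simp only [hθ, hpp]
    rw [d7, hθp, h'.De_L (mem_of_norm_lt hFtp) (mem_of_sphere hp)] at d6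
    have h1 := congrArg (inner ℝ p) d6
    rw [hηp, inner_smul_right, inner_neg_right] at h1
    have h2 := h'.L_inward hp (mem_of_norm_lt hFtp) (ne_of_sphere hFtp hp).symm
    have hc0 : c = 0 := by
      rcases mul_eq_zero.1 h1.symm with h3 | h3
      · exact h3
      · linarith
    rw [hc0, zero_smul] at d6
    rw [d6, norm_zero] at hηn
    exact zero_ne_one hηn
  -- conclusion
  have hder : ∀ z : E, z ≠ 0 → proj z ∈ V → fderiv ℝ Ft z = 0 := by
    intro z hz hzV
    ext1 η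
    rw [hchain z hz hzV, hzero _ (proj_mem hz) hzV]
    rfl
  have hp00 := ne_zero_of_mem_sphere' hp0S
  have hp0p := proj_of_mem hp0S
  obtain ⟨ε, hε, hball⟩ := Metric.eventually_nhds_iff_ball.1
    (hopenW p0 hp00 (by rwa [hp0p]))
  filter_upwards [isOpen_ball.mem_nhds (mem_ball_self hε)] with z hz
  have h1 := isOpen_ball.is_const_of_fderiv_eq_zero (f := Ft) (𝕜 := ℝ)
    (convex_ball p0 ε).isPreconnected
    (fun w hw => ((hFtc w (hball w hw).1
      (hball w hw).2).differentiableAt (by simp)).differentiableWithinAt)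
    (fun w hw => hder w (hball w hw).1 (hball w hw).2) hz (mem_ball_self hε)
  simp only [hFt, hp0p] at h1
  exact h1

end Simple

end Pool.Agent.W5h72.BR
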