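import Pool.Agent.W5h72.BR.Loc1

/-!
# Local criteria
-/

open Set Metric Filter Topology
open scoped ContDiff RealInnerProductSpace

noncomputable section

set_option maxSynthPendingDepth 3

namespace Pool.Agent.W5h72.BR

variable {E : Type*} [NormedAddCommGroup E] [InnerProductSpace ℝ E]

/-- there is a `δ > 0` such that for `p₁`, `p₂`, `q₁`, `q₂` in the boundary which are `δ`-close to
`p`, `p`, `q`, `q`: if the `g`-geodesics `p₁q₁` and `p₂q₂` meet, so do the `g'`-geodesics -/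
def NearMeetPair (g g' : E → E →L[ℝ] E →L[ℝ] ℝ) (p q : E) : Prop :=
  ∃ δ > 0, ∀ p1 ∈ sphere (0 : E) 1, ∀ q1 ∈ sphere (0 : E) 1, ∀ p2 ∈ sphere (0 : E) 1,
    ∀ q2 ∈ sphere (0 : E) 1, ‖p1 - p‖ < δ → ‖p2 - p‖ < δ → ‖q1 - q‖ < δ → ‖q2 - q‖ < δ →
      (seg g p1 q1 ∩ seg g p2 q2).Nonempty → (seg g' p1 q1 ∩ seg g' p2 q2).Nonempty

/-- close pairs of geodesics which are close to a geodesic from `b` meet in both metrics: for each
boundary point `q ≠ b` there is a `δ > 0` such that for `p₁`, `p₂`, `q₁`, `q₂` in the boundary which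
are `δ`-close to `b`, `b`, `q`, `q`: if the `g`-geodesics `p₁q₁` and `p₂q₂` meet, so do the
`g'`-geodesics -/
def NearMeetingAt (g g' : E → E →L[ℝ] E →L[ℝ] ℝ) (b : E) : Prop :=
  ∀ q ∈ sphere (0 : E) 1, q ≠ b → NearMeetPair g g' b q

/-- for each interior point `x` the boundary points `p` close to `b` have the following property:
there is an interior point `y` (which may depend on `p`) such that the restrictions of
`d_{g'}(y, ·)` and `d_g(x, ·)` to the boundary have the same differential and the same Hessian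
at `p` -/
def TwoJetsNear (g g' : E → E →L[ℝ] E →L[ℝ] ℝ) (b : E) : Prop :=
  ∀ x : E, ‖x‖ < 1 → ∃ δ > 0, ∀ p ∈ sphere (0 : E) 1, ‖p - b‖ < δ → ∃ y : E, ‖y‖ < 1 ∧
    fderiv ℝ (bdiff g g' x y) p = 0 ∧ fderiv ℝ (fderiv ℝ (bdiff g g' x y)) p = 0

/-- the same with `y` depending also on a tangent vector `ξ` of the boundary, where only the value
of the Hessian on `ξ` and an arbitrary vector has to agree -/
def DirectionalTwoJetsNear (g g' : E → E →L[ℝ] E →L[ℝ] ℝ) (b : E) : Prop :=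
  ∀ x : E, ‖x‖ < 1 → ∃ δ > 0, ∀ p ∈ sphere (0 : E) 1, ‖p - b‖ < δ → ∀ ξ : E, inner ℝ p ξ = 0 →
    ∃ y : E, ‖y‖ < 1 ∧ fderiv ℝ (bdiff g g' x y) p = 0 ∧
      fderiv ℝ (fderiv ℝ (bdiff g g' x y)) p ξ = 0

variable [FiniteDimensional ℝ E]

namespace Simple

variable {g g' : E → E →L[ℝ] E →L[ℝ] ℝ} {e L e' L' : E → E → E}

/-- nearby pairs determine the kernels -/
lemma kernel_of_near_at (h : Simple g e L) (h' : Simple g' e' L')
    (hd : ∀ p ∈ sphere (0 : E) 1, ∀ q ∈ sphere (0 : E) 1, rho g L p q = rho g' L' p q)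
    {x p q ξ : E} (hx : ‖x‖ < 1) (hp : p ∈ sphere (0 : E) 1) (hq : q ∈ sphere (0 : E) 1)
    (hpq : p ≠ q) (hxq : x ∈ seg g p q) (hN : NearMeetPair g g' p q)
    (hξ : inner ℝ p ξ = 0) (hξ0 : ξ ≠ 0) :
    ∃ y : E, ‖y‖ < 1 ∧ Gam g g' x p y ∧ ∀ ζ, Q g' L' p y ξ ζ = Q g L p x ξ ζ := by
  have hpM := mem_of_sphere hp
  have hp0 := ne_zero_of_mem_sphere' hp
  have hpp := proj_of_mem hp
  have hpn := norm_of_sphere hp
  have hxp := ne_of_sphere hx hp
  have hqM := mem_of_sphere hq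
  have hq0 := ne_zero_of_mem_sphere' hq
  have hqn := norm_of_sphere hq
  have hxq' := ne_of_sphere hx hq
  obtain ⟨δ, hδ, hmeet⟩ := hN
  -- the curve of initial points
  have hl : HasDerivAt (fun s : ℝ => p + s • ξ) ξ 0 := by
    simpa using ((hasDerivAt_id (0 : ℝ)).smul_const ξ).const_add p
  have hne : ∀ s : ℝ, p + s • ξ ≠ 0 := by
    intro s h0
    have : inner ℝ p (p + s • ξ) = 1 := by
      rw [inner_add_right, inner_smul_right, hξ, real_inner_self_eq_norm_sq, hpn]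
      norm_num
    rw [h0] at this
    simp at this
  have hPS : ∀ s : ℝ, proj (p + s • ξ) ∈ sphere (0 : E) 1 := fun s => proj_mem (hne s)
  choose q' hq'S hq'ne hq'x using fun s : ℝ => h.exists_exit (hPS s) hx
  -- an ultrafilter of small parameters
  obtain ⟨U, hU⟩ := Ultrafilter.exists_le (𝓝[>] (0 : ℝ))
  have hUpos : ∀ᶠ s in (U : Filter ℝ), (0 : ℝ) < s := hU self_mem_nhdsWithin
  have hU0 : Tendsto (fun s : ℝ => s) U (𝓝 0) := tendsto_id'.2 (hU.trans nhdsWithin_le_nhds)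
  have hUz : Tendsto (fun s : ℝ => p + s • ξ) U (𝓝 p) := by
    have : Tendsto (fun s : ℝ => p + s • ξ) (𝓝 0) (𝓝 p) := by
      simpa using hl.continuousAt.tendsto
    exact this.comp hU0
  have hUp : Tendsto (fun s : ℝ => proj (p + s • ξ)) U (𝓝 p) := by
    have h1 : Tendsto (proj (E := E)) (𝓝 p) (𝓝 p) := by
      have := (contDiffAt_proj hp0).continuousAt.tendsto
      rwa [hpp] at this
    exact h1.comp hUz
  have hUq : Tendsto q' U (𝓝 q) := by
    obtain ⟨q2, hq2, hq2l⟩ := (isCompact_sphere (0 : E) 1).ultrafilter_le_nhds (U.map q')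
      (le_principal_iff.2 (Filter.mem_map.2 (univ_mem' hq'S)))
    have h1 : Tendsto q' U (𝓝 q2) := hq2l
    have h2 : (p, q2) ∈ {w : E × E | w.1 ∈ sphere (0 : E) 1 ∧ w.2 ∈ sphere (0 : E) 1 ∧
        x ∈ seg g w.1 w.2} :=
      (h.isClosed_ends x).mem_of_tendsto (b := (U : Filter ℝ)) (hUp.prodMk_nhds h1)
        (Eventually.of_forall fun s => ⟨hPS s, hq'S s, hq'x s⟩)
    rw [h.exit_uniq hp hq hq2 hxp hxq h2.2.2]
    exact h1
  -- the meeting points
  have hmt : ∀ᶠ s in (U : Filter ℝ), ∃ y, y ∈ seg g' p q ∧ y ∈ seg g' (proj (p + s • ξ)) (q' s) := by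
    have h1 := (Metric.tendsto_nhds.1 hUp) δ hδ
    have h2 := (Metric.tendsto_nhds.1 hUq) δ hδ
    filter_upwards [h1, h2] with s hs1 hs2
    rw [dist_eq_norm] at hs1 hs2
    obtain ⟨y, hy1, hy2⟩ := hmeet p hp q hq _ (hPS s) _ (hq'S s) (by simpa using hδ) hs1
      (by simpa using hδ) hs2 ⟨x, hxq, hq'x s⟩
    exact ⟨y, hy1, hy2⟩
  set Y : ℝ → E := fun s => Classical.epsilon fun y =>
    y ∈ seg g' p q ∧ y ∈ seg g' (proj (p + s • ξ)) (q' s) with hY
  have hYs : ∀ᶠ s in (U : Filter ℝ), Y s ∈ seg g' p q ∧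
      Y s ∈ seg g' (proj (p + s • ξ)) (q' s) := by
    filter_upwards [hmt] with s hs using Classical.epsilon_spec hs
  have hYM : ∀ᶠ s in (U : Filter ℝ), Y s ∈ closedBall (0 : E) 1 := by
    filter_upwards [hYs] with s hs using seg_subset hs.1
  obtain ⟨y, hyM, hyl⟩ := (isCompact_closedBall (0 : E) 1).ultrafilter_le_nhds (U.map Y)
    (le_principal_iff.2 (Filter.mem_map.2 hYM))
  have hYt : Tendsto Y U (𝓝 y) := hyl
  have hGY : ∀ᶠ s in (U : Filter ℝ), Gam g g' x p (Y s) ∧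
      Gam g g' x (proj (p + s • ξ)) (Y s) := by
    filter_upwards [hYs] with s hs
    exact ⟨⟨hp, q, hq, hxq, hs.1⟩, ⟨hPS s, q' s, hq'S s, hq'x s, hs.2⟩⟩
  have hGy : Gam g g' x p y := by
    have h1 : (p, y) ∈ {w : E × E | Gam g g' x w.1 w.2} := by
      refine (h.isClosed_Gam h' x).mem_of_tendsto (b := (U : Filter ℝ))
        ((tendsto_const_nhds (x := p)).prodMk_nhds hYt) ?_
      filter_upwards [hGY] with s hs using hs.1
    exact h1
  have hyseg : y ∈ seg g' p q := by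
    obtain ⟨-, q2, hq2, hxq2, hy2⟩ := hGy
    rwa [h.exit_uniq hp hq hq2 hxp hxq hxq2]
  -- `y` is not `p`
  have hyp : y ≠ p := by
    intro h0
    rw [h0] at hYt
    have hxqp : x ∈ seg g q p := by rw [seg_symm]; exact hxq
    refine h.not_focal_end h' hd hx hq hp hpq.symm hxqp ?_
    refine h.focal_of_pairs' h' hx hpM hq hpq fun ε hε => ?_
    -- central projection of `q' s`
    have hin : Tendsto (fun s => inner ℝ q (q' s)) U (𝓝 1) := by
      have h1 : Continuous fun v : E => inner ℝ q v := by fun_prop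
      have h2 := (h1.tendsto q).comp hUq
      rw [real_inner_self_eq_norm_sq, hqn, one_pow] at h2
      exact h2
    have hinpos : ∀ᶠ s in (U : Filter ℝ), 0 < inner ℝ q (q' s) :=
      hin.eventually (lt_mem_nhds one_pos)
    have hcen : Tendsto (fun s => (inner ℝ q (q' s))⁻¹ • q' s) U (𝓝 q) := by
      have h1 := (hin.inv₀ one_ne_zero).smul hUq
      simpa using h1
    have e1 := (Metric.tendsto_nhds.1 hYt) ε hε
    have e2 := (Metric.tendsto_nhds.1 hcen) ε hε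
    have e3 : ∀ᶠ s in (U : Filter ℝ), Y s ≠ q := by
      have h1 := hYt.eventually (isOpen_ne.eventually_mem hpq)
      exact h1
    have e4 : ∀ᶠ s in (U : Filter ℝ), Y s ≠ q' s := by
      have h1 : Tendsto (fun s => Y s - q' s) U (𝓝 (p - q)) := hYt.sub hUq
      have h2 := h1.eventually (isOpen_ne.eventually_mem (sub_ne_zero.2 hpq))
      filter_upwards [h2] with s hs
      exact sub_ne_zero.1 hs
    obtain ⟨s, hs1, hs2, hs3, hs4, hs5, hs6, hs7, hs8⟩ :=
      (e1.and (e2.and (e3.and (e4.and (hinpos.and (hGY.and (hYM.and hUpos))))))).exists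
    rw [dist_eq_norm] at hs1 hs2
    obtain ⟨c1, c2⟩ := central hq (hq'S s) hs5
    have hq'q : q' s ≠ q := by
      intro h1
      have h2 : x ∈ seg g q (proj (p + s • ξ)) := by
        rw [seg_symm, ← h1]; exact hq'x s
      have h3 := h.exit_uniq hq hp (hPS s) hxq' hxqp h2
      have h4 : inner ℝ p (proj (p + s • ξ)) = ‖p + s • ξ‖⁻¹ := by
        rw [proj, inner_smul_right, inner_add_right, inner_smul_right, hξ,
          real_inner_self_eq_norm_sq, hpn]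
        ring
      rw [← h3, real_inner_self_eq_norm_sq, hpn] at h4
      have h5 : ‖p + s • ξ‖ ^ 2 = 1 + s ^ 2 * ‖ξ‖ ^ 2 := by
        rw [norm_add_sq_real, inner_smul_right, hξ, norm_smul, hpn, mul_pow, Real.norm_eq_abs,
          sq_abs]
        ring
      have h6 : ‖p + s • ξ‖ = 1 := by
        have h7 : ‖p + s • ξ‖⁻¹ = 1 := by rw [← h4]; norm_num
        exact inv_eq_one.1 h7
      rw [h6] at h5
      have h8 : 0 < s ^ 2 * ‖ξ‖ ^ 2 := by
        have := norm_pos_iff.2 hξ0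
        positivity
      linarith
    refine ⟨Y s, (inner ℝ q (q' s))⁻¹ • q' s, q, hs1, hs2, by simpa using hε, ?_, c2, ?_, ?_⟩
    · intro h1
      apply hq'q
      rw [← c1, h1, proj_of_mem hq]
    · have hz0 : (inner ℝ q (q' s))⁻¹ • q' s ≠ 0 :=
        smul_ne_zero (inv_ne_zero hs5.ne') (ne_zero_of_mem_sphere' (hq'S s))
      refine h.Phi_zero' h' hd hx hs7 hz0 (by rw [c1]; exact hs4) ?_
      rw [c1]
      obtain ⟨-, ⟨-, q3, hq3, hxq3, hy3⟩⟩ := hs6
      have h9 := h.exit_uniq (hPS s) (hq'S s) hq3 (ne_of_sphere hx (hPS s)) (hq'x s) hxq3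
      refine ⟨hq'S s, proj (p + s • ξ), hPS s, by rw [seg_symm]; exact hq'x s, ?_⟩
      rw [seg_symm, h9]; exact hy3
    · refine h.Phi_zero' h' hd hx hs7 hq0 (by rw [proj_of_mem hq]; exact hs3) ?_
      rw [proj_of_mem hq]
      obtain ⟨⟨-, q3, hq3, hxq3, hy3⟩, -⟩ := hs6
      have h9 := h.exit_uniq hp hq hq3 hxp hxq hxq3
      refine ⟨hq, p, hp, hxqp, ?_⟩
      rw [seg_symm, h9]; exact hy3
  -- the Hessian
  obtain ⟨D, hD, hDv⟩ := h.Phi_strict' h' hx hyM hp hyp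
  have hDξ : D (0, ξ) = 0 := by
    rw [← norm_le_zero_iff]
    by_contra hcon
    push Not at hcon
    have hξn : 0 < ‖ξ‖ := norm_pos_iff.2 hξ0
    set c := ‖D (0, ξ)‖ / (2 * ‖ξ‖) with hc
    have hc0 : 0 < c := by positivity
    have hb := hD.isLittleO.def hc0
    have ht : Tendsto (fun s : ℝ => ((Y s, p + s • ξ), (Y s, p))) U (𝓝 ((y, p), (y, p))) :=
      (hYt.prodMk_nhds hUz).prodMk_nhds (hYt.prodMk_nhds tendsto_const_nhds)
    have e1 : ∀ᶠ s in (U : Filter ℝ), Y s ≠ p := by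
      have h1 := hYt.eventually (isOpen_ne.eventually_mem hyp)
      exact h1
    have e2 : ∀ᶠ s in (U : Filter ℝ), Y s ≠ proj (p + s • ξ) := by
      have h1 : Tendsto (fun s => Y s - proj (p + s • ξ)) U (𝓝 (y - p)) := hYt.sub hUp
      have h2 := h1.eventually (isOpen_ne.eventually_mem (sub_ne_zero.2 hyp))
      filter_upwards [h2] with s hs
      exact sub_ne_zero.1 hs
    obtain ⟨s, hs1, hs2, hs3, hs4, hs5, hs6⟩ :=
      ((ht.eventually hb).and (e1.and (e2.and (hGY.and (hYM.and hUpos))))).exists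
    have z1 : Phi g g' L L' x (Y s, p + s • ξ) = 0 :=
      h.Phi_zero' h' hd hx hs5 (hne s) hs3 hs4.2
    have z2 : Phi g g' L L' x (Y s, p) = 0 :=
      h.Phi_zero' h' hd hx hs5 hp0 (by rw [hpp]; exact hs2) (by rw [hpp]; exact hs4.1)
    simp only [z1, z2, sub_self, zero_sub, norm_neg, Prod.mk_sub_mk, add_sub_cancel_left] at hs1
    have h2 : ((0 : E), s • ξ) = s • ((0 : E), ξ) := by simp
    have h3 : ‖((0 : E), ξ)‖ = ‖ξ‖ := by rw [Prod.norm_def]; simp
    rw [h2, map_smul, norm_smul, norm_smul, h3, Real.norm_eq_abs, abs_of_pos hs6] at hs1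
    have h4 : c * (s * ‖ξ‖) = s * (‖D (0, ξ)‖ / 2) := by
      rw [hc]; field_simp
    rw [h4] at hs1
    have h5 := le_of_mul_le_mul_left hs1 hs6
    linarith
  have hker : ∀ ζ, Q g' L' p y ξ ζ = Q g L p x ξ ζ := by
    intro ζ
    have h1 := hDv ξ
    rw [hDξ] at h1
    have h2 := congrArg (fun f : E →L[ℝ] ℝ => f ζ) h1
    simp only [zero_apply, sub_apply] at h2
    linarith
  -- `y` is not `q`
  have hyq : y ≠ q := by
    intro h0
    refine h.not_focal_end h' hd hx hp hq hpq hxq ⟨ξ, hξ0, hξ, ?_⟩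
    rw [← h0]; exact hker
  exact ⟨y, h'.seg_interior hpM hqM hyseg hyp hyq, hGy, hker⟩

/-- the exit points depend continuously on the entrance points -/
lemma exit_near (h : Simple g e L) {x b q : E} (hx : ‖x‖ < 1) (hb : b ∈ sphere (0 : E) 1)
    (hq : q ∈ sphere (0 : E) 1) (hxq : x ∈ seg g b q) {ε : ℝ} (hε : 0 < ε) :
    ∃ δ > 0, ∀ p ∈ sphere (0 : E) 1, ‖p - b‖ < δ → ∀ q' ∈ sphere (0 : E) 1, x ∈ seg g p q' →
      ‖q' - q‖ < ε := by
  by_contra hcon
  push Not at hcon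
  have h1 : ∀ n : ℕ, ∃ w : E × E, (w.1 ∈ sphere (0 : E) 1 ∧ w.2 ∈ sphere (0 : E) 1 ∧
      x ∈ seg g w.1 w.2) ∧ ‖w.1 - b‖ < 1 / ((n : ℝ) + 1) ∧ ε ≤ ‖w.2 - q‖ := by
    intro n
    obtain ⟨p, hp, hpb, q', hq', hxq', hle⟩ := hcon (1 / ((n : ℝ) + 1)) (by positivity)
    exact ⟨(p, q'), ⟨hp, hq', hxq'⟩, hpb, hle⟩
  choose w hw1 hw2 hw3 using h1
  obtain ⟨U, hU⟩ := Ultrafilter.exists_le (atTop : Filter ℕ)
  obtain ⟨q2, hq2, hq2l⟩ := (isCompact_sphere (0 : E) 1).ultrafilter_le_nhds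
    (U.map fun n => (w n).2)
    (le_principal_iff.2 (Filter.mem_map.2 (univ_mem' fun n => (hw1 n).2.1)))
  have h2 : Tendsto (fun n => (w n).2) U (𝓝 q2) := hq2l
  have h3 : Tendsto (fun n => (w n).1) atTop (𝓝 b) := by
    rw [tendsto_iff_norm_sub_tendsto_zero]
    refine squeeze_zero (fun n => norm_nonneg _) (fun n => (hw2 n).le) ?_
    exact tendsto_one_div_add_atTop_nhds_zero_nat
  have h4 : (b, q2) ∈ {w : E × E | w.1 ∈ sphere (0 : E) 1 ∧ w.2 ∈ sphere (0 : E) 1 ∧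
      x ∈ seg g w.1 w.2} :=
    (h.isClosed_ends x).mem_of_tendsto (b := (U : Filter ℕ)) ((h3.mono_left hU).prodMk_nhds h2)
      (Eventually.of_forall fun n => hw1 n)
  have h5 := h.exit_uniq hb hq hq2 (ne_of_sphere hx hb) hxq h4.2.2
  have h6 : ε ≤ ‖q2 - q‖ :=
    ge_of_tendsto ((h2.sub_const q).norm) (Eventually.of_forall hw3)
  rw [h5, sub_self, norm_zero] at h6
  linarith

/-- a local family of common focal points determines all the jets -/
lemma J3_of_full (h : Simple g e L) (h' : Simple g' e' L') (hn : 2 < Module.finrank ℝ E)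
    (hd : ∀ p ∈ sphere (0 : E) 1, ∀ q ∈ sphere (0 : E) 1, rho g L p q = rho g' L' p q)
    {x : E} (hx : ‖x‖ < 1) {F : E → E} {V : Set E} (hV : IsOpen V)
    (hF : ∀ p ∈ sphere (0 : E) 1, p ∈ V → Full g g' L L' x p (F p)) {b : E}
    (hb : b ∈ sphere (0 : E) 1) (hbV : b ∈ V) :
    J3 (fun z => RR g' L' (F b, z) - RR g L (x, z)) b := by
  have hb0 := ne_zero_of_mem_sphere' hb
  have hbp := proj_of_mem hb
  have hyb : ‖F b‖ < 1 := (hF b hb hbV).1
  have hc := h.const_full_loc h' hn hd hx hV hF hb hbV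
  have hW : ∀ᶠ z in 𝓝 b, z ≠ 0 ∧ proj z ∈ V :=
    (isOpen_ne.eventually_mem hb0).and
      ((contDiffAt_proj hb0).continuousAt.eventually (hV.mem_nhds (by rwa [hbp])))
  have h1 : fderiv ℝ (fun z => RR g' L' (F b, z) - RR g L (x, z)) =ᶠ[𝓝 b] fun _ => 0 := by
    filter_upwards [hW, hc] with z hz hcz
    have hz0 := hz.1
    obtain ⟨k1, k2, -⟩ := hF _ (proj_mem hz0) hz.2
    rw [hcz] at k2
    have hP := h.Phi_zero h' hd hx hyb hz0 k2
    have c1 : DifferentiableAt ℝ (fun z => rho g' L' (F b) (proj z)) z :=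
      (h'.contDiffAt_rho_proj' (mem_of_norm_lt hyb) hz0
        (ne_of_sphere hyb (proj_mem hz0))).differentiableAt (by simp)
    have c2 : DifferentiableAt ℝ (fun z => rho g L x (proj z)) z :=
      (h.contDiffAt_rho_proj' (mem_of_norm_lt hx) hz0
        (ne_of_sphere hx (proj_mem hz0))).differentiableAt (by simp)
    have hfs := fderiv_fun_sub c1 c2
    exact hfs.trans hP
  have h2 : fderiv ℝ (fderiv ℝ (fun z => RR g' L' (F b, z) - RR g L (x, z))) =ᶠ[𝓝 b]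
      fun _ => 0 := by
    have h3 : fderiv ℝ (fun _ : E => (0 : E →L[ℝ] ℝ)) = fun _ => 0 := by
      funext z
      simp
    rw [← h3]
    exact h1.fderiv
  refine ⟨h1.self_of_nhds, h2.self_of_nhds, ?_⟩
  rw [h2.fderiv_eq]
  simp

/-- kernels close to one boundary point are enough -/
theorem isometric_of_kernel_near (h : Simple g e L) (h' : Simple g' e' L')
    (hn : 2 < Module.finrank ℝ E)
    (hd : ∀ p ∈ sphere (0 : E) 1, ∀ q ∈ sphere (0 : E) 1, rho g L p q = rho g' L' p q)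
    {b : E} (hb : b ∈ sphere (0 : E) 1)
    (hK : ∀ x : E, ‖x‖ < 1 → ∃ δ > 0, ∀ p ∈ sphere (0 : E) 1, ‖p - b‖ < δ →
      ∀ ξ, inner ℝ p ξ = 0 → ξ ≠ 0 →
      ∃ y : E, ‖y‖ < 1 ∧ Gam g g' x p y ∧ ∀ ζ, Q g' L' p y ξ ζ = Q g L p x ξ ζ) :
    BoundaryIsometric g g' := by
  have hn1 : 1 < Module.finrank ℝ E := lt_trans one_lt_two hn
  obtain ⟨A, A', S⟩ := exists_bas h h' hd hb
  set F : E → E → E := fun x p => Classical.epsilon fun y => Full g g' L L' x p y with hFdef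
  have hmain : ∀ x : E, ‖x‖ < 1 → Full g g' L L' x b (F x b) ∧
      J3 (fun z => RR g' L' (F x b, z) - RR g L (x, z)) b := by
    intro x hx
    obtain ⟨δ, hδ, hKx⟩ := hK x hx
    have hF : ∀ p ∈ sphere (0 : E) 1, p ∈ ball b δ → Full g g' L L' x p (F x p) := by
      intro p hp hpb
      rw [mem_ball, dist_eq_norm] at hpb
      exact Classical.epsilon_spec (h.full_of_kernel h' hn1 hx hp (hKx p hp hpb))
    exact ⟨hF b hb (mem_ball_self hδ),
      h.J3_of_full h' hn hd hx isOpen_ball hF hb (mem_ball_self hδ)⟩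
  exact S.isometric_of_jets hn1 (Y := fun x => F x b) (fun x hx => (hmain x hx).1)
    fun x hx => (hmain x hx).2

theorem isometric_of_dir_near (h : Simple g e L) (h' : Simple g' e' L')
    (hn : 2 < Module.finrank ℝ E)
    (hd : ∀ p ∈ sphere (0 : E) 1, ∀ q ∈ sphere (0 : E) 1, rho g L p q = rho g' L' p q)
    {b : E} (hb : b ∈ sphere (0 : E) 1)
    (hJ : DirectionalTwoJetsNear g g' b) : BoundaryIsometric g g' := by
  refine h.isometric_of_kernel_near h' hn hd hb fun x hx => ?_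
  obtain ⟨δ, hδ, hJx⟩ := hJ x hx
  refine ⟨δ, hδ, fun p hp hpb ξ hξ _ => ?_⟩
  obtain ⟨y, hy, h1, h2⟩ := hJx p hp hpb ξ hξ
  obtain ⟨k1, k2⟩ := h.fderiv_bdiff h' hx hy hp
  rw [k1] at h1
  rw [k2] at h2
  refine ⟨y, hy, h.gam_of_Phi h' hd hx hy hp h1, fun ζ => ?_⟩
  have h3 := congrArg (fun f : E →L[ℝ] ℝ => f ζ) h2
  simp only [sub_apply, zero_apply] at h3
  linarith

theorem isometric_of_near_at (h : Simple g e L) (h' : Simple g' e' L')
    (hn : 2 < Module.finrank ℝ E)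
    (hd : ∀ p ∈ sphere (0 : E) 1, ∀ q ∈ sphere (0 : E) 1, rho g L p q = rho g' L' p q)
    {b : E} (hb : b ∈ sphere (0 : E) 1)
    (hN : NearMeetingAt g g' b) : BoundaryIsometric g g' := by
  refine h.isometric_of_kernel_near h' hn hd hb fun x hx => ?_
  obtain ⟨q, hq, hbq, hxq⟩ := h.exists_exit hb hx
  obtain ⟨ε, hε, hmeet⟩ := hN q hq hbq.symm
  obtain ⟨δ, hδ, hexit⟩ := h.exit_near hx hb hq hxq (ε := ε / 2) (by positivity)
  refine ⟨min δ (ε / 2), lt_min hδ (by positivity), fun p hp hpb ξ hξ hξ0 => ?_⟩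
  obtain ⟨q', hq', hpq', hxq'⟩ := h.exists_exit hp hx
  have h1 := hexit p hp (hpb.trans_le (min_le_left _ _)) q' hq' hxq'
  have h2 := hpb.trans_le (min_le_right _ _)
  have tri : ∀ u v w : E, ‖u - v‖ < ε / 2 → ‖v - w‖ < ε / 2 → ‖u - w‖ < ε := by
    intro u v w k1 k2
    have k3 : u - w = (u - v) + (v - w) := by abel
    rw [k3]
    linarith [norm_add_le (u - v) (v - w)]
  refine h.kernel_of_near_at h' hd hx hp hq' hpq' hxq' ⟨ε / 2, by positivity, ?_⟩ hξ hξ0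
  intro p1 hp1 q1 hq1 p2 hp2 q2 hq2 l1 l2 l3 l4 hne
  exact hmeet p1 hp1 q1 hq1 p2 hp2 q2 hq2 (tri _ _ _ l1 h2) (tri _ _ _ l2 h2)
    (tri _ _ _ l3 h1) (tri _ _ _ l4 h1) hne

end Simple

/-- **Local criteria** -/
theorem local_criteria (hn : 2 < Module.finrank ℝ E)
    {g g' : E → E →L[ℝ] E →L[ℝ] ℝ} (hg : IsSimple g) (hg' : IsSimple g')
    (hd : ∀ p ∈ sphere (0 : E) 1, ∀ q ∈ sphere (0 : E) 1, gdist g p q = gdist g' p q)
    {b : E} (hb : b ∈ sphere (0 : E) 1) :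
    List.TFAE [BoundaryIsometric g g', NearMeetingAt g g' b, TwoJetsNear g g' b,
      DirectionalTwoJetsNear g g' b] := by
  obtain ⟨e, L, h⟩ := hg
  obtain ⟨e', L', h'⟩ := hg'
  have hd' : ∀ p ∈ sphere (0 : E) 1, ∀ q ∈ sphere (0 : E) 1, rho g L p q = rho g' L' p q := by
    intro p hp q hq
    rw [← h.gdist_eq (mem_of_sphere hp) (mem_of_sphere hq),
      ← h'.gdist_eq (mem_of_sphere hp) (mem_of_sphere hq), hd p hp q hq]
  tfae_have 1 → 2 := fun hψ q _ _ => ⟨1, one_pos, fun p1 hp1 q1 hq1 p2 hp2 q2 hq2 _ _ _ _ hne =>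
    h.meeting_of_isometric h' hψ hd' p1 hp1 q1 hq1 p2 hp2 q2 hq2 hne⟩
  tfae_have 2 → 1 := fun hN => h.isometric_of_near_at h' hn hd' hb hN
  tfae_have 1 → 3 := fun hψ x hx => ⟨1, one_pos, fun p hp _ =>
    h.jets_of_isometric h' hψ hd' x hx p hp⟩
  tfae_have 3 → 4 := fun hJ x hx => by
    obtain ⟨δ, hδ, hJx⟩ := hJ x hx
    refine ⟨δ, hδ, fun p hp hpb ξ _ => ?_⟩
    obtain ⟨y, hy, h1, h2⟩ := hJx p hp hpb
    exact ⟨y, hy, h1, by rw [h2]; rfl⟩
  tfae_have 4 → 1 := fun hJ => h.isometric_of_dir_near h' hn hd' hb hJ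
  tfae_finish

end Pool.Agent.W5h72.BR
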