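import Pool.Agent.W5h72.BR.Kern

/-!
# Mixed derivatives of the distance function
-/

open Set Metric Filter Topology
open scoped ContDiff RealInnerProductSpace

noncomputable section

namespace Pool.Agent.W5h72.BR

section calculus

variable {F G : Type*} [NormedAddCommGroup F] [NormedSpace ℝ F] [NormedAddCommGroup G]
  [NormedSpace ℝ G]

/-- directional derivative -/
def dd (f : F → G) (v : F) : F → G := fun w => fderiv ℝ f w v

lemma ev_diff {f : F → G} {w : F} (hf : ContDiffAt ℝ ∞ f w) :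
    ∀ᶠ z in 𝓝 w, DifferentiableAt ℝ f z := by
  have h1 := (hf.of_le (m := 1) (by exact_mod_cast le_top)).eventually (by simp)
  filter_upwards [h1] with z hz using hz.differentiableAt (by simp)

lemma ev_diff2 {f : F → G} {w : F} (hf : ContDiffAt ℝ ∞ f w) :
    ∀ᶠ z in 𝓝 w, DifferentiableAt ℝ (fderiv ℝ f) z :=
  ev_diff (hf.fderiv_right (m := ∞) (by simp))

lemma contDiffAt_dd {f : F → G} {w : F} (hf : ContDiffAt ℝ ∞ f w) (v : F) :
    ContDiffAt ℝ ∞ (dd f v) w :=
  (hf.fderiv_right (m := ∞) (by simp)).clm_apply contDiffAt_const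

lemma dd_dd {f : F → G} {w : F} (hf : ContDiffAt ℝ ∞ f w) (u v : F) :
    ∀ᶠ z in 𝓝 w, dd (dd f v) u z = fderiv ℝ (fderiv ℝ f) z u v := by
  filter_upwards [ev_diff2 hf] with z hz
  have h1 : HasFDerivAt (dd f v) ((fderiv ℝ (fderiv ℝ f) z).flip v) z := by
    have := hz.hasFDerivAt.clm_apply (hasFDerivAt_const v z)
    refine this.congr_fderiv ?_
    ext w
    simp
  rw [dd, h1.fderiv]
  rfl

lemma dd_comm {f : F → G} {w : F} (hf : ContDiffAt ℝ ∞ f w) (u v : F) :
    dd (dd f v) u =ᶠ[𝓝 w] dd (dd f u) v := by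
  have h2 := (hf.of_le (m := 2) (by exact WithTop.coe_le_coe.2 le_top)).eventually (by simp)
  filter_upwards [dd_dd hf u v, dd_dd hf v u, h2] with z h1 h2 h3
  rw [h1, h2]
  refine h3.isSymmSndFDerivAt ?_ u v
  rw [minSmoothness_of_isRCLikeNormedField]

lemma dd_congr {f g : F → G} {w : F} (h : f =ᶠ[𝓝 w] g) (v : F) : dd f v =ᶠ[𝓝 w] dd g v := by
  filter_upwards [h.eventuallyEq_nhds] with z hz
  rw [dd, dd, hz.fderiv_eq]

lemma deriv_line {f : F → G} {w : F} (hf : ContDiffAt ℝ ∞ f w) (v : F) :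
    deriv (fun r : ℝ => f (w + r • v)) =ᶠ[𝓝 0] fun r => dd f v (w + r • v) := by
  have hl : ∀ s : ℝ, HasDerivAt (fun s : ℝ => w + s • v) v s := fun s => by
    simpa using ((hasDerivAt_id s).smul_const v).const_add w
  have h1 : Tendsto (fun s : ℝ => w + s • v) (𝓝 0) (𝓝 w) := by
    simpa using (hl 0).continuousAt.tendsto
  filter_upwards [h1.eventually (ev_diff hf)] with s hs
  exact (HasFDerivAt.comp_hasDerivAt (f := fun s : ℝ => w + s • v) (l := f) s hs.hasFDerivAt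
    (hl s)).deriv

lemma deriv2_line {f : F → G} {w : F} (hf : ContDiffAt ℝ ∞ f w) (v : F) :
    deriv (deriv (fun r : ℝ => f (w + r • v))) 0 = dd (dd f v) v w := by
  rw [(deriv_line hf v).deriv_eq]
  have h1 := (deriv_line (contDiffAt_dd hf v) v).self_of_nhds
  rw [h1]
  simp

lemma third {f : F → G} {w : F} (hf : ContDiffAt ℝ ∞ f w) (u v : F) :
    dd (dd (dd f v) v) u w = dd (dd (dd f u) v) v w := by
  have h1 := (dd_comm (contDiffAt_dd hf v) u v).self_of_nhds
  rw [h1]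
  exact (dd_congr (dd_comm hf u v) v).self_of_nhds

end calculus

variable {E : Type*} [NormedAddCommGroup E] [InnerProductSpace ℝ E]

/-- the distance as a function on `E × E` -/
def RR (g : E → E →L[ℝ] E →L[ℝ] ℝ) (L : E → E → E) (w : E × E) : ℝ := rho g L w.1 (proj w.2)

/-- if a vector is orthogonal to the boundary and to an inward vector, it is zero -/
lemma eq_zero_of_split {B : E →L[ℝ] E →L[ℝ] ℝ} (hp : ∀ v, v ≠ 0 → 0 < B v v) {p δ u : E}
    (hu : inner ℝ p u < 0) (htan : ∀ ζ, inner ℝ p ζ = 0 → B δ ζ = 0) (hnor : B δ u = 0) :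
    δ = 0 := by
  by_contra hne2
  have h1 := hp _ hne2
  set k := inner ℝ p δ / inner ℝ p u with hk
  have h2 : inner ℝ p (δ - k • u) = 0 := by
    rw [inner_sub_right, inner_smul_right, hk, div_mul_cancel₀ _ hu.ne, sub_self]
  have h3 := htan _ h2
  rw [map_sub, map_smul, hnor, smul_zero, sub_zero] at h3
  linarith

namespace Simple

variable {g : E → E →L[ℝ] E →L[ℝ] ℝ} {e L : E → E → E}

lemma fderiv_RR (h : Simple g e L) {y z : E} (hy : y ∈ closedBall (0 : E) 1) (hz : z ≠ 0)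
    (hyz : y ≠ proj z) (ζ : E) :
    fderiv ℝ (fun z => rho g L y (proj z)) z ζ = fderiv ℝ (RR g L) (y, z) (0, ζ) := by
  have h1 : DifferentiableAt ℝ (RR g L) (y, z) :=
    (h.contDiffAt_rho_proj hy hz hyz).differentiableAt (by simp)
  have h2 : HasFDerivAt (fun z => rho g L y (proj z))
      ((fderiv ℝ (RR g L) (y, z)).comp (ContinuousLinearMap.inr ℝ E E)) z :=
    HasFDerivAt.comp z (f := fun z => (y, z)) h1.hasFDerivAt (hasFDerivAt_prodMk_right y z)
  rw [h2.fderiv]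
  rfl

lemma contDiffAt_RR (h : Simple g e L) {y p : E} (hy : ‖y‖ < 1) (hp : p ∈ sphere (0 : E) 1) :
    ContDiffAt ℝ ∞ (RR g L) (y, p) :=
  h.contDiffAt_rho_proj (mem_of_norm_lt hy) (ne_zero_of_mem_sphere' hp)
    (by rw [proj_of_mem hp]; exact ne_of_sphere hy hp)

lemma Q_eq_RR (h : Simple g e L) {y p : E} (hy : ‖y‖ < 1) (hp : p ∈ sphere (0 : E) 1)
    (ξ ζ : E) : Q g L p y ξ ζ = fderiv ℝ (fderiv ℝ (RR g L)) (y, p) (0, ξ) (0, ζ) := by
  have hp0 := ne_zero_of_mem_sphere' hp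
  have hyM := mem_of_norm_lt hy
  have h1 : fderiv ℝ (fun z => rho g L y (proj z)) =ᶠ[𝓝 p]
      fun z => (fderiv ℝ (RR g L) (y, z)).comp (ContinuousLinearMap.inr ℝ E E) := by
    filter_upwards [isOpen_compl_singleton.mem_nhds (show p ∈ ({0}ᶜ : Set E) from hp0)] with z hz
    ext ζ
    rw [h.fderiv_RR hyM hz (ne_of_sphere hy (proj_mem hz))]
    rfl
  have hR := h.contDiffAt_RR hy hp
  have h4 : HasFDerivAt (fun z => dd (RR g L) (0, ζ) (y, z))
      ((fderiv ℝ (dd (RR g L) (0, ζ)) (y, p)).comp (ContinuousLinearMap.inr ℝ E E)) p :=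
    HasFDerivAt.comp p (f := fun z => (y, z))
      ((contDiffAt_dd hR (0, ζ)).differentiableAt (by simp)).hasFDerivAt
      (hasFDerivAt_prodMk_right y p)
  have h5 : DifferentiableAt ℝ (fderiv ℝ (fun z => rho g L y (proj z))) p :=
    ((h.contDiffAt_rho_proj' hyM hp0
      (by rw [proj_of_mem hp]; exact ne_of_sphere hy hp)).fderiv_right (m := ∞)
      (by simp)).differentiableAt (by simp)
  have h6 : HasFDerivAt (fun z => fderiv ℝ (fun z => rho g L y (proj z)) z ζ)
      ((Q g L p y).flip ζ) p := by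
    refine (h5.hasFDerivAt.clm_apply (hasFDerivAt_const ζ p)).congr_fderiv ?_
    ext w
    simp [Q]
  have h7 : (fun z => dd (RR g L) (0, ζ) (y, z)) =ᶠ[𝓝 p]
      fun z => fderiv ℝ (fun z => rho g L y (proj z)) z ζ := by
    filter_upwards [h1] with z hz
    rw [hz]
    rfl
  have h8 := congrArg (fun f : E →L[ℝ] ℝ => f ξ) ((h6.congr_of_eventuallyEq h7).unique h4)
  have h9 := (dd_dd hR (0, ξ) (0, ζ)).self_of_nhds
  rw [← h9]
  exact h8

lemma rho_comp (h : Simple g e L) {x : E} {y : ℝ → E} {y0 δ : E}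
    (hx : x ∈ closedBall (0 : E) 1) (hy0 : y0 ∈ closedBall (0 : E) 1) (hxy : x ≠ y0)
    (h0 : y 0 = y0) (hy : HasDerivAt y δ 0) :
    ∃ c, HasDerivAt (fun a => rho g L x (y a)) c 0 :=
  ⟨_, HasFDerivAt.comp_hasDerivAt_of_eq (f := y) (l := rho g L x) (0 : ℝ)
    (h.hasFDerivAt_rho hx hy0 hxy) hy h0.symm⟩

/-- the key computation: if the unit direction from `x` to `y(a)` is stationary then `y` moves along
the geodesic -/
lemma stationary (h : Simple g e L) {x : E} {y : ℝ → E} {y0 δ : E}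
    (hx : x ∈ closedBall (0 : E) 1) (hy0 : y0 ∈ closedBall (0 : E) 1) (hxy : x ≠ y0)
    (h0 : y 0 = y0) (hy : HasDerivAt y δ 0)
    (hU : HasDerivAt (fun a => (rho g L x (y a))⁻¹ • L x (y a)) 0 0) :
    ∃ c : ℝ, δ = c • L y0 x := by
  obtain ⟨c, hc⟩ := h.rho_comp hx hy0 hxy h0 hy
  have hr : rho g L x y0 ≠ 0 := (h.rho_pos hx hy0 hxy).ne'
  have h1 : HasDerivAt (fun a => L x (y a)) (fderiv ℝ (L x) y0 δ) 0 :=
    HasFDerivAt.comp_hasDerivAt_of_eq (f := y) (l := L x) (0 : ℝ) (h.hasFDerivAt_L x y0) hy h0.symm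
  have h2 := hc.smul hU
  have h3 : (fun a => L x (y a)) =ᶠ[𝓝 0]
      fun a => rho g L x (y a) • ((rho g L x (y a))⁻¹ • L x (y a)) := by
    have h4 : ∀ᶠ a in 𝓝 (0 : ℝ), rho g L x (y a) ≠ 0 :=
      hc.continuousAt.eventually_ne (by rw [h0]; exact hr)
    filter_upwards [h4] with a ha
    rw [smul_smul, mul_inv_cancel₀ ha, one_smul]
  have h5 := h1.unique (h2.congr_of_eventuallyEq h3)
  rw [smul_zero, zero_add, h0, smul_smul] at h5
  have h6 := congrArg (fderiv ℝ (e x) (L x y0)) h5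
  have h7 : fderiv ℝ (e x) (L x y0) (fderiv ℝ (L x) y0 δ) = δ :=
    congrArg (fun f : E →L[ℝ] E => f δ) (h.D_comp hx hy0)
  rw [h7, map_smul, h.De_L hx hy0] at h6
  exact ⟨-(c * (rho g L x y0)⁻¹), by rw [h6, smul_neg, neg_smul]⟩

lemma diff_unit (h : Simple g e L) {x : E} {y : ℝ → E} {y0 δ : E}
    (hx : x ∈ closedBall (0 : E) 1) (hy0 : y0 ∈ closedBall (0 : E) 1) (hxy : x ≠ y0)
    (h0 : y 0 = y0) (hy : HasDerivAt y δ 0) :
    ∃ c, HasDerivAt (fun a => (rho g L x (y a))⁻¹ • L x (y a)) c 0 := by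
  obtain ⟨c, hc⟩ := h.rho_comp hx hy0 hxy h0 hy
  have h1 : HasDerivAt (fun a => L x (y a)) (fderiv ℝ (L x) y0 δ) 0 :=
    HasFDerivAt.comp_hasDerivAt_of_eq (f := y) (l := L x) (0 : ℝ) (h.hasFDerivAt_L x y0) hy h0.symm
  exact ⟨_, (hc.inv (by rw [h0]; exact (h.rho_pos hx hy0 hxy).ne')).smul h1⟩

/-- the kernel of the mixed Hessian of the distance -/
lemma mixed_kernel (h : Simple g e L) {y p δ : E} (hy : ‖y‖ < 1) (hp : p ∈ sphere (0 : E) 1)
    (hk : ∀ ζ, fderiv ℝ (fderiv ℝ (RR g L)) (y, p) (δ, 0) (0, ζ) = 0) :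
    ∃ c : ℝ, δ = c • L y p := by
  have hpM := mem_of_sphere hp
  have hp0 := ne_zero_of_mem_sphere' hp
  have hpp := proj_of_mem hp
  have hyM := mem_of_norm_lt hy
  have hyp := ne_of_sphere hy hp
  have hl : HasDerivAt (fun s : ℝ => y + s • δ) δ 0 := by
    simpa using ((hasDerivAt_id (0 : ℝ)).smul_const δ).const_add y
  have hb : ∀ᶠ a in 𝓝 (0 : ℝ), ‖y + a • δ‖ < 1 := by
    have : ContinuousAt (fun a : ℝ => ‖y + a • δ‖) 0 := hl.continuousAt.norm
    exact this.eventually_lt_const (by simpa using hy)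
  obtain ⟨dU, hdU⟩ := h.diff_unit hpM hyM hyp.symm (y := fun a => y + a • δ) (by simp) hl
  set U : ℝ → E := fun a => (rho g L p (y + a • δ))⁻¹ • L p (y + a • δ) with hU
  have hU0 : U 0 = (rho g L p y)⁻¹ • L p y := by simp [hU]
  have hUU : ∀ᶠ a in 𝓝 (0 : ℝ), g p (U a) (U a) = 1 := by
    filter_upwards [hb] with a ha
    exact h.unit_dir hpM (mem_of_norm_lt ha) (ne_of_sphere ha hp).symm
  have hnor : g p dU (U 0) = 0 := by
    have h1 := ((hasDerivAt_const (0 : ℝ) (g p)).clm_apply hdU).clm_apply hdU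
    have h2 := (h1.congr_of_eventuallyEq (f₁ := fun _ => (1 : ℝ))
      (by filter_upwards [hUU] with a ha using ha.symm)).unique (hasDerivAt_const (0 : ℝ) (1 : ℝ))
    simp only [zero_apply, zero_add] at h2
    rw [h.symm p hpM (U 0) dU] at h2
    linarith
  have htan : ∀ ζ, inner ℝ p ζ = 0 → g p dU ζ = 0 := by
    intro ζ hζ
    have h1 : DifferentiableAt ℝ (fderiv ℝ (RR g L)) (y, p) :=
      ((h.contDiffAt_RR hy hp).fderiv_right (m := ∞) (by simp)).differentiableAt (by simp)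
    have h2 : HasDerivAt (fun a : ℝ => (y + a • δ, p)) (δ, (0 : E)) 0 :=
      hl.prodMk (hasDerivAt_const (0 : ℝ) p)
    have h3 := HasFDerivAt.comp_hasDerivAt_of_eq (f := fun a : ℝ => (y + a • δ, p))
      (l := fderiv ℝ (RR g L)) (0 : ℝ) h1.hasFDerivAt h2 (by simp)
    have h4 : HasDerivAt (fun a : ℝ => fderiv ℝ (RR g L) (y + a • δ, p) (0, ζ))
        (fderiv ℝ (fderiv ℝ (RR g L)) (y, p) (δ, 0) (0, ζ)) 0 := by
      simpa using h3.clm_apply (hasDerivAt_const (0 : ℝ) ((0 : E), ζ))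
    rw [hk ζ] at h4
    have h5 : HasDerivAt (fun a : ℝ => - g p (U a) ζ) (- g p dU ζ) 0 := by
      have := (((hasDerivAt_const (0 : ℝ) (g p)).clm_apply hdU).clm_apply
        (hasDerivAt_const (0 : ℝ) ζ)).neg
      exact HasDerivAt.congr_deriv (f := fun a => - g p (U a) ζ) this (by simp)
    have h6 : (fun a : ℝ => - g p (U a) ζ) =ᶠ[𝓝 0]
        fun a : ℝ => fderiv ℝ (RR g L) (y + a • δ, p) (0, ζ) := by
      filter_upwards [hb] with a ha
      rw [← h.fderiv_RR (mem_of_norm_lt ha) hp0 (by rw [hpp]; exact ne_of_sphere ha hp),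
        h.fderiv_rho_proj (mem_of_norm_lt ha) hp0 (by rw [hpp]; exact ne_of_sphere ha hp), hpp,
        Dproj_apply hp hζ]
    have h7 := (h4.congr_of_eventuallyEq h6).unique h5
    linarith
  have hin : inner ℝ p (U 0) < 0 := by
    rw [hU0, inner_smul_right]
    exact mul_neg_of_pos_of_neg (inv_pos.2 (h.rho_pos hpM hyM hyp.symm))
      (h.L_inward hp hyM hyp.symm)
  have hz := eq_zero_of_split (h.pos p hpM) hin htan hnor
  rw [hz] at hdU
  exact h.stationary hpM hyM hyp.symm (y := fun a => y + a • δ) (by simp) hl hdU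

/-- derivative of the Hessian along the geodesic -/
lemma third_pos (h : Simple g e L) {y p ξ : E} (hy : ‖y‖ < 1) (hp : p ∈ sphere (0 : E) 1)
    (hξ : inner ℝ p ξ = 0) (hξ0 : ξ ≠ 0) :
    0 < fderiv ℝ (fun w => fderiv ℝ (fderiv ℝ (RR g L)) w (0, ξ) (0, ξ)) (y, p) (L y p, 0) := by
  have hpM := mem_of_sphere hp
  have hp0 := ne_zero_of_mem_sphere' hp
  have hpp := proj_of_mem hp
  have hyM := mem_of_norm_lt hy
  have hyp := ne_of_sphere hy hp
  have hR := h.contDiffAt_RR hy hp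
  set τ := L y p with hτ
  -- exchange of derivatives
  have e1 : fderiv ℝ (fun w => fderiv ℝ (fderiv ℝ (RR g L)) w (0, ξ) (0, ξ)) (y, p) (τ, 0) =
      dd (dd (dd (RR g L) (τ, 0)) (0, ξ)) (0, ξ) (y, p) := by
    rw [← third hR]
    rw [dd, Filter.EventuallyEq.fderiv_eq (dd_dd hR (0, ξ) (0, ξ))]
  rw [e1, ← deriv2_line (contDiffAt_dd hR _)]
  -- the curve of boundary points
  have hl : HasDerivAt (fun s : ℝ => p + s • ξ) ξ 0 := by
    simpa using ((hasDerivAt_id (0 : ℝ)).smul_const ξ).const_add p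
  set z : ℝ → E := fun s => proj (p + s • ξ) with hz
  have hz0 : z 0 = p := by simp [hz, hpp]
  have hne : ∀ s : ℝ, p + s • ξ ≠ 0 := by
    intro s h0
    have : inner ℝ p (p + s • ξ) = 1 := by
      rw [inner_add_right, inner_smul_right, hξ, real_inner_self_eq_norm_sq, norm_of_sphere hp]
      norm_num
    rw [h0] at this
    simp at this
  have hzS : ∀ s : ℝ, z s ∈ sphere (0 : E) 1 := fun s => proj_mem (hne s)
  have hzM : ∀ s : ℝ, z s ∈ closedBall (0 : E) 1 := fun s => mem_of_sphere (hzS s)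
  have hzy : ∀ s : ℝ, z s ≠ y := fun s => (ne_of_sphere hy (hzS s)).symm
  have hzc : ContDiffAt ℝ ∞ z 0 := by
    have h1 : ContDiff ℝ ∞ (fun s : ℝ => p + s • ξ) :=
      contDiff_const.add (contDiff_id.smul contDiff_const)
    have h2 : ContDiffAt ℝ ∞ (proj (E := E)) (p + (0 : ℝ) • ξ) :=
      contDiffAt_proj (hne 0)
    exact ContDiffAt.comp (0 : ℝ) (f := fun s : ℝ => p + s • ξ) h2 h1.contDiffAt
  have hzd : HasDerivAt z ξ 0 := by
    have h2 := HasFDerivAt.comp_hasDerivAt_of_eq (f := fun s : ℝ => p + s • ξ)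
      (l := proj (E := E)) (0 : ℝ) (hasFDerivAt_proj hp0) hl (by simp)
    rw [Dproj_apply hp hξ] at h2
    exact h2
  set V : ℝ → E := fun s => (rho g L y (z s))⁻¹ • L y (z s) with hV
  have hr0 : rho g L y p ≠ 0 := (h.rho_pos hyM hpM hyp).ne'
  have hVc : ContDiffAt ℝ ∞ V 0 := by
    have h1 : ContDiffAt ℝ ∞ (fun s => rho g L y (z s)) 0 := by
      have h2 : ContDiffAt ℝ ∞ (fun w : E × E => rho g L w.1 w.2) (y, z 0) := by
        rw [hz0]; exact h.contDiffAt_rho hyM hpM hyp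
      exact ContDiffAt.comp (0 : ℝ) (f := fun s => (y, z s)) h2 (contDiffAt_const.prodMk hzc)
    have h3 : ContDiffAt ℝ ∞ (fun s => L y (z s)) 0 :=
      ContDiffAt.comp (0 : ℝ) (f := z) (h.L_smooth_right y).contDiffAt hzc
    exact (h1.inv (by rw [hz0]; exact hr0)).smul h3
  have hVd : ∀ᶠ s in 𝓝 (0 : ℝ), HasDerivAt V (deriv V s) s := by
    filter_upwards [ev_diff hVc] with s hs using hs.hasDerivAt
  have hVd2 : HasDerivAt (deriv V) (deriv (deriv V) 0) 0 := by
    have h1 : ContDiffAt ℝ ∞ (deriv V) 0 := by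
      have h2 : ContDiffAt ℝ ∞ (fun s => fderiv ℝ V s 1) 0 :=
        (hVc.fderiv_right (m := ∞) (by simp)).clm_apply contDiffAt_const
      exact h2
    exact (h1.differentiableAt (by simp)).hasDerivAt
  -- the first derivative in `y`
  have hk : (fun r : ℝ => dd (RR g L) (τ, 0) ((y, p) + r • ((0 : E), ξ))) =ᶠ[𝓝 0]
      fun s => - g y (V s) τ := by
    refine Eventually.of_forall fun s => ?_
    have hpt : (y, p) + s • ((0 : E), ξ) = (y, p + s • ξ) := by simp
    simp only [hpt, dd]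
    have h1 : DifferentiableAt ℝ (RR g L) (y, p + s • ξ) :=
      (h.contDiffAt_rho_proj hyM (hne s) (hzy s).symm).differentiableAt (by simp)
    have h2 : HasFDerivAt (fun y' => RR g L (y', p + s • ξ))
        ((fderiv ℝ (RR g L) (y, p + s • ξ)).comp (ContinuousLinearMap.inl ℝ E E)) y :=
      HasFDerivAt.comp y (f := fun y' => (y', p + s • ξ)) h1.hasFDerivAt
        (hasFDerivAt_prodMk_left y (p + s • ξ))
    have h3 := h.hasFDerivAt_rho (hzM s) hyM (hzy s)
    have h4 : (fun y' => RR g L (y', p + s • ξ)) =ᶠ[𝓝 y] rho g L (z s) := by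
      filter_upwards [isOpen_ball.mem_nhds (show y ∈ ball (0 : E) 1 by simpa using hy)] with y' hy'
      exact h.rho_symm (ball_subset_closedBall hy') (hzM s)
    have h5 := congrArg (fun f : E →L[ℝ] ℝ => f τ) (h2.unique (h3.congr_of_eventuallyEq h4))
    simp only [ContinuousLinearMap.comp_apply, ContinuousLinearMap.inl_apply, smul_apply,
      smul_eq_mul] at h5
    rw [h5, h.rho_symm (hzM s) hyM]
    simp only [hV, map_smul, smul_apply, smul_eq_mul]
    ring
  have e2 : deriv (fun r : ℝ => dd (RR g L) (τ, 0) ((y, p) + r • ((0 : E), ξ))) =ᶠ[𝓝 0]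
      fun s => - g y (deriv V s) τ := by
    have h1 := hk.eventuallyEq_nhds
    filter_upwards [h1, hVd] with s hs1 hs2
    rw [hs1.deriv_eq]
    have h2 := (((hasDerivAt_const s (g y)).clm_apply hs2).clm_apply (hasDerivAt_const s τ)).neg
    refine h2.deriv.trans ?_
    simp
  have e3 : deriv (deriv (fun r : ℝ => dd (RR g L) (τ, 0) ((y, p) + r • ((0 : E), ξ)))) 0 =
      - g y (deriv (deriv V) 0) τ := by
    rw [e2.deriv_eq]
    have h2 := (((hasDerivAt_const (0 : ℝ) (g y)).clm_apply hVd2).clm_apply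
      (hasDerivAt_const (0 : ℝ) τ)).neg
    refine h2.deriv.trans ?_
    simp
  rw [e3]
  -- the unit length of `V`
  have hVV : ∀ s, g y (V s) (V s) = 1 := fun s => h.unit_dir hyM (hzM s) (hzy s).symm
  have e4 : (fun s => g y (deriv V s) (V s)) =ᶠ[𝓝 0] fun _ => (0 : ℝ) := by
    filter_upwards [hVd] with s hs
    have h1 := ((hasDerivAt_const s (g y)).clm_apply hs).clm_apply hs
    have h2 : (fun s => g y (V s) (V s)) = fun _ => (1 : ℝ) := by ext s; exact hVV s
    rw [h2] at h1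
    have h3 := h1.unique (hasDerivAt_const s (1 : ℝ))
    simp only [zero_apply, zero_add] at h3
    rw [h.symm y hyM (V s) (deriv V s)] at h3
    linarith
  have e5 : g y (deriv (deriv V) 0) (V 0) + g y (deriv V 0) (deriv V 0) = 0 := by
    have h1 := ((hasDerivAt_const (0 : ℝ) (g y)).clm_apply hVd2).clm_apply hVd.self_of_nhds
    have h2 := (h1.congr_of_eventuallyEq e4.symm).unique (hasDerivAt_const (0 : ℝ) (0 : ℝ))
    simpa using h2
  have hτV : τ = rho g L y p • V 0 := by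
    simp only [hV, hz0, smul_smul, mul_inv_cancel₀ hr0, one_smul, hτ]
  have hr1 : 0 < rho g L y p := h.rho_pos hyM hpM hyp
  have e6 : - g y (deriv (deriv V) 0) τ = rho g L y p * g y (deriv V 0) (deriv V 0) := by
    rw [hτV, map_smul, smul_eq_mul]
    linear_combination (-(rho g L y p)) * e5
  rw [e6]
  refine mul_pos hr1 (h.pos y hyM _ fun hV0 => ?_)
  -- `V' ≠ 0`
  have h1 := hVd.self_of_nhds
  rw [hV0] at h1
  obtain ⟨c, hc⟩ := h.stationary hyM hpM hyp hz0 hzd h1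
  have h2 := h.L_inward hp hyM hyp.symm
  have h3 : inner ℝ p ξ = c * inner ℝ p (L p y) := by rw [hc, inner_smul_right]
  rw [hξ] at h3
  have hc0 : c = 0 := by
    rcases mul_eq_zero.1 h3.symm with h4 | h4
    · exact h4
    · linarith
  rw [hc0, zero_smul] at hc
  exact hξ0 hc

end Simple

end Pool.Agent.W5h72.BR
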