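import Pool.Agent.W5h72.BR.Smooth

/-!
# Pairs of geodesics close to each other
-/

open Set Metric Filter Topology
open scoped ContDiff RealInnerProductSpace

noncomputable section

set_option maxSynthPendingDepth 3

namespace Pool.Agent.W5h72.BR

variable {E : Type*} [NormedAddCommGroup E] [InnerProductSpace ℝ E]

namespace Simple

variable {g g' : E → E →L[ℝ] E →L[ℝ] ℝ} {e L e' L' : E → E → E}

lemma Phi_zero' (h : Simple g e L) (h' : Simple g' e' L')
    (hd : ∀ p ∈ sphere (0 : E) 1, ∀ q ∈ sphere (0 : E) 1, rho g L p q = rho g' L' p q)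
    {x y z : E} (hx : ‖x‖ < 1) (hy : y ∈ closedBall (0 : E) 1) (hz : z ≠ 0) (hyz : y ≠ proj z)
    (hG : Gam g g' x (proj z) y) :
    Phi g g' L L' x (y, z) = 0 := by
  obtain ⟨hp, q, hq, hxq, hyq⟩ := hG
  have hxp := ne_of_sphere hx hp
  have hpq : proj z ≠ q := by
    intro h0
    obtain ⟨t, ht, hx1⟩ := (h.mem_seg (mem_of_sphere hp) (mem_of_sphere hq)).1 hxq
    rw [← h0, h.L_self (mem_of_sphere hp), smul_zero, h.e_zero (mem_of_sphere hp)] at hx1
    exact hxp hx1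
  have h1 := h.hasFDerivAt_rho_proj (mem_of_norm_lt hx) hz hxp
  have h2 := h'.hasFDerivAt_rho_proj hy hz hyz
  ext w
  simp only [Phi, h1.fderiv, h2.fderiv, sub_apply, neg_apply, ContinuousLinearMap.comp_apply,
    zero_apply]
  rw [h.dir_tan_seg h' hd hp hq hpq hxq hyq hxp hyz (inner_Dproj hz w)]
  ring

lemma Phi_strict' (h : Simple g e L) (h' : Simple g' e' L') {x y p : E}
    (hx : ‖x‖ < 1) (hy : y ∈ closedBall (0 : E) 1) (hp : p ∈ sphere (0 : E) 1) (hyp : y ≠ p) :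
    ∃ D : E × E →L[ℝ] E →L[ℝ] ℝ, HasStrictFDerivAt (Phi g g' L L' x) D (y, p) ∧
      ∀ v, D (0, v) = Q g' L' p y v - Q g L p x v := by
  have hp0 := ne_zero_of_mem_sphere' hp
  have hpp := proj_of_mem hp
  have c1 : ContDiffAt ℝ ∞ (fun w : (E × E) × E => rho g' L' w.1.1 (proj w.2)) ((y, p), p) := by
    have h1 := h'.contDiffAt_rho_proj hy hp0 (by rwa [hpp])
    exact ContDiffAt.comp ((y, p), p) (f := fun w : (E × E) × E => (w.1.1, w.2)) h1
      ((contDiffAt_fst.comp _ contDiffAt_fst).prodMk contDiffAt_snd)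
  have c2 : ContDiffAt ℝ ∞ (fun w : (E × E) × E => rho g L x (proj w.2)) ((y, p), p) := by
    have h1 := h.contDiffAt_rho_proj' (mem_of_norm_lt hx) hp0 (by rw [hpp]; exact ne_of_sphere hx hp)
    exact ContDiffAt.comp ((y, p), p) (f := fun w : (E × E) × E => w.2) h1 contDiffAt_snd
  have d1 : ContDiffAt ℝ ∞ (fun w : E × E => fderiv ℝ (fun z => rho g' L' w.1 (proj z)) w.2)
      (y, p) :=
    ContDiffAt.fderiv (f := fun (w : E × E) (z : E) => rho g' L' w.1 (proj z))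
      (g := fun w : E × E => w.2) c1 contDiffAt_snd (by simp)
  have d2 : ContDiffAt ℝ ∞ (fun w : E × E => fderiv ℝ (fun z => rho g L x (proj z)) w.2)
      (y, p) :=
    ContDiffAt.fderiv (f := fun (w : E × E) (z : E) => rho g L x (proj z))
      (g := fun w : E × E => w.2) c2 contDiffAt_snd (by simp)
  have d3 : ContDiffAt ℝ ∞ (Phi g g' L L' x) (y, p) := d1.sub d2
  have hs := d3.hasStrictFDerivAt (by simp)
  refine ⟨_, hs, fun v => ?_⟩
  have e1 : HasFDerivAt (fun z => Phi g g' L L' x (y, z))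
      ((fderiv ℝ (Phi g g' L L' x) (y, p)).comp (ContinuousLinearMap.inr ℝ E E)) p :=
    HasFDerivAt.comp p (f := fun z => (y, z)) hs.hasFDerivAt (hasFDerivAt_prodMk_right y p)
  have k1 : DifferentiableAt ℝ (fderiv ℝ (fun z => rho g' L' y (proj z))) p :=
    ((h'.contDiffAt_rho_proj' hy hp0
      (by rwa [hpp])).fderiv_right (m := ∞)
      (by simp)).differentiableAt (by simp)
  have k2 : DifferentiableAt ℝ (fderiv ℝ (fun z => rho g L x (proj z))) p :=
    ((h.contDiffAt_rho_proj' (mem_of_norm_lt hx) hp0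
      (by rw [hpp]; exact ne_of_sphere hx hp)).fderiv_right (m := ∞)
      (by simp)).differentiableAt (by simp)
  have e2 : HasFDerivAt (fun z => Phi g g' L L' x (y, z)) (Q g' L' p y - Q g L p x) p :=
    k1.hasFDerivAt.sub k2.hasFDerivAt
  have e3 := congrArg (fun f : E →L[ℝ] E →L[ℝ] ℝ => f v) (e1.unique e2)
  simpa using e3

variable [FiniteDimensional ℝ E]

lemma focal_of_pairs' (h : Simple g e L) (h' : Simple g' e' L') {x y p : E}
    (hx : ‖x‖ < 1) (hy : y ∈ closedBall (0 : E) 1) (hp : p ∈ sphere (0 : E) 1) (hyp : y ≠ p)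
    (hpairs : ∀ δ > 0, ∃ y1 z1 z2 : E, ‖y1 - y‖ < δ ∧ ‖z1 - p‖ < δ ∧ ‖z2 - p‖ < δ ∧ z1 ≠ z2 ∧
      inner ℝ p (z1 - z2) = 0 ∧ Phi g g' L L' x (y1, z1) = 0 ∧ Phi g g' L L' x (y1, z2) = 0) :
    Focal g g' L L' x p y := by
  obtain ⟨D, hD, hDv⟩ := h.Phi_strict' h' hx hy hp hyp
  by_contra hcon
  let T : E →ₗ[ℝ] (E →L[ℝ] ℝ) × ℝ :=
    (D.comp (ContinuousLinearMap.inr ℝ E E)).toLinearMap.prod (innerSL ℝ p).toLinearMap
  have hT : ∀ v, T v = (D (0, v), inner ℝ p v) := fun v => rfl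
  have hinj : LinearMap.ker T = ⊥ := by
    rw [LinearMap.ker_eq_bot']
    intro v hv
    by_contra hv0
    rw [hT, Prod.mk_eq_zero] at hv
    refine hcon ⟨v, hv0, hv.2, fun ζ => ?_⟩
    have h1 := hv.1
    rw [hDv, sub_eq_zero] at h1
    rw [h1]
  obtain ⟨K, hK0, hK⟩ := LinearMap.exists_antilipschitzWith T hinj
  have hK0' : (0 : ℝ) < K := hK0
  have hb := hD.isLittleO.def (c := 1 / (2 * K)) (by positivity)
  obtain ⟨δ, hδ, hball⟩ := Metric.eventually_nhds_iff.1 hb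
  obtain ⟨y1, z1, z2, hy1, hz1, hz2, hne, hin, hP1, hP2⟩ := hpairs δ hδ
  have h1 := @hball ((y1, z1), (y1, z2)) (by
    rw [Prod.dist_eq, Prod.dist_eq, Prod.dist_eq]
    simp only [dist_eq_norm]
    exact max_lt (max_lt hy1 hz1) (max_lt hy1 hz2))
  simp only [hP1, hP2, sub_self, zero_sub, norm_neg, Prod.mk_sub_mk] at h1
  have h2 : ‖((0 : E), z1 - z2)‖ = ‖z1 - z2‖ := by
    rw [Prod.norm_def]; simp
  rw [h2] at h1
  have h3 : ‖z1 - z2‖ ≤ K * ‖T (z1 - z2)‖ := by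
    have := hK.le_mul_dist (z1 - z2) 0
    simpa using this
  have h4 : ‖T (z1 - z2)‖ ≤ 1 / (2 * K) * ‖z1 - z2‖ := by
    rw [hT, hin, Prod.norm_def]
    simp only [norm_zero]
    exact max_le h1 (by positivity)
  have h5 : 0 < ‖z1 - z2‖ := norm_pos_iff.2 (sub_ne_zero.2 hne)
  have h6 : K * ‖T (z1 - z2)‖ ≤ K * (1 / (2 * K) * ‖z1 - z2‖) :=
    mul_le_mul_of_nonneg_left h4 hK0'.le
  have h7 : (K : ℝ) * (1 / (2 * K) * ‖z1 - z2‖) = ‖z1 - z2‖ / 2 := by
    field_simp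
  rw [h7] at h6
  linarith

/-- the end points of the geodesics through `x` form a closed set -/
lemma isClosed_ends (h : Simple g e L) (x : E) :
    IsClosed {w : E × E | w.1 ∈ sphere (0 : E) 1 ∧ w.2 ∈ sphere (0 : E) 1 ∧
      x ∈ seg g w.1 w.2} := by
  have hce : Continuous fun w : (E × E) × ℝ => e w.1.1 (w.2 • L w.1.1 w.1.2) := by
    have h1 : Continuous fun w : (E × E) × ℝ => L w.1.1 w.1.2 :=
      h.L_smooth.continuous.comp continuous_fst
    exact h.e_smooth.continuous.comp ((continuous_fst.comp continuous_fst).prodMk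
      (continuous_snd.smul h1))
  have hK : IsCompact (((sphere (0 : E) 1 ×ˢ sphere (0 : E) 1) ×ˢ Icc (0 : ℝ) 1) ∩
      {w : (E × E) × ℝ | e w.1.1 (w.2 • L w.1.1 w.1.2) = x}) :=
    (((isCompact_sphere 0 1).prod (isCompact_sphere 0 1)).prod
      isCompact_Icc).inter_right (isClosed_eq hce continuous_const)
  have himg := hK.image (f := fun w : (E × E) × ℝ => w.1) continuous_fst
  convert himg.isClosed using 1
  ext ⟨p, q⟩
  constructor
  · rintro ⟨hp, hq, hxq⟩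
    obtain ⟨t, ht, hx⟩ := (h.mem_seg (mem_of_sphere hp) (mem_of_sphere hq)).1 hxq
    exact ⟨((p, q), t), ⟨⟨⟨hp, hq⟩, ht⟩, hx.symm⟩, rfl⟩
  · rintro ⟨⟨⟨p', q'⟩, t⟩, ⟨⟨⟨hp, hq⟩, ht⟩, hx⟩, heq⟩
    simp only [Prod.mk.injEq] at heq
    obtain ⟨rfl, rfl⟩ := heq
    exact ⟨hp, hq, (h.mem_seg (mem_of_sphere hp) (mem_of_sphere hq)).2 ⟨t, ht, hx.symm⟩⟩

/-- an end point of a geodesic is not focal -/
lemma not_focal_end (h : Simple g e L) (h' : Simple g' e' L')
    (hd : ∀ p ∈ sphere (0 : E) 1, ∀ q ∈ sphere (0 : E) 1, rho g L p q = rho g' L' p q)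
    {x p q : E} (hx : ‖x‖ < 1) (hp : p ∈ sphere (0 : E) 1) (hq : q ∈ sphere (0 : E) 1)
    (hpq : p ≠ q) (hxq : x ∈ seg g p q) : ¬ Focal g g' L L' x p q := by
  rintro ⟨ξ, hξ0, hξp, hk⟩
  have hpM := mem_of_sphere hp
  have hqM := mem_of_sphere hq
  have hp0 := ne_zero_of_mem_sphere' hp
  have h1 : Q g' L' p q = Q g L p q := by
    have h2 : (fun z => rho g' L' q (proj z)) =ᶠ[𝓝 p] fun z => rho g L q (proj z) := by
      filter_upwards [isOpen_compl_singleton.mem_nhds (show p ∈ ({0}ᶜ : Set E) from hp0)] with z hz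
      exact (hd q hq _ (proj_mem hz)).symm
    have h3 : fderiv ℝ (fun z => rho g' L' q (proj z)) =ᶠ[𝓝 p]
        fderiv ℝ (fun z => rho g L q (proj z)) := h2.fderiv
    exact h3.fderiv_eq
  obtain ⟨t, ht, hxt⟩ := h.exists_param hp hq hx hxq
  have h2 := h.Q_lt hp hqM hpq ht hxt hξp hξ0
  rw [← h1, hk ξ] at h2
  exact lt_irrefl _ h2

omit [FiniteDimensional ℝ E] in
lemma central {p q : E} (hp : p ∈ sphere (0 : E) 1) (hq : q ∈ sphere (0 : E) 1)
    (hpq : 0 < inner ℝ p q) :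
    proj ((inner ℝ p q)⁻¹ • q) = q ∧ inner ℝ p ((inner ℝ p q)⁻¹ • q - p) = 0 := by
  have hpn := norm_of_sphere hp
  have hqn := norm_of_sphere hq
  constructor
  · rw [proj, norm_smul, hqn, mul_one, Real.norm_eq_abs, abs_of_pos (inv_pos.2 hpq), inv_inv,
      smul_smul, mul_inv_cancel₀ hpq.ne', one_smul]
  · rw [inner_sub_right, inner_smul_right, inv_mul_cancel₀ hpq.ne', real_inner_self_eq_norm_sq,
      hpn]
    norm_num

/-- nearby geodesics meet in both metrics -/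
def NearMeet (g g' : E → E →L[ℝ] E →L[ℝ] ℝ) : Prop :=
  ∀ p ∈ sphere (0 : E) 1, ∀ q ∈ sphere (0 : E) 1, p ≠ q → ∃ δ > 0,
    ∀ p1 ∈ sphere (0 : E) 1, ∀ q1 ∈ sphere (0 : E) 1, ∀ p2 ∈ sphere (0 : E) 1,
    ∀ q2 ∈ sphere (0 : E) 1, ‖p1 - p‖ < δ → ‖p2 - p‖ < δ → ‖q1 - q‖ < δ → ‖q2 - q‖ < δ →
      (seg g p1 q1 ∩ seg g p2 q2).Nonempty → (seg g' p1 q1 ∩ seg g' p2 q2).Nonempty

/-- nearby pairs determine the kernels -/
lemma kernel_of_near (h : Simple g e L) (h' : Simple g' e' L')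
    (hd : ∀ p ∈ sphere (0 : E) 1, ∀ q ∈ sphere (0 : E) 1, rho g L p q = rho g' L' p q)
    (hN : NearMeet g g') {x p ξ : E} (hx : ‖x‖ < 1) (hp : p ∈ sphere (0 : E) 1)
    (hξ : inner ℝ p ξ = 0) (hξ0 : ξ ≠ 0) :
    ∃ y : E, ‖y‖ < 1 ∧ Gam g g' x p y ∧ ∀ ζ, Q g' L' p y ξ ζ = Q g L p x ξ ζ := by
  have hpM := mem_of_sphere hp
  have hp0 := ne_zero_of_mem_sphere' hp
  have hpp := proj_of_mem hp
  have hpn := norm_of_sphere hp
  have hxp := ne_of_sphere hx hp
  obtain ⟨q, hq, hpq, hxq⟩ := h.exists_exit hp hx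
  have hqM := mem_of_sphere hq
  have hq0 := ne_zero_of_mem_sphere' hq
  have hqn := norm_of_sphere hq
  have hxq' := ne_of_sphere hx hq
  obtain ⟨δ, hδ, hmeet⟩ := hN p hp q hq hpq
  -- the curve of initial points
  have hl : HasDerivAt (fun s : ℝ => p + s • ξ) ξ 0 := by
    simpa using ((hasDerivAt_id (0 : ℝ)).smul_const ξ).const_add p
  have hne : ∀ s : ℝ, p + s • ξ ≠ 0 := by
    intro s h0
    have : inner ℝ p (p + s • ξ) = 1 := by
      rw [inner_add_right, inner_smul_right, hξ, real_inner_self_eq_norm_sq, hpn]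
      norm_num
    rw [h0] at this
    simp at this
  have hPS : ∀ s : ℝ, proj (p + s • ξ) ∈ sphere (0 : E) 1 := fun s => proj_mem (hne s)
  choose q' hq'S hq'ne hq'x using fun s : ℝ => h.exists_exit (hPS s) hx
  -- an ultrafilter of small parameters
  obtain ⟨U, hU⟩ := Ultrafilter.exists_le (𝓝[>] (0 : ℝ))
  have hUpos : ∀ᶠ s in (U : Filter ℝ), (0 : ℝ) < s := hU self_mem_nhdsWithin
  have hU0 : Tendsto (fun s : ℝ => s) U (𝓝 0) := tendsto_id'.2 (hU.trans nhdsWithin_le_nhds)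
  have hUz : Tendsto (fun s : ℝ => p + s • ξ) U (𝓝 p) := by
    have : Tendsto (fun s : ℝ => p + s • ξ) (𝓝 0) (𝓝 p) := by
      simpa using hl.continuousAt.tendsto
    exact this.comp hU0
  have hUp : Tendsto (fun s : ℝ => proj (p + s • ξ)) U (𝓝 p) := by
    have h1 : Tendsto (proj (E := E)) (𝓝 p) (𝓝 p) := by
      have := (contDiffAt_proj hp0).continuousAt.tendsto
      rwa [hpp] at this
    exact h1.comp hUz
  have hUq : Tendsto q' U (𝓝 q) := by
    obtain ⟨q2, hq2, hq2l⟩ := (isCompact_sphere (0 : E) 1).ultrafilter_le_nhds (U.map q')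
      (le_principal_iff.2 (Filter.mem_map.2 (univ_mem' hq'S)))
    have h1 : Tendsto q' U (𝓝 q2) := hq2l
    have h2 : (p, q2) ∈ {w : E × E | w.1 ∈ sphere (0 : E) 1 ∧ w.2 ∈ sphere (0 : E) 1 ∧
        x ∈ seg g w.1 w.2} :=
      (h.isClosed_ends x).mem_of_tendsto (b := (U : Filter ℝ)) (hUp.prodMk_nhds h1)
        (Eventually.of_forall fun s => ⟨hPS s, hq'S s, hq'x s⟩)
    rw [h.exit_uniq hp hq hq2 hxp hxq h2.2.2]
    exact h1
  -- the meeting points
  have hmt : ∀ᶠ s in (U : Filter ℝ), ∃ y, y ∈ seg g' p q ∧ y ∈ seg g' (proj (p + s • ξ)) (q' s) := by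
    have h1 := (Metric.tendsto_nhds.1 hUp) δ hδ
    have h2 := (Metric.tendsto_nhds.1 hUq) δ hδ
    filter_upwards [h1, h2] with s hs1 hs2
    rw [dist_eq_norm] at hs1 hs2
    obtain ⟨y, hy1, hy2⟩ := hmeet p hp q hq _ (hPS s) _ (hq'S s) (by simpa using hδ) hs1
      (by simpa using hδ) hs2 ⟨x, hxq, hq'x s⟩
    exact ⟨y, hy1, hy2⟩
  set Y : ℝ → E := fun s => Classical.epsilon fun y =>
    y ∈ seg g' p q ∧ y ∈ seg g' (proj (p + s • ξ)) (q' s) with hY
  have hYs : ∀ᶠ s in (U : Filter ℝ), Y s ∈ seg g' p q ∧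
      Y s ∈ seg g' (proj (p + s • ξ)) (q' s) := by
    filter_upwards [hmt] with s hs using Classical.epsilon_spec hs
  have hYM : ∀ᶠ s in (U : Filter ℝ), Y s ∈ closedBall (0 : E) 1 := by
    filter_upwards [hYs] with s hs using seg_subset hs.1
  obtain ⟨y, hyM, hyl⟩ := (isCompact_closedBall (0 : E) 1).ultrafilter_le_nhds (U.map Y)
    (le_principal_iff.2 (Filter.mem_map.2 hYM))
  have hYt : Tendsto Y U (𝓝 y) := hyl
  have hGY : ∀ᶠ s in (U : Filter ℝ), Gam g g' x p (Y s) ∧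
      Gam g g' x (proj (p + s • ξ)) (Y s) := by
    filter_upwards [hYs] with s hs
    exact ⟨⟨hp, q, hq, hxq, hs.1⟩, ⟨hPS s, q' s, hq'S s, hq'x s, hs.2⟩⟩
  have hGy : Gam g g' x p y := by
    have h1 : (p, y) ∈ {w : E × E | Gam g g' x w.1 w.2} := by
      refine (h.isClosed_Gam h' x).mem_of_tendsto (b := (U : Filter ℝ))
        ((tendsto_const_nhds (x := p)).prodMk_nhds hYt) ?_
      filter_upwards [hGY] with s hs using hs.1
    exact h1
  have hyseg : y ∈ seg g' p q := by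
    obtain ⟨-, q2, hq2, hxq2, hy2⟩ := hGy
    rwa [h.exit_uniq hp hq hq2 hxp hxq hxq2]
  -- `y` is not `p`
  have hyp : y ≠ p := by
    intro h0
    rw [h0] at hYt
    have hxqp : x ∈ seg g q p := by rw [seg_symm]; exact hxq
    refine h.not_focal_end h' hd hx hq hp hpq.symm hxqp ?_
    refine h.focal_of_pairs' h' hx hpM hq hpq fun ε hε => ?_
    -- central projection of `q' s`
    have hin : Tendsto (fun s => inner ℝ q (q' s)) U (𝓝 1) := by
      have h1 : Continuous fun v : E => inner ℝ q v := by fun_prop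
      have h2 := (h1.tendsto q).comp hUq
      rw [real_inner_self_eq_norm_sq, hqn, one_pow] at h2
      exact h2
    have hinpos : ∀ᶠ s in (U : Filter ℝ), 0 < inner ℝ q (q' s) :=
      hin.eventually (lt_mem_nhds one_pos)
    have hcen : Tendsto (fun s => (inner ℝ q (q' s))⁻¹ • q' s) U (𝓝 q) := by
      have h1 := (hin.inv₀ one_ne_zero).smul hUq
      simpa using h1
    have e1 := (Metric.tendsto_nhds.1 hYt) ε hε
    have e2 := (Metric.tendsto_nhds.1 hcen) ε hε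
    have e3 : ∀ᶠ s in (U : Filter ℝ), Y s ≠ q := by
      have h1 := hYt.eventually (isOpen_ne.eventually_mem hpq)
      exact h1
    have e4 : ∀ᶠ s in (U : Filter ℝ), Y s ≠ q' s := by
      have h1 : Tendsto (fun s => Y s - q' s) U (𝓝 (p - q)) := hYt.sub hUq
      have h2 := h1.eventually (isOpen_ne.eventually_mem (sub_ne_zero.2 hpq))
      filter_upwards [h2] with s hs
      exact sub_ne_zero.1 hs
    obtain ⟨s, hs1, hs2, hs3, hs4, hs5, hs6, hs7, hs8⟩ :=
      (e1.and (e2.and (e3.and (e4.and (hinpos.and (hGY.and (hYM.and hUpos))))))).exists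
    rw [dist_eq_norm] at hs1 hs2
    obtain ⟨c1, c2⟩ := central hq (hq'S s) hs5
    have hq'q : q' s ≠ q := by
      intro h1
      have h2 : x ∈ seg g q (proj (p + s • ξ)) := by
        rw [seg_symm, ← h1]; exact hq'x s
      have h3 := h.exit_uniq hq hp (hPS s) hxq' hxqp h2
      have h4 : inner ℝ p (proj (p + s • ξ)) = ‖p + s • ξ‖⁻¹ := by
        rw [proj, inner_smul_right, inner_add_right, inner_smul_right, hξ,
          real_inner_self_eq_norm_sq, hpn]
        ring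
      rw [← h3, real_inner_self_eq_norm_sq, hpn] at h4
      have h5 : ‖p + s • ξ‖ ^ 2 = 1 + s ^ 2 * ‖ξ‖ ^ 2 := by
        rw [norm_add_sq_real, inner_smul_right, hξ, norm_smul, hpn, mul_pow, Real.norm_eq_abs,
          sq_abs]
        ring
      have h6 : ‖p + s • ξ‖ = 1 := by
        have h7 : ‖p + s • ξ‖⁻¹ = 1 := by rw [← h4]; norm_num
        exact inv_eq_one.1 h7
      rw [h6] at h5
      have h8 : 0 < s ^ 2 * ‖ξ‖ ^ 2 := by
        have := norm_pos_iff.2 hξ0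
        positivity
      linarith
    refine ⟨Y s, (inner ℝ q (q' s))⁻¹ • q' s, q, hs1, hs2, by simpa using hε, ?_, c2, ?_, ?_⟩
    · intro h1
      apply hq'q
      rw [← c1, h1, proj_of_mem hq]
    · have hz0 : (inner ℝ q (q' s))⁻¹ • q' s ≠ 0 :=
        smul_ne_zero (inv_ne_zero hs5.ne') (ne_zero_of_mem_sphere' (hq'S s))
      refine h.Phi_zero' h' hd hx hs7 hz0 (by rw [c1]; exact hs4) ?_
      rw [c1]
      obtain ⟨-, ⟨-, q3, hq3, hxq3, hy3⟩⟩ := hs6
      have h9 := h.exit_uniq (hPS s) (hq'S s) hq3 (ne_of_sphere hx (hPS s)) (hq'x s) hxq3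
      refine ⟨hq'S s, proj (p + s • ξ), hPS s, by rw [seg_symm]; exact hq'x s, ?_⟩
      rw [seg_symm, h9]; exact hy3
    · refine h.Phi_zero' h' hd hx hs7 hq0 (by rw [proj_of_mem hq]; exact hs3) ?_
      rw [proj_of_mem hq]
      obtain ⟨⟨-, q3, hq3, hxq3, hy3⟩, -⟩ := hs6
      have h9 := h.exit_uniq hp hq hq3 hxp hxq hxq3
      refine ⟨hq, p, hp, hxqp, ?_⟩
      rw [seg_symm, h9]; exact hy3
  -- the Hessian
  obtain ⟨D, hD, hDv⟩ := h.Phi_strict' h' hx hyM hp hyp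
  have hDξ : D (0, ξ) = 0 := by
    rw [← norm_le_zero_iff]
    by_contra hcon
    push Not at hcon
    have hξn : 0 < ‖ξ‖ := norm_pos_iff.2 hξ0
    set c := ‖D (0, ξ)‖ / (2 * ‖ξ‖) with hc
    have hc0 : 0 < c := by positivity
    have hb := hD.isLittleO.def hc0
    have ht : Tendsto (fun s : ℝ => ((Y s, p + s • ξ), (Y s, p))) U (𝓝 ((y, p), (y, p))) :=
      (hYt.prodMk_nhds hUz).prodMk_nhds (hYt.prodMk_nhds tendsto_const_nhds)
    have e1 : ∀ᶠ s in (U : Filter ℝ), Y s ≠ p := by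
      have h1 := hYt.eventually (isOpen_ne.eventually_mem hyp)
      exact h1
    have e2 : ∀ᶠ s in (U : Filter ℝ), Y s ≠ proj (p + s • ξ) := by
      have h1 : Tendsto (fun s => Y s - proj (p + s • ξ)) U (𝓝 (y - p)) := hYt.sub hUp
      have h2 := h1.eventually (isOpen_ne.eventually_mem (sub_ne_zero.2 hyp))
      filter_upwards [h2] with s hs
      exact sub_ne_zero.1 hs
    obtain ⟨s, hs1, hs2, hs3, hs4, hs5, hs6⟩ :=
      ((ht.eventually hb).and (e1.and (e2.and (hGY.and (hYM.and hUpos))))).exists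
    have z1 : Phi g g' L L' x (Y s, p + s • ξ) = 0 :=
      h.Phi_zero' h' hd hx hs5 (hne s) hs3 hs4.2
    have z2 : Phi g g' L L' x (Y s, p) = 0 :=
      h.Phi_zero' h' hd hx hs5 hp0 (by rw [hpp]; exact hs2) (by rw [hpp]; exact hs4.1)
    simp only [z1, z2, sub_self, zero_sub, norm_neg, Prod.mk_sub_mk, add_sub_cancel_left] at hs1
    have h2 : ((0 : E), s • ξ) = s • ((0 : E), ξ) := by simp
    have h3 : ‖((0 : E), ξ)‖ = ‖ξ‖ := by rw [Prod.norm_def]; simp
    rw [h2, map_smul, norm_smul, norm_smul, h3, Real.norm_eq_abs, abs_of_pos hs6] at hs1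
    have h4 : c * (s * ‖ξ‖) = s * (‖D (0, ξ)‖ / 2) := by
      rw [hc]; field_simp
    rw [h4] at hs1
    have h5 := le_of_mul_le_mul_left hs1 hs6
    linarith
  have hker : ∀ ζ, Q g' L' p y ξ ζ = Q g L p x ξ ζ := by
    intro ζ
    have h1 := hDv ξ
    rw [hDξ] at h1
    have h2 := congrArg (fun f : E →L[ℝ] ℝ => f ζ) h1
    simp only [zero_apply, sub_apply] at h2
    linarith
  -- `y` is not `q`
  have hyq : y ≠ q := by
    intro h0
    refine h.not_focal_end h' hd hx hp hq hpq hxq ⟨ξ, hξ0, hξ, ?_⟩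
    rw [← h0]; exact hker
  exact ⟨y, h'.seg_interior hpM hqM hyseg hyp hyq, hGy, hker⟩

end Simple

end Pool.Agent.W5h72.BR
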