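import Pool.Agent.W5h72.BR.Transport

/-!
# One source is enough
-/

open Set Metric Filter Topology
open scoped ContDiff RealInnerProductSpace

noncomputable section

set_option maxSynthPendingDepth 3

namespace Pool.Agent.W5h72.BR

variable {E : Type*} [NormedAddCommGroup E] [InnerProductSpace ℝ E] [FiniteDimensional ℝ E]

namespace Src

variable {g g' : E → E →L[ℝ] E →L[ℝ] ℝ} {e L e' L' : E → E → E} {b : E} {A A' : E →L[ℝ] E}

/-- the map `ψ` on the interior -/
lemma psi_int (S : Src g g' e L e' L' b A A') {x : E} (hx : ‖x‖ < 1) :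
    ‖Pt e' L b A x 1‖ < 1 ∧ L' b (Pt e' L b A x 1) = A (L b x) := by
  have hbM := mem_of_sphere S.hb
  obtain ⟨q, hq, t, ht, hx1, hx2⟩ := S.h.exit_seg hbM hx (ne_of_sphere hx S.hb).symm
  have hqM := mem_of_sphere hq
  have hbq : b ≠ q := by
    rintro rfl
    rw [S.h.L_self hbM, smul_zero, S.h.e_zero hbM] at hx1
    exact ne_of_sphere hx hq hx1
  have h1 : Pt e' L b A x 1 = e' b (t • L' b q) := by
    rw [Pt, one_smul, hx2, map_smul, S.hAL q hq]
  rw [h1, hx2, map_smul, S.hAL q hq]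
  exact ⟨S.h'.pt_interior hbM hqM hbq ht, S.h'.L_pt hbM hqM (Ioo_subset_Icc_self ht)⟩

omit [FiniteDimensional ℝ E] in
lemma psi_bdry (S : Src g g' e L e' L' b A A') {q : E} (hq : q ∈ sphere (0 : E) 1) :
    Pt e' L b A q 1 = q := by
  rw [Pt, one_smul, S.hAL q hq, S.h'.e_L (mem_of_sphere S.hb) (mem_of_sphere hq)]

lemma chi_int (S : Src g g' e L e' L' b A A') {y : E} (hy : ‖y‖ < 1) :
    ‖Pt e L' b A' y 1‖ < 1 ∧ L b (Pt e L' b A' y 1) = A' (L' b y) := by
  have hbM := mem_of_sphere S.hb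
  obtain ⟨q, hq, t, ht, hx1, hx2⟩ := S.h'.exit_seg hbM hy (ne_of_sphere hy S.hb).symm
  have hqM := mem_of_sphere hq
  have hbq : b ≠ q := by
    rintro rfl
    rw [S.h'.L_self hbM, smul_zero, S.h'.e_zero hbM] at hx1
    exact ne_of_sphere hy hq hx1
  have h0 : A' (L' b q) = L b q := by rw [← S.hAL q hq, S.hAA]
  have h1 : Pt e L' b A' y 1 = e b (t • L b q) := by
    rw [Pt, one_smul, hx2, map_smul, h0]
  rw [h1, hx2, map_smul, h0]
  exact ⟨S.h.pt_interior hbM hqM hbq ht, S.h.L_pt hbM hqM (Ioo_subset_Icc_self ht)⟩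

omit [FiniteDimensional ℝ E] in
lemma chi_bdry (S : Src g g' e L e' L' b A A') {q : E} (hq : q ∈ sphere (0 : E) 1) :
    Pt e L' b A' q 1 = q := by
  rw [Pt, one_smul, ← S.hAL q hq, S.hAA, S.h.e_L (mem_of_sphere S.hb) (mem_of_sphere hq)]

omit [FiniteDimensional ℝ E] in
lemma psi_smooth (S : Src g g' e L e' L' b A A') : ContDiff ℝ ∞ (fun x => Pt e' L b A x 1) := by
  have h1 : ContDiff ℝ ∞ (fun x => (1 : ℝ) • A (L b x)) :=
    contDiff_const.smul (A.contDiff.comp (S.h.L_smooth_right b))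
  exact (S.h'.e_smooth_right b).comp h1

omit [FiniteDimensional ℝ E] in
lemma chi_smooth (S : Src g g' e L e' L' b A A') : ContDiff ℝ ∞ (fun x => Pt e L' b A' x 1) := by
  have h1 : ContDiff ℝ ∞ (fun x => (1 : ℝ) • A' (L' b x)) :=
    contDiff_const.smul (A'.contDiff.comp (S.h'.L_smooth_right b))
  exact (S.h.e_smooth_right b).comp h1

/-- the derivative of `ψ` -/
lemma psi_deriv (S : Src g g' e L e' L' b A A') {x : E} (hx : ‖x‖ < 1) (δ : E) :
    fderiv ℝ (fun x => Pt e' L b A x 1) x δ =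
      fderiv ℝ (e' b) (L' b (Pt e' L b A x 1)) (A (fderiv ℝ (L b) x δ)) := by
  have h1 : HasFDerivAt (fun x => A (L b x)) (A.comp (fderiv ℝ (L b) x)) x :=
    A.hasFDerivAt.comp x (S.h.hasFDerivAt_L b x)
  have h2 : HasFDerivAt (e' b) (fderiv ℝ (e' b) (L' b (Pt e' L b A x 1))) (A (L b x)) := by
    rw [(S.psi_int hx).2]
    exact S.h'.hasFDerivAt_e b _
  have h3 := HasFDerivAt.comp x (f := fun x => A (L b x)) (g := e' b) h2 h1
  have h4 : (fun x => Pt e' L b A x 1) = fun x => e' b (A (L b x)) := by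
    funext y
    rw [Pt, one_smul]
  rw [h4]
  have h5 : HasFDerivAt (fun x => e' b (A (L b x))) _ x := h3
  rw [h5.fderiv]
  simp [Pt]

/-- `ψ` is an isometry in the interior -/
lemma psi_isom (S : Src g g' e L e' L' b A A') (hn : 2 < Module.finrank ℝ E) {x : E}
    (hx : ‖x‖ < 1) (v δ : E) :
    g' (Pt e' L b A x 1) (fderiv ℝ (fun x => Pt e' L b A x 1) x v)
      (fderiv ℝ (fun x => Pt e' L b A x 1) x δ) = g x v δ := by
  have hxM := mem_of_norm_lt hx
  have hbM := mem_of_sphere S.hb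
  set ψ : E → E := fun x => Pt e' L b A x 1 with hψ
  obtain ⟨hψb, hψL⟩ := S.psi_int hx
  change ‖ψ x‖ < 1 at hψb
  change L' b (ψ x) = A (L b x) at hψL
  have hψM := mem_of_norm_lt hψb
  -- horizontal vectors
  have hor : ∀ e0, e0 ≠ 0 → g x e0 (L x b) = 0 → ∀ δ,
      g' (ψ x) (fderiv ℝ ψ x e0) (fderiv ℝ ψ x δ) = g x e0 δ := by
    intro e0 he0 h0b δ
    obtain ⟨hwS, s, hs, hLw⟩ := S.h.ext_spec hx he0
    obtain ⟨hDom, -, -⟩ := S.flat hn hx h0b he0
    have hrt1 : rt g g' L L' b (x, ext L x e0) = 1 := by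
      rw [← S.Zf_eq hn hx h0b he0, S.Zf_one hn hx]
    have hYψ : Yf g g' L e' L' b A (x, ext L x e0) = ψ x := by
      rw [Yf, hrt1]
    obtain ⟨k1, k2, -, -, ⟨D, hD, hDv⟩, c, hc⟩ := S.vary hn hx h0b he0 rfl hYψ.symm
    set w := ext L x e0 with hw
    have hD0 : D = 0 := by
      have h1 : Zf g g' L L' b =ᶠ[𝓝 x] fun _ => 1 := by
        filter_upwards [isOpen_ball.mem_nhds (show x ∈ ball (0 : E) 1 by simpa using hx)] with y hy
        exact S.Zf_one hn (by simpa using hy)
      exact hD.unique ((hasFDerivAt_const (1 : ℝ) x).congr_of_eventuallyEq h1)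
    have hYd : ∀ δ, fderiv ℝ (Yf g g' L e' L' b A) (x, w) (δ, 0) = fderiv ℝ ψ x δ := by
      intro δ
      have h1 := hDv δ
      rw [hD0, zero_apply] at h1
      have h3 : fderiv ℝ ψ x δ =
          fderiv ℝ (e' b) (L' b (ψ x)) (A (fderiv ℝ (L b) x δ)) := S.psi_deriv hx δ
      rw [(S.Yf_deriv hx hDom).2, ← h1, hrt1, hYψ, one_smul, zero_smul, add_zero, h3]
    rw [hYd] at hc
    have hwM := mem_of_sphere hwS
    have hr := S.h.rho_pos hxM hwM (ne_of_sphere hx hwS)
    have hc1 : c = 1 := by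
      have h1 := k2 (L x w)
      rw [hYd, hc, map_smul, smul_eq_mul, ← S.h.rho_sq hxM, ← S.h'.rho_sq hψM, ← k1] at h1
      have h2 : rho g L x w ^ 2 ≠ 0 := pow_ne_zero 2 hr.ne'
      have h3 : (c - 1) * rho g L x w ^ 2 = 0 := by linarith
      rcases mul_eq_zero.1 h3 with k | k
      · linarith
      · exact absurd k h2
    rw [hc1, one_smul] at hc
    have h4 := k2 δ
    rw [hYd, ← hc, hLw, map_smul, map_smul, map_smul, smul_apply, smul_apply] at h4
    exact (smul_right_injective ℝ hs.ne' h4).symm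
  -- the radial vector
  have hrad0 : fderiv ℝ ψ x (L x b) = L' (ψ x) b := by
    have h1 : fderiv ℝ (L b) x (L x b) = - L b x := by
      have h2 : fderiv ℝ (L b) x (-L x b) = L b x := by
        rw [← S.h.De_L hbM hxM]
        exact congrArg (fun f : E →L[ℝ] E => f (L b x)) (S.h.D_comp' hbM hxM)
      rw [map_neg] at h2
      rw [← h2, neg_neg]
    have h3 : fderiv ℝ ψ x (L x b) =
          fderiv ℝ (e' b) (L' b (ψ x)) (A (fderiv ℝ (L b) x (L x b))) := S.psi_deriv hx (L x b)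
    rw [h3, h1, map_neg, map_neg, ← hψL, S.h'.De_L hbM hψM, neg_neg]
  have hrad : ∀ δ, g' (ψ x) (fderiv ℝ ψ x (L x b)) (fderiv ℝ ψ x δ) = g x (L x b) δ := by
    intro δ
    have hψd : HasFDerivAt ψ (fderiv ℝ ψ x) x :=
      (S.psi_smooth.differentiable (by simp) x).hasFDerivAt
    have hd1 := S.h.hasFDerivAt_energy hbM hxM
    have hd2 := (S.h'.hasFDerivAt_energy hbM hψM).comp x hψd
    have hev : (fun y => g b (L b y) (L b y)) =ᶠ[𝓝 x]
        (fun y => g' b (L' b y) (L' b y)) ∘ ψ := by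
      filter_upwards [isOpen_ball.mem_nhds (show x ∈ ball (0 : E) 1 by simpa using hx)] with y hy
      have hyb : ‖y‖ < 1 := by simpa using hy
      obtain ⟨q, hq, t, ht, hx1, hx2⟩ := S.h.exit_seg hbM hyb (ne_of_sphere hyb S.hb).symm
      have h3 : L' b (ψ y) = A (L b y) := (S.psi_int hyb).2
      simp only [Function.comp]
      have hAt : A (t • L b q) = t • L' b q := by rw [map_smul, S.hAL q hq]
      rw [h3, hx2, hAt]
      simp only [map_smul, smul_apply, smul_eq_mul]
      rw [← S.h.rho_sq hbM, ← S.h'.rho_sq hbM, S.hd b S.hb q hq]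
    have h1 := hd1.unique (hd2.congr_of_eventuallyEq hev)
    have h2 := congrArg (fun f : E →L[ℝ] ℝ => f δ) h1
    simp only [smul_apply, ContinuousLinearMap.comp_apply, smul_eq_mul] at h2
    rw [hrad0]
    linarith
  -- decomposition
  have hLb := S.h.pos x hxM _ (S.Lb_ne hx)
  obtain ⟨k, hk⟩ : ∃ k, k = g x v (L x b) / g x (L x b) (L x b) := ⟨_, rfl⟩
  obtain ⟨η, hη⟩ : ∃ η, η = v - k • L x b := ⟨_, rfl⟩
  have hηb : g x η (L x b) = 0 := by
    rw [hη, map_sub, sub_apply, map_smul, smul_apply, smul_eq_mul, hk,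
      div_mul_cancel₀ _ hLb.ne', sub_self]
  have hv : v = η + k • L x b := by rw [hη]; abel
  have h1 : g' (ψ x) (fderiv ℝ ψ x η) (fderiv ℝ ψ x δ) = g x η δ := by
    by_cases hη0 : η = 0
    · rw [hη0]; simp
    · exact hor η hη0 hηb δ
  rw [hv, map_add, map_add, map_add, add_apply, add_apply, h1, map_smul, map_smul, map_smul,
    smul_apply, smul_apply, hrad]

/-- the two metrics are isometric -/
theorem isometric (S : Src g g' e L e' L' b A A') (hn : 2 < Module.finrank ℝ E) :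
    BoundaryIsometric g g' := by
  have hbM := mem_of_sphere S.hb
  have hcases : ∀ x ∈ closedBall (0 : E) 1, ‖x‖ < 1 ∨ x ∈ sphere (0 : E) 1 := by
    intro x hx
    rcases lt_or_eq_of_le (show ‖x‖ ≤ 1 by simpa using hx) with h | h
    · exact Or.inl h
    · exact Or.inr (by simpa using h)
  refine ⟨fun x => Pt e' L b A x 1, fun y => Pt e L' b A' y 1, S.psi_smooth, S.chi_smooth,
    fun x hx => ?_, fun y hy => ?_, fun p hp => S.psi_bdry hp, ?_⟩
  · rcases hcases x hx with h | h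
    · obtain ⟨h1, h2⟩ := S.psi_int h
      refine ⟨mem_of_norm_lt h1, ?_⟩
      simp only
      rw [Pt, h2, S.hAA, one_smul, S.h.e_L hbM hx]
    · simp only
      rw [S.psi_bdry h]
      exact ⟨hx, S.chi_bdry h⟩
  · rcases hcases y hy with h | h
    · obtain ⟨h1, h2⟩ := S.chi_int h
      refine ⟨mem_of_norm_lt h1, ?_⟩
      simp only
      rw [Pt, h2, S.hAA', one_smul, S.h'.e_L hbM hy]
    · simp only
      rw [S.chi_bdry h]
      exact ⟨hy, S.psi_bdry h⟩
  · have hclos : closedBall (0 : E) 1 = closure (ball (0 : E) 1) :=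
      (closure_ball (0 : E) one_ne_zero).symm
    intro x hx v w
    have hP : IsClosed {x : E | g' (Pt e' L b A x 1) (fderiv ℝ (fun x => Pt e' L b A x 1) x v)
        (fderiv ℝ (fun x => Pt e' L b A x 1) x w) = g x v w} := by
      refine isClosed_eq ?_ ?_
      · have h0 : Continuous fun x => Pt e' L b A x 1 := S.psi_smooth.continuous
        have h1 : Continuous fun x => g' (Pt e' L b A x 1) := S.h'.smooth.continuous.comp h0
        have h2 : Continuous (fderiv ℝ (fun x => Pt e' L b A x 1)) :=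
          S.psi_smooth.continuous_fderiv (by simp)
        exact (h1.clm_apply (h2.clm_apply continuous_const)).clm_apply
          (h2.clm_apply continuous_const)
      · have h1 : Continuous g := S.h.smooth.continuous
        exact (h1.clm_apply continuous_const).clm_apply continuous_const
    have h1 : closure (ball (0 : E) 1) ⊆ {x : E | g' (Pt e' L b A x 1)
        (fderiv ℝ (fun x => Pt e' L b A x 1) x v)
        (fderiv ℝ (fun x => Pt e' L b A x 1) x w) = g x v w} :=
      closure_minimal (fun y hy => S.psi_isom hn (by simpa using hy) v w) hP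
    rw [hclos] at hx
    exact h1 hx

end Src

/-- construction of the data -/
lemma exists_src {g g' : E → E →L[ℝ] E →L[ℝ] ℝ} {e L e' L' : E → E → E} {b : E}
    (h : Simple g e L) (h' : Simple g' e' L')
    (hd : ∀ p ∈ sphere (0 : E) 1, ∀ q ∈ sphere (0 : E) 1, rho g L p q = rho g' L' p q)
    (hb : b ∈ sphere (0 : E) 1)
    (hI : ∀ q ∈ sphere (0 : E) 1, ∀ r ∈ sphere (0 : E) 1, ∀ s ∈ sphere (0 : E) 1,
      (seg g b q ∩ seg g r s).Nonempty → (seg g' b q ∩ seg g' r s).Nonempty) :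
    ∃ A A' : E →L[ℝ] E, Src g g' e L e' L' b A A' := by
  have hbM := mem_of_sphere hb
  have hb0 := ne_zero_of_mem_sphere' hb
  obtain ⟨A, A', hAA', hA'A, hA⟩ := exists_A (h.symm b hbM) (h.pos b hbM) (h'.symm b hbM)
    (h'.pos b hbM) hb0 (fun η ζ hη hζ => h.metric_tan h' hd hb hη hζ)
  refine ⟨A, A', h, h', hb, hd, ?_, hAA', hA'A, ?_⟩
  · intro x hx p hp
    obtain ⟨q, hq, -, hxq⟩ := h.exists_exit hb hx
    obtain ⟨r, hr, -, hxr⟩ := h.exists_exit hp hx
    obtain ⟨y, hy1, hy2⟩ := hI q hq p hp r hr ⟨x, hxq, hxr⟩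
    exact ⟨y, ⟨hp, r, hr, hxr, hy2⟩, ⟨hb, q, hq, hxq, hy1⟩⟩
  · intro q hq
    have hqM := mem_of_sphere hq
    by_cases hbq : b = q
    · rw [← hbq, h.L_self hbM, h'.L_self hbM, map_zero]
    · have hr := h.rho_pos hbM hqM hbq
      refine (hA _ _ (h.L_inward hb hqM hbq) (h'.L_inward hb hqM hbq) (fun η hη => ?_) ?_).symm
      · have h1 := h.dir_tan h' hd hb hq hbq hη
        simp only [Simple.dir, smul_apply, smul_eq_mul] at h1
        rw [← hd b hb q hq] at h1
        exact mul_left_cancel₀ (inv_ne_zero hr.ne') h1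
      · rw [← h.rho_sq hbM, ← h'.rho_sq hbM, hd b hb q hq]

/-- **One source is enough**: for simple metrics with the same boundary distances in dimension at
least three, it suffices that the geodesics from one boundary point meet the same geodesics -/
theorem one_source (hn : 2 < Module.finrank ℝ E) {g g' : E → E →L[ℝ] E →L[ℝ] ℝ}
    (hg : IsSimple g) (hg' : IsSimple g')
    (hd : ∀ p ∈ sphere (0 : E) 1, ∀ q ∈ sphere (0 : E) 1, gdist g p q = gdist g' p q)
    {b : E} (hb : b ∈ sphere (0 : E) 1) :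
    BoundaryIsometric g g' ↔
      ∀ q ∈ sphere (0 : E) 1, ∀ r ∈ sphere (0 : E) 1, ∀ s ∈ sphere (0 : E) 1,
        (seg g b q ∩ seg g r s).Nonempty → (seg g' b q ∩ seg g' r s).Nonempty := by
  obtain ⟨e, L, h⟩ := hg
  obtain ⟨e', L', h'⟩ := hg'
  have hd' : ∀ p ∈ sphere (0 : E) 1, ∀ q ∈ sphere (0 : E) 1, rho g L p q = rho g' L' p q := by
    intro p hp q hq
    rw [← h.gdist_eq (mem_of_sphere hp) (mem_of_sphere hq),
      ← h'.gdist_eq (mem_of_sphere hp) (mem_of_sphere hq), hd p hp q hq]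
  constructor
  · intro hψ q hq r hr s hs hne
    exact h.meeting_of_isometric h' hψ hd' b hb q hq r hr s hs hne
  · intro hI
    obtain ⟨A, A', S⟩ := exists_src h h' hd' hb hI
    exact S.isometric hn

end Pool.Agent.W5h72.BR
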