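import Pool.Agent.W5h72.BR.Criteria

/-!
# Geodesics from finitely many boundary points
-/

open Set Metric Filter Topology
open scoped ContDiff RealInnerProductSpace

noncomputable section

set_option maxSynthPendingDepth 3

namespace Pool.Agent.W5h72.BR

variable {E : Type*} [NormedAddCommGroup E] [InnerProductSpace ℝ E]

/-- all the geodesics of `g'` which correspond to `g`-geodesics through `x` meet the one of `b` -/
def MeetAt (g g' : E → E →L[ℝ] E →L[ℝ] ℝ) (x b : E) : Prop :=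
  ∀ p ∈ sphere (0 : E) 1, ∃ y, Gam g g' x p y ∧ Gam g g' x b y

lemma MeetAt.spec {g g' : E → E →L[ℝ] E →L[ℝ] ℝ} {x b p : E} (hI : MeetAt g g' x b)
    (hp : p ∈ sphere (0 : E) 1) :
    Gam g g' x p (cross g g' x b p) ∧ Gam g g' x b (cross g g' x b p) :=
  Classical.epsilon_spec (hI p hp)

/-- a unit vector orthogonal to finitely many vectors -/
lemma exists_orth_fin [FiniteDimensional ℝ E] (s : Finset E)
    (hs : s.card < Module.finrank ℝ E) : ∃ η : E, ‖η‖ = 1 ∧ ∀ z ∈ s, inner ℝ z η = 0 := by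
  set W := Submodule.span ℝ (s : Set E) with hW
  have h1 : 0 < Module.finrank ℝ Wᗮ := by
    have h2 := Submodule.finrank_add_finrank_orthogonal W
    have h3 : Module.finrank ℝ W ≤ s.card := finrank_span_finset_le_card s
    omega
  have : Nontrivial Wᗮ := Module.finrank_pos_iff.1 h1
  obtain ⟨⟨v, hv⟩, hv0⟩ := exists_ne (0 : Wᗮ)
  have hv1 : v ≠ 0 := fun h0 => hv0 (by simpa using h0)
  refine ⟨‖v‖⁻¹ • v, ?_, fun z hz => ?_⟩
  · rw [norm_smul, norm_inv, norm_norm, inv_mul_cancel₀ (norm_ne_zero_iff.2 hv1)]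
  · rw [inner_smul_right, (Submodule.mem_orthogonal _ _).1 hv z (Submodule.subset_span hz),
      mul_zero]

/-- kernel vectors with pairwise different parameters in a plane do not exist -/
lemma no_three {W : Submodule ℝ E} {B : ℝ → E →L[ℝ] E →L[ℝ] ℝ} {I : Set ℝ}
    (hsymm : ∀ t ∈ I, ∀ v w, B t v w = B t w v)
    (hanti : ∀ s ∈ I, ∀ t ∈ I, s < t → ∀ v ∈ W, v ≠ 0 → B t v v < B s v v)
    {ξ1 ξ2 : E} (hξ1 : ξ1 ∈ W) (hξ2 : ξ2 ∈ W)
    {t : Fin 3 → ℝ} (ht : ∀ i, t i ∈ I) (hinj : Function.Injective t)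
    {a b : Fin 3 → ℝ} (hne : ∀ i, a i • ξ1 + b i • ξ2 ≠ 0)
    (hk : ∀ i ζ, B (t i) (a i • ξ1 + b i • ξ2) ζ = 0) : False := by
  have hW : ∀ i, a i • ξ1 + b i • ξ2 ∈ W := fun i =>
    W.add_mem (W.smul_mem _ hξ1) (W.smul_mem _ hξ2)
  have huniq : ∀ v ∈ W, v ≠ 0 → ∀ s ∈ I, ∀ t ∈ I, (∀ ζ, B s v ζ = 0) → (∀ ζ, B t v ζ = 0) →
      s = t := by
    intro v hv hv0 s hs t ht ks kt
    rcases lt_trichotomy s t with h | h | h
    · have := hanti s hs t ht h v hv hv0
      rw [ks, kt] at this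
      exact absurd this (lt_irrefl _)
    · exact h
    · have := hanti t ht s hs h v hv hv0
      rw [ks, kt] at this
      exact absurd this (lt_irrefl _)
  have hdet : ∀ i j, i ≠ j → a i * b j - a j * b i ≠ 0 := by
    intro i j hij h0
    have hij' : t i ≠ t j := fun h => hij (hinj h)
    apply hij'
    -- proportional vectors
    have hab : a j ≠ 0 ∨ b j ≠ 0 := by
      by_contra hcon
      push Not at hcon
      exact hne j (by rw [hcon.1, hcon.2]; simp)
    obtain ⟨c, hc1, hc2⟩ : ∃ c : ℝ, a i = c * a j ∧ b i = c * b j := by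
      rcases hab with h1 | h1
      · refine ⟨a i / a j, by field_simp, ?_⟩
        field_simp
        linarith
      · refine ⟨b i / b j, ?_, by field_simp⟩
        field_simp
        linarith
    refine huniq _ (hW i) (hne i) _ (ht i) _ (ht j) (hk i) fun ζ => ?_
    have h2 : a i • ξ1 + b i • ξ2 = c • (a j • ξ1 + b j • ξ2) := by
      rw [hc1, hc2, smul_add, smul_smul, smul_smul]
    rw [h2, map_smul, smul_apply, hk j, smul_zero]
  have key : ∀ i j k, i ≠ j → t i < t j → t j < t k → False := by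
    intro i j k hij h1 h2
    have hd := hdet i j hij
    refine three_kernels hsymm hanti (ht i) (ht j) (ht k) h1 h2 (hW i) (hW k) (hne i) (hne k)
      (hk i) (hk j) (hk k)
      (a := (a k * b j - a j * b k) / (a i * b j - a j * b i))
      (b := (a i * b k - a k * b i) / (a i * b j - a j * b i)) ?_
    have e1 : a k = (a k * b j - a j * b k) / (a i * b j - a j * b i) * a i +
        (a i * b k - a k * b i) / (a i * b j - a j * b i) * a j := by
      rw [div_mul_eq_mul_div, div_mul_eq_mul_div, ← add_div, eq_div_iff hd]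
      ring
    have e2 : b k = (a k * b j - a j * b k) / (a i * b j - a j * b i) * b i +
        (a i * b k - a k * b i) / (a i * b j - a j * b i) * b j := by
      rw [div_mul_eq_mul_div, div_mul_eq_mul_div, ← add_div, eq_div_iff hd]
      ring
    set p := (a k * b j - a j * b k) / (a i * b j - a j * b i)
    set q := (a i * b k - a k * b i) / (a i * b j - a j * b i)
    rw [smul_add, smul_add, smul_smul, smul_smul, smul_smul, smul_smul]
    have e3 : a k • ξ1 + b k • ξ2 = (p * a i + q * a j) • ξ1 + (p * b i + q * b j) • ξ2 := by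
      rw [← e1, ← e2]
    rw [e3, add_smul, add_smul]
    abel
  have n01 : t 0 ≠ t 1 := fun h => by have := hinj h; revert this; decide
  have n02 : t 0 ≠ t 2 := fun h => by have := hinj h; revert this; decide
  have n12 : t 1 ≠ t 2 := fun h => by have := hinj h; revert this; decide
  rcases lt_or_gt_of_ne n01 with h01 | h01 <;> rcases lt_or_gt_of_ne n02 with h02 | h02 <;>
    rcases lt_or_gt_of_ne n12 with h12 | h12
  · exact key 0 1 2 (by decide) h01 h12
  · exact key 0 2 1 (by decide) h02 h12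
  · linarith
  · exact key 2 0 1 (by decide) h02 h01
  · exact key 1 0 2 (by decide) h01 h02
  · linarith
  · exact key 1 2 0 (by decide) h12 h02
  · exact key 2 1 0 (by decide) h12 h01

namespace Simple

variable {g g' : E → E →L[ℝ] E →L[ℝ] ℝ} {e L e' L' : E → E → E}
variable [FiniteDimensional ℝ E]

/-- continuity of the crossing point with the geodesic of `b` -/
lemma cross_cont' (h : Simple g e L) (h' : Simple g' e' L') {x b : E} (hx : ‖x‖ < 1)
    (hI : MeetAt g g' x b) :
    ContinuousOn (cross g g' x b) (Dom g x b) := by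
  intro p hp
  refine (isCompact_closedBall (0 : E) 1).tendsto_nhds_of_unique_mapClusterPt ?_ ?_
  · filter_upwards [self_mem_nhdsWithin] with p' hp'
    obtain ⟨h1, h2⟩ := hI.spec hp'.1
    exact mem_of_norm_lt (h.cross_interior h' hx h1 h2 hp')
  · intro y hy hcl
    obtain ⟨U, hU, hUt⟩ := mapClusterPt_iff_ultrafilter.1 hcl
    have hUp : Tendsto (fun p' : E => p') U (𝓝 p) :=
      tendsto_id'.2 (hU.trans nhdsWithin_le_nhds)
    have hmem : ∀ᶠ p' in (U : Filter E), p' ∈ Dom g x b := hU self_mem_nhdsWithin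
    have h1 : (p, y) ∈ {w : E × E | Gam g g' x w.1 w.2} := by
      refine (h.isClosed_Gam h' x).mem_of_tendsto (b := (U : Filter E))
        (hUp.prodMk_nhds hUt) ?_
      filter_upwards [hmem] with p' hp'
      exact (hI.spec hp'.1).1
    have h2 : (b, y) ∈ {w : E × E | Gam g g' x w.1 w.2} := by
      refine (h.isClosed_Gam h' x).mem_of_tendsto (b := (U : Filter E))
        ((tendsto_const_nhds (x := b)).prodMk_nhds hUt) ?_
      filter_upwards [hmem] with p' hp'
      exact (hI.spec hp'.1).2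
    obtain ⟨h3, h4⟩ := hI.spec hp.1
    exact h.cross_unique h' hx h1 h2 h3 h4 hp

/-- the crossing point is focal for some vector of each plane -/
lemma focal_plane (h : Simple g e L) (h' : Simple g' e' L')
    (hd : ∀ p ∈ sphere (0 : E) 1, ∀ q ∈ sphere (0 : E) 1, rho g L p q = rho g' L' p q)
    {x b p : E} (hx : ‖x‖ < 1) (hI : MeetAt g g' x b) (hb : b ∈ sphere (0 : E) 1)
    (hp : p ∈ Dom g x b) {ξ1 ξ2 : E} (hξ1 : ‖ξ1‖ = 1) (hξ2 : ‖ξ2‖ = 1)
    (hξ1p : inner ℝ p ξ1 = 0) (hξ2p : inner ℝ p ξ2 = 0) (hξ12 : inner ℝ ξ1 ξ2 = 0) :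
    ∃ α β : ℝ, α • ξ1 + β • ξ2 ≠ 0 ∧
      ∀ ζ, Q g' L' p (cross g g' x b p) (α • ξ1 + β • ξ2) ζ =
        Q g L p x (α • ξ1 + β • ξ2) ζ := by
  have hpS := hp.1
  have hpn := norm_of_sphere hpS
  obtain ⟨hg1, hg2⟩ := hI.spec hpS
  have hyb := h.cross_interior h' hx hg1 hg2 hp
  obtain ⟨D, hD, hDv⟩ := h.Phi_strict h' hx hyb hpS
  -- linear independence
  have hindep : ∀ α β : ℝ, α • ξ1 + β • ξ2 = 0 → α = 0 ∧ β = 0 := by
    intro α β h0
    have e1 := congrArg (inner ℝ ξ1) h0
    have e2 := congrArg (inner ℝ ξ2) h0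
    rw [inner_add_right, inner_smul_right, inner_smul_right, real_inner_self_eq_norm_sq, hξ1,
      hξ12, inner_zero_right] at e1
    rw [inner_add_right, inner_smul_right, inner_smul_right, real_inner_self_eq_norm_sq, hξ2,
      real_inner_comm, hξ12, inner_zero_right] at e2
    constructor <;> linarith
  by_contra hcon
  push Not at hcon
  let T : ℝ × ℝ →ₗ[ℝ] (E →L[ℝ] ℝ) :=
    { toFun := fun c => D (0, c.1 • ξ1 + c.2 • ξ2)
      map_add' := fun c d => by
        rw [← map_add]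
        congr 1
        ext <;> simp [add_smul]
        abel
      map_smul' := fun r c => by
        rw [RingHom.id_apply, ← map_smul]
        congr 1
        ext <;> simp [smul_smul] }
  have hT : ∀ c : ℝ × ℝ, T c = D (0, c.1 • ξ1 + c.2 • ξ2) := fun c => rfl
  have hinj : LinearMap.ker T = ⊥ := by
    rw [LinearMap.ker_eq_bot']
    rintro ⟨α, β⟩ hv
    by_contra hv0
    have hne : α • ξ1 + β • ξ2 ≠ 0 := by
      intro h0
      obtain ⟨h1, h2⟩ := hindep α β h0
      exact hv0 (by rw [h1, h2]; rfl)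
    obtain ⟨ζ, hζ⟩ := hcon α β hne
    apply hζ
    rw [hT, hDv] at hv
    have := congrArg (fun f : E →L[ℝ] ℝ => f ζ) hv
    simp only [sub_apply, zero_apply] at this
    linarith
  obtain ⟨K, hK0, hK⟩ := LinearMap.exists_antilipschitzWith T hinj
  have hK0' : (0 : ℝ) < K := hK0
  have hbd := hD.isLittleO.def (c := 1 / (4 * K)) (by positivity)
  obtain ⟨δ, hδ, hball⟩ := Metric.eventually_nhds_iff.1 hbd
  -- the geodesic of `b` for `g'`
  obtain ⟨r, hr, hbr, hxr⟩ := h.exists_exit hb hx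
  have hGamb : ∀ y, Gam g g' x b y → y ∈ seg g' b r := by
    rintro y ⟨-, r2, hr2, hxr2, hy⟩
    rwa [h.exit_uniq hb hr hr2 (ne_of_sphere hx hb) hxr hxr2]
  have hDom : ∀ p' ∈ sphere (0 : E) 1, p' ≠ b → p' ≠ r → p' ∈ Dom g x b := by
    intro p' hp' h1 h2
    refine ⟨hp', h1, fun h3 => h2 ?_⟩
    rw [seg_symm] at h3
    exact h.exit_uniq hb hp' hr (ne_of_sphere hx hb) h3 hxr
  have hpr : p ≠ r := by
    rintro rfl
    exact hp.2.2 (by rw [seg_symm]; exact hxr)
  have hev1 : ∀ᶠ p' in 𝓝 p, p' ≠ b ∧ p' ≠ r :=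
    (isOpen_ne.eventually_mem hp.2.1).and (isOpen_ne.eventually_mem hpr)
  obtain ⟨δ2, hδ2, hball2⟩ := Metric.eventually_nhds_iff.1 hev1
  have hcont := h.cross_cont' h' hx hI
  obtain ⟨δ1, hδ1, hball1⟩ := Metric.continuousWithinAt_iff.1 (hcont p hp) δ hδ
  set ε : ℝ := min (min δ δ1) δ2 / 4 with hε
  have hε0 : 0 < ε := by positivity
  have hmin0 : 0 < min (min δ δ1) δ2 := by positivity
  have hεδ : ε < δ := by
    have : min (min δ δ1) δ2 ≤ δ := (min_le_left _ _).trans (min_le_left _ _)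
    rw [hε]; linarith
  have hεδ1 : 2 * ε < δ1 := by
    have : min (min δ δ1) δ2 ≤ δ1 := (min_le_left _ _).trans (min_le_right _ _)
    rw [hε]; linarith
  have hεδ2 : 2 * ε < δ2 := by
    have : min (min δ δ1) δ2 ≤ δ2 := min_le_right _ _
    rw [hε]; linarith
  set v : ℝ → E := fun θ => Real.cos θ • ξ1 + Real.sin θ • ξ2 with hv
  have hvc : Continuous v :=
    (Real.continuous_cos.smul continuous_const).add (Real.continuous_sin.smul continuous_const)
  have hvp : ∀ θ, inner ℝ p (v θ) = 0 := by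
    intro θ
    simp only [hv, inner_add_right, inner_smul_right, hξ1p, hξ2p, mul_zero, add_zero]
  have hvn : ∀ θ, ‖v θ‖ = 1 := by
    intro θ
    have h1 : ‖v θ‖ ^ 2 = 1 := by
      simp only [hv]
      rw [norm_add_sq_real, norm_smul, norm_smul, hξ1, hξ2, inner_smul_left, inner_smul_right,
        hξ12]
      simp only [Real.norm_eq_abs, mul_one, sq_abs, mul_zero, add_zero]
      exact Real.cos_sq_add_sin_sq θ
    nlinarith [norm_nonneg (v θ)]
  have hvπ : ∀ θ, v (θ + Real.pi) = - v θ := by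
    intro θ
    simp only [hv, Real.cos_add_pi, Real.sin_add_pi, neg_smul, neg_add]
  have hne : ∀ θ, p + ε • v θ ≠ 0 := by
    intro θ h0
    have : inner ℝ p (p + ε • v θ) = 1 := by
      rw [inner_add_right, inner_smul_right, hvp, real_inner_self_eq_norm_sq, hpn]
      norm_num
    rw [h0] at this
    simp at this
  set c : ℝ → E := fun θ => proj (p + ε • v θ) with hc
  have hcS : ∀ θ, c θ ∈ sphere (0 : E) 1 := fun θ => proj_mem (hne θ)
  have hcp : ∀ θ, ‖c θ - p‖ ≤ 2 * ε := by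
    intro θ
    have := norm_proj_sub hpn (hne θ)
    rwa [norm_smul, hvn, mul_one, Real.norm_eq_abs, abs_of_pos hε0] at this
  have hcD : ∀ θ, c θ ∈ Dom g x b := by
    intro θ
    have h1 := @hball2 (c θ) (by rw [dist_eq_norm]; exact (hcp θ).trans_lt hεδ2)
    exact hDom _ (hcS θ) h1.1 h1.2
  have hcc : Continuous c := by
    have h1 : Continuous fun θ => p + ε • v θ := continuous_const.add (hvc.const_smul ε)
    rw [continuous_iff_continuousAt]
    intro θ
    exact ContinuousAt.comp (f := fun θ => p + ε • v θ) (contDiffAt_proj (hne θ)).continuousAt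
      h1.continuousAt
  have hYc : Continuous fun θ => cross g g' x b (c θ) := hcont.comp_continuous hcc hcD
  set k : ℝ → ℝ := fun θ => rho g' L' b (cross g g' x b (c θ)) with hk
  have hkc : Continuous k := (h'.continuous_rho b).comp hYc
  have hc2 : ∀ θ, c (θ + Real.pi + Real.pi) = c θ := by
    intro θ
    simp only [hc, hvπ, neg_neg]
  have hKc : Continuous fun θ => k θ - k (θ + Real.pi) :=
    hkc.sub (hkc.comp (continuous_id.add continuous_const))
  have hk2 : k (0 + Real.pi + Real.pi) = k 0 := by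
    simp only [hk, hc2]
  obtain ⟨θ, hθ⟩ : ∃ θ, k θ - k (θ + Real.pi) = 0 := by
    have : (0 : ℝ) ∈ range fun θ => k θ - k (θ + Real.pi) := by
      rcases le_total (k 0 - k (0 + Real.pi)) 0 with h1 | h1
      · refine mem_range_of_exists_le_of_exists_ge hKc ⟨0, h1⟩ ⟨0 + Real.pi, ?_⟩
        rw [hk2]; linarith
      · refine mem_range_of_exists_le_of_exists_ge hKc ⟨0 + Real.pi, ?_⟩ ⟨0, h1⟩
        rw [hk2]; linarith
    exact this
  have hbM := mem_of_sphere hb
  have hrM := mem_of_sphere hr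
  have hYeq : cross g g' x b (c θ) = cross g g' x b (c (θ + Real.pi)) := by
    have h1 := (hI.spec (hcS θ)).2
    have h2 := (hI.spec (hcS (θ + Real.pi))).2
    obtain ⟨t1, ht1, hy1⟩ := (h'.mem_seg hbM hrM).1 (hGamb _ h1)
    obtain ⟨t2, ht2, hy2⟩ := (h'.mem_seg hbM hrM).1 (hGamb _ h2)
    have h3 : k θ = k (θ + Real.pi) := sub_eq_zero.1 hθ
    simp only [hk] at h3
    rw [hy1, hy2, h'.rho_pt hbM hrM ht1, h'.rho_pt hbM hrM ht2] at h3
    have h4 : t1 = t2 := mul_right_cancel₀ (h'.rho_pos hbM hrM hbr).ne' h3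
    rw [hy1, hy2, h4]
  have hYb : ‖cross g g' x b (c θ)‖ < 1 := by
    obtain ⟨a1, a2⟩ := hI.spec (hcS θ)
    exact h.cross_interior h' hx a1 a2 (hcD θ)
  have hP1 : Phi g g' L L' x (cross g g' x b (c θ), p + ε • v θ) = 0 :=
    h.Phi_zero h' hd hx hYb (hne θ) (hI.spec (hcS θ)).1
  have hP2 : Phi g g' L L' x (cross g g' x b (c θ), p + ε • v (θ + Real.pi)) = 0 := by
    refine h.Phi_zero h' hd hx hYb (hne _) ?_
    have := (hI.spec (hcS (θ + Real.pi))).1
    rwa [← hYeq] at this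
  have hd1 : ‖cross g g' x b (c θ) - cross g g' x b p‖ < δ := by
    have := hball1 (hcD θ) (by rw [dist_eq_norm]; exact (hcp θ).trans_lt hεδ1)
    rwa [dist_eq_norm] at this
  have hzn : ∀ θ, ‖p + ε • v θ - p‖ < δ := by
    intro θ
    rw [add_sub_cancel_left, norm_smul, hvn, mul_one, Real.norm_eq_abs, abs_of_pos hε0]
    exact hεδ
  have h1 := @hball ((cross g g' x b (c θ), p + ε • v θ),
      (cross g g' x b (c θ), p + ε • v (θ + Real.pi))) (by
    rw [Prod.dist_eq, Prod.dist_eq, Prod.dist_eq]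
    simp only [dist_eq_norm]
    exact max_lt (max_lt hd1 (hzn θ)) (max_lt hd1 (hzn _)))
  simp only [hP1, hP2, sub_self, zero_sub, norm_neg, Prod.mk_sub_mk] at h1
  have hzz : p + ε • v θ - (p + ε • v (θ + Real.pi)) = (2 * ε) • v θ := by
    rw [hvπ, smul_neg, two_mul, add_smul]; abel
  rw [hzz] at h1
  have h2 : ‖((0 : E), (2 * ε) • v θ)‖ = 2 * ε := by
    rw [Prod.norm_def]
    simp only [norm_zero, norm_smul, hvn, mul_one, Real.norm_eq_abs]
    rw [abs_of_pos (by positivity), max_eq_right (by positivity)]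
  rw [h2] at h1
  set cc : ℝ × ℝ := (2 * ε * Real.cos θ, 2 * ε * Real.sin θ) with hcc'
  have hTc : T cc = D (0, (2 * ε) • v θ) := by
    rw [hT]
    congr 2
    simp only [hcc', hv, smul_add, smul_smul]
  have h3 : ‖cc‖ ≤ K * ‖T cc‖ := by
    have := hK.le_mul_dist cc 0
    simpa using this
  rw [hTc] at h3
  have h4 : (K : ℝ) * ‖D (0, (2 * ε) • v θ)‖ ≤ K * (1 / (4 * K) * (2 * ε)) :=
    mul_le_mul_of_nonneg_left h1 hK0'.le
  have h5 : (K : ℝ) * (1 / (4 * K) * (2 * ε)) = ε / 2 := by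
    field_simp
    norm_num
  have h6 : ‖cc‖ ≤ ε / 2 := by linarith
  have h7 : |2 * ε * Real.cos θ| ≤ ε / 2 := (norm_fst_le cc).trans h6
  have h8 : |2 * ε * Real.sin θ| ≤ ε / 2 := (norm_snd_le cc).trans h6
  have h9 := Real.cos_sq_add_sin_sq θ
  have h10 : (2 * ε * Real.cos θ) ^ 2 ≤ (ε / 2) ^ 2 := sq_le_sq' (abs_le.1 h7).1 (abs_le.1 h7).2
  have h11 : (2 * ε * Real.sin θ) ^ 2 ≤ (ε / 2) ^ 2 := sq_le_sq' (abs_le.1 h8).1 (abs_le.1 h8).2
  have h12 : (2 * ε * Real.cos θ) ^ 2 + (2 * ε * Real.sin θ) ^ 2 = 4 * ε ^ 2 := by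
    have : (2 * ε * Real.cos θ) ^ 2 + (2 * ε * Real.sin θ) ^ 2 =
        4 * ε ^ 2 * (Real.cos θ ^ 2 + Real.sin θ ^ 2) := by ring
    rw [this, h9, mul_one]
  nlinarith [pow_pos hε0 2]

end Simple

end Pool.Agent.W5h72.BR
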