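import Pool.Agent.W5h72.BR.Loc2

/-!
# Linear algebra for jets of order two in two boundary points
-/

open Set Metric Filter Topology
open scoped ContDiff RealInnerProductSpace

noncomputable section

set_option maxSynthPendingDepth 3

namespace Pool.Agent.W5h72.BR

variable {E : Type*} [NormedAddCommGroup E] [InnerProductSpace ℝ E]

/-- a contact of order two -/
def Cont (G G' : E →L[ℝ] E →L[ℝ] ℝ) (B : E →L[ℝ] E) (v W : E) : Prop :=
  ∀ w, G w v = 0 → G w w = 1 → ∃ V1 V2, (∀ δ, G' V1 (B δ) = G w δ) ∧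
    (∀ δ, G' V2 (B δ) = - G v δ) ∧ G' W V1 = 0 ∧ G' W V2 + G' V1 V1 = 0

/-- a vector which is orthogonal to all unit vectors orthogonal to `v` is a multiple of `v` -/
lemma par_of_perp {G : E →L[ℝ] E →L[ℝ] ℝ} (hs : ∀ v w, G v w = G w v)
    (hp : ∀ v, v ≠ 0 → 0 < G v v) {v : E} (hv : G v v = 1) {δ : E}
    (hδ : ∀ w, G w v = 0 → G w w = 1 → G w δ = 0) : δ = G v δ • v := by
  obtain ⟨η, hη⟩ : ∃ η, η = δ - G v δ • v := ⟨_, rfl⟩
  have h1 : G η v = 0 := by
    rw [hη, map_sub, sub_apply, map_smul, smul_apply, hv, hs δ v, smul_eq_mul, mul_one,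
      sub_self]
  by_cases hη0 : η = 0
  · rw [hη0] at hη
    exact (sub_eq_zero.1 hη.symm)
  · exfalso
    have h2 := hp η hη0
    have h3 : 0 < √(G η η) := Real.sqrt_pos.2 h2
    have h4 := hδ ((√(G η η))⁻¹ • η) (by rw [map_smul, smul_apply, h1, smul_zero]) (by
      simp only [map_smul, smul_apply, smul_eq_mul]
      have : √(G η η) * √(G η η) = G η η := Real.mul_self_sqrt h2.le
      field_simp
      nlinarith)
    rw [map_smul, smul_apply, smul_eq_mul] at h4
    rcases mul_eq_zero.1 h4 with h5 | h5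
    · exact inv_ne_zero h3.ne' h5
    · have h6 : G η η = 0 := by
        have h7 := congrArg (G η) hη
        rw [map_sub, map_smul, h1, h5, smul_zero, sub_zero] at h7
        exact h7
      linarith

/-- the inverse of the adjoint -/
lemma exists_T [FiniteDimensional ℝ E] {G G' : E →L[ℝ] E →L[ℝ] ℝ} (hs : ∀ v w, G v w = G w v)
    (hp : ∀ v, v ≠ 0 → 0 < G v v) (hp' : ∀ v, v ≠ 0 → 0 < G' v v) {B : E →L[ℝ] E} {v W : E}
    (hv : G v v = 1) (hex : ∃ w, G w v = 0 ∧ G w w = 1) (hC : Cont G G' B v W) :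
    ∃ T : E →ₗ[ℝ] E, (∀ w δ, G' (T w) (B δ) = G w δ) ∧ (∀ V, (∀ δ, G' V (B δ) = 0) → V = 0) ∧
      (∀ V, (∀ w, G' (T w) V = 0) → V = 0) := by
  have hBinj : Function.Injective B.toLinearMap := by
    rw [injective_iff_map_eq_zero]
    intro δ hδ
    have hδ' : B δ = 0 := hδ
    have h1 : δ = G v δ • v := par_of_perp hs hp hv fun w h1 h2 => by
      obtain ⟨V1, V2, k1, -⟩ := hC w h1 h2
      rw [← k1, hδ', map_zero]
    obtain ⟨w, h2, h3⟩ := hex
    obtain ⟨V1, V2, -, k2, -⟩ := hC w h2 h3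
    have h4 := k2 δ
    rw [hδ', map_zero] at h4
    have h5 : G v δ = 0 := by linarith
    rw [h1, h5, zero_smul]
  have hBsurj : ∀ V, ∃ δ, B δ = V := fun V => LinearMap.injective_iff_surjective.1 hBinj V
  have hzero : ∀ V, (∀ δ, G' V (B δ) = 0) → V = 0 := by
    intro V hV
    by_contra hne
    obtain ⟨δ, hδ⟩ := hBsurj V
    have h1 := hV δ
    rw [hδ] at h1
    exact (hp' V hne).ne' h1
  let Be : E ≃L[ℝ] E :=
    (LinearEquiv.ofInjectiveEndo B.toLinearMap hBinj).toContinuousLinearEquiv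
  have hBe : ∀ δ, Be.symm (B δ) = δ := fun δ => Be.symm_apply_apply δ
  have hT0 : ∀ w, ∃ n, ∀ δ, G' n (B δ) = G w δ := by
    intro w
    obtain ⟨n, hn⟩ := exists_rep hp' (J ((G w).comp (Be.symm : E →L[ℝ] E)))
    refine ⟨n, fun δ => ?_⟩
    rw [hn, inner_J, ContinuousLinearMap.comp_apply]
    exact congrArg (G w) (hBe δ)
  choose T0 hT0 using hT0
  have huniq : ∀ V V', (∀ δ, G' V (B δ) = G' V' (B δ)) → V = V' := by
    intro V V' h1
    refine sub_eq_zero.1 (hzero _ fun δ => ?_)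
    rw [map_sub, sub_apply, h1, sub_self]
  let T : E →ₗ[ℝ] E :=
    { toFun := T0
      map_add' := fun w w' => huniq _ _ fun δ => by
        rw [map_add, add_apply, hT0, hT0, hT0, map_add, add_apply]
      map_smul' := fun c w => huniq _ _ fun δ => by
        rw [RingHom.id_apply, map_smul, smul_apply, hT0, hT0, map_smul, smul_apply] }
  have hT : ∀ w δ, G' (T w) (B δ) = G w δ := hT0
  refine ⟨T, hT, hzero, fun V hV => ?_⟩
  obtain ⟨δ, rfl⟩ := hBsurj V
  by_contra hne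
  have hδ0 : δ ≠ 0 := by rintro rfl; exact hne (map_zero B)
  have h1 := hV δ
  rw [hT] at h1
  exact (hp δ hδ0).ne' h1

/-- the restriction of `T` to the orthogonal complement is a similarity -/
lemma cont_T {G G' : E →L[ℝ] E →L[ℝ] ℝ} (hp : ∀ v, v ≠ 0 → 0 < G v v)
    {B : E →L[ℝ] E} {v W : E} (hC : Cont G G' B v W) {T : E →ₗ[ℝ] E}
    (hT : ∀ w δ, G' (T w) (B δ) = G w δ) (hz : ∀ V, (∀ δ, G' V (B δ) = 0) → V = 0) {w : E}
    (hw : G w v = 0) : G' W (T w) = 0 ∧ G' (T w) (T w) = G' W (T v) * G w w := by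
  by_cases hw0 : w = 0
  · rw [hw0]; simp
  have h2 := hp w hw0
  obtain ⟨k, hk⟩ : ∃ k, k = √(G w w) := ⟨_, rfl⟩
  have hk0 : 0 < k := by rw [hk]; exact Real.sqrt_pos.2 h2
  have hkk : k * k = G w w := by rw [hk]; exact Real.mul_self_sqrt h2.le
  obtain ⟨V1, V2, k1, k2, k3, k4⟩ := hC (k⁻¹ • w)
    (by rw [map_smul, smul_apply, hw, smul_zero]) (by
      simp only [map_smul, smul_apply, smul_eq_mul]
      rw [← hkk]
      field_simp)
  have e1 : V1 = k⁻¹ • T w := by
    refine sub_eq_zero.1 (hz _ fun δ => ?_)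
    rw [map_sub, sub_apply, k1, map_smul, smul_apply, map_smul, smul_apply, hT, sub_self]
  have e2 : V2 = - T v := by
    refine sub_eq_zero.1 (hz _ fun δ => ?_)
    rw [map_sub, sub_apply, k2, map_neg, neg_apply, hT, sub_self]
  rw [e1, map_smul, smul_eq_mul] at k3
  rw [e1, e2] at k4
  simp only [map_smul, smul_apply, smul_eq_mul, map_neg] at k4
  refine ⟨?_, ?_⟩
  · rcases mul_eq_zero.1 k3 with h3 | h3
    · exact absurd h3 (inv_ne_zero hk0.ne')
    · exact h3
  · rw [← hkk]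
    field_simp at k4
    nlinarith

/-- a contact of order two is an isometry if the gradients agree -/
lemma iso_of_cont [FiniteDimensional ℝ E] {G G' : E →L[ℝ] E →L[ℝ] ℝ}
    (hs : ∀ v w, G v w = G w v)
    (hp : ∀ v, v ≠ 0 → 0 < G v v) (hs' : ∀ v w, G' v w = G' w v)
    (hp' : ∀ v, v ≠ 0 → 0 < G' v v) {B : E →L[ℝ] E} {v W : E} (hv : G v v = 1)
    (hW : G' W W = 1) (hex : ∃ w, G w v = 0 ∧ G w w = 1) (hC : Cont G G' B v W)
    (hA : ∀ δ, G' W (B δ) = G v δ) (δ η : E) : G' (B δ) (B η) = G δ η := by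
  obtain ⟨T, hT, hz, hz'⟩ := exists_T hs hp hp' hv hex hC
  have hWT : W = T v := by
    refine sub_eq_zero.1 (hz _ fun δ => ?_)
    rw [map_sub, sub_apply, hA, hT, sub_self]
  have hl : G' W (T v) = 1 := by rw [← hWT, hW]
  have hq : ∀ w, G' (T w) (T w) = G w w := by
    intro w
    obtain ⟨u, hu⟩ : ∃ u, u = w - G v w • v := ⟨_, rfl⟩
    have hwu : w = u + G v w • v := by rw [hu]; abel
    have hu1 : G u v = 0 := by
      rw [hu, map_sub, sub_apply, map_smul, smul_apply, hv, hs w v, smul_eq_mul, mul_one,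
        sub_self]
    obtain ⟨k1, k2⟩ := cont_T hp hC hT hz hu1
    rw [hl, one_mul] at k2
    rw [hWT] at k1 hl
    generalize G v w = c at hwu
    rw [hwu]
    simp only [map_add, map_smul, add_apply, smul_apply, smul_eq_mul]
    rw [hs' (T u) (T v), k1, k2, hl, hs v u, hu1, hv]
  have hqq : ∀ w w', G' (T w) (T w') = G w w' := by
    intro w w'
    have h1 := hq (w + w')
    simp only [map_add, add_apply] at h1
    rw [hq, hq, hs' (T w') (T w), hs w' w] at h1
    linarith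
  have hBT : ∀ δ, B δ = T δ := by
    intro δ
    refine sub_eq_zero.1 (hz' _ fun w => ?_)
    rw [map_sub, hT, hqq, sub_self]
  rw [hBT, hBT, hqq]

/-- the linear algebra of contacts of order two in two directions -/
lemma two_cont [FiniteDimensional ℝ E] {G G' : E →L[ℝ] E →L[ℝ] ℝ} (hs : ∀ v w, G v w = G w v)
    (hp : ∀ v, v ≠ 0 → 0 < G v v) (hs' : ∀ v w, G' v w = G' w v)
    (hp' : ∀ v, v ≠ 0 → 0 < G' v v) {B : E →L[ℝ] E} {v1 v2 W1 W2 : E} (hv1 : G v1 v1 = 1)
    (hv2 : G v2 v2 = 1) (hc1 : G v1 v2 < 1) (hc2 : -1 < G v1 v2)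
    (hex : ∃ w, G w v1 = 0 ∧ G w v2 = 0 ∧ G w w = 1) (hC1 : Cont G G' B v1 W1)
    (hC2 : Cont G G' B v2 W2) :
    ∃ κ : ℝ, (∀ δ, G' (W1 + W2) (B δ) = κ * G (v1 + v2) δ) ∧
      (κ = 1 → ∀ δ, G' W1 (B δ) = G v1 δ) := by
  obtain ⟨w0, hw1, hw2, hw⟩ := hex
  obtain ⟨T, hT, hz, hz'⟩ := exists_T hs hp hp' hv1 ⟨w0, hw1, hw⟩ hC1
  have hTne : ∀ w, w ≠ 0 → 0 < G' (T w) (T w) := by
    intro w hw
    refine hp' _ fun h0 => ?_
    have h1 := hT w w
    rw [h0, map_zero, zero_apply] at h1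
    exact (hp w hw).ne h1
  have hF1 : ∀ {w}, G w v1 = 0 → G' W1 (T w) = 0 ∧ G' (T w) (T w) = G' W1 (T v1) * G w w :=
    fun hw => cont_T hp hC1 hT hz hw
  have hF2 : ∀ {w}, G w v2 = 0 → G' W2 (T w) = 0 ∧ G' (T w) (T w) = G' W2 (T v2) * G w w :=
    fun hw => cont_T hp hC2 hT hz hw
  obtain ⟨lam, hlam⟩ : ∃ lam, lam = G' W1 (T v1) := ⟨_, rfl⟩
  have hlam2 : G' W2 (T v2) = lam := by
    have h1 := (hF1 hw1).2
    have h2 := (hF2 hw2).2
    rw [hw, mul_one] at h1 h2
    rw [hlam, ← h1, ← h2]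
  have hlam0 : 0 < lam := by
    have h1 := (hF1 hw1).2
    rw [hw, mul_one, ← hlam] at h1
    rw [← h1]
    exact hTne _ fun h0 => by rw [h0] at hw; simp at hw
  rw [← hlam] at hF1
  rw [hlam2] at hF2
  -- the covectors
  have hW1 : ∀ w, G' W1 (T w) = lam * G v1 w := by
    intro w
    have h1 : G (w - G v1 w • v1) v1 = 0 := by
      rw [map_sub, sub_apply, map_smul, smul_apply, hv1, hs w v1, smul_eq_mul, mul_one, sub_self]
    have h2 := (hF1 h1).1
    rw [map_sub, map_sub, map_smul, map_smul, ← hlam, smul_eq_mul] at h2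
    linarith
  have hW2 : ∀ w, G' W2 (T w) = lam * G v2 w := by
    intro w
    have h1 : G (w - G v2 w • v2) v2 = 0 := by
      rw [map_sub, sub_apply, map_smul, smul_apply, hv2, hs w v2, smul_eq_mul, mul_one, sub_self]
    have h2 := (hF2 h1).1
    rw [map_sub, map_sub, map_smul, map_smul, hlam2, smul_eq_mul] at h2
    linarith
  -- the deviation from a similarity
  obtain ⟨R, hR⟩ : ∃ R : E → E → ℝ, ∀ w w', R w w' = G' (T w) (T w') - lam * G w w' :=
    ⟨fun w w' => G' (T w) (T w') - lam * G w w', fun _ _ => rfl⟩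
  have hRs : ∀ w w', R w w' = R w' w := by
    intro w w'
    rw [hR, hR, hs' (T w), hs w]
  have hRadd : ∀ u w w', R u (w + w') = R u w + R u w' := by
    intro u w w'
    rw [hR, hR, hR, map_add, map_add, map_add]; ring
  have hRsmul : ∀ u (c : ℝ) w, R u (c • w) = c * R u w := by
    intro u c w
    rw [hR, hR, map_smul, map_smul, map_smul, smul_eq_mul, smul_eq_mul]; ring
  have hR1 : ∀ w w', G w v1 = 0 → G w' v1 = 0 → R w w' = 0 := by
    intro w w' h1 h2
    have h3 : ∀ u, G u v1 = 0 → R u u = 0 := fun u hu => by rw [hR, (hF1 hu).2, sub_self]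
    have h4 := h3 (w + w') (by rw [map_add, add_apply, h1, h2, add_zero])
    rw [hRadd, hRs (w + w') w, hRs (w + w') w', hRadd, hRadd, h3 w h1, h3 w' h2, hRs w' w] at h4
    linarith
  have hR2 : ∀ w w', G w v2 = 0 → G w' v2 = 0 → R w w' = 0 := by
    intro w w' h1 h2
    have h3 : ∀ u, G u v2 = 0 → R u u = 0 := fun u hu => by rw [hR, (hF2 hu).2, sub_self]
    have h4 := h3 (w + w') (by rw [map_add, add_apply, h1, h2, add_zero])
    rw [hRadd, hRs (w + w') w, hRs (w + w') w', hRadd, hRadd, h3 w h1, h3 w' h2, hRs w' w] at h4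
    linarith
  obtain ⟨c, hc⟩ : ∃ c, c = G v1 v2 := ⟨_, rfl⟩
  rw [← hc] at hc1 hc2
  have hc21 : G v2 v1 = c := by rw [hs, hc]
  -- the two auxiliary vectors
  have a1 : G (v2 + (-c) • v1) v1 = 0 := by
    rw [map_add, add_apply, map_smul, smul_apply, hv1, hc21, smul_eq_mul]; ring
  have a2 : G (v1 + (-c) • v2) v2 = 0 := by
    rw [map_add, add_apply, map_smul, smul_apply, hv2, ← hc, smul_eq_mul]; ring
  have b1 : R v2 v2 - 2 * c * R v1 v2 + c ^ 2 * R v1 v1 = 0 := by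
    have h1 := hR1 _ _ a1 a1
    rw [hRadd, hRsmul, hRs _ v2, hRs _ v1, hRadd, hRadd, hRsmul, hRsmul, hRs v2 v1] at h1
    linarith
  have b2 : R v1 v1 - 2 * c * R v1 v2 + c ^ 2 * R v2 v2 = 0 := by
    have h1 := hR2 _ _ a2 a2
    rw [hRadd, hRsmul, hRs _ v2, hRs _ v1, hRadd, hRadd, hRsmul, hRsmul, hRs v2 v1] at h1
    linarith
  have hcc : 0 < 1 - c ^ 2 := by nlinarith
  have b3 : R v1 v1 = R v2 v2 := by
    have h1 : (1 - c ^ 2) * (R v1 v1 - R v2 v2) = 0 := by linarith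
    rcases mul_eq_zero.1 h1 with h2 | h2
    · exact absurd h2 hcc.ne'
    · linarith
  have b4 : ∀ w, G w v1 = 0 → G w v2 = 0 → R v1 w = 0 ∧ R v2 w = 0 := by
    intro w h1 h2
    have h3 := hR1 _ _ h1 a1
    have h4 := hR2 _ _ h2 a2
    rw [hRadd, hRsmul, hRs w v1, hRs w v2] at h3 h4
    have h5 : (1 - c ^ 2) * R v1 w = 0 := by
      have : R v2 w = c * R v1 w := by linarith
      rw [this] at h4
      linarith
    rcases mul_eq_zero.1 h5 with h6 | h6
    · exact absurd h6 hcc.ne'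
    · rw [h6] at h3
      exact ⟨h6, by linarith⟩
  -- the bisector
  obtain ⟨a, ha⟩ : ∃ a, a = v1 + v2 := ⟨_, rfl⟩
  obtain ⟨d, hd⟩ : ∃ d, d = v1 + (-1 : ℝ) • v2 := ⟨_, rfl⟩
  have haa : G a a = 2 + 2 * c := by
    rw [ha]
    simp only [map_add, add_apply]
    rw [hv1, hv2, hc21, ← hc]; ring
  have haa0 : 0 < G a a := by rw [haa]; linarith
  have ha0 : a ≠ 0 := by rintro rfl; simp at haa0
  have hdd : G d d = 2 - 2 * c := by
    rw [hd]
    simp only [map_add, add_apply, map_smul, smul_apply, smul_eq_mul]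
    rw [hv1, hv2, hc21, ← hc]; ring
  have hdd0 : 0 < G d d := by rw [hdd]; linarith
  have had : G a d = 0 := by
    rw [ha, hd]
    simp only [map_add, add_apply, map_smul, smul_eq_mul]
    rw [hv1, hv2, hc21, ← hc]; ring
  have hRa : ∀ w, R a w = R v1 w + R v2 w := by
    intro w
    rw [ha, hRs, hRadd, hRs w v1, hRs w v2]
  have hRperp : ∀ w, G a w = 0 → R a w = 0 := by
    intro w hw
    obtain ⟨β, hβ⟩ : ∃ β, β = G d w / G d d := ⟨_, rfl⟩
    obtain ⟨u, hu⟩ : ∃ u, u = w + (-β) • d := ⟨_, rfl⟩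
    have hwu : w = β • d + u := by rw [hu, neg_smul]; abel
    have u1 : G a u = 0 := by
      rw [hu, map_add, map_smul, hw, had, smul_zero, add_zero]
    have u2 : G d u = 0 := by
      rw [hu, map_add, map_smul, smul_eq_mul, hβ]
      field_simp
      ring
    have u3 : G u v1 = 0 ∧ G u v2 = 0 := by
      rw [hs, ha, map_add] at u1
      rw [hs, hd, map_add, map_smul, smul_eq_mul] at u2
      constructor <;> linarith
    obtain ⟨k1, k2⟩ := b4 u u3.1 u3.2
    rw [hwu, hRadd, hRsmul, hRa u, k1, k2, hRa d, hd, hRadd, hRadd, hRsmul, hRsmul, b3,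
      hRs v2 v1]
    ring
  obtain ⟨qa, hqa⟩ : ∃ qa, qa = G' (T a) (T a) := ⟨_, rfl⟩
  have hqa0 : 0 < qa := by rw [hqa]; exact hTne a ha0
  obtain ⟨κ, hκ⟩ : ∃ κ, κ = lam * G a a / qa := ⟨_, rfl⟩
  -- identification of the sum of the directions
  have hsum : W1 + W2 = κ • T a := by
    refine sub_eq_zero.1 (hz' _ fun w => ?_)
    rw [hs']
    obtain ⟨β, hβ⟩ : ∃ β, β = G a w / G a a := ⟨_, rfl⟩
    obtain ⟨u, hu⟩ : ∃ u, u = w + (-β) • a := ⟨_, rfl⟩
    have hwu : w = β • a + u := by rw [hu, neg_smul]; abel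
    have u1 : G a u = 0 := by
      rw [hu, map_add, map_smul, smul_eq_mul, hβ]
      field_simp
      ring
    have u2 : G' (T a) (T u) = 0 := by
      have h1 := hRperp u u1
      rw [hR, u1, mul_zero, sub_zero] at h1
      exact h1
    have e1 : ∀ w, G' (W1 + W2) (T w) = lam * G a w := by
      intro w
      rw [map_add, add_apply, hW1, hW2, ha, map_add, add_apply]; ring
    rw [map_sub, sub_apply, e1, map_smul, smul_apply, hwu]
    simp only [map_add, map_smul, smul_eq_mul]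
    rw [u1, u2, ← hqa, hκ]
    field_simp
    ring
  refine ⟨κ, fun δ => ?_, fun hκ1 δ => ?_⟩
  · rw [hsum, map_smul, smul_apply, hT, ← ha, smul_eq_mul]
  · have h1 : R a a = 0 := by
      rw [hκ, div_eq_one_iff_eq hqa0.ne'] at hκ1
      rw [hR, ← hqa, hκ1, sub_self]
    have h2 : R v1 v1 + R v1 v2 = 0 := by
      rw [hRa, ha, hRadd, hRadd, hRs v2 v1, ← b3] at h1
      linarith
    have h3 : R v1 v1 = 0 := by
      have h4 : (1 + c) ^ 2 * R v1 v1 = 0 := by
        have h5 : R v1 v2 = - R v1 v1 := by linarith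
        rw [← b3, h5] at b1
        linarith
      rcases mul_eq_zero.1 h4 with h5 | h5
      · exact absurd h5 (pow_ne_zero 2 (by linarith))
      · exact h5
    have h4 : R v1 v2 = 0 := by linarith
    -- `R v1` vanishes
    have h5 : ∀ w, R v1 w = 0 := by
      intro w
      obtain ⟨α, hα⟩ : ∃ α, α = (G v1 w - c * G v2 w) / (1 - c ^ 2) := ⟨_, rfl⟩
      obtain ⟨β, hβ⟩ : ∃ β, β = (G v2 w - c * G v1 w) / (1 - c ^ 2) := ⟨_, rfl⟩
      obtain ⟨u, hu⟩ : ∃ u, u = w + ((-α) • v1 + (-β) • v2) := ⟨_, rfl⟩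
      have hwu : w = (α • v1 + β • v2) + u := by
        rw [hu, neg_smul, neg_smul]; abel
      have u1 : G u v1 = 0 := by
        rw [hs, hu]
        simp only [map_add, map_smul, smul_eq_mul]
        rw [hv1, ← hc, hα, hβ]
        field_simp
        ring
      have u2 : G u v2 = 0 := by
        rw [hs, hu]
        simp only [map_add, map_smul, smul_eq_mul]
        rw [hv2, hc21, hα, hβ]
        field_simp
        ring
      rw [hwu, hRadd, hRadd, hRsmul, hRsmul, h3, h4, (b4 u u1 u2).1]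
      ring
    have h6 : W1 = T v1 := by
      refine sub_eq_zero.1 (hz' _ fun w => ?_)
      have h7 := h5 w
      rw [hR] at h7
      rw [hs', map_sub, sub_apply, hW1]
      linarith
    rw [h6, hT]

end Pool.Agent.W5h72.BR
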