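import Pool.Agent.W5h72.BR.Tp1

/-!
# Contacts of order two from jets of order two
-/

open Set Metric Filter Topology
open scoped ContDiff RealInnerProductSpace

noncomputable section

set_option maxSynthPendingDepth 3

namespace Pool.Agent.W5h72.BR

section calculus

/-- the first two derivatives of a composition with a function whose first two derivatives
vanish -/
lemma chain2 {F : Type*} [NormedAddCommGroup F] [NormedSpace ℝ F] {f : F → ℝ} {p : ℝ → F} {b : F}
    (hf : ContDiffAt ℝ ∞ f b) (hp : ContDiffAt ℝ ∞ p 0) (p0 : p 0 = b) (h1 : fderiv ℝ f b = 0)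
    (h2 : fderiv ℝ (fderiv ℝ f) b = 0) :
    deriv (fun s => f (p s)) 0 = 0 ∧ deriv (deriv (fun s => f (p s))) 0 = 0 := by
  have hpt : Tendsto p (𝓝 0) (𝓝 b) := by
    have := hp.continuousAt.tendsto
    rwa [p0] at this
  have hf1 : ContDiffAt ℝ ∞ (fderiv ℝ f) b := hf.fderiv_right (m := ∞) (by simp)
  have hp1 := contDiffAt_deriv hp
  have e1 : deriv (fun s => f (p s)) =ᶠ[𝓝 0] fun s => fderiv ℝ f (p s) (deriv p s) := by
    filter_upwards [hpt.eventually (ev_diff hf), ev_diff hp] with s k1 k2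
    exact (HasFDerivAt.comp_hasDerivAt (f := p) (l := f) s k1.hasFDerivAt k2.hasDerivAt).deriv
  have e2 : deriv (fun s => fderiv ℝ f (p s) (deriv p s)) =ᶠ[𝓝 0]
      fun s => fderiv ℝ (fderiv ℝ f) (p s) (deriv p s) (deriv p s) +
        fderiv ℝ f (p s) (deriv (deriv p) s) := by
    filter_upwards [hpt.eventually (ev_diff hf1), ev_diff hp, ev_diff hp1] with s k1 k2 k3
    have k4 := HasFDerivAt.comp_hasDerivAt (f := p) (l := fderiv ℝ f) s k1.hasFDerivAt
      k2.hasDerivAt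
    exact (HasDerivAt.clm_apply (c := fun s => fderiv ℝ f (p s)) k4 k3.hasDerivAt).deriv
  refine ⟨?_, ?_⟩
  · rw [e1.self_of_nhds]
    simp only
    rw [p0, h1]
    rfl
  · rw [(e1.deriv.trans e2).self_of_nhds]
    simp only
    rw [p0, h1, h2]
    simp

/-- exchange of derivatives for a function of two variables -/
lemma jets_comm2 {F : Type*} [NormedAddCommGroup F] [NormedSpace ℝ F] {H : F × ℝ → ℝ} {x δ : F}
    (hH : ContDiffAt ℝ ∞ H (x, 0))
    (h1 : ∀ᶠ z in 𝓝 x, dd H (0, 1) (z, 0) = 0)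
    (h2 : ∀ᶠ z in 𝓝 x, dd (dd H (0, 1)) (0, 1) (z, 0) = 0) :
    deriv (fun r => dd H (δ, 0) (x, r)) 0 = 0 ∧
    deriv (deriv (fun r => dd H (δ, 0) (x, r))) 0 = 0 := by
  have vanish : ∀ {K : F × ℝ → ℝ}, ContDiffAt ℝ ∞ K (x, 0) → (∀ᶠ z in 𝓝 x, K (z, 0) = 0) →
      dd K (δ, 0) (x, 0) = 0 := by
    intro K hK hK0
    have hl : HasDerivAt (fun s : ℝ => x + s • δ) δ 0 := by
      simpa using ((hasDerivAt_id (0 : ℝ)).smul_const δ).const_add x
    have k1 : HasDerivAt (fun s : ℝ => (x + s • δ, (0 : ℝ))) (δ, (0 : ℝ)) 0 :=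
      hl.prodMk (hasDerivAt_const (0 : ℝ) (0 : ℝ))
    have k2 := HasFDerivAt.comp_hasDerivAt_of_eq (f := fun s : ℝ => (x + s • δ, (0 : ℝ)))
      (l := K) (0 : ℝ) (hK.differentiableAt (by simp)).hasFDerivAt k1 (by simp)
    have k3 : Tendsto (fun s : ℝ => x + s • δ) (𝓝 0) (𝓝 x) := by
      simpa using hl.continuousAt.tendsto
    have k4 : (K ∘ fun s : ℝ => (x + s • δ, (0 : ℝ))) =ᶠ[𝓝 0] fun _ => 0 := k3.eventually hK0
    exact k2.unique ((hasDerivAt_const (0 : ℝ) (0 : ℝ)).congr_of_eventuallyEq k4)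
  have d1 := contDiffAt_dd hH ((0 : F), (1 : ℝ))
  have d2 := contDiffAt_dd d1 ((0 : F), (1 : ℝ))
  have v1 := vanish d1 h1
  have v2 := vanish d2 h2
  have c1 := dd_comm hH (δ, 0) ((0 : F), (1 : ℝ))
  have c2 := dd_comm d1 (δ, 0) ((0 : F), (1 : ℝ))
  have dδ := contDiffAt_dd hH (δ, (0 : ℝ))
  have w1 : dd (dd H (δ, 0)) (0, 1) (x, 0) = 0 := by rw [← c1.self_of_nhds]; exact v1
  have w2 : dd (dd (dd H (δ, 0)) (0, 1)) (0, 1) (x, 0) = 0 := by
    rw [← (dd_congr c1 ((0 : F), (1 : ℝ))).self_of_nhds, ← c2.self_of_nhds]; exact v2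
  have hline : ∀ f : F × ℝ → ℝ, (fun r : ℝ => f ((x, 0) + r • ((0 : F), (1 : ℝ)))) =
      fun r => f (x, r) := by
    intro f
    funext r
    simp
  have l1 := (deriv_line dδ ((0 : F), (1 : ℝ))).self_of_nhds
  have l2 := (deriv2_line' dδ ((0 : F), (1 : ℝ))).self_of_nhds
  rw [hline] at l1 l2
  simp only [zero_smul, add_zero] at l1 l2
  exact ⟨l1.trans w1, l2.trans w2⟩

/-- derivatives in the second variable -/
lemma dd_second2 {F : Type*} [NormedAddCommGroup F] [NormedSpace ℝ F] {H : F × ℝ → ℝ} {x : F}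
    (hH : ContDiffAt ℝ ∞ H (x, 0)) (h1 : deriv (fun r => H (x, r)) 0 = 0)
    (h2 : deriv (deriv (fun r => H (x, r))) 0 = 0) :
    dd H (0, 1) (x, 0) = 0 ∧ dd (dd H (0, 1)) (0, 1) (x, 0) = 0 := by
  have hline : ∀ f : F × ℝ → ℝ, (fun r : ℝ => f ((x, 0) + r • ((0 : F), (1 : ℝ)))) =
      fun r => f (x, r) := by
    intro f
    funext r
    simp
  have l1 := (deriv_line hH ((0 : F), (1 : ℝ))).self_of_nhds
  have l2 := (deriv2_line' hH ((0 : F), (1 : ℝ))).self_of_nhds
  rw [hline] at l1 l2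
  simp only [zero_smul, add_zero] at l1 l2
  exact ⟨l1.symm.trans h1, l2.symm.trans h2⟩

end calculus

variable {E : Type*} [NormedAddCommGroup E] [InnerProductSpace ℝ E] [FiniteDimensional ℝ E]

/-- the first two derivatives vanish -/
def J2 (f : E → ℝ) (b : E) : Prop :=
  fderiv ℝ f b = 0 ∧ fderiv ℝ (fderiv ℝ f) b = 0

/-- the unit vector in `x` in the direction of `b` -/
def ud (g : E → E →L[ℝ] E →L[ℝ] ℝ) (L : E → E → E) (x b : E) : E := (rho g L x b)⁻¹ • L x b

namespace Simple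

variable {g g' : E → E →L[ℝ] E →L[ℝ] ℝ} {e L e' L' : E → E → E} {b : E}

/-- the contact of order two -/
lemma cont_of_jets (h : Simple g e L) (h' : Simple g' e' L') (hb : b ∈ sphere (0 : E) 1)
    {Y : E → E} (hYb : ∀ x : E, ‖x‖ < 1 → ‖Y x‖ < 1)
    (hYs : ∀ x : E, ‖x‖ < 1 → ContDiffAt ℝ ∞ Y x)
    (hJ : ∀ x : E, ‖x‖ < 1 → J2 (fun z => RR g' L' (Y x, z) - RR g L (x, z)) b)
    {x : E} (hx : ‖x‖ < 1) :
    Cont (g x) (g' (Y x)) (fderiv ℝ Y x) (ud g L x b) (ud g' L' (Y x) b) := by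
  have hxM := mem_of_norm_lt hx
  have hbM := mem_of_sphere hb
  have hxb := ne_of_sphere hx hb
  have hYx := hYb x hx
  have hYM := mem_of_norm_lt hYx
  have hYb' := ne_of_sphere hYx hb
  have hr := h.rho_pos hxM hbM hxb
  have hr' := h'.rho_pos hYM hbM hYb'
  set r := rho g L x b with hrdef
  set r' := rho g' L' (Y x) b with hrdef'
  have hr2 := h.rho_sq hxM b
  rw [← hrdef] at hr2
  set v1 := ud g L x b with hv1
  set V0 := ud g' L' (Y x) b with hV0
  have hv1' : v1 = r⁻¹ • L x b := rfl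
  have hv11 : g x v1 v1 = 1 := by
    rw [hv1']
    simp only [map_smul, smul_apply, smul_eq_mul]
    rw [← hr2]
    field_simp
  have hYd : HasFDerivAt Y (fderiv ℝ Y x) x := ((hYs x hx).differentiableAt (by simp)).hasFDerivAt
  intro v2 h21 h22
  -- the curve
  set c : ℝ → E := fun s => Real.cos s • v1 + Real.sin s • v2 with hc
  have hcc : ContDiff ℝ ∞ c :=
    (Real.contDiff_cos.smul contDiff_const).add (Real.contDiff_sin.smul contDiff_const)
  have hc0 : c 0 = v1 := by simp [hc]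
  have hgcc : ∀ s, g x (c s) (c s) = 1 := by
    intro s
    simp only [hc, map_add, map_smul, add_apply, smul_apply, smul_eq_mul]
    rw [h.symm x hxM v1 v2, h21, h22, hv11]
    linear_combination Real.cos_sq_add_sin_sq s
  have hcne : ∀ s, c s ≠ 0 := by
    intro s h0
    have := hgcc s
    rw [h0] at this
    simp at this
  have hd1 : deriv c = fun s => (-Real.sin s) • v1 + Real.cos s • v2 := by
    funext s
    exact (((Real.hasDerivAt_cos s).smul_const v1).add
      ((Real.hasDerivAt_sin s).smul_const v2)).deriv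
  have hd2 : deriv (deriv c) = fun s => (-Real.cos s) • v1 + (-Real.sin s) • v2 := by
    rw [hd1]
    funext s
    exact (((Real.hasDerivAt_sin s).neg.smul_const v1).add
      ((Real.hasDerivAt_cos s).smul_const v2)).deriv
  set p : ℝ → E := fun s => ext L x (c s) with hp
  have hpc : ∀ s, ContDiffAt ℝ ∞ p s := by
    intro s
    exact ContDiffAt.comp s (f := fun s => (x, c s)) (g := fun u : E × E => ext L u.1 u.2)
      (h.ext_smooth hx (hcne s)) (contDiffAt_const.prodMk hcc.contDiffAt)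
  have hp0 : p 0 = b := by
    simp only [hp, hc0]
    refine h.ext_eq hx (by rw [← hc0]; exact hcne 0) hb hr ?_
    rw [hv1', smul_smul, mul_inv_cancel₀ hr.ne', one_smul]
  have hps : ∀ s, p s ∈ sphere (0 : E) 1 ∧ ∃ t : ℝ, 0 < t ∧ L x (p s) = t • c s := fun s =>
    h.ext_spec hx (hcne s)
  -- the function of two variables
  set H : E × ℝ → ℝ := fun u => RR g' L' (Y u.1, p u.2) - RR g L (u.1, p u.2) with hH
  have hHc : ∀ z : E, ‖z‖ < 1 → ContDiffAt ℝ ∞ H (z, 0) := by
    intro z hz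
    have m0 : ContDiffAt ℝ ∞ (fun u : E × ℝ => p u.2) (z, 0) :=
      ContDiffAt.comp (z, (0 : ℝ)) (f := fun u : E × ℝ => u.2) (g := p) (hpc 0) contDiffAt_snd
    have m1 : ContDiffAt ℝ ∞ (fun u : E × ℝ => RR g L (u.1, p u.2)) (z, 0) := by
      refine ContDiffAt.comp (z, (0 : ℝ)) (f := fun u : E × ℝ => (u.1, p u.2)) (g := RR g L) ?_
        (contDiffAt_fst.prodMk m0)
      simp only [hp0]
      exact h.contDiffAt_RR hz hb
    have m2 : ContDiffAt ℝ ∞ (fun u : E × ℝ => RR g' L' (Y u.1, p u.2)) (z, 0) := by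
      refine ContDiffAt.comp (z, (0 : ℝ)) (f := fun u : E × ℝ => (Y u.1, p u.2))
        (g := RR g' L') ?_ (ContDiffAt.prodMk (ContDiffAt.comp (z, (0 : ℝ))
          (f := fun u : E × ℝ => u.1) (g := Y) (hYs z hz) contDiffAt_fst) m0)
      simp only [hp0]
      exact h'.contDiffAt_RR (hYb z hz) hb
    exact m2.sub m1
  have hzero : ∀ z : E, ‖z‖ < 1 → dd H (0, 1) (z, 0) = 0 ∧ dd (dd H (0, 1)) (0, 1) (z, 0) = 0 := by
    intro z hz
    have m1 : ContDiffAt ℝ ∞ (fun q => RR g L (z, q)) b :=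
      ContDiffAt.comp b (f := fun q => (z, q)) (g := RR g L) (h.contDiffAt_RR hz hb)
        (contDiffAt_const.prodMk contDiffAt_id)
    have m2 : ContDiffAt ℝ ∞ (fun q => RR g' L' (Y z, q)) b :=
      ContDiffAt.comp b (f := fun q => (Y z, q)) (g := RR g' L')
        (h'.contDiffAt_RR (hYb z hz) hb) (contDiffAt_const.prodMk contDiffAt_id)
    obtain ⟨n1, n2⟩ := hJ z hz
    obtain ⟨l1, l2⟩ := chain2 (m2.sub m1) (hpc 0) hp0 n1 n2
    exact dd_second2 (hHc z hz) l1 l2
  have hball : ∀ᶠ z in 𝓝 x, ‖z‖ < 1 := continuous_norm.continuousAt.eventually_lt_const hx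
  -- the unit vectors for `g'`
  set V : ℝ → E := fun s => (rho g' L' (Y x) (p s))⁻¹ • L' (Y x) (p s) with hV
  have hVc : ContDiffAt ℝ ∞ V 0 := by
    have m1 : ContDiffAt ℝ ∞ (fun s => rho g' L' (Y x) (p s)) 0 := by
      refine ContDiffAt.comp (0 : ℝ) (f := fun s => (Y x, p s))
        (g := fun w : E × E => rho g' L' w.1 w.2) ?_ (contDiffAt_const.prodMk (hpc 0))
      simp only [hp0]
      exact h'.contDiffAt_rho hYM hbM hYb'
    have m2 : ContDiffAt ℝ ∞ (fun s => L' (Y x) (p s)) 0 :=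
      ContDiffAt.comp (0 : ℝ) (f := p) (g := L' (Y x))
        (h'.L_smooth_right (Y x)).contDiffAt (hpc 0)
    exact (m1.inv (by simp only [hp0]; exact hr'.ne')).smul m2
  have hV0' : V 0 = V0 := by simp only [hV, hp0, hV0, ud]
  have hVu : ∀ s, g' (Y x) (V s) (V s) = 1 := fun s =>
    h'.unit_dir hYM (mem_of_sphere (hps s).1) (ne_of_sphere hYx (hps s).1)
  have hphi : ∀ δ, (fun s => dd H (δ, 0) (x, s)) =ᶠ[𝓝 0]
      fun s => g x (c s) δ - g' (Y x) (V s) (fderiv ℝ Y x δ) := by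
    intro δ
    refine Eventually.of_forall fun s => ?_
    simp only
    obtain ⟨hpS, t, ht, hLt⟩ := hps s
    have hl : HasDerivAt (fun a : ℝ => x + a • δ) δ 0 := by
      simpa using ((hasDerivAt_id (0 : ℝ)).smul_const δ).const_add x
    have m1 : DifferentiableAt ℝ (RR g L) (x, p s) :=
      (h.contDiffAt_RR hx hpS).differentiableAt (by simp)
    have m2 : DifferentiableAt ℝ (RR g' L') (Y x, p s) :=
      (h'.contDiffAt_RR hYx hpS).differentiableAt (by simp)
    have hHd : DifferentiableAt ℝ H (x, s) := by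
      have n0 : DifferentiableAt ℝ (fun u : E × ℝ => p u.2) (x, s) :=
        DifferentiableAt.comp (x, s) (f := fun u : E × ℝ => u.2) (g := p)
          ((hpc s).differentiableAt (by simp)) differentiableAt_snd
      have n1 : DifferentiableAt ℝ (fun u : E × ℝ => RR g L (u.1, p u.2)) (x, s) :=
        DifferentiableAt.comp (x, s) (f := fun u : E × ℝ => (u.1, p u.2)) (g := RR g L) m1
          (differentiableAt_fst.prodMk n0)
      have n2 : DifferentiableAt ℝ (fun u : E × ℝ => RR g' L' (Y u.1, p u.2)) (x, s) :=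
        DifferentiableAt.comp (x, s) (f := fun u : E × ℝ => (Y u.1, p u.2)) (g := RR g' L') m2
          (DifferentiableAt.prodMk (DifferentiableAt.comp (x, s) (f := fun u : E × ℝ => u.1)
            (g := Y) ((hYs x hx).differentiableAt (by simp)) differentiableAt_fst) n0)
      exact n2.sub n1
    have k1 : HasDerivAt (fun a : ℝ => (x + a • δ, s)) (δ, (0 : ℝ)) 0 :=
      hl.prodMk (hasDerivAt_const (0 : ℝ) s)
    have k2 := HasFDerivAt.comp_hasDerivAt_of_eq (f := fun a : ℝ => (x + a • δ, s))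
      (l := H) (0 : ℝ) hHd.hasFDerivAt k1 (by simp)
    have k3 : HasDerivAt (fun a : ℝ => RR g L (x + a • δ, p s))
        (fderiv ℝ (RR g L) (x, p s) (δ, 0)) 0 :=
      HasFDerivAt.comp_hasDerivAt_of_eq (f := fun a : ℝ => (x + a • δ, p s))
        (l := RR g L) (0 : ℝ) m1.hasFDerivAt (hl.prodMk (hasDerivAt_const (0 : ℝ) (p s)))
        (by simp)
    have k4 : HasDerivAt (fun a : ℝ => Y (x + a • δ)) (fderiv ℝ Y x δ) 0 :=
      HasFDerivAt.comp_hasDerivAt_of_eq (f := fun a : ℝ => x + a • δ)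
        (l := Y) (0 : ℝ) hYd hl (by simp)
    have k5 : HasDerivAt (fun a : ℝ => RR g' L' (Y (x + a • δ), p s))
        (fderiv ℝ (RR g' L') (Y x, p s) (fderiv ℝ Y x δ, 0)) 0 :=
      HasFDerivAt.comp_hasDerivAt_of_eq (f := fun a : ℝ => (Y (x + a • δ), p s))
        (l := RR g' L') (0 : ℝ) m2.hasFDerivAt (k4.prodMk (hasDerivAt_const (0 : ℝ) (p s)))
        (by simp)
    have k6 : dd H (δ, 0) (x, s) = fderiv ℝ (RR g' L') (Y x, p s) (fderiv ℝ Y x δ, 0) -
        fderiv ℝ (RR g L) (x, p s) (δ, 0) := k2.unique (k5.sub k3)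
    rw [k6, h.fderiv_RR_left hx hpS, h'.fderiv_RR_left hYx hpS]
    have k7 : rho g L x (p s) = t := by
      rw [rho, hLt]
      simp only [map_smul, smul_apply, smul_eq_mul, hgcc, mul_one]
      exact Real.sqrt_mul_self ht.le
    rw [k7, hLt]
    simp only [hV, map_smul, smul_apply, smul_eq_mul]
    have ht0 := ht.ne'
    field_simp
    ring
  have hderivs : ∀ δ, g' (Y x) (deriv V 0) (fderiv ℝ Y x δ) = g x v2 δ ∧
      g' (Y x) (deriv (deriv V) 0) (fderiv ℝ Y x δ) = - g x v1 δ := by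
    intro δ
    obtain ⟨-, m1, m2, -⟩ := deriv3_bil (B := g x) (B' := g' (Y x)) (c := c) (V := V)
      hcc.contDiffAt hVc δ (fderiv ℝ Y x δ) (hphi δ)
    obtain ⟨n1, n2⟩ := jets_comm2 (δ := δ) (hHc x hx)
      (by filter_upwards [hball] with z hz using (hzero z hz).1)
      (by filter_upwards [hball] with z hz using (hzero z hz).2)
    rw [n1, hd1] at m1
    rw [n2, hd2] at m2
    simp only [Real.sin_zero, Real.cos_zero, neg_zero, zero_smul, zero_add, one_smul,
      add_zero, neg_smul, map_neg, neg_apply] at m1 m2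
    exact ⟨by linarith, by linarith⟩
  obtain ⟨u1, u2, -⟩ := unit3 (h'.symm _ hYM) hVc (Eventually.of_forall hVu)
  rw [hV0'] at u1 u2
  exact ⟨deriv V 0, deriv (deriv V) 0, fun δ => (hderivs δ).1, fun δ => (hderivs δ).2, u1, u2⟩

end Simple

end Pool.Agent.W5h72.BR
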