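import Pool.Agent.W5h72.BR.Tp2

/-!
# Transport along the ellipsoids with two foci on the boundary
-/

open Set Metric Filter Topology
open scoped ContDiff RealInnerProductSpace

noncomputable section

set_option maxSynthPendingDepth 3

namespace Pool.Agent.W5h72.BR

variable {E : Type*} [NormedAddCommGroup E] [InnerProductSpace ℝ E] [FiniteDimensional ℝ E]

namespace Simple

variable {g : E → E →L[ℝ] E →L[ℝ] ℝ} {e L : E → E → E} {b1 b2 : E}

omit [FiniteDimensional ℝ E] in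
lemma ud_unit (h : Simple g e L) {x b : E} (hx : ‖x‖ < 1) (hb : b ∈ sphere (0 : E) 1) :
    g x (ud g L x b) (ud g L x b) = 1 :=
  h.unit_dir (mem_of_norm_lt hx) (mem_of_sphere hb) (ne_of_sphere hx hb)

omit [FiniteDimensional ℝ E] in
lemma L_eq_ud (h : Simple g e L) {x b : E} (hx : ‖x‖ < 1) (hb : b ∈ sphere (0 : E) 1) :
    L x b = rho g L x b • ud g L x b := by
  have hr := h.rho_pos (mem_of_norm_lt hx) (mem_of_sphere hb) (ne_of_sphere hx hb)
  rw [ud, smul_smul, mul_inv_cancel₀ hr.ne', one_smul]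

omit [FiniteDimensional ℝ E] in
/-- the derivative of the distance in terms of the unit vector -/
lemma hasFDerivAt_rho_ud (h : Simple g e L) {x b : E} (hx : ‖x‖ < 1)
    (hb : b ∈ sphere (0 : E) 1) :
    HasFDerivAt (rho g L b) (-(g x (ud g L x b))) x := by
  have hxM := mem_of_norm_lt hx
  have hbM := mem_of_sphere hb
  refine (h.hasFDerivAt_rho hbM hxM (ne_of_sphere hx hb).symm).congr_fderiv ?_
  rw [ud, map_smul, h.rho_symm hbM hxM, neg_smul]

omit [FiniteDimensional ℝ E] in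
/-- the two directions are not equal -/
lemma ud_lt (h : Simple g e L) {x : E} (hx : ‖x‖ < 1) (hb1 : b1 ∈ sphere (0 : E) 1)
    (hb2 : b2 ∈ sphere (0 : E) 1) (hne : b1 ≠ b2) :
    g x (ud g L x b1) (ud g L x b2) < 1 := by
  have hxM := mem_of_norm_lt hx
  have h1 := h.ud_unit hx hb1
  have h2 := h.ud_unit hx hb2
  have r1 := h.rho_pos hxM (mem_of_sphere hb1) (ne_of_sphere hx hb1)
  have r2 := h.rho_pos hxM (mem_of_sphere hb2) (ne_of_sphere hx hb2)
  by_contra hcon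
  push Not at hcon
  have h3 : ud g L x b1 - ud g L x b2 = 0 := by
    by_contra h0
    have h4 := h.pos x hxM _ h0
    simp only [map_sub, sub_apply] at h4
    rw [h1, h2, h.symm x hxM (ud g L x b2) (ud g L x b1)] at h4
    linarith
  have h4 : L x b2 = (rho g L x b2 * (rho g L x b1)⁻¹) • L x b1 := by
    rw [h.L_eq_ud hx hb2, ← sub_eq_zero.1 h3, ud, smul_smul]
  exact hne (h.exit_unique hxM hb1 hb2 (ne_of_sphere hx hb1) (ne_of_sphere hx hb2)
    (by positivity) h4).symm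

/-- the two directions are opposite only on the geodesic -/
lemma ud_gt (h : Simple g e L) {x : E} (hx : ‖x‖ < 1) (hb1 : b1 ∈ sphere (0 : E) 1)
    (hb2 : b2 ∈ sphere (0 : E) 1) (hxs : x ∉ seg g b1 b2) :
    -1 < g x (ud g L x b1) (ud g L x b2) := by
  have hxM := mem_of_norm_lt hx
  have h1 := h.ud_unit hx hb1
  have h2 := h.ud_unit hx hb2
  have r1 := h.rho_pos hxM (mem_of_sphere hb1) (ne_of_sphere hx hb1)
  have r2 := h.rho_pos hxM (mem_of_sphere hb2) (ne_of_sphere hx hb2)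
  by_contra hcon
  push Not at hcon
  have h3 : ud g L x b1 + ud g L x b2 = 0 := by
    by_contra h0
    have h4 := h.pos x hxM _ h0
    simp only [map_add, add_apply] at h4
    rw [h1, h2, h.symm x hxM (ud g L x b2) (ud g L x b1)] at h4
    linarith
  have hu0 : ud g L x b1 ≠ 0 := by
    intro h0
    rw [h0] at h1
    simp at h1
  have h5 : ext L x (ud g L x b1) = b1 := h.ext_eq hx hu0 hb1 r1 (h.L_eq_ud hx hb1)
  have h6 : ext L x (-ud g L x b1) = b2 := by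
    refine h.ext_eq hx (neg_ne_zero.2 hu0) hb2 r2 ?_
    rw [neg_eq_of_add_eq_zero_right h3]
    exact h.L_eq_ud hx hb2
  have h7 := h.ext_neg hx hu0
  rw [h5, h6] at h7
  exact hxs h7

omit [FiniteDimensional ℝ E] in
/-- points of other geodesics from `b1` -/
lemma ray_notMem (h : Simple g e L) (hb1 : b1 ∈ sphere (0 : E) 1) (hb2 : b2 ∈ sphere (0 : E) 1)
    {q : E} (hq : q ∈ sphere (0 : E) 1) (hb1q : b1 ≠ q) (hb2q : b2 ≠ q) {t : ℝ}
    (ht : t ∈ Ioo (0 : ℝ) 1) : e b1 (t • L b1 q) ∉ seg g b1 b2 := by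
  intro h1
  have hb1M := mem_of_sphere hb1
  have hqM := mem_of_sphere hq
  have hy := h.pt_interior hb1M hqM hb1q ht
  exact hb2q (h.exit_uniq hb1 hb2 hq (ne_of_sphere hy hb1) h1
    ((h.mem_seg hb1M hqM).2 ⟨t, Ioo_subset_Icc_self ht, rfl⟩))

omit [FiniteDimensional ℝ E] in
/-- the derivative of the distance from `b2` along a geodesic from `b1` -/
lemma ray_deriv (h : Simple g e L) (hb1 : b1 ∈ sphere (0 : E) 1) (hb2 : b2 ∈ sphere (0 : E) 1)
    {q : E} (hq : q ∈ sphere (0 : E) 1) (hb1q : b1 ≠ q) {t : ℝ} (ht : t ∈ Ioo (0 : ℝ) 1) :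
    HasDerivAt (fun t : ℝ => rho g L b2 (e b1 (t • L b1 q)))
      (rho g L b1 q * g (e b1 (t • L b1 q)) (ud g L (e b1 (t • L b1 q)) b1)
        (ud g L (e b1 (t • L b1 q)) b2)) t := by
  have hb1M := mem_of_sphere hb1
  have hqM := mem_of_sphere hq
  have hy := h.pt_interior hb1M hqM hb1q ht
  have hL := h.L_pt hb1M hqM (Ioo_subset_Icc_self ht)
  have hr := h.rho_pt hb1M hqM (Ioo_subset_Icc_self ht)
  obtain ⟨y, hydef⟩ : ∃ y, y = e b1 (t • L b1 q) := ⟨_, rfl⟩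
  rw [← hydef] at hy hL hr
  have hyM := mem_of_norm_lt hy
  have hr0 := h.rho_pos hb1M hqM hb1q
  have hl : HasDerivAt (fun t : ℝ => t • L b1 q) (L b1 q) t := by
    simpa using (hasDerivAt_id t).smul_const (L b1 q)
  have h1 : HasDerivAt (fun t : ℝ => e b1 (t • L b1 q)) (fderiv ℝ (e b1) (t • L b1 q) (L b1 q)) t :=
    HasFDerivAt.comp_hasDerivAt (f := fun t : ℝ => t • L b1 q) (l := e b1) t
      (h.hasFDerivAt_e b1 _) hl
  have h2 : fderiv ℝ (e b1) (t • L b1 q) (L b1 q) = -(t⁻¹ • L y b1) := by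
    have h3 := h.De_L hb1M hyM
    rw [hL, map_smul] at h3
    rw [← smul_neg, ← h3, smul_smul, inv_mul_cancel₀ ht.1.ne', one_smul]
  rw [h2] at h1
  have h3 := HasFDerivAt.comp_hasDerivAt_of_eq (f := fun t : ℝ => e b1 (t • L b1 q))
    (l := rho g L b2) t (h.hasFDerivAt_rho_ud hy hb2) h1 hydef
  rw [← hydef]
  refine h3.congr_deriv ?_
  have h4 : L y b1 = (t * rho g L b1 q) • ud g L y b1 := by
    rw [← hr, h.rho_symm hb1M hyM]
    exact h.L_eq_ud hy hb1
  have h5 := h.symm y hyM (ud g L y b2) (ud g L y b1)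
  rw [h4]
  simp only [neg_apply, map_neg, map_smul, smul_eq_mul, h5]
  have := ht.1.ne'
  field_simp

/-- the sum of the distances increases along the geodesics from `b1` -/
lemma ray_mono (h : Simple g e L) (hb1 : b1 ∈ sphere (0 : E) 1) (hb2 : b2 ∈ sphere (0 : E) 1)
    {q : E} (hq : q ∈ sphere (0 : E) 1) (hb1q : b1 ≠ q) (hb2q : b2 ≠ q) :
    StrictMonoOn (fun t : ℝ => t * rho g L b1 q + rho g L b2 (e b1 (t • L b1 q)))
      (Icc (0 : ℝ) 1) := by
  have hb1M := mem_of_sphere hb1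
  have hqM := mem_of_sphere hq
  refine strictMonoOn_of_deriv_pos (convex_Icc 0 1) ?_ fun t ht => ?_
  · have h1 : Continuous fun t : ℝ => e b1 (t • L b1 q) :=
      (h.e_smooth_right b1).continuous.comp (by fun_prop)
    exact ((continuous_id.mul continuous_const).add
      ((h.continuous_rho b2).comp h1)).continuousOn
  · rw [interior_Icc] at ht
    have h1 : HasDerivAt (fun t : ℝ => t * rho g L b1 q) (rho g L b1 q) t := by
      simpa using (hasDerivAt_id t).mul_const (rho g L b1 q)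
    have h2 := h1.add (h.ray_deriv hb1 hb2 hq hb1q ht)
    have h3 : HasDerivAt (fun t : ℝ => t * rho g L b1 q + rho g L b2 (e b1 (t • L b1 q))) _ t := h2
    rw [h3.deriv]
    have h4 := h.ud_gt (h.pt_interior hb1M hqM hb1q ht) hb1 hb2
      (h.ray_notMem hb1 hb2 hq hb1q hb2q ht)
    have h5 := h.rho_pos hb1M hqM hb1q
    nlinarith

/-- a function which is stationary along the ellipsoids with foci `b1` and `b2` and equal to the
sum of the distances on the boundary -/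
lemma ell_transport (h : Simple g e L) (hn : 1 < Module.finrank ℝ E)
    (hb1 : b1 ∈ sphere (0 : E) 1) (hb2 : b2 ∈ sphere (0 : E) 1) {U : E → ℝ}
    (hUder : ∀ x : E, ‖x‖ < 1 → x ∉ seg g b1 b2 → ∃ D : E →L[ℝ] ℝ, HasFDerivAt U D x ∧
      ∀ δ, g x (ud g L x b1 + ud g L x b2) δ = 0 → D δ = 0)
    (hUb : ∀ q ∈ sphere (0 : E) 1, b1 ≠ q → b2 ≠ q →
      Tendsto U (𝓝[ball 0 1] q) (𝓝 (rho g L b1 q + rho g L b2 q)))
    {x : E} (hx : ‖x‖ < 1) (hxs : x ∉ seg g b1 b2) :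
    U x = rho g L b1 x + rho g L b2 x := by
  have hb1M := mem_of_sphere hb1
  have hb2M := mem_of_sphere hb2
  obtain ⟨s, hs⟩ : ∃ s, s = rho g L b1 x + rho g L b2 x := ⟨_, rfl⟩
  have hds : rho g L b1 b2 < s := by
    by_contra hcon
    push Not at hcon
    rw [hs] at hcon
    exact hxs (h.mem_seg_of_rho hb1 hb2 hx hcon)
  obtain ⟨q0, hq0, t0, ht0, hx1, hx2⟩ := h.exit_seg hb1M hx (ne_of_sphere hx hb1).symm
  have hq0M := mem_of_sphere hq0
  obtain ⟨η, hη, hqη, s1, hs1, hbs⟩ := great_circle hn hq0 hb1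
  set Qc : ℝ → E := fun s => Real.cos s • q0 + Real.sin s • η with hQc
  have hQS : ∀ s, Qc s ∈ sphere (0 : E) 1 := by
    intro s
    have h1 : ‖Qc s‖ ^ 2 = 1 := by
      simp only [hQc]
      rw [norm_add_sq_real, norm_smul, norm_smul, norm_of_sphere hq0, hη, inner_smul_left,
        inner_smul_right, hqη]
      simp only [Real.norm_eq_abs, mul_one, sq_abs, mul_zero, add_zero]
      exact Real.cos_sq_add_sin_sq s
    have h2 : ‖Qc s‖ = 1 := by nlinarith [norm_nonneg (Qc s)]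
    simpa using h2
  have hQ0 : Qc 0 = q0 := by simp [hQc]
  have hQcc : ContDiff ℝ ∞ Qc :=
    (Real.contDiff_cos.smul contDiff_const).add (Real.contDiff_sin.smul contDiff_const)
  have hb1q0 : b1 ≠ q0 := by
    rintro rfl
    rw [h.L_self hb1M, smul_zero, h.e_zero hb1M] at hx1
    exact ne_of_sphere hx hq0 hx1
  have hb2q0 : b2 ≠ q0 := by
    rintro rfl
    exact hxs ((h.mem_seg hb1M hq0M).2 ⟨t0, Ioo_subset_Icc_self ht0, hx1⟩)
  -- the value on the boundary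
  set φ : ℝ → ℝ := fun σ => rho g L b1 (Qc σ) + rho g L b2 (Qc σ) with hφ
  have hφc : Continuous φ := ((h.continuous_rho b1).comp hQcc.continuous).add
    ((h.continuous_rho b2).comp hQcc.continuous)
  have hφne : ∀ σ, s ≤ φ σ → b1 ≠ Qc σ ∧ b2 ≠ Qc σ := by
    intro σ hσ
    constructor
    · intro h0
      simp only [hφ] at hσ
      rw [← h0, h.rho_self hb1M, h.rho_symm hb2M hb1M] at hσ
      linarith
    · intro h0
      simp only [hφ] at hσ
      rw [← h0, h.rho_self hb2M] at hσ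
      linarith
  set k : ℝ → ℝ → ℝ := fun σ t => t * rho g L b1 (Qc σ) + rho g L b2 (e b1 (t • L b1 (Qc σ)))
    with hk
  have hk0 : ∀ σ, k σ 0 = rho g L b1 b2 := by
    intro σ
    simp only [hk]
    rw [zero_mul, zero_smul, h.e_zero hb1M, zero_add, h.rho_symm hb2M hb1M]
  have hk1 : ∀ σ, k σ 1 = φ σ := by
    intro σ
    simp only [hk, hφ]
    rw [one_mul, one_smul, h.e_L hb1M (mem_of_sphere (hQS σ))]
  have hkc : Continuous fun w : ℝ × ℝ => k w.1 w.2 := by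
    have h0 : Continuous fun w : ℝ × ℝ => Qc w.1 := hQcc.continuous.comp continuous_fst
    have h1 : Continuous fun w : ℝ × ℝ => e b1 (w.2 • L b1 (Qc w.1)) :=
      (h.e_smooth_right b1).continuous.comp
        (continuous_snd.smul ((h.L_smooth_right b1).continuous.comp h0))
    exact (continuous_snd.mul ((h.continuous_rho b1).comp h0)).add
      ((h.continuous_rho b2).comp h1)
  have hmono : ∀ σ, s ≤ φ σ → StrictMonoOn (k σ) (Icc (0 : ℝ) 1) := fun σ hσ =>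
    h.ray_mono hb1 hb2 (hQS σ) (hφne σ hσ).1 (hφne σ hσ).2
  -- the parameter
  have hex : ∀ σ, s < φ σ → ∃ t, t ∈ Ioo (0 : ℝ) 1 ∧ k σ t = s := by
    intro σ hσ
    have h1 : ContinuousOn (k σ) (Icc 0 1) :=
      (hkc.comp (continuous_const.prodMk continuous_id)).continuousOn
    obtain ⟨t, ht, hts⟩ := intermediate_value_Icc zero_le_one h1
      (show s ∈ Icc (k σ 0) (k σ 1) by rw [hk0, hk1]; exact ⟨hds.le, hσ.le⟩)
    refine ⟨t, ⟨lt_of_le_of_ne ht.1 ?_, lt_of_le_of_ne ht.2 ?_⟩, hts⟩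
    · rintro rfl
      rw [hk0] at hts
      linarith
    · rintro rfl
      rw [hk1] at hts
      linarith
  set τ : ℝ → ℝ := fun σ => Classical.epsilon fun t => t ∈ Ioo (0 : ℝ) 1 ∧ k σ t = s with hτ
  have hτs : ∀ σ, s < φ σ → τ σ ∈ Ioo (0 : ℝ) 1 ∧ k σ (τ σ) = s := fun σ hσ =>
    Classical.epsilon_spec (hex σ hσ)
  have hτu : ∀ σ, s < φ σ → ∀ t ∈ Icc (0 : ℝ) 1, k σ t = s → t = τ σ := by
    intro σ hσ t ht hts
    obtain ⟨h1, h2⟩ := hτs σ hσ
    exact (hmono σ hσ.le).injOn ht (Ioo_subset_Icc_self h1) (hts.trans h2.symm)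
  have hkt0 : k 0 t0 = s := by
    simp only [hk, hQ0]
    rw [← hx1, hs]
    congr 1
    conv_rhs => rw [hx1]
    rw [h.rho_pt hb1M hq0M (Ioo_subset_Icc_self ht0)]
  have hφ0 : s < φ 0 := by
    have h1 := h.ray_mono hb1 hb2 (q := Qc 0) (by rw [hQ0]; exact hq0) (by rw [hQ0]; exact hb1q0)
      (by rw [hQ0]; exact hb2q0) (Ioo_subset_Icc_self ht0) ⟨zero_le_one, le_rfl⟩ ht0.2
    have h2 : k 0 t0 < k 0 1 := h1
    rwa [hkt0, hk1] at h2
  have hτ0 : τ 0 = t0 := (hτu 0 hφ0 t0 (Ioo_subset_Icc_self ht0) hkt0).symm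
  -- the curve of points
  set X : ℝ → E := fun σ => e b1 (τ σ • L b1 (Qc σ)) with hX
  have hX0 : X 0 = x := by
    simp only [hX]
    rw [hτ0, hQ0, ← hx1]
  have hXb : ∀ σ, s < φ σ → ‖X σ‖ < 1 ∧ X σ ∉ seg g b1 b2 ∧
      rho g L b1 (X σ) + rho g L b2 (X σ) = s := by
    intro σ hσ
    obtain ⟨n1, n2⟩ := hφne σ hσ.le
    obtain ⟨h1, h2⟩ := hτs σ hσ
    refine ⟨h.pt_interior hb1M (mem_of_sphere (hQS σ)) n1 h1,
      h.ray_notMem hb1 hb2 (hQS σ) n1 n2 h1, ?_⟩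
    simp only [hX]
    rw [h.rho_pt hb1M (mem_of_sphere (hQS σ)) (Ioo_subset_Icc_self h1)]
    exact h2
  -- differentiability of the parameter
  have hτd : ∀ σ, s < φ σ → DifferentiableAt ℝ τ σ := by
    intro σ hσ
    obtain ⟨n1, n2⟩ := hφne σ hσ.le
    obtain ⟨h1, h2⟩ := hτs σ hσ
    have hqM := mem_of_sphere (hQS σ)
    have hyb : ‖e b1 (τ σ • L b1 (Qc σ))‖ < 1 := h.pt_interior hb1M hqM n1 h1
    set Θ : ℝ × ℝ → ℝ × ℝ := fun w => (w.1, k w.1 w.2) with hΘ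
    have c0 : ContDiffAt ℝ ∞ (fun w : ℝ × ℝ => Qc w.1) (σ, τ σ) :=
      (hQcc.comp contDiff_fst).contDiffAt
    have c1 : ContDiffAt ℝ ∞ (fun w : ℝ × ℝ => rho g L b1 (Qc w.1)) (σ, τ σ) :=
      ContDiffAt.comp (σ, τ σ) (f := fun w : ℝ × ℝ => (b1, Qc w.1))
        (g := fun w : E × E => rho g L w.1 w.2) (h.contDiffAt_rho hb1M hqM n1)
        (contDiffAt_const.prodMk c0)
    have c2 : ContDiffAt ℝ ∞ (fun w : ℝ × ℝ => e b1 (w.2 • L b1 (Qc w.1))) (σ, τ σ) := by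
      have h3 : ContDiff ℝ ∞ (fun w : ℝ × ℝ => e b1 (w.2 • L b1 (Qc w.1))) :=
        (h.e_smooth_right b1).comp
          (contDiff_snd.smul ((h.L_smooth_right b1).comp (hQcc.comp contDiff_fst)))
      exact h3.contDiffAt
    have c3 : ContDiffAt ℝ ∞ (fun w : ℝ × ℝ => rho g L b2 (e b1 (w.2 • L b1 (Qc w.1))))
        (σ, τ σ) :=
      ContDiffAt.comp (σ, τ σ) (f := fun w : ℝ × ℝ => (b2, e b1 (w.2 • L b1 (Qc w.1))))
        (g := fun w : E × E => rho g L w.1 w.2)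
        (h.contDiffAt_rho hb2M (mem_of_norm_lt hyb) (ne_of_sphere hyb hb2).symm)
        (contDiffAt_const.prodMk c2)
    have hΘc : ContDiffAt ℝ ∞ Θ (σ, τ σ) :=
      contDiffAt_fst.prodMk ((contDiffAt_snd.mul c1).add c3)
    have hΘd : HasFDerivAt Θ (fderiv ℝ Θ (σ, τ σ)) (σ, τ σ) :=
      (hΘc.differentiableAt (by simp)).hasFDerivAt
    obtain ⟨kd, hkd0, hkd⟩ : ∃ kd : ℝ, 0 < kd ∧ HasDerivAt (k σ) kd (τ σ) := by
      have h3 : HasDerivAt (fun t : ℝ => t * rho g L b1 (Qc σ)) (rho g L b1 (Qc σ)) (τ σ) := by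
        simpa using (hasDerivAt_id (τ σ)).mul_const (rho g L b1 (Qc σ))
      have h4 := h3.add (h.ray_deriv hb1 hb2 (hQS σ) n1 h1)
      refine ⟨_, ?_, h4⟩
      have h5 := h.ud_gt hyb hb1 hb2 (h.ray_notMem hb1 hb2 (hQS σ) n1 n2 h1)
      have h6 := h.rho_pos hb1M hqM n1
      nlinarith
    have hinj : ∀ δ, fderiv ℝ Θ (σ, τ σ) δ = 0 → δ = 0 := by
      rintro ⟨a, c⟩ hδ
      have h3 : HasFDerivAt (fun v : ℝ × ℝ => v.1)
          ((ContinuousLinearMap.fst ℝ ℝ ℝ).comp (fderiv ℝ Θ (σ, τ σ))) (σ, τ σ) :=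
        HasFDerivAt.comp (σ, τ σ) (f := Θ) (g := fun v : ℝ × ℝ => v.1) hasFDerivAt_fst hΘd
      have h4 := congrArg (fun f : ℝ × ℝ →L[ℝ] ℝ => f (a, c)) (h3.unique hasFDerivAt_fst)
      rw [ContinuousLinearMap.comp_apply, hδ, map_zero] at h4
      replace h4 : (0 : ℝ) = a := h4
      subst h4
      have hl : HasDerivAt (fun r : ℝ => τ σ + r * c) c 0 := by
        simpa using ((hasDerivAt_id (0 : ℝ)).mul_const c).const_add (τ σ)
      have hl2 : HasDerivAt (fun r : ℝ => (σ, τ σ + r * c)) ((0 : ℝ), c) 0 :=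
        (hasDerivAt_const (0 : ℝ) σ).prodMk hl
      have h5 := HasFDerivAt.comp_hasDerivAt_of_eq (f := fun r : ℝ => (σ, τ σ + r * c))
        (l := Θ) (0 : ℝ) hΘd hl2 (by simp)
      rw [hδ] at h5
      have h6 := HasFDerivAt.comp_hasDerivAt_of_eq (f := fun r : ℝ => Θ (σ, τ σ + r * c))
        (l := fun v : ℝ × ℝ => v.2) (0 : ℝ) hasFDerivAt_snd h5 rfl
      have h7 : HasDerivAt (fun r : ℝ => k σ (τ σ + r * c)) 0 0 :=
        HasDerivAt.congr_deriv (f := fun r : ℝ => k σ (τ σ + r * c)) h6 rfl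
      have h8 : HasDerivAt (fun r : ℝ => k σ (τ σ + r * c)) (kd * c) 0 :=
        HasDerivAt.comp_of_eq (h₂ := k σ) (h := fun r : ℝ => τ σ + r * c) (0 : ℝ) hkd hl (by simp)
      have h9 := h7.unique h8
      have h10 : c = 0 := by
        rcases mul_eq_zero.1 h9.symm with h11 | h11
        · exact absurd h11 hkd0.ne'
        · exact h11
      rw [h10]
      rfl
    obtain ⟨ℓ, hℓc, hℓ0, hℓ1, -⟩ := local_inv hΘc hinj
    have hΘ0 : Θ (σ, τ σ) = (σ, s) := by simp only [hΘ, h2]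
    rw [hΘ0] at hℓc hℓ0 hℓ1
    set τ' : ℝ → ℝ := fun r => (ℓ (r, s)).2 with hτ'
    have hic : ContDiffAt ℝ ∞ (fun r : ℝ => (r, s)) σ := contDiffAt_id.prodMk contDiffAt_const
    have hτ'c : ContDiffAt ℝ ∞ τ' σ :=
      ContDiffAt.comp σ (f := fun r : ℝ => (r, s)) (g := fun v => (ℓ v).2) hℓc.snd hic
    have hτ'0 : τ' σ = τ σ := by simp only [hτ', hℓ0]
    have hit : Tendsto (fun r : ℝ => (r, s)) (𝓝 σ) (𝓝 (σ, s)) := hic.continuousAt
    have e1 : ∀ᶠ r in 𝓝 σ, s < φ r := hφc.continuousAt.eventually_const_lt hσ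
    have e2 : ∀ᶠ r in 𝓝 σ, τ' r ∈ Ioo (0 : ℝ) 1 :=
      hτ'c.continuousAt.eventually (isOpen_Ioo.mem_nhds (by rw [hτ'0]; exact h1))
    have e3 : τ =ᶠ[𝓝 σ] τ' := by
      filter_upwards [e1, e2, hit.eventually hℓ1] with r k1 k2 k3
      have m1 : (ℓ (r, s)).1 = r := congrArg Prod.fst k3
      have m2 : k (ℓ (r, s)).1 (ℓ (r, s)).2 = s := congrArg Prod.snd k3
      rw [m1] at m2
      exact (hτu r k1 _ (Ioo_subset_Icc_self k2) m2).symm
    exact (hτ'c.differentiableAt (by simp)).congr_of_eventuallyEq e3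
  have hXd : ∀ σ, s < φ σ → ∃ X', HasDerivAt X X' σ := by
    intro σ hσ
    have h1 : HasDerivAt (fun s => L b1 (Qc s)) (fderiv ℝ (L b1) (Qc σ) (deriv Qc σ)) σ :=
      HasFDerivAt.comp_hasDerivAt (f := Qc) (l := L b1) σ (h.hasFDerivAt_L b1 (Qc σ))
        (hQcc.differentiable (by simp) σ).hasDerivAt
    have h2 := (hτd σ hσ).hasDerivAt.smul h1
    exact ⟨_, HasFDerivAt.comp_hasDerivAt (f := fun s => τ s • L b1 (Qc s)) (l := e b1) σ
      (h.hasFDerivAt_e b1 _) h2⟩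
  have hUd : ∀ σ, s < φ σ → HasDerivAt (fun σ => U (X σ)) 0 σ := by
    intro σ hσ
    obtain ⟨hXs, hXn, hXr⟩ := hXb σ hσ
    obtain ⟨X', hX'⟩ := hXd σ hσ
    have hev : ∀ᶠ σ' in 𝓝 σ, s < φ σ' := hφc.continuousAt.eventually_const_lt hσ
    have h1 : HasDerivAt (fun s => rho g L b1 (X s)) ((-(g (X σ) (ud g L (X σ) b1))) X') σ :=
      HasFDerivAt.comp_hasDerivAt (f := X) (l := rho g L b1) σ
        (h.hasFDerivAt_rho_ud hXs hb1) hX'
    have h1' : HasDerivAt (fun s => rho g L b2 (X s)) ((-(g (X σ) (ud g L (X σ) b2))) X') σ :=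
      HasFDerivAt.comp_hasDerivAt (f := X) (l := rho g L b2) σ
        (h.hasFDerivAt_rho_ud hXs hb2) hX'
    have h2 : (fun s => rho g L b1 (X s) + rho g L b2 (X s)) =ᶠ[𝓝 σ] fun _ => s := by
      filter_upwards [hev] with σ' hσ' using (hXb σ' hσ').2.2
    have h3 := (h1.add h1').unique ((hasDerivAt_const σ s).congr_of_eventuallyEq h2)
    have h4 : g (X σ) (ud g L (X σ) b1 + ud g L (X σ) b2) X' = 0 := by
      rw [map_add, add_apply]
      simp only [neg_apply] at h3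
      linarith
    obtain ⟨D, hD, hD0⟩ := hUder _ hXs hXn
    have h5 := HasFDerivAt.comp_hasDerivAt (f := X) (l := U) σ hD hX'
    rw [hD0 X' h4] at h5
    exact h5
  -- the first time at which the boundary is reached
  set T : Set ℝ := {σ | 0 ≤ σ ∧ φ σ ≤ s} with hT
  have hTc : IsClosed T := (isClosed_Ici (a := (0 : ℝ))).inter (isClosed_le hφc continuous_const)
  have hTne : T.Nonempty := by
    refine ⟨s1, hs1, ?_⟩
    simp only [hφ]
    rw [show Qc s1 = b1 from hbs.symm, h.rho_self hb1M, h.rho_symm hb2M hb1M, zero_add]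
    exact hds.le
  have hTb : BddBelow T := ⟨0, fun s hs => hs.1⟩
  have hmem : sInf T ∈ T := hTc.csInf_mem hTne hTb
  set σ0 := sInf T with hσ0
  have hlt : ∀ σ, 0 ≤ σ → σ < σ0 → s < φ σ := by
    intro σ h1 h2
    by_contra hcon
    push Not at hcon
    exact absurd (csInf_le hTb (show σ ∈ T from ⟨h1, hcon⟩)) (not_le.2 h2)
  have hσ0pos : 0 < σ0 := by
    refine lt_of_le_of_ne hmem.1 fun h0 => ?_
    have := hmem.2
    rw [← h0] at this
    linarith
  have hφσ0 : φ σ0 = s := by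
    refine le_antisymm hmem.2 ?_
    have h1 : Tendsto φ (𝓝[<] σ0) (𝓝 (φ σ0)) := (hφc.tendsto σ0).mono_left nhdsWithin_le_nhds
    refine ge_of_tendsto h1 ?_
    filter_upwards [Ioo_mem_nhdsLT hσ0pos] with σ hσ
    exact (hlt σ hσ.1.le hσ.2).le
  have hconst : ∀ σ, 0 ≤ σ → σ < σ0 → U (X σ) = U x := by
    intro σ h1 h2
    have h3 := constant_of_has_deriv_right_zero (f := fun s => U (X s))
      (a := 0) (b := σ)
      (fun s' hs' => ((hUd s' (hlt s' hs'.1 (hs'.2.trans_lt h2))).continuousAt).continuousWithinAt)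
      (fun s' hs' => (hUd s' (hlt s' hs'.1 (hs'.2.trans h2))).hasDerivWithinAt) σ ⟨h1, le_rfl⟩
    simp only [hX0] at h3
    exact h3
  -- the limit
  obtain ⟨m1, m2⟩ := hφne σ0 hφσ0.ge
  have hτlim : Tendsto τ (𝓝[<] σ0) (𝓝 1) := by
    refine (isCompact_Icc (a := (0 : ℝ)) (b := 1)).tendsto_nhds_of_unique_mapClusterPt ?_ ?_
    · filter_upwards [Ioo_mem_nhdsLT hσ0pos] with σ hσ
      exact Ioo_subset_Icc_self (hτs σ (hlt σ hσ.1.le hσ.2)).1
    · intro t ht hcl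
      obtain ⟨V, hV, hVt⟩ := mapClusterPt_iff_ultrafilter.1 hcl
      have hVσ : Tendsto (fun σ : ℝ => σ) V (𝓝 σ0) :=
        tendsto_id'.2 (hV.trans nhdsWithin_le_nhds)
      have h1 : Tendsto (fun σ => k σ (τ σ)) V (𝓝 (k σ0 t)) :=
        (hkc.tendsto (σ0, t)).comp (hVσ.prodMk_nhds hVt)
      have h2 : ∀ᶠ σ in (V : Filter ℝ), k σ (τ σ) = s := by
        have h3 : ∀ᶠ σ in 𝓝[<] σ0, k σ (τ σ) = s := by
          filter_upwards [Ioo_mem_nhdsLT hσ0pos] with σ hσ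
          exact (hτs σ (hlt σ hσ.1.le hσ.2)).2
        exact hV h3
      have h3 : k σ0 t = s := by
        refine tendsto_nhds_unique h1 (tendsto_const_nhds.congr' ?_)
        filter_upwards [h2] with σ hσ using hσ.symm
      have h4 : k σ0 1 = s := by rw [hk1, hφσ0]
      exact (hmono σ0 hφσ0.ge).injOn ht ⟨zero_le_one, le_rfl⟩ (h3.trans h4.symm)
  have hXlim : Tendsto X (𝓝[<] σ0) (𝓝[ball 0 1] (Qc σ0)) := by
    refine tendsto_nhdsWithin_iff.2 ⟨?_, ?_⟩
    · have h1 : Tendsto (fun σ => τ σ • L b1 (Qc σ)) (𝓝[<] σ0) (𝓝 ((1 : ℝ) • L b1 (Qc σ0))) := by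
        refine hτlim.smul ?_
        exact (((h.L_smooth_right b1).continuous.comp hQcc.continuous).tendsto σ0).mono_left
          nhdsWithin_le_nhds
      have h2 := ((h.e_smooth_right b1).continuous.tendsto ((1 : ℝ) • L b1 (Qc σ0))).comp h1
      rw [one_smul, h.e_L hb1M (mem_of_sphere (hQS σ0))] at h2
      exact h2
    · filter_upwards [Ioo_mem_nhdsLT hσ0pos] with σ hσ
      have := (hXb σ (hlt σ hσ.1.le hσ.2)).1
      simpa using this
  have hlim := (hUb _ (hQS σ0) m1 m2).comp hXlim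
  have hfin : U x = φ σ0 := by
    refine tendsto_nhds_unique (l := 𝓝[<] σ0) (tendsto_const_nhds.congr' ?_) hlim
    filter_upwards [Ioo_mem_nhdsLT hσ0pos] with σ hσ
    exact (hconst σ hσ.1.le hσ.2).symm
  rw [hfin, hφσ0, hs]

end Simple

end Pool.Agent.W5h72.BR
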