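import Pool.Agent.W5h72.BR.Tp3

/-!
# Jets of order two in two boundary points
-/

open Set Metric Filter Topology
open scoped ContDiff RealInnerProductSpace

noncomputable section

set_option maxSynthPendingDepth 3

namespace Pool.Agent.W5h72.BR

variable {E : Type*} [NormedAddCommGroup E] [InnerProductSpace ℝ E] [FiniteDimensional ℝ E]

namespace Simple

variable {g : E → E →L[ℝ] E →L[ℝ] ℝ} {e L : E → E → E} {b1 b2 : E}

lemma isClosed_seg1 (h : Simple g e L) (hb1 : b1 ∈ sphere (0 : E) 1)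
    (hb2 : b2 ∈ sphere (0 : E) 1) : IsClosed (seg g b1 b2) := by
  have h1 : Continuous fun x : E => (x, (b1, b2)) := by fun_prop
  have h2 := h.isClosed_seg.preimage h1
  convert h2 using 1
  ext x
  simp only [mem_preimage, mem_ofPred_eq]
  exact ⟨fun hx => ⟨hb1, hb2, hx⟩, fun hx => hx.2.2⟩

/-- the complement of a geodesic is dense -/
lemma seg_dense (h : Simple g e L) (hn : 1 < Module.finrank ℝ E) (hb1 : b1 ∈ sphere (0 : E) 1)
    (hb2 : b2 ∈ sphere (0 : E) 1) {x : E} (hx : ‖x‖ < 1) :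
    ∃ y : ℝ → E, ∃ t0 : ℝ, Tendsto y (𝓝[≠] t0) (𝓝 x) ∧ ∀ᶠ t in 𝓝[≠] t0, y t ∉ seg g b1 b2 := by
  have hxM := mem_of_norm_lt hx
  have hb1M := mem_of_sphere hb1
  by_cases hxs : x ∈ seg g b1 b2
  swap
  · exact ⟨fun _ => x, 0, tendsto_const_nhds, Eventually.of_forall fun _ => hxs⟩
  obtain ⟨v, hv1, hv2⟩ := Bas.exists_perp1 hn (h.symm x hxM) (h.pos x hxM) (L x b1)
  have hv0 : v ≠ 0 := by rintro rfl; simp at hv2
  have hLb : L x b1 ≠ 0 := fun h0 =>
    ne_of_sphere hx hb1 ((h.L_eq_zero hxM hb1M).1 h0)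
  obtain ⟨hw, s, hs, hws⟩ := h.ext_spec hx hv0
  obtain ⟨hr, s', hs', hrs⟩ := h.ext_spec hx (neg_ne_zero.2 hv0)
  have hxwr := h.ext_neg hx hv0
  set w := ext L x v with hwdef
  set r := ext L x (-v) with hrdef
  have hwM := mem_of_sphere hw
  have hrM := mem_of_sphere hr
  have hb1w : b1 ≠ w := by
    intro h0
    rw [← h0] at hws
    rw [hws, map_smul, hv2, smul_eq_mul] at hv1
    have : s = 0 := by linarith
    linarith
  have hb1r : b1 ≠ r := by
    intro h0
    rw [← h0] at hrs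
    rw [hrs, map_smul, map_neg, hv2, smul_eq_mul] at hv1
    have : s' = 0 := by linarith
    linarith
  obtain ⟨t0, ht0, hxt⟩ := h.exists_param hw hr hx hxwr
  have hwr : w ≠ r := by
    intro h0
    rw [← h0, h.L_self hwM, smul_zero, h.e_zero hwM] at hxt
    exact ne_of_sphere hx hw hxt
  refine ⟨fun t => e w (t • L w r), t0, ?_, ?_⟩
  · have h1 : Continuous fun t : ℝ => e w (t • L w r) :=
      (h.e_smooth_right w).continuous.comp (by fun_prop)
    have h2 := (h1.tendsto t0).mono_left (nhdsWithin_le_nhds (s := {t0}ᶜ))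
    rwa [← hxt] at h2
  · have h1 : ∀ᶠ t in 𝓝[≠] t0, t ∈ Ioo (0 : ℝ) 1 :=
      nhdsWithin_le_nhds (isOpen_Ioo.mem_nhds ht0)
    filter_upwards [h1, self_mem_nhdsWithin] with t ht hne hmem
    have hy : e w (t • L w r) ∈ seg g w r :=
      (h.mem_seg hwM hrM).2 ⟨t, Ioo_subset_Icc_self ht, rfl⟩
    have hyx : e w (t • L w r) ≠ x := by
      intro h0
      have h2 := h.L_pt hwM hrM (Ioo_subset_Icc_self ht)
      have h3 := h.L_pt hwM hrM (Ioo_subset_Icc_self ht0)
      rw [h0] at h2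
      rw [← hxt] at h3
      rw [h2] at h3
      have h4 : L w r ≠ 0 := fun h0 => hwr ((h.L_eq_zero hwM hrM).1 h0)
      exact hne (smul_left_injective ℝ h4 h3)
    rcases h.two_points hb1 hb2 hw hr hmem hy hxs hxwr hyx with h5 | h5
    · exact hb1w h5
    · exact hb1r h5

end Simple

namespace Bas

variable {g g' : E → E →L[ℝ] E →L[ℝ] ℝ} {e L e' L' : E → E → E} {b : E} {A A' : E →L[ℝ] E}

/-- the boundary values of the matching point -/
lemma full_lim (S : Bas g g' e L e' L' b A A') (hn : 1 < Module.finrank ℝ E) {Y : E → E}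
    (hY : ∀ x : E, ‖x‖ < 1 → Full g g' L L' x b (Y x)) {q0 : E}
    (hq0 : q0 ∈ sphere (0 : E) 1) (hbq0 : b ≠ q0) :
    Tendsto Y (𝓝[ball 0 1] q0) (𝓝 q0) := by
  have hbM := mem_of_sphere S.hb
  have hq0M := mem_of_sphere hq0
  obtain ⟨ξ, hξ1, hξb⟩ := exists_orth hn b
  have hξ0 : ξ ≠ 0 := by rintro rfl; simp at hξ1
  -- the exit points from `b`
  have hqx : ∀ x : E, ‖x‖ < 1 → ∃ q, q ∈ sphere (0 : E) 1 ∧ x ∈ seg g b q := fun x hx => by
    obtain ⟨q, hq, -, hxq⟩ := S.h.exists_exit S.hb hx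
    exact ⟨q, hq, hxq⟩
  set q : E → E := fun x => Classical.epsilon fun q => q ∈ sphere (0 : E) 1 ∧ x ∈ seg g b q with hq
  have hqs : ∀ x : E, ‖x‖ < 1 → q x ∈ sphere (0 : E) 1 ∧ x ∈ seg g b (q x) := fun x hx =>
    Classical.epsilon_spec (hqx x hx)
  have hYs : ∀ x : E, ‖x‖ < 1 → ‖Y x‖ < 1 ∧ Y x ∈ seg g' b (q x) := by
    intro x hx
    obtain ⟨h1, ⟨-, q2, hq2, hxq2, hyq2⟩, -⟩ := hY x hx
    have : q2 = q x := S.h.exit_uniq S.hb hq2 (hqs x hx).1 (ne_of_sphere hx S.hb) hxq2
      (hqs x hx).2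
    rw [this] at hyq2
    exact ⟨h1, hyq2⟩
  have hball : ∀ᶠ x in 𝓝[ball 0 1] q0, ‖x‖ < 1 := by
    filter_upwards [self_mem_nhdsWithin] with x hx
    simpa using hx
  have hid : Tendsto (fun x : E => x) (𝓝[ball 0 1] q0) (𝓝 q0) :=
    tendsto_id'.2 nhdsWithin_le_nhds
  refine (isCompact_closedBall (0 : E) 1).tendsto_nhds_of_unique_mapClusterPt ?_ ?_
  · filter_upwards [hball] with x hx
    exact mem_of_norm_lt (hYs x hx).1
  · intro y hy hcl
    obtain ⟨U, hU, hUt⟩ := mapClusterPt_iff_ultrafilter.1 hcl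
    have hUb : ∀ᶠ x in (U : Filter E), ‖x‖ < 1 := hU hball
    have hUx : Tendsto (fun x : E => x) U (𝓝 q0) := hid.mono_left hU
    obtain ⟨q1, hq1, hqt⟩ : ∃ z ∈ sphere (0 : E) 1, Tendsto q U (𝓝 z) := by
      have h1 : sphere (0 : E) 1 ∈ U.map q := by
        have : ∀ᶠ x in (U : Filter E), q x ∈ sphere (0 : E) 1 := by
          filter_upwards [hUb] with x hx using (hqs x hx).1
        exact this
      exact (isCompact_sphere (0 : E) 1).ultrafilter_le_nhds' (U.map q) h1
    have m3 : q0 ∈ seg g b q1 := by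
      refine ((S.h.isClosed_seg).mem_of_tendsto (b := (U : Filter E))
        (hUx.prodMk_nhds ((tendsto_const_nhds (x := b)).prodMk_nhds hqt)) ?_).2.2
      filter_upwards [hUb] with x hx
      exact ⟨S.hb, (hqs x hx).1, (hqs x hx).2⟩
    have m4 : y ∈ seg g' b q1 := by
      refine ((S.h'.isClosed_seg).mem_of_tendsto (b := (U : Filter E))
        (hUt.prodMk_nhds ((tendsto_const_nhds (x := b)).prodMk_nhds hqt)) ?_).2.2
      filter_upwards [hUb] with x hx
      exact ⟨S.hb, (hqs x hx).1, (hYs x hx).2⟩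
    have hq01 : q0 = q1 := by
      rcases S.h.seg_bdry S.hb hq1 hq0 m3 with k | k
      · exact absurd k.symm hbq0
      · exact k
    subst hq01
    obtain ⟨t, ht, hyt⟩ := (S.h'.mem_seg hbM hq0M).1 m4
    by_contra hne
    have ht1 : t < 1 := by
      refine lt_of_le_of_ne ht.2 fun h0 => hne ?_
      rw [hyt, h0, one_smul, S.h'.e_L hbM hq0M]
    have hr0' := S.h'.rho_pos hbM hq0M hbq0
    obtain ⟨t0, ht0⟩ : ∃ t0, t0 = (1 + t) / 2 := ⟨_, rfl⟩
    have ht01 : t0 ∈ Ioo (0 : ℝ) 1 := ⟨by rw [ht0]; linarith [ht.1], by rw [ht0]; linarith⟩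
    have htt0 : t < t0 := by rw [ht0]; linarith
    have n1 : Tendsto (fun x => rho g' L' b (Y x)) U (𝓝 (t * rho g' L' b q0)) := by
      have := ((S.h'.continuous_rho b).tendsto y).comp hUt
      rw [hyt, S.h'.rho_pt hbM hq0M ht] at this
      exact this
    have n2 : Tendsto (fun x => t0 * rho g' L' b (q x)) U (𝓝 (t0 * rho g' L' b q0)) :=
      (((S.h'.continuous_rho b).tendsto q0).comp hqt).const_mul t0
    have n3 : ∀ᶠ x in (U : Filter E), rho g' L' b (Y x) < t0 * rho g' L' b (q x) :=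
      n1.eventually_lt n2 (mul_lt_mul_of_pos_right htt0 hr0')
    -- the Hessians
    have n4 : ∀ᶠ x in (U : Filter E),
        Simple.Q g' L' b (e' b (t0 • L' b (q x))) ξ ξ ≤ Simple.Q g L b x ξ ξ := by
      filter_upwards [hUb, n3] with x hx hlt
      obtain ⟨k1, k2⟩ := hYs x hx
      have hqS := (hqs x hx).1
      have hqM := mem_of_sphere hqS
      have hbq : b ≠ q x := by
        intro h0
        obtain ⟨t', ht', hx'⟩ := (S.h.mem_seg hbM hqM).1 (hqs x hx).2
        rw [← h0, S.h.L_self hbM, smul_zero, S.h.e_zero hbM] at hx'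
        exact ne_of_sphere hx S.hb hx'
      obtain ⟨s, hs, hys⟩ := S.h'.exists_param S.hb hqS k1 k2
      have hss : rho g' L' b (Y x) = s * rho g' L' b (q x) := by
        rw [hys, S.h'.rho_pt hbM hqM (Ioo_subset_Icc_self hs)]
      rw [hss] at hlt
      have hst : s < t0 := lt_of_mul_lt_mul_right hlt (S.h'.rho_pos hbM hqM hbq).le
      have k3 := S.h'.Q_anti S.hb hqM hbq hs.1 hst ht01.2 hξb hξ0
      rw [← hys, (hY x hx).2.2 ξ hξb ξ] at k3
      exact k3.le
    have hyi : ‖e' b (t0 • L' b q0)‖ < 1 := S.h'.pt_interior hbM hq0M hbq0 ht01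
    have n5 : Tendsto (fun x => Simple.Q g L b x ξ ξ) U (𝓝 (Simple.Q g L b q0 ξ ξ)) := by
      have k1 : ContinuousAt (fun x => Simple.Q g L b x ξ ξ) q0 :=
        ((S.h.contDiffAt_Q hq0M S.hb hbq0.symm).continuousAt.clm_apply
          continuousAt_const).clm_apply continuousAt_const
      exact k1.tendsto.comp hUx
    have n6 : Tendsto (fun x => Simple.Q g' L' b (e' b (t0 • L' b (q x))) ξ ξ) U
        (𝓝 (Simple.Q g' L' b (e' b (t0 • L' b q0)) ξ ξ)) := by
      have k1 : ContinuousAt (fun y => Simple.Q g' L' b y ξ ξ) (e' b (t0 • L' b q0)) :=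
        ((S.h'.contDiffAt_Q (mem_of_norm_lt hyi) S.hb
          (ne_of_sphere hyi S.hb)).continuousAt.clm_apply
          continuousAt_const).clm_apply continuousAt_const
      have k2 : Continuous fun z => e' b (t0 • L' b z) :=
        (S.h'.e_smooth_right b).continuous.comp
          ((S.h'.L_smooth_right b).continuous.const_smul t0)
      exact k1.tendsto.comp ((k2.tendsto q0).comp hqt)
    have n7 := le_of_tendsto_of_tendsto n6 n5 n4
    have n8 := S.h'.Q_lt S.hb hq0M hbq0 ht01 rfl hξb hξ0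
    rw [S.Q_bdry hq0] at n7
    linarith

/-- agreement of the jets of order two in two boundary points -/
theorem isometric_of_two (S : Bas g g' e L e' L' b A A') (hn : 2 < Module.finrank ℝ E) {c : E}
    (hc : c ∈ sphere (0 : E) 1) (hbc : b ≠ c) {Y : E → E}
    (hY : ∀ x : E, ‖x‖ < 1 → Full g g' L L' x b (Y x))
    (hJ1 : ∀ x : E, ‖x‖ < 1 → J2 (fun z => RR g' L' (Y x, z) - RR g L (x, z)) b)
    (hJ2 : ∀ x : E, ‖x‖ < 1 → J2 (fun z => RR g' L' (Y x, z) - RR g L (x, z)) c) :
    BoundaryIsometric g g' := by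
  have hn1 : 1 < Module.finrank ℝ E := lt_trans one_lt_two hn
  have hbM := mem_of_sphere S.hb
  have hcM := mem_of_sphere hc
  have hYb : ∀ x : E, ‖x‖ < 1 → ‖Y x‖ < 1 := fun x hx => (hY x hx).1
  have hYs : ∀ x : E, ‖x‖ < 1 → ContDiffAt ℝ ∞ Y x := fun x hx => S.full_smooth hn1 hY hx
  have hYd : ∀ x : E, ‖x‖ < 1 → HasFDerivAt Y (fderiv ℝ Y x) x := fun x hx =>
    ((hYs x hx).differentiableAt (by simp)).hasFDerivAt
  have hC1 : ∀ x : E, ‖x‖ < 1 →
      Cont (g x) (g' (Y x)) (fderiv ℝ Y x) (ud g L x b) (ud g' L' (Y x) b) := fun x hx =>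
    S.h.cont_of_jets S.h' S.hb hYb hYs hJ1 hx
  have hC2 : ∀ x : E, ‖x‖ < 1 →
      Cont (g x) (g' (Y x)) (fderiv ℝ Y x) (ud g L x c) (ud g' L' (Y x) c) := fun x hx =>
    S.h.cont_of_jets S.h' hc hYb hYs hJ2 hx
  have htwo : ∀ x : E, ‖x‖ < 1 → x ∉ seg g b c → ∃ κ : ℝ,
      (∀ δ, g' (Y x) (ud g' L' (Y x) b + ud g' L' (Y x) c) (fderiv ℝ Y x δ) =
        κ * g x (ud g L x b + ud g L x c) δ) ∧
      (κ = 1 → ∀ δ, g' (Y x) (ud g' L' (Y x) b) (fderiv ℝ Y x δ) = g x (ud g L x b) δ) := by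
    intro x hx hxs
    have hxM := mem_of_norm_lt hx
    have hYM := mem_of_norm_lt (hYb x hx)
    exact two_cont (S.h.symm x hxM) (S.h.pos x hxM) (S.h'.symm _ hYM) (S.h'.pos _ hYM)
      (S.h.ud_unit hx S.hb) (S.h.ud_unit hx hc) (S.h.ud_lt hx S.hb hc hbc)
      (S.h.ud_gt hx S.hb hc hxs)
      (exists_perp hn (S.h.symm x hxM) (S.h.pos x hxM) _ _ one_pos) (hC1 x hx) (hC2 x hx)
  -- the sum of the distances
  have hd1 : ∀ x : E, ‖x‖ < 1 → HasFDerivAt (fun x => rho g' L' b (Y x))
      ((-(g' (Y x) (ud g' L' (Y x) b))).comp (fderiv ℝ Y x)) x := fun x hx =>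
    HasFDerivAt.comp x (f := Y) (g := rho g' L' b) (S.h'.hasFDerivAt_rho_ud (hYb x hx) S.hb)
      (hYd x hx)
  have hd2 : ∀ x : E, ‖x‖ < 1 → HasFDerivAt (fun x => rho g' L' c (Y x))
      ((-(g' (Y x) (ud g' L' (Y x) c))).comp (fderiv ℝ Y x)) x := fun x hx =>
    HasFDerivAt.comp x (f := Y) (g := rho g' L' c) (S.h'.hasFDerivAt_rho_ud (hYb x hx) hc)
      (hYd x hx)
  have hsum : ∀ x : E, ‖x‖ < 1 → x ∉ seg g b c →
      rho g' L' b (Y x) + rho g' L' c (Y x) = rho g L b x + rho g L c x := by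
    intro x hx hxs
    refine S.h.ell_transport hn1 S.hb hc (U := fun x => rho g' L' b (Y x) + rho g' L' c (Y x))
      ?_ ?_ hx hxs
    · intro x hx hxs
      refine ⟨_, (hd1 x hx).add (hd2 x hx), fun δ hδ => ?_⟩
      obtain ⟨κ, hκ, -⟩ := htwo x hx hxs
      have h1 := hκ δ
      rw [hδ, mul_zero, map_add, add_apply] at h1
      simp only [add_apply, ContinuousLinearMap.comp_apply, neg_apply]
      linarith
    · intro q hq hbq hcq
      have h1 := S.full_lim hn1 hY hq hbq
      rw [S.hd b S.hb q hq, S.hd c hc q hq]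
      exact (((S.h'.continuous_rho b).tendsto q).comp h1).add
        (((S.h'.continuous_rho c).tendsto q).comp h1)
  -- the gradients agree outside of the geodesic
  have hgrad0 : ∀ x : E, ‖x‖ < 1 → x ∉ seg g b c → ∀ δ,
      g' (Y x) (ud g' L' (Y x) b) (fderiv ℝ Y x δ) = g x (ud g L x b) δ := by
    intro x hx hxs
    have hxM := mem_of_norm_lt hx
    obtain ⟨κ, hκ, hκ1⟩ := htwo x hx hxs
    refine hκ1 ?_
    have h1 : (fun x => rho g' L' b (Y x) + rho g' L' c (Y x)) =ᶠ[𝓝 x]
        fun x => rho g L b x + rho g L c x := by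
      filter_upwards [continuous_norm.continuousAt.eventually_lt_const hx,
        (S.h.isClosed_seg1 S.hb hc).isOpen_compl.mem_nhds hxs] with z hz1 hz2
      exact hsum z hz1 hz2
    have h2 := ((hd1 x hx).add (hd2 x hx)).unique
      (((S.h.hasFDerivAt_rho_ud hx S.hb).add
        (S.h.hasFDerivAt_rho_ud hx hc)).congr_of_eventuallyEq h1)
    obtain ⟨a, ha⟩ : ∃ a, a = ud g L x b + ud g L x c := ⟨_, rfl⟩
    have h3 := congrArg (fun f : E →L[ℝ] ℝ => f a) h2
    simp only [add_apply, ContinuousLinearMap.comp_apply, neg_apply] at h3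
    have h4 := hκ a
    rw [map_add, add_apply] at h4
    have h5 : g x (ud g L x b + ud g L x c) a = g x (ud g L x b) a + g x (ud g L x c) a := by
      rw [map_add, add_apply]
    have h6 : 0 < g x a a := by
      refine S.h.pos x hxM _ fun h0 => ?_
      have h7 := S.h.ud_gt hx S.hb hc hxs
      have h8 : ud g L x c = - ud g L x b := by
        rw [ha] at h0
        exact eq_neg_of_add_eq_zero_right h0
      rw [h8, map_neg, S.h.ud_unit hx S.hb] at h7
      exact lt_irrefl _ h7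
    rw [← ha] at h4 h5
    have h9 : κ * g x a a = 1 * g x a a := by
      rw [← h4, one_mul, h5]
      linarith
    exact mul_right_cancel₀ h6.ne' h9
  -- the gradients agree
  have hgrad : ∀ x : E, ‖x‖ < 1 → ∀ δ,
      g' (Y x) (ud g' L' (Y x) b) (fderiv ℝ Y x δ) = g x (ud g L x b) δ := by
    intro x hx δ
    have hxM := mem_of_norm_lt hx
    obtain ⟨y, t0, hy, hyn⟩ := S.h.seg_dense hn1 S.hb hc hx
    have hYx := hYb x hx
    have k1 : ContinuousAt (fun x => g x (ud g L x b) δ) x := by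
      have l1 : ContinuousAt (fun x => g x) x := S.h.smooth.continuous.continuousAt
      have l2 : ContinuousAt (fun x => ud g L x b) x := by
        have m1 : ContinuousAt (fun x => rho g L x b) x :=
          ContinuousAt.comp (f := fun x => (x, b)) (g := fun w : E × E => rho g L w.1 w.2)
            (S.h.contDiffAt_rho hxM hbM (ne_of_sphere hx S.hb)).continuousAt
            (continuousAt_id.prodMk continuousAt_const)
        have m2 : ContinuousAt (fun x => L x b) x :=
          (S.h.L_smooth.continuous.comp (continuous_id.prodMk continuous_const)).continuousAt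
        exact (m1.inv₀ (S.h.rho_pos hxM hbM (ne_of_sphere hx S.hb)).ne').smul m2
      exact (l1.clm_apply l2).clm_apply continuousAt_const
    have k2 : ContinuousAt (fun x => g' (Y x) (ud g' L' (Y x) b) (fderiv ℝ Y x δ)) x := by
      have hYM := mem_of_norm_lt hYx
      have l0 : ContinuousAt Y x := (hYs x hx).continuousAt
      have l1 : ContinuousAt (fun x => g' (Y x)) x :=
        ContinuousAt.comp (f := Y) (g := g') S.h'.smooth.continuous.continuousAt l0
      have l2 : ContinuousAt (fun x => ud g' L' (Y x) b) x := by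
        have m1 : ContinuousAt (fun x => rho g' L' (Y x) b) x :=
          ContinuousAt.comp (f := fun x => (Y x, b)) (g := fun w : E × E => rho g' L' w.1 w.2)
            (S.h'.contDiffAt_rho hYM hbM (ne_of_sphere hYx S.hb)).continuousAt
            (l0.prodMk continuousAt_const)
        have m2 : ContinuousAt (fun x => L' (Y x) b) x :=
          ContinuousAt.comp (f := Y) (g := fun y => L' y b)
            (S.h'.L_smooth.continuous.comp (continuous_id.prodMk continuous_const)).continuousAt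
            l0
        exact (m1.inv₀ (S.h'.rho_pos hYM hbM (ne_of_sphere hYx S.hb)).ne').smul m2
      have l3 : ContinuousAt (fun x => fderiv ℝ Y x δ) x :=
        (((hYs x hx).fderiv_right (m := ∞) (by simp)).continuousAt).clm_apply continuousAt_const
      exact (l1.clm_apply l2).clm_apply l3
    have hyb : ∀ᶠ t in 𝓝[≠] t0, ‖y t‖ < 1 :=
      hy.eventually (continuous_norm.continuousAt.eventually_lt_const hx)
    refine tendsto_nhds_unique (k2.tendsto.comp hy) ((k1.tendsto.comp hy).congr' ?_)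
    filter_upwards [hyb, hyn] with t ht1 ht2
    exact (hgrad0 _ ht1 ht2 δ).symm
  -- the distances agree
  have hrr : ∀ z : E, ‖z‖ < 1 → rho g' L' b (Y z) = rho g L b z := by
    intro z hz
    have h1 : ∀ w ∈ ball (0 : E) 1, HasFDerivAt (fun x => rho g' L' b (Y x) - rho g L b x)
        (0 : E →L[ℝ] ℝ) w := by
      intro w hw
      have hw' : ‖w‖ < 1 := by simpa using hw
      refine ((hd1 w hw').sub (S.h.hasFDerivAt_rho_ud hw' S.hb)).congr_fderiv ?_
      ext δ
      simp only [sub_apply, ContinuousLinearMap.comp_apply, neg_apply, zero_apply]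
      rw [hgrad w hw' δ, sub_self]
    have h2 : ∀ w ∈ ball (0 : E) 1, rho g' L' b (Y w) - rho g L b w =
        rho g' L' b (Y z) - rho g L b z := fun w hw =>
      isOpen_ball.is_const_of_fderiv_eq_zero (𝕜 := ℝ)
        (f := fun x => rho g' L' b (Y x) - rho g L b x)
        (convex_ball (0 : E) 1).isPreconnected
        (fun u hu => ((h1 u hu).differentiableAt).differentiableWithinAt)
        (fun u hu => (h1 u hu).fderiv) hw (by simpa using hz)
    have h3 : Tendsto (fun x => rho g' L' b (Y x) - rho g L b x) (𝓝[ball 0 1] c)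
        (𝓝 (rho g' L' b c - rho g L b c)) := by
      refine Tendsto.sub ?_ ?_
      · exact ((S.h'.continuous_rho b).tendsto c).comp (S.full_lim hn1 hY hc hbc)
      · exact ((S.h.continuous_rho b).tendsto c).mono_left nhdsWithin_le_nhds
    rw [S.hd b S.hb c hc, sub_self] at h3
    have h4 : (𝓝[ball (0 : E) 1] c).NeBot := by
      rw [← mem_closure_iff_nhdsWithin_neBot, closure_ball (0 : E) one_ne_zero]
      exact hcM
    have h5 : Tendsto (fun x => rho g' L' b (Y x) - rho g L b x) (𝓝[ball 0 1] c)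
        (𝓝 (rho g' L' b (Y z) - rho g L b z)) := by
      refine tendsto_const_nhds.congr' ?_
      filter_upwards [self_mem_nhdsWithin] with w hw using (h2 w hw).symm
    have h6 := tendsto_nhds_unique h5 h3
    linarith
  have hYeq : ∀ x : E, ‖x‖ < 1 → Y x = Pt e' L b A x 1 := by
    intro x hx
    obtain ⟨h1, h2, -⟩ := hY x hx
    have h3 := (S.par hx h1 h2).2.1
    have h4 := (S.h.rho_pos hbM (mem_of_norm_lt hx) (ne_of_sphere hx S.hb).symm).ne'
    rwa [hrr x hx, div_self h4] at h3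
  refine S.isometric fun x hx v w => ?_
  have hxM := mem_of_norm_lt hx
  have hYM := mem_of_norm_lt (hYb x hx)
  have hball : ∀ᶠ z in 𝓝 x, ‖z‖ < 1 := continuous_norm.continuousAt.eventually_lt_const hx
  have hev : Y =ᶠ[𝓝 x] fun x => Pt e' L b A x 1 := by
    filter_upwards [hball] with z hz using hYeq z hz
  rw [← hev.fderiv_eq, ← hYeq x hx]
  exact iso_of_cont (S.h.symm x hxM) (S.h.pos x hxM) (S.h'.symm _ hYM) (S.h'.pos _ hYM)
    (S.h.ud_unit hx S.hb) (S.h'.ud_unit (hYb x hx) S.hb)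
    (exists_perp1 hn1 (S.h.symm x hxM) (S.h.pos x hxM) _) (hC1 x hx) (hgrad x hx) v w

end Bas

end Pool.Agent.W5h72.BR
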