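import Pool.Agent.W5h72.BR.Tp5

/-!
# Jets in two boundary points, which may coincide
-/

open Set Metric Filter Topology
open scoped ContDiff RealInnerProductSpace

noncomputable section

set_option maxSynthPendingDepth 3

namespace Pool.Agent.W5h72.BR

variable {E : Type*} [NormedAddCommGroup E] [InnerProductSpace ℝ E]

/-- for each interior point `x` there is an interior point `y` such that the derivatives of order
one and two of the restriction of `d_{g'}(y, ·) - d_g(x, ·)` to the boundary vanish in the boundary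
points `b` and `c`, and if `b = c`, also the third derivative -/
def JetsAgreeAt (g g' : E → E →L[ℝ] E →L[ℝ] ℝ) (b c : E) : Prop :=
  ∀ x : E, ‖x‖ < 1 → ∃ y : E, ‖y‖ < 1 ∧
    (∀ p : E, p = b ∨ p = c →
      fderiv ℝ (bdiff g g' x y) p = 0 ∧ fderiv ℝ (fderiv ℝ (bdiff g g' x y)) p = 0) ∧
    (b = c → fderiv ℝ (fderiv ℝ (fderiv ℝ (bdiff g g' x y))) b = 0)

variable [FiniteDimensional ℝ E]

/-- **Jets in two boundary points** -/
theorem jets_at_two_points (hn : 2 < Module.finrank ℝ E)
    {g g' : E → E →L[ℝ] E →L[ℝ] ℝ} (hg : IsSimple g) (hg' : IsSimple g')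
    (hd : ∀ p ∈ sphere (0 : E) 1, ∀ q ∈ sphere (0 : E) 1, gdist g p q = gdist g' p q)
    {b c : E} (hb : b ∈ sphere (0 : E) 1) (hc : c ∈ sphere (0 : E) 1) :
    BoundaryIsometric g g' ↔ JetsAgreeAt g g' b c := by
  by_cases hbc : b = c
  · subst hbc
    rw [three_jets (lt_trans one_lt_two hn) hg hg' hd hb]
    constructor
    · intro h x hx
      obtain ⟨y, hy, h1, h2, h3⟩ := h x hx
      refine ⟨y, hy, fun p hp => ?_, fun _ => h3⟩
      have hp' : p = b := by
        rcases hp with h0 | h0 <;> exact h0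
      rw [hp']
      exact ⟨h1, h2⟩
    · intro h x hx
      obtain ⟨y, hy, h1, h2⟩ := h x hx
      exact ⟨y, hy, (h1 b (Or.inl rfl)).1, (h1 b (Or.inl rfl)).2, h2 rfl⟩
  · rw [two_points hn hg hg' hd hb hc hbc]
    constructor
    · intro h x hx
      obtain ⟨y, hy, h1⟩ := h x hx
      exact ⟨y, hy, h1, fun h0 => absurd h0 hbc⟩
    · intro h x hx
      obtain ⟨y, hy, h1, -⟩ := h x hx
      exact ⟨y, hy, h1⟩

end Pool.Agent.W5h72.BR
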