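import Pool.Agent.W5h72.BR.Vary

/-!
# The parameter of the crossing point is one
-/

open Set Metric Filter Topology
open scoped ContDiff RealInnerProductSpace

noncomputable section

set_option maxSynthPendingDepth 3

namespace Pool.Agent.W5h72.BR

variable {E : Type*} [NormedAddCommGroup E] [InnerProductSpace ℝ E] [FiniteDimensional ℝ E]

/-- a great circle through two points -/
lemma great_circle (hn : 1 < Module.finrank ℝ E) {q b : E} (hq : q ∈ sphere (0 : E) 1)
    (hb : b ∈ sphere (0 : E) 1) : ∃ η : E, ‖η‖ = 1 ∧ inner ℝ q η = 0 ∧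
      ∃ s : ℝ, 0 ≤ s ∧ b = Real.cos s • q + Real.sin s • η := by
  have hqn := norm_of_sphere hq
  have hbn := norm_of_sphere hb
  set c := inner ℝ q b with hc
  obtain ⟨d, hd⟩ : ∃ d, d = b - c • q := ⟨_, rfl⟩
  have hqd : inner ℝ q d = 0 := by
    rw [hd, inner_sub_right, inner_smul_right, real_inner_self_eq_norm_sq, hqn, ← hc]
    ring
  have hdd : c ^ 2 + ‖d‖ ^ 2 = 1 := by
    have h1 : ‖d‖ ^ 2 = inner ℝ d d := (real_inner_self_eq_norm_sq d).symm
    have h2 : inner ℝ d d = inner ℝ b d := by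
      have h0 := congrArg (fun z => inner ℝ z d) hd
      simp only [inner_sub_left, inner_smul_left, hqd, mul_zero, sub_zero] at h0
      exact h0
    rw [h1, h2, hd, inner_sub_right, inner_smul_right, real_inner_self_eq_norm_sq, hbn,
      real_inner_comm, ← hc]
    ring
  have hc1 : -1 ≤ c := by nlinarith [sq_nonneg ‖d‖]
  have hc2 : c ≤ 1 := by nlinarith [sq_nonneg ‖d‖]
  have hsin : Real.sin (Real.arccos c) = ‖d‖ := by
    rw [Real.sin_arccos]
    have : 1 - c ^ 2 = ‖d‖ ^ 2 := by linarith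
    rw [this, Real.sqrt_sq (norm_nonneg d)]
  by_cases hd0 : d = 0
  · obtain ⟨η, hη1, hη2⟩ := exists_orth hn q
    refine ⟨η, hη1, hη2, Real.arccos c, Real.arccos_nonneg c, ?_⟩
    rw [Real.cos_arccos hc1 hc2, hsin, hd0, norm_zero, zero_smul, add_zero]
    rw [hd0] at hd
    exact (sub_eq_zero.1 hd.symm)
  · have hdn : ‖d‖ ≠ 0 := norm_ne_zero_iff.2 hd0
    refine ⟨‖d‖⁻¹ • d, ?_, ?_, Real.arccos c, Real.arccos_nonneg c, ?_⟩
    · rw [norm_smul, norm_inv, norm_norm, inv_mul_cancel₀ hdn]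
    · rw [inner_smul_right, hqd, mul_zero]
    · rw [Real.cos_arccos hc1 hc2, hsin, smul_smul, mul_inv_cancel₀ hdn, one_smul, hd]
      abel

namespace Simple

variable {g : E → E →L[ℝ] E →L[ℝ] ℝ} {e L : E → E → E}

/-- the incidence relation is closed -/
lemma isClosed_seg (h : Simple g e L) :
    IsClosed {w : E × (E × E) | w.2.1 ∈ sphere (0 : E) 1 ∧ w.2.2 ∈ sphere (0 : E) 1 ∧
      w.1 ∈ seg g w.2.1 w.2.2} := by
  have hce : Continuous fun w : (E × E) × ℝ => e w.1.1 (w.2 • L w.1.1 w.1.2) := by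
    have h1 : Continuous fun w : (E × E) × ℝ => L w.1.1 w.1.2 :=
      h.L_smooth.continuous.comp continuous_fst
    exact h.e_smooth.continuous.comp ((continuous_fst.comp continuous_fst).prodMk
      (continuous_snd.smul h1))
  have hK : IsCompact ((sphere (0 : E) 1 ×ˢ sphere (0 : E) 1) ×ˢ Icc (0 : ℝ) 1) :=
    ((isCompact_sphere 0 1).prod (isCompact_sphere 0 1)).prod isCompact_Icc
  have himg := hK.image (f := fun w : (E × E) × ℝ =>
    (e w.1.1 (w.2 • L w.1.1 w.1.2), w.1)) (hce.prodMk continuous_fst)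
  convert himg.isClosed using 1
  ext ⟨x, p, q⟩
  constructor
  · rintro ⟨hp, hq, hx⟩
    simp only at hp hq hx
    obtain ⟨t, ht, hx⟩ := (h.mem_seg (mem_of_sphere hp) (mem_of_sphere hq)).1 hx
    exact ⟨((p, q), t), ⟨⟨hp, hq⟩, ht⟩, by simp only; rw [← hx]⟩
  · rintro ⟨⟨⟨p', q'⟩, t⟩, ⟨⟨hp, hq⟩, ht⟩, heq⟩
    simp only [Prod.mk.injEq] at heq
    obtain ⟨rfl, rfl, rfl⟩ := heq
    exact ⟨hp, hq, (h.mem_seg (mem_of_sphere hp) (mem_of_sphere hq)).2 ⟨t, ht, rfl⟩⟩

omit [FiniteDimensional ℝ E] in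
/-- boundary points of a geodesic are its end points -/
lemma seg_bdry (h : Simple g e L) {p q z : E} (hp : p ∈ sphere (0 : E) 1)
    (hq : q ∈ sphere (0 : E) 1) (hz : z ∈ sphere (0 : E) 1) (hs : z ∈ seg g p q) :
    z = p ∨ z = q := by
  by_contra hcon
  push Not at hcon
  have h1 := h.seg_interior (mem_of_sphere hp) (mem_of_sphere hq) hs hcon.1 hcon.2
  have h2 := norm_of_sphere hz
  linarith

omit [FiniteDimensional ℝ E] in
lemma right_mem_seg (h : Simple g e L) {p q : E} (hp : p ∈ closedBall (0 : E) 1)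
    (hq : q ∈ closedBall (0 : E) 1) : q ∈ seg g p q := by
  rw [seg_symm]
  exact h.left_mem_seg hq hp

end Simple

namespace Src

variable {g g' : E → E →L[ℝ] E →L[ℝ] ℝ} {e L e' L' : E → E → E} {b : E} {A A' : E →L[ℝ] E}

/-- the boundary values of the parameter -/
lemma Zf_bdry (S : Src g g' e L e' L' b A A') (hn : 2 < Module.finrank ℝ E) {q0 : E}
    (hq0 : q0 ∈ sphere (0 : E) 1) (hbq0 : b ≠ q0) :
    Tendsto (Zf g g' L L' b) (𝓝[ball 0 1] q0) (𝓝 1) := by
  have hbM := mem_of_sphere S.hb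
  have hq0M := mem_of_sphere hq0
  -- horizontal vectors
  have hhor : ∀ x : E, ‖x‖ < 1 → ∃ v, v ≠ 0 ∧ g x v (L x b) = 0 := by
    intro x hx
    have hxM := mem_of_norm_lt hx
    obtain ⟨e0, h0b, -, he0⟩ := exists_perp hn (S.h.symm x hxM) (S.h.pos x hxM) (L x b) 0 one_pos
    exact ⟨e0, by rintro rfl; simp at he0, h0b⟩
  set v : E → E := fun x => Classical.epsilon fun v => v ≠ 0 ∧ g x v (L x b) = 0 with hv
  have hvs : ∀ x : E, ‖x‖ < 1 → v x ≠ 0 ∧ g x (v x) (L x b) = 0 := fun x hx =>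
    Classical.epsilon_spec (p := fun v => v ≠ 0 ∧ g x v (L x b) = 0) (hhor x hx)
  set w : E → E := fun x => ext L x (v x) with hw
  set w' : E → E := fun x => ext L x (- v x) with hw'
  set Y : E → E := fun x => cross g g' x b (w x) with hYdef
  -- the exit points from `b`
  have hqx : ∀ x : E, ‖x‖ < 1 → ∃ q, q ∈ sphere (0 : E) 1 ∧ x ∈ seg g b q := fun x hx => by
    obtain ⟨q, hq, -, hxq⟩ := S.h.exists_exit S.hb hx
    exact ⟨q, hq, hxq⟩
  set q : E → E := fun x => Classical.epsilon fun q => q ∈ sphere (0 : E) 1 ∧ x ∈ seg g b q with hq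
  have hqs : ∀ x : E, ‖x‖ < 1 → q x ∈ sphere (0 : E) 1 ∧ x ∈ seg g b (q x) := fun x hx =>
    Classical.epsilon_spec (hqx x hx)
  have hspec : ∀ x : E, ‖x‖ < 1 → w x ∈ sphere (0 : E) 1 ∧ w' x ∈ sphere (0 : E) 1 ∧
      x ∈ seg g (w x) (w' x) ∧ Y x ∈ seg g' (w x) (w' x) ∧ Y x ∈ seg g' b (q x) ∧
      g x (L x (w x)) (L x b) = 0 ∧ g x (L x (w' x)) (L x b) = 0 := by
    intro x hx
    obtain ⟨h1, h2⟩ := hvs x hx
    obtain ⟨k1, s, hs, k2⟩ := S.h.ext_spec hx h1
    obtain ⟨l1, r, hr, l2⟩ := S.h.ext_spec hx (neg_ne_zero.2 h1)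
    have k3 := S.h.ext_neg hx h1
    obtain ⟨⟨-, q1, hq1, hxq1, hyq1⟩, ⟨-, q2, hq2, hxq2, hyq2⟩⟩ := (S.hI x hx).spec k1
    refine ⟨k1, l1, k3, ?_, ?_, ?_, ?_⟩
    · have : q1 = w' x := S.h.exit_uniq k1 hq1 l1 (ne_of_sphere hx k1) hxq1 k3
      rw [this] at hyq1
      exact hyq1
    · have : q2 = q x := S.h.exit_uniq S.hb hq2 (hqs x hx).1 (ne_of_sphere hx S.hb) hxq2
        (hqs x hx).2
      rw [this] at hyq2
      exact hyq2
    · simp only [hw]
      rw [k2, map_smul, smul_apply, h2, smul_zero]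
    · simp only [hw']
      rw [l2, map_smul, smul_apply, map_neg, neg_apply, h2, neg_zero, smul_zero]
  have hball : ∀ᶠ x in 𝓝[ball 0 1] q0, ‖x‖ < 1 := by
    filter_upwards [self_mem_nhdsWithin] with x hx
    simpa using hx
  have hid : Tendsto (fun x : E => x) (𝓝[ball 0 1] q0) (𝓝 q0) :=
    tendsto_id'.2 nhdsWithin_le_nhds
  have hYt : Tendsto Y (𝓝[ball 0 1] q0) (𝓝 q0) := by
    refine (isCompact_closedBall (0 : E) 1).tendsto_nhds_of_unique_mapClusterPt ?_ ?_
    · filter_upwards [hball] with x hx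
      exact seg_subset (hspec x hx).2.2.2.1
    · intro y hy hcl
      obtain ⟨U, hU, hUt⟩ := mapClusterPt_iff_ultrafilter.1 hcl
      have hUb : ∀ᶠ x in (U : Filter E), ‖x‖ < 1 := hU hball
      have hUx : Tendsto (fun x : E => x) U (𝓝 q0) := hid.mono_left hU
      have lim : ∀ f : E → E, (∀ x : E, ‖x‖ < 1 → f x ∈ sphere (0 : E) 1) →
          ∃ z ∈ sphere (0 : E) 1, Tendsto f U (𝓝 z) := by
        intro f hf
        have h1 : sphere (0 : E) 1 ∈ U.map f := by
          have : ∀ᶠ x in (U : Filter E), f x ∈ sphere (0 : E) 1 := by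
            filter_upwards [hUb] with x hx using hf x hx
          exact this
        exact (isCompact_sphere (0 : E) 1).ultrafilter_le_nhds' (U.map f) h1
      obtain ⟨w0, hw0, hwt⟩ := lim w fun x hx => (hspec x hx).1
      obtain ⟨w0', hw0', hwt'⟩ := lim w' fun x hx => (hspec x hx).2.1
      obtain ⟨q1, hq1, hqt⟩ := lim q fun x hx => (hqs x hx).1
      have m1 : q0 ∈ seg g w0 w0' := by
        refine ((S.h.isClosed_seg).mem_of_tendsto (b := (U : Filter E))
          (hUx.prodMk_nhds (hwt.prodMk_nhds hwt')) ?_).2.2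
        filter_upwards [hUb] with x hx
        exact ⟨(hspec x hx).1, (hspec x hx).2.1, (hspec x hx).2.2.1⟩
      have m2 : y ∈ seg g' w0 w0' := by
        refine ((S.h'.isClosed_seg).mem_of_tendsto (b := (U : Filter E))
          (hUt.prodMk_nhds (hwt.prodMk_nhds hwt')) ?_).2.2
        filter_upwards [hUb] with x hx
        exact ⟨(hspec x hx).1, (hspec x hx).2.1, (hspec x hx).2.2.2.1⟩
      have m3 : q0 ∈ seg g b q1 := by
        refine ((S.h.isClosed_seg).mem_of_tendsto (b := (U : Filter E))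
          (hUx.prodMk_nhds ((tendsto_const_nhds (x := b)).prodMk_nhds hqt)) ?_).2.2
        filter_upwards [hUb] with x hx
        exact ⟨S.hb, (hqs x hx).1, (hqs x hx).2⟩
      have m4 : y ∈ seg g' b q1 := by
        refine ((S.h'.isClosed_seg).mem_of_tendsto (b := (U : Filter E))
          (hUt.prodMk_nhds ((tendsto_const_nhds (x := b)).prodMk_nhds hqt)) ?_).2.2
        filter_upwards [hUb] with x hx
        exact ⟨S.hb, (hqs x hx).1, (hspec x hx).2.2.2.2.1⟩
      have hcont : ∀ f : E → E, ∀ z, Tendsto f U (𝓝 z) →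
          Tendsto (fun x => g x (L x (f x)) (L x b)) U (𝓝 (g q0 (L q0 z) (L q0 b))) := by
        intro f z hf
        have h1 : Continuous fun u : E × E => g u.1 (L u.1 u.2) (L u.1 b) := by
          have h2 : Continuous fun u : E × E => g u.1 := S.h.smooth.continuous.comp continuous_fst
          have h3 : Continuous fun u : E × E => L u.1 u.2 := S.h.L_smooth.continuous
          have h4 : Continuous fun u : E × E => L u.1 b :=
            S.h.L_smooth.continuous.comp (continuous_fst.prodMk continuous_const)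
          exact (h2.clm_apply h3).clm_apply h4
        exact (h1.tendsto (q0, z)).comp (hUx.prodMk_nhds hf)
      have m5 : g q0 (L q0 w0) (L q0 b) = 0 := by
        refine tendsto_nhds_unique (hcont w w0 hwt) (tendsto_const_nhds.congr' ?_)
        filter_upwards [hUb] with x hx
        exact (hspec x hx).2.2.2.2.2.1.symm
      have m6 : g q0 (L q0 w0') (L q0 b) = 0 := by
        refine tendsto_nhds_unique (hcont w' w0' hwt') (tendsto_const_nhds.congr' ?_)
        filter_upwards [hUb] with x hx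
        exact (hspec x hx).2.2.2.2.2.2.symm
      have hq01 : q0 = q1 := by
        rcases S.h.seg_bdry S.hb hq1 hq0 m3 with k | k
        · exact absurd k.symm hbq0
        · exact k
      rw [← hq01] at m4
      have hLb : 0 < g q0 (L q0 b) (L q0 b) :=
        S.h.pos q0 hq0M _ fun h0 => hbq0 ((S.h.L_eq_zero hq0M hbM).1 h0).symm
      have m7 : q0 ∈ seg g' w0 w0' := by
        rcases S.h.seg_bdry hw0 hw0' hq0 m1 with k | k
        · rw [← k]
          exact S.h'.left_mem_seg hq0M (mem_of_sphere hw0')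
        · rw [← k]
          exact S.h'.right_mem_seg (mem_of_sphere hw0) hq0M
      by_contra hne
      rcases S.h'.two_points S.hb hq0 hw0 hw0' m4 m2 (S.h'.right_mem_seg hbM hq0M) m7 hne
        with k | k
      · rw [← k] at m5
        linarith
      · rw [← k] at m6
        linarith
  have hr0 := S.h.rho_pos hbM hq0M hbq0
  have h1 : Tendsto (fun x => rho g' L' b (Y x) / rho g L b x) (𝓝[ball 0 1] q0)
      (𝓝 (rho g' L' b q0 / rho g L b q0)) := by
    refine Tendsto.div ?_ ?_ hr0.ne'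
    · exact ((S.h'.continuous_rho b).tendsto q0).comp hYt
    · exact ((S.h.continuous_rho b).tendsto q0).comp hid
  rw [← S.hd b S.hb q0 hq0, div_self hr0.ne'] at h1
  refine h1.congr' ?_
  filter_upwards [hball] with x hx
  rw [Zf, rt]
  have h2 : proj (ext L x (v x)) = ext L x (v x) := proj_of_mem (hspec x hx).1
  simp only
  rw [show (Classical.epsilon fun v => v ≠ 0 ∧ g x v (L x b) = 0) = v x from rfl, h2]

/-- the parameter of the orthogonal geodesics is one -/
lemma Zf_one (S : Src g g' e L e' L' b A A') (hn : 2 < Module.finrank ℝ E) {x : E}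
    (hx : ‖x‖ < 1) : Zf g g' L L' b x = 1 := by
  have hbM := mem_of_sphere S.hb
  have hxM := mem_of_norm_lt hx
  obtain ⟨q0, hq0, t, ht, hx1, hx2⟩ := S.h.exit_seg hbM hx (ne_of_sphere hx S.hb).symm
  have hq0M := mem_of_sphere hq0
  obtain ⟨η, hη, hqη, s1, hs1, hbs⟩ := great_circle (lt_trans one_lt_two hn) hq0 S.hb
  set Qc : ℝ → E := fun s => Real.cos s • q0 + Real.sin s • η with hQc
  have hQS : ∀ s, Qc s ∈ sphere (0 : E) 1 := by
    intro s
    have h1 : ‖Qc s‖ ^ 2 = 1 := by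
      simp only [hQc]
      rw [norm_add_sq_real, norm_smul, norm_smul, norm_of_sphere hq0, hη, inner_smul_left,
        inner_smul_right, hqη]
      simp only [Real.norm_eq_abs, mul_one, sq_abs, mul_zero, add_zero]
      exact Real.cos_sq_add_sin_sq s
    have h2 : ‖Qc s‖ = 1 := by nlinarith [norm_nonneg (Qc s)]
    simpa using h2
  have hQ0 : Qc 0 = q0 := by simp [hQc]
  have hQc1 : ∀ s, HasDerivAt Qc ((-Real.sin s) • q0 + Real.cos s • η) s := fun s =>
    ((Real.hasDerivAt_cos s).smul_const q0).add ((Real.hasDerivAt_sin s).smul_const η)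
  have hbq0 : b ≠ q0 := by
    rintro rfl
    rw [S.h.L_self hbM, smul_zero, S.h.e_zero hbM] at hx1
    exact ne_of_sphere hx hq0 hx1
  set r := rho g L b x with hr
  have hr0 : 0 < r := S.h.rho_pos hbM hxM (ne_of_sphere hx S.hb).symm
  set ϱ : ℝ → ℝ := fun s => rho g L b (Qc s) with hϱ
  have hϱc : Continuous ϱ := (S.h.continuous_rho b).comp
    (continuous_iff_continuousAt.2 fun s => (hQc1 s).continuousAt)
  have hrt0 : r = t * ϱ 0 := by
    simp only [hϱ, hQ0, hr]
    conv_lhs => rw [hx1]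
    rw [S.h.rho_pt hbM hq0M (Ioo_subset_Icc_self ht)]
  have hϱ0 : 0 < ϱ 0 := by
    simp only [hϱ, hQ0]
    exact S.h.rho_pos hbM hq0M hbq0
  have hϱ0r : r < ϱ 0 := by
    rw [hrt0]
    nlinarith [ht.2]
  have hϱ1 : ϱ s1 = 0 := by
    simp only [hϱ]
    rw [show Qc s1 = b from hbs.symm, S.h.rho_self hbM]
  -- the curve of points
  set X : ℝ → E := fun s => e b ((r / ϱ s) • L b (Qc s)) with hX
  have hX0 : X 0 = x := by
    simp only [hX]
    have h1 : r / ϱ 0 = t := by rw [hrt0, mul_div_assoc, div_self hϱ0.ne', mul_one]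
    rw [h1, hQ0, ← hx1]
  have hQb : ∀ s, r < ϱ s → b ≠ Qc s := by
    intro s hs h0
    simp only [hϱ] at hs
    rw [← h0, S.h.rho_self hbM] at hs
    linarith
  have hXb : ∀ s, r < ϱ s → ‖X s‖ < 1 ∧ rho g L b (X s) = r := by
    intro s hs
    have hs0 : 0 < ϱ s := hr0.trans hs
    have h1 : r / ϱ s ∈ Ioo (0 : ℝ) 1 := ⟨div_pos hr0 hs0, (div_lt_one hs0).2 hs⟩
    refine ⟨S.h.pt_interior hbM (mem_of_sphere (hQS s)) (hQb s hs) h1, ?_⟩
    simp only [hX]
    rw [S.h.rho_pt hbM (mem_of_sphere (hQS s)) (Ioo_subset_Icc_self h1)]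
    exact div_mul_cancel₀ _ hs0.ne'
  have hXd : ∀ s, r < ϱ s → ∃ X', HasDerivAt X X' s := by
    intro s hs
    have hs0 : 0 < ϱ s := hr0.trans hs
    obtain ⟨c, hc⟩ : ∃ c, HasDerivAt ϱ c s :=
      ⟨_, HasFDerivAt.comp_hasDerivAt (f := Qc) (l := rho g L b) s
        (S.h.hasFDerivAt_rho hbM (mem_of_sphere (hQS s)) (hQb s hs)) (hQc1 s)⟩
    have h1 : HasDerivAt (fun s => L b (Qc s))
        (fderiv ℝ (L b) (Qc s) ((-Real.sin s) • q0 + Real.cos s • η)) s :=
      HasFDerivAt.comp_hasDerivAt (f := Qc) (l := L b) s (S.h.hasFDerivAt_L b (Qc s)) (hQc1 s)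
    have h2 := ((hasDerivAt_const s r).div hc hs0.ne').smul h1
    exact ⟨_, HasFDerivAt.comp_hasDerivAt (f := fun s => (r / ϱ s) • L b (Qc s)) (l := e b) s
      (S.h.hasFDerivAt_e b _) h2⟩
  have hZd : ∀ s, r < ϱ s → HasDerivAt (fun s => Zf g g' L L' b (X s)) 0 s := by
    intro s hs
    obtain ⟨hXs, hXr⟩ := hXb s hs
    obtain ⟨X', hX'⟩ := hXd s hs
    have hXM := mem_of_norm_lt hXs
    have hev : ∀ᶠ s' in 𝓝 s, r < ϱ s' := hϱc.continuousAt.eventually_const_lt hs
    have h1 : HasDerivAt (fun s => rho g L b (X s))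
        ((-(rho g L b (X s))⁻¹ • g (X s) (L (X s) b)) X') s :=
      HasFDerivAt.comp_hasDerivAt (f := X) (l := rho g L b) s
        (S.h.hasFDerivAt_rho hbM hXM (ne_of_sphere hXs S.hb).symm) hX'
    have h2 : (fun s => rho g L b (X s)) =ᶠ[𝓝 s] fun _ => r := by
      filter_upwards [hev] with s' hs' using (hXb s' hs').2
    have h3 := h1.unique ((hasDerivAt_const s r).congr_of_eventuallyEq h2)
    have h4 : g (X s) X' (L (X s) b) = 0 := by
      rw [S.h.symm (X s) hXM]
      simp only [smul_apply, smul_eq_mul] at h3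
      rcases mul_eq_zero.1 h3 with k | k
      · rw [hXr, neg_eq_zero] at k
        exact absurd k (inv_ne_zero hr0.ne')
      · exact k
    obtain ⟨D, hD, hD0⟩ := S.Zf_deriv hn hXs
    have h5 := HasFDerivAt.comp_hasDerivAt (f := X) (l := Zf g g' L L' b) s hD hX'
    rw [hD0 X' h4] at h5
    exact h5
  -- the first time at which the boundary is reached
  set T : Set ℝ := {s | 0 ≤ s ∧ ϱ s ≤ r} with hT
  have hTc : IsClosed T := (isClosed_Ici (a := (0 : ℝ))).inter (isClosed_le hϱc continuous_const)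
  have hTne : T.Nonempty := ⟨s1, hs1, by rw [hϱ1]; exact hr0.le⟩
  have hTb : BddBelow T := ⟨0, fun s hs => hs.1⟩
  have hmem : sInf T ∈ T := hTc.csInf_mem hTne hTb
  set s0 := sInf T with hs0
  have hlt : ∀ s, 0 ≤ s → s < s0 → r < ϱ s := by
    intro s h1 h2
    by_contra hcon
    push Not at hcon
    exact absurd (csInf_le hTb (show s ∈ T from ⟨h1, hcon⟩)) (not_le.2 h2)
  have hs0pos : 0 < s0 := by
    refine lt_of_le_of_ne hmem.1 fun h0 => ?_
    have := hmem.2
    rw [← h0] at this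
    linarith
  have hϱs0 : ϱ s0 = r := by
    refine le_antisymm hmem.2 ?_
    have h1 : Tendsto ϱ (𝓝[<] s0) (𝓝 (ϱ s0)) := (hϱc.tendsto s0).mono_left nhdsWithin_le_nhds
    refine ge_of_tendsto h1 ?_
    filter_upwards [Ioo_mem_nhdsLT hs0pos] with s hs
    exact (hlt s hs.1.le hs.2).le
  have hconst : ∀ s, 0 ≤ s → s < s0 → Zf g g' L L' b (X s) = Zf g g' L L' b x := by
    intro s h1 h2
    have h3 := constant_of_has_deriv_right_zero (f := fun s => Zf g g' L L' b (X s))
      (a := 0) (b := s)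
      (fun s' hs' => ((hZd s' (hlt s' hs'.1 (hs'.2.trans_lt h2))).continuousAt).continuousWithinAt)
      (fun s' hs' => (hZd s' (hlt s' hs'.1 (hs'.2.trans h2))).hasDerivWithinAt) s ⟨h1, le_rfl⟩
    simp only [hX0] at h3
    exact h3
  -- the limit
  have hQs0 : b ≠ Qc s0 := by
    intro h0
    have h1 : ϱ s0 = 0 := by
      simp only [hϱ]
      rw [← h0, S.h.rho_self hbM]
    rw [h1] at hϱs0
    linarith
  have hXlim : Tendsto X (𝓝[<] s0) (𝓝[ball 0 1] (Qc s0)) := by
    refine tendsto_nhdsWithin_iff.2 ⟨?_, ?_⟩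
    · have h1 : ContinuousAt X s0 := by
        have h2 : ContinuousAt (fun s => (r / ϱ s) • L b (Qc s)) s0 := by
          refine ContinuousAt.smul ?_ ?_
          · exact continuousAt_const.div hϱc.continuousAt (by rw [hϱs0]; exact hr0.ne')
          · exact ContinuousAt.comp (f := Qc) (x := s0)
              (S.h.L_smooth_right b).continuous.continuousAt (hQc1 s0).continuousAt
        exact ContinuousAt.comp (f := fun s => (r / ϱ s) • L b (Qc s)) (x := s0)
          (S.h.e_smooth_right b).continuous.continuousAt h2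
      have h2 : X s0 = Qc s0 := by
        simp only [hX]
        rw [hϱs0, div_self hr0.ne', one_smul, S.h.e_L hbM (mem_of_sphere (hQS s0))]
      have h3 := h1.tendsto.mono_left (nhdsWithin_le_nhds (s := Iio s0))
      rwa [h2] at h3
    · filter_upwards [Ioo_mem_nhdsLT hs0pos] with s hs
      have := (hXb s (hlt s hs.1.le hs.2)).1
      simpa using this
  have hlim := (S.Zf_bdry hn (hQS s0) hQs0).comp hXlim
  refine tendsto_nhds_unique (l := 𝓝[<] s0) (tendsto_const_nhds.congr' ?_) hlim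
  filter_upwards [Ioo_mem_nhdsLT hs0pos] with s hs
  exact (hconst s hs.1.le hs.2).symm

end Src

end Pool.Agent.W5h72.BR
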