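import Pool.Agent.W5h72.BR.Conc

/-!
# Two simple metrics with the same boundary distances
-/

open Set Metric Filter Topology
open scoped ContDiff RealInnerProductSpace

noncomputable section

namespace Pool.Agent.W5h72.BR

variable {E : Type*} [NormedAddCommGroup E] [InnerProductSpace ℝ E]

omit [InnerProductSpace ℝ E] in
lemma mem_of_norm_lt {x : E} (hx : ‖x‖ < 1) : x ∈ closedBall (0 : E) 1 := by simpa using hx.le

omit [InnerProductSpace ℝ E] in
lemma mem_of_sphere {x : E} (hx : x ∈ sphere (0 : E) 1) : x ∈ closedBall (0 : E) 1 :=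
  sphere_subset_closedBall hx

omit [InnerProductSpace ℝ E] in
lemma norm_of_sphere {x : E} (hx : x ∈ sphere (0 : E) 1) : ‖x‖ = 1 := by simpa using hx

omit [InnerProductSpace ℝ E] in
lemma ne_of_sphere {x p : E} (hx : ‖x‖ < 1) (hp : p ∈ sphere (0 : E) 1) : x ≠ p := by
  rintro rfl
  have := norm_of_sphere hp
  linarith

/-- every vector is a difference of inward vectors -/
lemma exists_decomp {y : E} (hy : y ∈ closedBall (0 : E) 1) (w : E) :
    ∃ w1 w2 : E, w = w1 - w2 ∧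
      (∃ ε : ℝ, 0 < ε ∧ ∀ s ∈ Icc (0 : ℝ) ε, y + s • w1 ∈ closedBall (0 : E) 1) ∧
      (∃ ε : ℝ, 0 < ε ∧ ∀ s ∈ Icc (0 : ℝ) ε, y + s • w2 ∈ closedBall (0 : E) 1) := by
  by_cases hy1 : ‖y‖ < 1
  · exact ⟨w, 0, by simp, Simple.exists_inward hy (Or.inl hy1), Simple.exists_inward hy (Or.inl hy1)⟩
  · have hy2 : ‖y‖ = 1 := le_antisymm (by simpa using hy) (not_lt.1 hy1)
    set k : ℝ := |inner ℝ y w| + 1 with hk
    have h1 : inner ℝ y (w - k • y) < 0 := by
      rw [inner_sub_right, inner_smul_right, real_inner_self_eq_norm_sq, hy2]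
      have := le_abs_self (inner ℝ y w)
      simp only [one_pow, mul_one]; linarith
    have h2 : inner ℝ y (-(k • y)) < 0 := by
      rw [inner_neg_right, inner_smul_right, real_inner_self_eq_norm_sq, hy2]
      have := abs_nonneg (inner ℝ y w)
      simp only [one_pow, mul_one]; linarith
    exact ⟨w - k • y, -(k • y), by abel, Simple.exists_inward hy (Or.inr h1),
      Simple.exists_inward hy (Or.inr h2)⟩

lemma seg_symm {g : E → E →L[ℝ] E →L[ℝ] ℝ} {p q : E} : seg g p q = seg g q p := by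
  have key : ∀ p q : E, seg g p q ⊆ seg g q p := by
    rintro p q z ⟨γ, u, hγ, h0, h1, t, ht, rfl⟩
    refine ⟨_, _, hγ.reparam one_mem01 zero_mem01, ?_, ?_, 1 - t, ⟨by linarith [ht.2],
      by linarith [ht.1]⟩, ?_⟩
    · simpa using h1
    · simpa using h0
    · simp
  exact Subset.antisymm (key p q) (key q p)

lemma seg_subset {g : E → E →L[ℝ] E →L[ℝ] ℝ} {p q z : E} (hz : z ∈ seg g p q) :
    z ∈ closedBall (0 : E) 1 := by
  obtain ⟨γ, u, hγ, h0, h1, t, ht, rfl⟩ := hz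
  exact hγ.mem t ht

namespace Simple

variable {g g' : E → E →L[ℝ] E →L[ℝ] ℝ} {e L e' L' : E → E → E}

lemma hasFDerivAt_L (h : Simple g e L) (x y : E) : HasFDerivAt (L x) (fderiv ℝ (L x) y) y :=
  ((h.L_smooth_right x).differentiable (by simp) y).hasFDerivAt

lemma hasFDerivAt_e (h : Simple g e L) (x v : E) : HasFDerivAt (e x) (fderiv ℝ (e x) v) v :=
  ((h.e_smooth_right x).differentiable (by simp) v).hasFDerivAt

/-- the derivative of `exp_x⁻¹` at `x` is the identity -/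
lemma D_id (h : Simple g e L) {x : E} (hx : x ∈ closedBall (0 : E) 1) (w : E) :
    fderiv ℝ (L x) x w = w := by
  have h0 : ∀ y ∈ closedBall (0 : E) 1, fderiv ℝ (e x) 0 (L x y) = L x y := by
    intro y hy
    obtain ⟨γ, u, hγ, h0, hu, h1⟩ := h.exists_geod hx hy
    have := h.vel_eq hγ zero_mem01
    rw [h0, hu, zero_smul] at this
    exact this.symm
  have h1 : ∀ w, fderiv ℝ (e x) 0 (fderiv ℝ (L x) x w) = w := by
    intro w
    have := h.D_comp hx hx
    rw [h.L_self hx] at this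
    exact congrArg (fun f : E →L[ℝ] E => f w) this
  have h2 : ∀ w : E, (∃ ε : ℝ, 0 < ε ∧ ∀ s ∈ Icc (0 : ℝ) ε, x + s • w ∈ closedBall (0 : E) 1) →
      fderiv ℝ (L x) x w = w := by
    rintro w ⟨ε, hε, hw⟩
    have hc : HasDerivAt (fun s : ℝ => x + s • w) w 0 := by
      simpa using ((hasDerivAt_id (0 : ℝ)).smul_const w).const_add x
    have hv : HasDerivAt (fun s : ℝ => L x (x + s • w)) (fderiv ℝ (L x) x w) 0 :=
      HasFDerivAt.comp_hasDerivAt_of_eq (f := fun s : ℝ => x + s • w) (l := L x) (0 : ℝ)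
        (h.hasFDerivAt_L x x) hc (by simp)
    have hv2 : HasDerivAt (fun s : ℝ => fderiv ℝ (e x) 0 (L x (x + s • w)))
        (fderiv ℝ (e x) 0 (fderiv ℝ (L x) x w)) 0 :=
      (fderiv ℝ (e x) 0).hasFDerivAt.comp_hasDerivAt (0 : ℝ) hv
    have h3 := deriv_eq_zero_of_right (hv2.sub hv) hε (fun s hs => by
      simp only [Pi.sub_apply]
      rw [h0 _ (hw s hs), sub_self])
    rw [h1] at h3
    exact (sub_eq_zero.1 h3).symm
  obtain ⟨w1, w2, hw, k1, k2⟩ := exists_decomp hx w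
  rw [hw, map_sub, h2 w1 k1, h2 w2 k2]

/-- the unit covector at `p` of the geodesic from `p` to `x` -/
def dir (g : E → E →L[ℝ] E →L[ℝ] ℝ) (L : E → E → E) (p x : E) : E →L[ℝ] ℝ :=
  (rho g L p x)⁻¹ • g p (L p x)

lemma hasFDerivAt_rho_proj (h : Simple g e L) {x y : E} (hx : x ∈ closedBall (0 : E) 1)
    (hy : y ≠ 0) (hxy : x ≠ proj y) :
    HasFDerivAt (fun y => rho g L x (proj y)) (-(dir g L (proj y) x).comp (Dproj y)) y := by
  have hM := mem_of_sphere (proj_mem hy)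
  have h1 := (h.hasFDerivAt_rho hx hM hxy).comp y (hasFDerivAt_proj hy)
  refine HasFDerivAt.congr_fderiv (f := fun y => rho g L x (proj y)) h1 ?_
  ext w
  simp only [dir, ContinuousLinearMap.comp_apply, smul_apply, neg_apply, smul_eq_mul]
  rw [h.rho_symm hx hM]
  ring

lemma dir_pt (h : Simple g e L) {p q : E} (hp : p ∈ closedBall (0 : E) 1)
    (hq : q ∈ closedBall (0 : E) 1) {t : ℝ} (ht : t ∈ Ioc (0 : ℝ) 1) :
    dir g L p (e p (t • L p q)) = dir g L p q := by
  have ht' := Ioc_subset_Icc_self ht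
  have h0 : t ≠ 0 := ht.1.ne'
  rw [dir, dir, h.rho_pt hp hq ht', h.L_pt hp hq ht', map_smul, smul_smul]
  congr 1
  rw [mul_inv, mul_comm t⁻¹, mul_assoc, inv_mul_cancel₀ h0, mul_one]

lemma dir_seg (h : Simple g e L) {p q x : E} (hp : p ∈ closedBall (0 : E) 1)
    (hq : q ∈ closedBall (0 : E) 1) (hx : x ∈ seg g p q) (hxp : x ≠ p) :
    dir g L p x = dir g L p q := by
  obtain ⟨t, ht, rfl⟩ := (h.mem_seg hp hq).1 hx
  have h0 : t ≠ 0 := by
    rintro rfl
    rw [zero_smul, h.e_zero hp] at hxp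
    exact hxp rfl
  exact h.dir_pt hp hq ⟨lt_of_le_of_ne ht.1 h0.symm, ht.2⟩

lemma left_mem_seg (h : Simple g e L) {p q : E} (hp : p ∈ closedBall (0 : E) 1)
    (hq : q ∈ closedBall (0 : E) 1) : p ∈ seg g p q :=
  (h.mem_seg hp hq).2 ⟨0, zero_mem01, by rw [zero_smul, h.e_zero hp]⟩

lemma rho_add (h : Simple g e L) {p q x : E} (hp : p ∈ closedBall (0 : E) 1)
    (hq : q ∈ closedBall (0 : E) 1) (hx : x ∈ seg g p q) :
    rho g L x p + rho g L x q = rho g L p q := by
  have hxM := seg_subset hx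
  obtain ⟨t, ht, rfl⟩ := (h.mem_seg hp hq).1 hx
  rw [h.rho_symm hxM hp, h.rho_symm hxM hq, h.rho_pt hp hq ht, h.rho_pt' hp hq ht]
  ring

lemma seg_interior (h : Simple g e L) {p q x : E} (hp : p ∈ closedBall (0 : E) 1)
    (hq : q ∈ closedBall (0 : E) 1) (hx : x ∈ seg g p q) (hxp : x ≠ p) (hxq : x ≠ q)  :
    ‖x‖ < 1 := by
  have hxM := seg_subset hx
  obtain ⟨t, ht, rfl⟩ := (h.mem_seg hp hq).1 hx
  have hpq : p ≠ q := by
    rintro rfl
    rw [h.L_self hp, smul_zero, h.e_zero hp] at hxp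
    exact hxp rfl
  refine h.pt_interior hp hq hpq ⟨lt_of_le_of_ne ht.1 ?_, lt_of_le_of_ne ht.2 ?_⟩
  · rintro rfl
    rw [zero_smul, h.e_zero hp] at hxp
    exact hxp rfl
  · rintro rfl
    rw [one_smul, h.e_L hp hq] at hxq
    exact hxq rfl

/-- B1: the tangential parts of the initial directions agree -/
lemma dir_tan (h : Simple g e L) (h' : Simple g' e' L')
    (hd : ∀ p ∈ sphere (0 : E) 1, ∀ q ∈ sphere (0 : E) 1, rho g L p q = rho g' L' p q)
    {p q : E} (hp : p ∈ sphere (0 : E) 1) (hq : q ∈ sphere (0 : E) 1) (hpq : p ≠ q) {η : E}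
    (hη : inner ℝ p η = 0) : dir g L p q η = dir g' L' p q η := by
  have hp0 := ne_zero_of_mem_sphere' hp
  have hpp := proj_of_mem hp
  have h1 := h.hasFDerivAt_rho_proj (mem_of_sphere hq) hp0 (by rw [hpp]; exact hpq.symm)
  have h2 := h'.hasFDerivAt_rho_proj (mem_of_sphere hq) hp0 (by rw [hpp]; exact hpq.symm)
  have h3 : (fun y => rho g L q (proj y)) =ᶠ[𝓝 p] fun y => rho g' L' q (proj y) := by
    filter_upwards [isOpen_compl_singleton.mem_nhds (show p ∈ ({0}ᶜ : Set E) from hp0)] with y hy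
    exact hd q hq _ (proj_mem hy)
  have h4 := h1.unique (h2.congr_of_eventuallyEq h3)
  have h5 := congrArg (fun f : E →L[ℝ] ℝ => f η) h4
  simp only [neg_apply, ContinuousLinearMap.comp_apply, Dproj_apply hp hη, hpp] at h5
  linarith

/-- B2 -/
lemma dir_tan_seg (h : Simple g e L) (h' : Simple g' e' L')
    (hd : ∀ p ∈ sphere (0 : E) 1, ∀ q ∈ sphere (0 : E) 1, rho g L p q = rho g' L' p q)
    {p q x x' : E} (hp : p ∈ sphere (0 : E) 1) (hq : q ∈ sphere (0 : E) 1) (hpq : p ≠ q)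
    (hx : x ∈ seg g p q) (hx' : x' ∈ seg g' p q) (hxp : x ≠ p) (hxp' : x' ≠ p) {η : E}
    (hη : inner ℝ p η = 0) : dir g L p x η = dir g' L' p x' η := by
  rw [h.dir_seg (mem_of_sphere hp) (mem_of_sphere hq) hx hxp,
    h'.dir_seg (mem_of_sphere hp) (mem_of_sphere hq) hx' hxp', h.dir_tan h' hd hp hq hpq hη]

variable [FiniteDimensional ℝ E]

/-- the second end point of the geodesic through `x` which starts in `p` -/
lemma exists_exit (h : Simple g e L) {p x : E} (hp : p ∈ sphere (0 : E) 1) (hx : ‖x‖ < 1) :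
    ∃ q ∈ sphere (0 : E) 1, p ≠ q ∧ x ∈ seg g p q := by
  obtain ⟨q, hq, t, ht, hx1, hx2⟩ := h.exit_seg (mem_of_sphere hp) hx (ne_of_sphere hx hp).symm
  refine ⟨q, hq, ?_, (h.mem_seg (mem_of_sphere hp) (mem_of_sphere hq)).2
    ⟨t, Ioo_subset_Icc_self ht, hx1⟩⟩
  rintro rfl
  rw [h.L_self (mem_of_sphere hp), smul_zero, h.e_zero (mem_of_sphere hp)] at hx1
  exact ne_of_sphere hx hp hx1

omit [FiniteDimensional ℝ E] in
/-- uniqueness of the second end point -/
lemma exit_uniq (h : Simple g e L) {p q q' x : E} (hp : p ∈ sphere (0 : E) 1)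
    (hq : q ∈ sphere (0 : E) 1) (hq' : q' ∈ sphere (0 : E) 1) (hx : x ≠ p)
    (h1 : x ∈ seg g p q) (h2 : x ∈ seg g p q') : q = q' := by
  have hpM := mem_of_sphere hp
  have hqM := mem_of_sphere hq
  have hqM' := mem_of_sphere hq'
  obtain ⟨t, ht, hx1⟩ := (h.mem_seg hpM hqM).1 h1
  obtain ⟨s, hs, hx2⟩ := (h.mem_seg hpM hqM').1 h2
  have e1 := h.L_pt hpM hqM ht
  have e2 := h.L_pt hpM hqM' hs
  rw [← hx1] at e1
  rw [← hx2] at e2
  have hpq : p ≠ q := by
    rintro rfl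
    rw [h.L_self hpM, smul_zero, h.e_zero hpM] at hx1
    exact hx hx1
  have hpq' : p ≠ q' := by
    rintro rfl
    rw [h.L_self hpM, smul_zero, h.e_zero hpM] at hx2
    exact hx hx2
  have ht0 : 0 < t := by
    refine lt_of_le_of_ne ht.1 ?_
    rintro rfl
    rw [zero_smul, h.e_zero hpM] at hx1
    exact hx hx1
  have hs0 : 0 < s := by
    refine lt_of_le_of_ne hs.1 ?_
    rintro rfl
    rw [zero_smul, h.e_zero hpM] at hx2
    exact hx hx2
  refine h.exit_unique hpM hq' hq hpq' hpq (s := t⁻¹ * s) (by positivity) ?_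
  rw [← smul_smul, ← e2, e1, smul_smul, inv_mul_cancel₀ ht0.ne', one_smul]

end Simple

end Pool.Agent.W5h72.BR
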