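import Pool.Agent.W5h72.BR.Horiz2

/-!
# Variation of the point
-/

open Set Metric Filter Topology
open scoped ContDiff RealInnerProductSpace

noncomputable section

set_option maxSynthPendingDepth 3

namespace Pool.Agent.W5h72.BR

variable {E : Type*} [NormedAddCommGroup E] [InnerProductSpace ℝ E] [FiniteDimensional ℝ E]

/-- the parameter of the crossing point of the orthogonal geodesics -/
def Zf (g g' : E → E →L[ℝ] E →L[ℝ] ℝ) (L L' : E → E → E) (b x : E) : ℝ :=
  rt g g' L L' b (x, ext L x (Classical.epsilon fun v => v ≠ 0 ∧ g x v (L x b) = 0))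

/-- a horizontal field -/
def hor (g : E → E →L[ℝ] E →L[ℝ] ℝ) (L : E → E → E) (b e0 x : E) : E :=
  e0 - (g x e0 (L x b) / g x (L x b) (L x b)) • L x b

namespace Src

variable {g g' : E → E →L[ℝ] E →L[ℝ] ℝ} {e L e' L' : E → E → E} {b : E} {A A' : E →L[ℝ] E}

omit [FiniteDimensional ℝ E] in
lemma Lb_ne (S : Src g g' e L e' L' b A A') {x : E} (hx : ‖x‖ < 1) : L x b ≠ 0 := fun h0 =>
  ne_of_sphere hx S.hb ((S.h.L_eq_zero (mem_of_norm_lt hx) (mem_of_sphere S.hb)).1 h0)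

lemma Zf_eq (S : Src g g' e L e' L' b A A') (hn : 2 < Module.finrank ℝ E) {x e0 : E}
    (hx : ‖x‖ < 1) (h0b : g x e0 (L x b) = 0) (he0 : e0 ≠ 0) :
    Zf g g' L L' b x = rt g g' L L' b (x, ext L x e0) := by
  have h1 : (Classical.epsilon fun v => v ≠ 0 ∧ g x v (L x b) = 0) ≠ 0 ∧
      g x (Classical.epsilon fun v => v ≠ 0 ∧ g x v (L x b) = 0) (L x b) = 0 :=
    Classical.epsilon_spec (p := fun v => v ≠ 0 ∧ g x v (L x b) = 0) ⟨e0, he0, h0b⟩
  exact S.indep hn hx h0b h1.2 he0 h1.1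

omit [FiniteDimensional ℝ E] in
lemma hor_spec (S : Src g g' e L e' L' b A A') {x e0 : E} (hx : ‖x‖ < 1)
    (h0b : g x e0 (L x b) = 0) (he0 : e0 ≠ 0) :
    hor g L b e0 x = e0 ∧ ContDiffAt ℝ ∞ (hor g L b e0) x ∧
    ∀ᶠ y in 𝓝 x, g y (hor g L b e0 y) (L y b) = 0 ∧ hor g L b e0 y ≠ 0 := by
  have hxM := mem_of_norm_lt hx
  have h0 : hor g L b e0 x = e0 := by rw [hor, h0b, zero_div, zero_smul, sub_zero]
  have hLc : ContDiff ℝ ∞ (fun y => L y b) := by
    have h2 : ContDiff ℝ ∞ (fun y : E => (y, b)) := contDiff_id.prodMk contDiff_const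
    exact S.h.L_smooth.comp h2
  have hpos := S.h.pos x hxM _ (S.Lb_ne hx)
  have hc : ContDiffAt ℝ ∞ (hor g L b e0) x := by
    have h1 : ContDiff ℝ ∞ (fun y => g y e0 (L y b)) :=
      (S.h.smooth.clm_apply contDiff_const).clm_apply hLc
    have h2 : ContDiff ℝ ∞ (fun y => g y (L y b) (L y b)) :=
      (S.h.smooth.clm_apply hLc).clm_apply hLc
    exact contDiffAt_const.sub ((h1.contDiffAt.div h2.contDiffAt hpos.ne').smul hLc.contDiffAt)
  refine ⟨h0, hc, ?_⟩
  have c1 : ∀ᶠ y in 𝓝 x, ‖y‖ < 1 := continuous_norm.continuousAt.eventually_lt_const hx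
  have c2 : ∀ᶠ y in 𝓝 x, hor g L b e0 y ≠ 0 :=
    hc.continuousAt.eventually_ne (by rw [h0]; exact he0)
  filter_upwards [c1, c2] with y hy1 hy2
  refine ⟨?_, hy2⟩
  have h3 := (S.h.pos y (mem_of_norm_lt hy1) _ (S.Lb_ne hy1)).ne'
  rw [hor, map_sub, sub_apply, map_smul, smul_apply, smul_eq_mul, div_mul_cancel₀ _ h3, sub_self]

lemma rt_mul (S : Src g g' e L e' L' b A A') {x z : E} (hx : ‖x‖ < 1) (hz : z ≠ 0) :
    rho g' L' b (Yf g g' L e' L' b A (x, z)) = rt g g' L L' b (x, z) * rho g L b x := by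
  have hr := S.h.rho_pos (mem_of_sphere S.hb) (mem_of_norm_lt hx) (ne_of_sphere hx S.hb).symm
  rw [(S.gam hx hz).2.2, rt, div_mul_cancel₀ _ hr.ne']

/-- variation of the point -/
lemma vary (S : Src g g' e L e' L' b A A') (hn : 2 < Module.finrank ℝ E) {x e0 : E}
    (hx : ‖x‖ < 1) (h0b : g x e0 (L x b) = 0) (he0 : e0 ≠ 0) {w Y : E} (hw : w = ext L x e0)
    (hY : Y = Yf g g' L e' L' b A (x, w)) :
    rho g L x w = rho g' L' Y w ∧
    (∀ δ, g x (L x w) δ = g' Y (L' Y w) (fderiv ℝ (Yf g g' L e' L' b A) (x, w) (δ, 0))) ∧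
    g' Y (L' Y w) (L' Y b) = 0 ∧
    fderiv ℝ (rt g g' L L' b) (x, w) (e0, 0) = 0 ∧
    (∃ D : E →L[ℝ] ℝ, HasFDerivAt (Zf g g' L L' b) D x ∧
      ∀ δ, D δ = fderiv ℝ (rt g g' L L' b) (x, w) (δ, 0)) ∧
    ∃ c : ℝ, fderiv ℝ (Yf g g' L e' L' b A) (x, w) (L x w, 0) = c • L' Y w := by
  obtain ⟨hDom, hF0, hflat⟩ := S.flat hn hx h0b he0
  rw [← hw] at hDom hF0 hflat
  obtain ⟨hYb, hr, hrA, -, hDY⟩ := S.point hx hDom
  have hvel := S.Pt_vel hx hDom
  have hcone := (S.cone hx hDom).1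
  have hrad := S.Yf_radial hx hDom
  have hYd := (S.Yf_deriv hx hDom).2
  have hYs := (S.Yf_deriv hx hDom).1
  have hmain := S.main_id hx hDom
  rw [FF_val _ _ hDom.1] at hF0
  rw [← hY] at hYb hrA hvel hrad hYd hmain hDY hF0
  have hxM := mem_of_norm_lt hx
  have hYM := mem_of_norm_lt hYb
  have hbM := mem_of_sphere S.hb
  have hwS := hDom.1
  have hwM := mem_of_sphere hwS
  have hw0 := ne_zero_of_mem_sphere' hwS
  obtain ⟨s, hs, hLw⟩ := (S.h.ext_spec hx he0).2
  rw [← hw] at hLw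
  have hxw := ne_of_sphere hx hwS
  have hYw := ne_of_sphere hYb hwS
  have hrxw := S.h.rho_pos hxM hwM hxw
  have hrYw := S.h'.rho_pos hYM hwM hYw
  have hF : rho g L x w = rho g' L' Y w := by linarith
  -- the derivative of `Yf` does not depend on the direction in the second variable
  have hsplit : ∀ δ ζ, fderiv ℝ (rt g g' L L' b) (x, w) (δ, ζ) =
      fderiv ℝ (rt g g' L L' b) (x, w) (δ, 0) := by
    intro δ ζ
    have k1 : (δ, ζ) = (δ, (0 : E)) + (0, ζ) := by simp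
    rw [k1, map_add, hflat, add_zero]
  have hYsplit : ∀ δ ζ, fderiv ℝ (Yf g g' L e' L' b A) (x, w) (δ, ζ) =
      fderiv ℝ (Yf g g' L e' L' b A) (x, w) (δ, 0) := by
    intro δ ζ
    rw [hYd, hYd, hsplit]
  -- the field of exit points
  obtain ⟨hh0, hhc, hhev⟩ := S.hor_spec hx h0b he0
  have hWc : ContDiffAt ℝ ∞ (fun y => ext L y (hor g L b e0 y)) x := by
    have h1 : ContDiffAt ℝ ∞ (fun u : E × E => ext L u.1 u.2) (x, hor g L b e0 x) := by
      rw [hh0]; exact S.h.ext_smooth hx he0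
    exact ContDiffAt.comp x (f := fun y => (y, hor g L b e0 y))
      (g := fun u : E × E => ext L u.1 u.2) h1 (contDiffAt_id.prodMk hhc)
  have hWd : HasFDerivAt (fun y => ext L y (hor g L b e0 y))
      (fderiv ℝ (fun y => ext L y (hor g L b e0 y)) x) x :=
    (hWc.differentiableAt (by simp)).hasFDerivAt
  set DW := fderiv ℝ (fun y => ext L y (hor g L b e0 y)) x with hDW
  have hWx : (x, ext L x (hor g L b e0 x)) = (x, w) := by rw [hh0, hw]
  have hpair : HasFDerivAt (fun y => (y, ext L y (hor g L b e0 y)))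
      ((ContinuousLinearMap.id ℝ E).prod DW) x := (hasFDerivAt_id x).prodMk hWd
  have c1 : ∀ᶠ y in 𝓝 x, ‖y‖ < 1 := continuous_norm.continuousAt.eventually_lt_const hx
  -- first: the difference of distances
  obtain ⟨D, hDF, hDv⟩ := S.FF_deriv hx hDom
  rw [← hY] at hDv
  have hH3 : ∀ δ, g x (L x w) δ =
      g' Y (L' Y w) (fderiv ℝ (Yf g g' L e' L' b A) (x, w) (δ, 0)) := by
    intro δ
    have k1 : HasFDerivAt (fun y => FF g g' L e' L' b A (y, ext L y (hor g L b e0 y)))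
        (D.comp ((ContinuousLinearMap.id ℝ E).prod DW)) x := by
      have k2 : HasFDerivAt (FF g g' L e' L' b A) D (x, ext L x (hor g L b e0 x)) := by
        rw [hWx]; exact hDF
      exact HasFDerivAt.comp x (f := fun y => (y, ext L y (hor g L b e0 y)))
        (g := FF g g' L e' L' b A) k2 hpair
    have k2 : (fun y => FF g g' L e' L' b A (y, ext L y (hor g L b e0 y))) =ᶠ[𝓝 x]
        fun _ => 0 := by
      filter_upwards [c1, hhev] with y hy1 hy2
      exact (S.flat hn hy1 hy2.1 hy2.2).2.1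
    have k3 := congrArg (fun f : E →L[ℝ] ℝ => f δ)
      (k1.unique ((hasFDerivAt_const (0 : ℝ) x).congr_of_eventuallyEq k2))
    have k4 : D (δ, DW δ) = 0 := k3
    rw [hDv, hYsplit, S.h.fderiv_RR_left hx hwS, S.h'.fderiv_RR_left hYb hwS, ← hF] at k4
    have k5 : (rho g L x w)⁻¹ * (g x (L x w) δ) = (rho g L x w)⁻¹ *
        (g' Y (L' Y w) (fderiv ℝ (Yf g g' L e' L' b A) (x, w) (δ, 0))) := by linarith
    exact mul_left_cancel₀ (inv_ne_zero hrxw.ne') k5
  -- orthogonality for `g'`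
  have hperp : g' Y (L' Y w) (L' Y b) = 0 := by
    have k1 := hH3 (-L x b)
    rw [hrad, hvel, hLw, map_smul, smul_apply, map_neg, h0b, neg_zero, smul_zero, map_smul,
      map_neg, map_smul, smul_eq_mul, smul_eq_mul] at k1
    rcases mul_eq_zero.1 k1.symm with k | k
    · exact absurd k hcone
    · rcases mul_eq_zero.1 (neg_eq_zero.1 k) with k | k
      · exact absurd k (inv_ne_zero hr.ne')
      · exact k
  -- movement along the geodesic
  obtain ⟨c, hc⟩ : ∃ c : ℝ, fderiv ℝ (Yf g g' L e' L' b A) (x, w) (L x w, 0) = c • L' Y w := by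
    refine S.h'.mixed_kernel hYb hwS fun ζ => ?_
    rw [hmain (L x w) 0 ζ]
    exact S.h.mixed_radial hx hwS ζ
  have hrt : fderiv ℝ (rt g g' L L' b) (x, w) (L x w, 0) = 0 := by
    have hbY : b ≠ Y := (ne_of_sphere hYb S.hb).symm
    have hbx : b ≠ x := (ne_of_sphere hx S.hb).symm
    have hrx := S.h.rho_pos hbM hxM hbx
    have d1 : HasFDerivAt (Yf g g' L e' L' b A) (fderiv ℝ (Yf g g' L e' L' b A) (x, w)) (x, w) :=
      (hYs.differentiableAt (by simp)).hasFDerivAt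
    have d2 : HasFDerivAt (fun u => rho g' L' b (Yf g g' L e' L' b A u))
        ((-(rho g' L' b Y)⁻¹ • g' Y (L' Y b)).comp
          (fderiv ℝ (Yf g g' L e' L' b A) (x, w))) (x, w) := by
      have k1 : HasFDerivAt (rho g' L' b) (-(rho g' L' b Y)⁻¹ • g' Y (L' Y b))
          (Yf g g' L e' L' b A (x, w)) := by
        rw [← hY]; exact S.h'.hasFDerivAt_rho hbM hYM hbY
      exact HasFDerivAt.comp (x, w) (f := Yf g g' L e' L' b A) (g := rho g' L' b) k1 d1
    have d3 : HasFDerivAt (rt g g' L L' b) (fderiv ℝ (rt g g' L L' b) (x, w)) (x, w) :=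
      ((S.rt_smooth hx hDom).differentiableAt (by simp)).hasFDerivAt
    have d4 : HasFDerivAt (fun u : E × E => rho g L b u.1)
        ((-(rho g L b x)⁻¹ • g x (L x b)).comp (ContinuousLinearMap.fst ℝ E E)) (x, w) :=
      HasFDerivAt.comp (x, w) (f := fun u : E × E => u.1) (g := rho g L b)
        (S.h.hasFDerivAt_rho hbM hxM hbx) hasFDerivAt_fst
    have d5 := d3.mul d4
    have c2 : ∀ᶠ u in 𝓝 (x, w), ‖u.1‖ < 1 :=
      (continuous_fst.norm.continuousAt (x := ((x, w) : E × E))).eventually_lt_const hx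
    have c3 : ∀ᶠ u in 𝓝 (x, w), u.2 ≠ 0 :=
      (continuous_snd.continuousAt (x := ((x, w) : E × E))).eventually_ne hw0
    have hev : (fun u => rho g' L' b (Yf g g' L e' L' b A u)) =ᶠ[𝓝 (x, w)]
        rt g g' L L' b * fun u : E × E => rho g L b u.1 := by
      filter_upwards [c2, c3] with u hu1 hu2
      exact S.rt_mul hu1 hu2
    have k1 := congrArg (fun f : E × E →L[ℝ] ℝ => f (L x w, 0))
      (d2.unique (d5.congr_of_eventuallyEq hev))
    simp only [ContinuousLinearMap.comp_apply, add_apply, smul_apply, smul_eq_mul] at k1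
    have k2 : (ContinuousLinearMap.fst ℝ E E) (L x w, (0 : E)) = L x w := rfl
    rw [hc, map_smul, S.h'.symm Y hYM (L' Y b) (L' Y w), hperp, smul_zero, mul_zero, k2,
      S.h.symm x hxM (L x b) (L x w)] at k1
    have k3 : g x (L x w) (L x b) = 0 := by
      rw [hLw, map_smul, smul_apply, h0b, smul_zero]
    rw [k3, mul_zero, mul_zero, zero_add] at k1
    rcases mul_eq_zero.1 k1.symm with k | k
    · exact absurd k hrx.ne'
    · exact k
  refine ⟨hF, hH3, hperp, ?_, ?_, c, hc⟩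
  · have k1 : (L x w, (0 : E)) = s • (e0, (0 : E)) := by rw [hLw]; simp
    rw [k1, map_smul] at hrt
    rcases smul_eq_zero.1 hrt with k | k
    · exact absurd k hs.ne'
    · exact k
  · have d3 : HasFDerivAt (rt g g' L L' b) (fderiv ℝ (rt g g' L L' b) (x, w))
        (x, ext L x (hor g L b e0 x)) := by
      rw [hWx]
      exact ((S.rt_smooth hx hDom).differentiableAt (by simp)).hasFDerivAt
    have k1 : HasFDerivAt (fun y => rt g g' L L' b (y, ext L y (hor g L b e0 y)))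
        ((fderiv ℝ (rt g g' L L' b) (x, w)).comp ((ContinuousLinearMap.id ℝ E).prod DW)) x :=
      HasFDerivAt.comp x (f := fun y => (y, ext L y (hor g L b e0 y)))
        (g := rt g g' L L' b) d3 hpair
    have k2 : Zf g g' L L' b =ᶠ[𝓝 x]
        fun y => rt g g' L L' b (y, ext L y (hor g L b e0 y)) := by
      filter_upwards [c1, hhev] with y hy1 hy2
      exact S.Zf_eq hn hy1 hy2.1 hy2.2
    exact ⟨_, k1.congr_of_eventuallyEq k2, fun δ => hsplit δ (DW δ)⟩

/-- the common parameter is stationary in the directions orthogonal to the geodesic from the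
source -/
lemma Zf_deriv (S : Src g g' e L e' L' b A A') (hn : 2 < Module.finrank ℝ E) {x : E}
    (hx : ‖x‖ < 1) : ∃ D : E →L[ℝ] ℝ, HasFDerivAt (Zf g g' L L' b) D x ∧
      ∀ δ, g x δ (L x b) = 0 → D δ = 0 := by
  have hxM := mem_of_norm_lt hx
  obtain ⟨e0, h0b, -, he0⟩ := exists_perp hn (S.h.symm x hxM) (S.h.pos x hxM) (L x b) 0 one_pos
  have he00 : e0 ≠ 0 := by rintro rfl; simp at he0
  obtain ⟨-, -, -, -, ⟨D, hD, -⟩, -⟩ := S.vary hn hx h0b he00 rfl rfl
  refine ⟨D, hD, fun δ hδ => ?_⟩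
  by_cases hδ0 : δ = 0
  · rw [hδ0, map_zero]
  · obtain ⟨-, -, -, k1, ⟨D2, hD2, k2⟩, -⟩ := S.vary hn hx hδ hδ0 rfl rfl
    rw [hD.unique hD2, k2, k1]

end Src

end Pool.Agent.W5h72.BR
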